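import Pool.Agent.H794.KM.Spec

/-!
# APO: positivity and the upper bound of `A`
-/

namespace Pool.Agent.H794.KM

open MeasureTheory Set Filter Topology
open scoped ComplexOrder

namespace APOL

/-- the right-hand side -/
noncomputable def L (z : ℂ) : ℝ := 1 + |Real.log ‖z‖| + |Real.log ‖z - 1‖|

/-- the bound with constant `C` at `z` -/
def P (C : ℝ) (z : ℂ) : Prop := Ag z * (1 + ‖z‖) ≤ C * L z

theorem L_pos (z : ℂ) : 0 < L z := by
  unfold L
  have := abs_nonneg (Real.log ‖z‖)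
  have := abs_nonneg (Real.log ‖z - 1‖)
  linarith

theorem P_mono {C D : ℝ} (h : C ≤ D) {z : ℂ} (hz : P C z) : P D z :=
  hz.trans (mul_le_mul_of_nonneg_right h (L_pos z).le)

theorem mem_one_sub {z : ℂ} (hz : z ∈ M) : 1 - z ∈ M := by
  refine ⟨fun h => hz.2 ?_, fun h => hz.1 ?_⟩
  · exact (sub_eq_zero.mp h).symm
  · linear_combination -h

theorem mem_inv {z : ℂ} (hz : z ∈ M) : z⁻¹ ∈ M :=
  ⟨inv_ne_zero hz.1, fun h => hz.2 (by rw [← inv_inv z, h, inv_one])⟩

theorem L_one_sub (z : ℂ) : L (1 - z) = L z := by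
  unfold L
  rw [show (1 - z : ℂ) - 1 = -z by ring, norm_neg, norm_sub_rev 1 z]
  ring

theorem L_inv {z : ℂ} (hz : z ∈ M) : L z⁻¹ ≤ 2 * L z := by
  have h0 : ‖z‖ ≠ 0 := norm_ne_zero_iff.mpr hz.1
  have h1 : ‖z - 1‖ ≠ 0 := norm_ne_zero_iff.mpr (sub_ne_zero.mpr hz.2)
  have e : z⁻¹ - 1 = -(z - 1) / z := by
    field_simp [hz.1]
    ring
  have e2 : ‖z⁻¹ - 1‖ = ‖z - 1‖ / ‖z‖ := by rw [e, norm_div, norm_neg]
  unfold L
  rw [e2, norm_inv, Real.log_inv, abs_neg, Real.log_div h1 h0]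
  have h2 : |Real.log ‖z - 1‖ - Real.log ‖z‖| ≤ |Real.log ‖z - 1‖| + |Real.log ‖z‖| := abs_sub _ _
  have h3 := abs_nonneg (Real.log ‖z‖)
  have h4 := abs_nonneg (Real.log ‖z - 1‖)
  linarith

theorem re_inv_pos {z : ℂ} (h : 1 ≤ z.re) (hz : z ≠ 1) : 0 < (z⁻¹).re ∧ (z⁻¹).re < 1 := by
  have hn : Complex.normSq z = z.re * z.re + z.im * z.im := Complex.normSq_apply z
  have hp : 0 < Complex.normSq z := by
    rw [hn]; nlinarith [mul_self_nonneg z.im]
  rw [Complex.inv_re]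
  refine ⟨div_pos (by linarith) hp, ?_⟩
  rw [div_lt_one hp, hn]
  rcases eq_or_ne z.im 0 with him | him
  · have : z.re ≠ 1 := fun h' => hz (Complex.ext (by simpa using h') (by simpa using him))
    have : 1 < z.re := lt_of_le_of_ne h (Ne.symm this)
    nlinarith [mul_self_nonneg z.im]
  · have : 0 < z.im * z.im := mul_self_pos.mpr him
    nlinarith

theorem pos (h : ∀ z : ℂ, 0 < z.re → z.re < 1 → 0 < A1 z) {z : ℂ} (hz : z ∈ M) : 0 < Ag z := by
  unfold Ag
  split_ifs with h1 h2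
  · have hne : (1 - z : ℂ) ≠ 1 := fun e => hz.1 (by linear_combination -e)
    have hre : 1 ≤ (1 - z : ℂ).re := by simp; linarith
    obtain ⟨a, b⟩ := re_inv_pos hre hne
    have : 0 < ‖1 - z‖ := norm_pos_iff.mpr (sub_ne_zero.mpr (Ne.symm hz.2))
    exact mul_pos (inv_pos.mpr this) (h _ a b)
  · exact h z (by linarith) h2
  · obtain ⟨a, b⟩ := re_inv_pos (by linarith) hz.2
    exact mul_pos (inv_pos.mpr (norm_pos_iff.mpr hz.1)) (h _ a b)

theorem P_one_sub (hA : S_ASY) {C : ℝ} {z : ℂ} (hz : z ∈ M) (hp : 0 < Ag z) (h : P C (1 - z)) :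
    P (2 * C) z := by
  unfold P at *
  rw [(hA z hz).1, L_one_sub] at h
  have h1 : ‖z‖ ≤ 1 + ‖1 - z‖ := by
    calc ‖z‖ = ‖1 - (1 - z)‖ := by ring_nf
      _ ≤ ‖(1 : ℂ)‖ + ‖1 - z‖ := norm_sub_le _ _
      _ = 1 + ‖1 - z‖ := by rw [norm_one]
  have h2 : Ag z * (1 + ‖z‖) ≤ 2 * (Ag z * (1 + ‖1 - z‖)) := by
    have : 1 + ‖z‖ ≤ 2 * (1 + ‖1 - z‖) := by nlinarith [norm_nonneg (1 - z)]
    nlinarith
  linarith

theorem P_inv (hA : S_ASY) {C : ℝ} (hC : 0 ≤ C) {z : ℂ} (hz : z ∈ M) (h : P C z⁻¹) :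
    P (2 * C) z := by
  unfold P at *
  have h0 : ‖z‖ ≠ 0 := norm_ne_zero_iff.mpr hz.1
  rw [(hA z hz).2, norm_inv] at h
  have e : ‖z‖ * Ag z * (1 + ‖z‖⁻¹) = Ag z * (1 + ‖z‖) := by
    field_simp
    ring
  rw [e] at h
  have := mul_le_mul_of_nonneg_left (L_inv hz) hC
  linarith

theorem base {C : ℝ}
    (h : ∀ z : ℂ, z ≠ 0 → ‖z - 1‖ ≤ 1 → z.re ≤ 1 / 2 → A1 z ≤ C * (1 + |Real.log ‖z‖|))
    {z : ℂ} (hz : z ∈ M) (h1 : ‖z - 1‖ ≤ 1) (h2 : z.re ≤ 1 / 2) (hp : 0 < Ag z) :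
    P (3 * |C|) z := by
  have hq : Complex.normSq (z - 1) ≤ 1 := by
    rw [Complex.normSq_eq_norm_sq]
    nlinarith [norm_nonneg (z - 1)]
  rw [Complex.normSq_apply] at hq
  simp only [Complex.sub_re, Complex.one_re, Complex.sub_im, Complex.one_im, sub_zero] at hq
  have hx0 : 0 ≤ z.re := by nlinarith [mul_self_nonneg z.im, mul_self_nonneg z.re]
  have hx : 0 < z.re := by
    rcases hx0.eq_or_lt with hx | hx
    · exfalso
      apply hz.1
      have h3 : z.im * z.im ≤ 0 := by rw [← hx] at hq; nlinarith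
      have h4 : z.im = 0 := by nlinarith [mul_self_nonneg z.im]
      exact Complex.ext (by simpa using hx.symm) (by simpa using h4)
    · exact hx
  have hAg : Ag z = A1 z := by
    unfold Ag
    rw [if_neg (by linarith), if_pos (by linarith)]
  have hn : ‖z‖ ≤ 2 := by
    calc ‖z‖ = ‖(z - 1) + 1‖ := by ring_nf
      _ ≤ ‖z - 1‖ + ‖(1 : ℂ)‖ := norm_add_le _ _
      _ ≤ 2 := by rw [norm_one]; linarith
  have h5 := h z hz.1 h1 h2
  rw [← hAg] at h5
  have h6 : C * (1 + |Real.log ‖z‖|) ≤ |C| * L z := by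
    have a1 : C * (1 + |Real.log ‖z‖|) ≤ |C| * (1 + |Real.log ‖z‖|) :=
      mul_le_mul_of_nonneg_right (le_abs_self C) (by positivity)
    have a2 : |C| * (1 + |Real.log ‖z‖|) ≤ |C| * L z :=
      mul_le_mul_of_nonneg_left (by unfold L; linarith [abs_nonneg (Real.log ‖z - 1‖)])
        (abs_nonneg C)
    exact a1.trans a2
  unfold P
  have h7 : Ag z * (1 + ‖z‖) ≤ Ag z * 3 := mul_le_mul_of_nonneg_left (by linarith) hp.le
  linarith

end APOL

open APOL in
theorem t_APO (h1 : S_KRG) (h2 : S_ASY) : S_APO := by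
  obtain ⟨hpos, C, hC⟩ := h1
  have hp : ∀ z ∈ M, 0 < Ag z := fun z hz => APOL.pos hpos hz
  -- the closed disc
  have hdisc : ∀ z ∈ M, ‖z - 1‖ ≤ 1 → P (12 * |C|) z := by
    intro z hz hz1
    rcases le_or_gt z.re (1 / 2) with hre | hre
    · exact P_mono (by nlinarith [abs_nonneg C]) (base hC hz hz1 hre (hp z hz))
    rcases le_or_gt ‖z‖ 1 with hn | hn
    · have hm := mem_one_sub hz
      have a : P (3 * |C|) (1 - z) := by
        refine base hC hm ?_ ?_ (hp _ hm)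
        · rw [show (1 - z : ℂ) - 1 = -z by ring, norm_neg]; exact hn
        · simp only [Complex.sub_re, Complex.one_re]; linarith
      exact P_mono (by nlinarith [abs_nonneg C]) (P_one_sub h2 hz (hp z hz) a)
    · have hm := mem_inv hz
      have hm2 := mem_one_sub hm
      have hq : Complex.normSq (z - 1) ≤ 1 := by
        rw [Complex.normSq_eq_norm_sq]
        nlinarith [norm_nonneg (z - 1)]
      rw [Complex.normSq_apply] at hq
      simp only [Complex.sub_re, Complex.one_re, Complex.sub_im, Complex.one_im, sub_zero] at hq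
      have hns : 0 < Complex.normSq z := Complex.normSq_pos.mpr hz.1
      have a : P (3 * |C|) (1 - z⁻¹) := by
        refine base hC hm2 ?_ ?_ (hp _ hm2)
        · rw [show (1 - z⁻¹ : ℂ) - 1 = -z⁻¹ by ring, norm_neg, norm_inv]
          exact inv_le_one_of_one_le₀ hn.le
        · simp only [Complex.sub_re, Complex.one_re, Complex.inv_re]
          have : 1 / 2 ≤ z.re / Complex.normSq z := by
            rw [div_le_div_iff₀ (by norm_num) hns, Complex.normSq_apply]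
            nlinarith
          linarith
      have b := P_one_sub h2 hm (hp _ hm) a
      have c := P_inv h2 (by positivity) hz b
      exact P_mono (by nlinarith [abs_nonneg C]) c
  refine ⟨96 * |C| + 1, by positivity, fun z hz => ⟨hp z hz, ?_⟩⟩
  change P (96 * |C| + 1) z
  rcases le_or_gt ‖z - 1‖ 1 with hn | hn
  · exact P_mono (by nlinarith [abs_nonneg C]) (hdisc z hz hn)
  · have hm := mem_one_sub hz
    have hm2 := mem_inv hm
    have hm3 := mem_one_sub hm2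
    have a := hdisc _ hm3 (by
      rw [show (1 - (1 - z)⁻¹ : ℂ) - 1 = -(1 - z)⁻¹ by ring, norm_neg, norm_inv]
      rw [norm_sub_rev] at hn
      exact inv_le_one_of_one_le₀ hn.le)
    have b := P_one_sub h2 hm2 (hp _ hm2) a
    have c := P_inv h2 (by positivity) hm b
    have d := P_one_sub h2 hz (hp z hz) c
    exact P_mono (by nlinarith [abs_nonneg C]) d

end Pool.Agent.H794.KM
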