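import Pool.Agent.H794.KM.Spec

/-!
Leaf ARE: local representation of `A` with constant Wronskian.
-/

namespace Pool.Agent.H794.KM

open MeasureTheory Set Filter Topology
open scoped ComplexOrder

namespace AREL

/-- the local representation at a point -/
def Rep (c : ℝ) (z₀ : ℂ) : Prop := ∃ a b : ℂ → ℂ, ∀ᶠ z in 𝓝 z₀,
  DifferentiableAt ℂ a z ∧ DifferentiableAt ℂ b z ∧ Ag z = (a z * (starRingEnd ℂ) (b z)).re ∧
  a z * deriv b z - deriv a z * b z = c / (z * (1 - z))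

theorem hasDerivAt_sub {f : ℂ → ℂ} {z f' : ℂ} (hf : HasDerivAt f f' (1 - z)) :
    HasDerivAt (fun w => f (1 - w)) (-f') z := by
  have h1 : HasDerivAt (fun w : ℂ => 1 - w) (-1) z := by
    simpa using (hasDerivAt_id z).const_sub 1
  have h2 := hf.comp z h1
  simpa [Function.comp_def] using h2

/-- the representation by `K(z)` and `K(1 - z)` -/
theorem rep_K (h1 : S_KHO) {c : ℝ} (hc : ∀ z ∈ Sl, 1 - z ∈ Sl →
    Kf z * (-deriv Kf (1 - z)) - deriv Kf z * Kf (1 - z) = c / (z * (1 - z))) {z : ℂ}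
    (hz : z ∈ Sl) (hz' : 1 - z ∈ Sl) (hA : Ag z = A1 z) :
    DifferentiableAt ℂ Kf z ∧ DifferentiableAt ℂ (fun w => Kf (1 - w)) z ∧
      Ag z = (Kf z * (starRingEnd ℂ) (Kf (1 - z))).re ∧
      Kf z * deriv (fun w => Kf (1 - w)) z - deriv Kf z * Kf (1 - z) = c / (z * (1 - z)) := by
  have hd := hasDerivAt_sub (h1.1 _ hz').hasDerivAt
  refine ⟨h1.1 z hz, hd.differentiableAt, hA, ?_⟩
  rw [hd.deriv]
  exact hc z hz hz'

theorem rep_mid (h1 : S_KHO) {c : ℝ} (hc : ∀ z ∈ Sl, 1 - z ∈ Sl →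
    Kf z * (-deriv Kf (1 - z)) - deriv Kf z * Kf (1 - z) = c / (z * (1 - z))) {z₀ : ℂ}
    (h0 : 0 < z₀.re) (h1' : z₀.re < 1) : Rep c z₀ := by
  refine ⟨Kf, fun w => Kf (1 - w), ?_⟩
  have ho : ∀ᶠ z in 𝓝 z₀, 0 < z.re ∧ z.re < 1 := by
    have e1 : ∀ᶠ z : ℂ in 𝓝 z₀, 0 < z.re :=
      (isOpen_lt continuous_const Complex.continuous_re).mem_nhds h0
    have e2 : ∀ᶠ z : ℂ in 𝓝 z₀, z.re < 1 :=
      (isOpen_lt Complex.continuous_re continuous_const).mem_nhds h1'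
    exact e1.and e2
  filter_upwards [ho] with z hz
  refine rep_K h1 hc (Or.inr hz.2) (Or.inr (by simpa using hz.1)) ?_
  unfold Ag
  rw [if_neg (by linarith [hz.1]), if_pos hz.2]

theorem rep_one (h1 : S_KHO) (h3 : S_KA1) {c : ℝ} (hc : ∀ z ∈ Sl, 1 - z ∈ Sl →
    Kf z * (-deriv Kf (1 - z)) - deriv Kf z * Kf (1 - z) = c / (z * (1 - z))) {z₀ : ℂ}
    (h0 : 0 < z₀.re) (hi : z₀.im ≠ 0) : Rep c z₀ := by
  refine ⟨Kf, fun w => Kf (1 - w), ?_⟩
  have ho : ∀ᶠ z in 𝓝 z₀, 0 < z.re ∧ z.im ≠ 0 := by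
    have e1 : ∀ᶠ z : ℂ in 𝓝 z₀, 0 < z.re :=
      (isOpen_lt continuous_const Complex.continuous_re).mem_nhds h0
    have e2 : ∀ᶠ z : ℂ in 𝓝 z₀, z.im ≠ 0 := Complex.continuous_im.continuousAt.eventually_ne hi
    exact e1.and e2
  filter_upwards [ho] with z hz
  refine rep_K h1 hc (Or.inl hz.2) (Or.inl (by simpa using hz.2)) ?_
  unfold Ag
  rw [if_neg (by linarith [hz.1])]
  split_ifs with hlt
  · rfl
  · have hne : ‖z‖ ≠ 0 := by
      rw [norm_ne_zero_iff]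
      intro h
      rw [h] at hz
      simp at hz
    rw [h3 z hz.2, ← mul_assoc, inv_mul_cancel₀ hne, one_mul]

theorem rep_big (h1 : S_KHO) {c : ℝ} (hc : ∀ z ∈ Sl, 1 - z ∈ Sl →
    Kf z * (-deriv Kf (1 - z)) - deriv Kf z * Kf (1 - z) = c / (z * (1 - z))) {z₀ : ℂ}
    (h0 : 1 < z₀.re) : Rep c z₀ := by
  refine ⟨fun z => z ^ (-(1 / 2) : ℂ) * Kf z⁻¹, fun z => z ^ (-(1 / 2) : ℂ) * Kf (1 - z⁻¹), ?_⟩
  have ho : ∀ᶠ z in 𝓝 z₀, 1 < z.re :=
    (isOpen_lt continuous_const Complex.continuous_re).mem_nhds h0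
  filter_upwards [ho] with z hz
  have hz0 : z ≠ 0 := by
    intro h
    rw [h] at hz
    simp at hz
    linarith
  have hnsq : 0 < Complex.normSq z := Complex.normSq_pos.mpr hz0
  have hge : z.re * z.re ≤ Complex.normSq z := by
    rw [Complex.normSq_apply]
    nlinarith [mul_self_nonneg z.im]
  have hu : z⁻¹ ∈ Sl := by
    right
    rw [Complex.inv_re, div_lt_one hnsq]
    nlinarith
  have hu' : 1 - z⁻¹ ∈ Sl := by
    right
    have : 0 < (z⁻¹).re := by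
      rw [Complex.inv_re]
      positivity
    simpa using this
  have hφ : HasDerivAt (fun w : ℂ => w ^ (-(1 / 2) : ℂ)) (deriv (fun w : ℂ => w ^ (-(1 / 2) : ℂ)) z) z := by
    apply DifferentiableAt.hasDerivAt
    exact (differentiableAt_id).cpow_const (Or.inl (by simpa using (by linarith : (0 : ℝ) < z.re)))
  have hφφ : z ^ (-(1 / 2) : ℂ) * z ^ (-(1 / 2) : ℂ) = z⁻¹ := by
    rw [← Complex.cpow_add _ _ hz0]
    rw [show (-(1 / 2) : ℂ) + -(1 / 2) = -1 by norm_num, Complex.cpow_neg_one]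
  have hinv := hasDerivAt_inv hz0
  have hf : HasDerivAt (fun w : ℂ => Kf w⁻¹) (deriv Kf z⁻¹ * (-(z ^ 2)⁻¹)) z :=
    (h1.1 _ hu).hasDerivAt.comp z hinv
  have hg : HasDerivAt (fun w : ℂ => Kf (1 - w⁻¹)) (deriv Kf (1 - z⁻¹) * (z ^ 2)⁻¹) z := by
    have e1 : HasDerivAt (fun w : ℂ => 1 - w⁻¹) ((z ^ 2)⁻¹) z := by
      simpa using hinv.const_sub 1
    exact (h1.1 _ hu').hasDerivAt.comp z e1
  have ha := hφ.mul hf
  have hb := hφ.mul hg
  have ha' : deriv (fun w : ℂ => w ^ (-(1 / 2) : ℂ) * Kf w⁻¹) z = _ := ha.deriv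
  have hb' : deriv (fun w : ℂ => w ^ (-(1 / 2) : ℂ) * Kf (1 - w⁻¹)) z = _ := hb.deriv
  refine ⟨ha.differentiableAt, hb.differentiableAt, ?_, ?_⟩
  · have hAg : Ag z = ‖z‖⁻¹ * A1 z⁻¹ := by
      unfold Ag
      rw [if_neg (by linarith), if_neg (by linarith)]
    rw [hAg]
    unfold A1
    have hn : ‖z‖⁻¹ = Complex.normSq (z ^ (-(1 / 2) : ℂ)) := by
      rw [← norm_inv, ← hφφ, norm_mul, Complex.normSq_eq_norm_sq, sq]
    have e1 : z ^ (-(1 / 2) : ℂ) * Kf z⁻¹ *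
        (starRingEnd ℂ) (z ^ (-(1 / 2) : ℂ) * Kf (1 - z⁻¹)) =
        ((‖z‖⁻¹ : ℝ) : ℂ) * (Kf z⁻¹ * (starRingEnd ℂ) (Kf (1 - z⁻¹))) := by
      rw [hn, Complex.normSq_eq_conj_mul_self, map_mul]
      ring
    rw [e1, Complex.re_ofReal_mul]
  · rw [ha', hb']
    have hw := hc z⁻¹ hu hu'
    have hz1 : 1 - z ≠ 0 := by
      intro h
      have : (1 - z).re = 0 := by rw [h]; rfl
      simp at this
      linarith
    have hz1' : 1 - z⁻¹ ≠ 0 := by
      intro h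
      apply hz1
      have : z * (1 - z⁻¹) = 0 := by rw [h, mul_zero]
      rw [mul_sub, mul_one, mul_inv_cancel₀ hz0] at this
      linear_combination -this
    have key : (c : ℂ) / (z * (1 - z)) = -(z⁻¹ * (z ^ 2)⁻¹) * (c / (z⁻¹ * (1 - z⁻¹))) := by
      have : z⁻¹ * (1 - z⁻¹) = -(1 - z) * (z ^ 2)⁻¹ := by
        field_simp
        ring
      rw [this]
      field_simp
    rw [key, ← hw, ← hφφ]
    ring

end AREL

open AREL in
theorem t_ARE (h1 : S_KHO) (h2 : S_KWR) (h3 : S_KA1) (h4 : S_ASY) : S_ARE := by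
  obtain ⟨c, hc0, hc⟩ := h2
  refine ⟨c, hc0.ne, ?_⟩
  have hge : ∀ z₀ ∈ M, 1 ≤ z₀.re → Rep c z₀ := by
    intro z₀ hM hz
    rcases hz.eq_or_lt with he | hlt
    · apply rep_one h1 h3 hc (by linarith)
      intro hi
      apply hM.2
      apply Complex.ext
      · simpa using he.symm
      · simpa using hi
    · exact rep_big h1 hc hlt
  intro z₀ hM
  rcases le_or_gt z₀.re 0 with hle | hgt
  · have hM' : 1 - z₀ ∈ M := by
      refine ⟨fun h => hM.2 ?_, fun h => hM.1 ?_⟩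
      · linear_combination -h
      · linear_combination -h
    obtain ⟨a, b, hab⟩ := hge (1 - z₀) hM' (by simpa using hle)
    refine ⟨fun z => b (1 - z), fun z => a (1 - z), ?_⟩
    have ht : Tendsto (fun z : ℂ => 1 - z) (𝓝 z₀) (𝓝 (1 - z₀)) :=
      (continuous_const.sub continuous_id).tendsto z₀
    have hMo : ∀ᶠ z in 𝓝 z₀, z ∈ M := by
      have e1 : ∀ᶠ z : ℂ in 𝓝 z₀, z ≠ 0 := continuousAt_id.eventually_ne hM.1
      have e2 : ∀ᶠ z : ℂ in 𝓝 z₀, z ≠ 1 := continuousAt_id.eventually_ne hM.2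
      exact e1.and e2
    filter_upwards [ht.eventually hab, hMo] with z hz hzM
    obtain ⟨hda, hdb, hA, hW⟩ := hz
    have hda' := hasDerivAt_sub hda.hasDerivAt
    have hdb' := hasDerivAt_sub hdb.hasDerivAt
    refine ⟨hdb'.differentiableAt, hda'.differentiableAt, ?_, ?_⟩
    · rw [← (h4 z hzM).1, hA]
      simp only [Complex.mul_re, Complex.conj_re, Complex.conj_im]
      ring
    · rw [hda'.deriv, hdb'.deriv]
      rw [sub_sub_cancel] at hW
      rw [mul_comm z (1 - z), ← hW]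
      ring
  · rcases lt_or_ge z₀.re 1 with hlt | hge'
    · exact rep_mid h1 hc hgt hlt
    · exact hge z₀ hM hge'

end Pool.Agent.H794.KM
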