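import Pool.Agent.H794.KM.Spec

/-!
Symmetries of the function `A`.
-/

namespace Pool.Agent.H794.KM

namespace ASYL

theorem A1_sub (z : ℂ) : A1 (1 - z) = A1 z := by
  unfold A1
  have h : (1 : ℂ) - (1 - z) = z := by ring
  rw [h]
  simp only [Complex.mul_re, Complex.conj_re, Complex.conj_im]
  ring

theorem norm_ne {z : ℂ} (h : z ≠ 0) : ‖z‖ ≠ 0 := norm_ne_zero_iff.mpr h

/-- off the real axis `A = A₁` -/
theorem Ag_eq (h : S_KA1) {z : ℂ} (hz : z.im ≠ 0) : Ag z = A1 z := by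
  have hz0 : z ≠ 0 := by rintro rfl; exact hz rfl
  have hz1 : (1 - z).im ≠ 0 := by
    rw [Complex.sub_im, Complex.one_im, zero_sub]
    exact neg_ne_zero.mpr hz
  have hz2 : 1 - z ≠ 0 := by
    intro h0
    rw [h0] at hz1
    exact hz1 rfl
  unfold Ag
  split_ifs with h1 h2
  · rw [h _ hz1, A1_sub, ← mul_assoc, inv_mul_cancel₀ (norm_ne hz2), one_mul]
  · rfl
  · rw [h _ hz, ← mul_assoc, inv_mul_cancel₀ (norm_ne hz0), one_mul]

theorem Ag_sub (z : ℂ) : Ag (1 - z) = Ag z := by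
  have h1 : (1 : ℂ) - (1 - z) = z := by ring
  have h2 : (1 - z).re = 1 - z.re := by simp
  unfold Ag
  rw [h1, h2]
  by_cases c1 : z.re ≤ 0
  · rw [if_neg (by linarith), if_neg (by linarith), if_pos c1]
  · by_cases c2 : z.re < 1
    · rw [if_neg (by linarith), if_pos (by linarith), if_neg c1, if_pos c2, A1_sub]
    · rw [if_pos (by linarith), if_neg c1, if_neg c2]

theorem Ag_inv (h : S_KA1) {z : ℂ} (hz : z ∈ M) : Ag z⁻¹ = ‖z‖ * Ag z := by
  obtain ⟨h0, h1⟩ := hz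
  by_cases him : z.im = 0
  · obtain ⟨x, rfl⟩ : ∃ x : ℝ, z = x := ⟨z.re, Complex.ext rfl (by simpa using him)⟩
    have hx0 : x ≠ 0 := by
      rintro rfl
      exact h0 (by simp)
    have hx1 : x ≠ 1 := by
      rintro rfl
      exact h1 (by simp)
    have hre : ((x : ℂ)⁻¹).re = x⁻¹ := by rw [← Complex.ofReal_inv, Complex.ofReal_re]
    unfold Ag
    rw [hre, Complex.ofReal_re]
    rcases lt_trichotomy x 0 with hx | hx | hx
    · have hx2 : x⁻¹ < 0 := inv_lt_zero.mpr hx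
      rw [if_pos hx2.le, if_pos hx.le]
      have hz1 : (x : ℂ) - 1 ≠ 0 := sub_ne_zero.mpr h1
      have hz1' : 1 - (x : ℂ) ≠ 0 := sub_ne_zero.mpr (Ne.symm h1)
      have e1 : (1 - (x : ℂ)⁻¹)⁻¹ = 1 - (1 - (x : ℂ))⁻¹ := by
        have : (1 - (x : ℂ)⁻¹) = ((x : ℂ) - 1) / x := by field_simp
        rw [this, inv_div]
        field_simp
        ring
      have e2 : ‖1 - (x : ℂ)⁻¹‖⁻¹ = ‖(x : ℂ)‖ * ‖1 - (x : ℂ)‖⁻¹ := by
        have : (1 - (x : ℂ)⁻¹) = ((x : ℂ) - 1) / x := by field_simp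
        rw [this, norm_div, inv_div, norm_sub_rev, div_eq_mul_inv]
      rw [e1, e2, A1_sub, mul_assoc]
    · exact absurd hx hx0
    · have hx2 : 0 < x⁻¹ := inv_pos.mpr hx
      rw [if_neg (not_le.mpr hx2), if_neg (not_le.mpr hx)]
      rcases lt_or_gt_of_ne hx1 with hx3 | hx3
      · have hx4 : 1 < x⁻¹ := (one_lt_inv₀ hx).mpr hx3
        rw [if_neg (not_lt.mpr hx4.le), if_pos hx3, inv_inv, norm_inv, inv_inv]
      · have hx4 : x⁻¹ < 1 := inv_lt_one_of_one_lt₀ hx3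
        rw [if_pos hx4, if_neg (not_lt.mpr hx3.le), ← mul_assoc, mul_inv_cancel₀ (norm_ne h0),
          one_mul]
  · have him2 : (z⁻¹).im ≠ 0 := by
      rw [Complex.inv_im]
      exact div_ne_zero (neg_ne_zero.mpr him) (Complex.normSq_pos.mpr h0).ne'
    rw [Ag_eq h him, Ag_eq h him2, h z him]

end ASYL

theorem t_ASY (h : S_KA1) : S_ASY := fun z hz => ⟨ASYL.Ag_sub z, ASYL.Ag_inv h hz⟩

end Pool.Agent.H794.KM
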