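import Pool.Agent.H794.KM.Spec

/-! Leaf BAR: Barta lower bound for the bottom of the spectrum. -/

namespace Pool.Agent.H794.KM
namespace BARL

open MeasureTheory Set Filter Topology
open scoped ComplexOrder

variable {ι : Type} [Fintype ι] [DecidableEq ι] {g : (ι → ℂ) → Matrix ι ι ℂ} {X : Set (ι → ℂ)}

theorem fderiv_ofReal {u : (ι → ℂ) → ℝ} {p : ι → ℂ} (hu : DifferentiableAt ℝ u p) (v : ι → ℂ) :
    fderiv ℝ (fun q => ((u q : ℝ) : ℂ)) p v = ((fderiv ℝ u p v : ℝ) : ℂ) := by
  have h1 : HasFDerivAt (fun q => ((u q : ℝ) : ℂ)) (Complex.ofRealCLM.comp (fderiv ℝ u p)) p :=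
    Complex.ofRealCLM.hasFDerivAt.comp p hu.hasFDerivAt
  rw [h1.fderiv]
  rfl

theorem dz_ofReal {u : (ι → ℂ) → ℝ} {p : ι → ℂ} (hu : DifferentiableAt ℝ u p) (i : ι) :
    dz i (fun q => ((u q : ℝ) : ℂ)) p = (((fderiv ℝ u p (Pi.single i 1) : ℝ) : ℂ) -
      Complex.I * ((fderiv ℝ u p (Pi.single i Complex.I) : ℝ) : ℂ)) / 2 := by
  unfold dz
  rw [fderiv_ofReal hu, fderiv_ofReal hu]

theorem dzbar_ofReal {u : (ι → ℂ) → ℝ} {p : ι → ℂ} (hu : DifferentiableAt ℝ u p) (i : ι) :
    dzbar i (fun q => ((u q : ℝ) : ℂ)) p =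
      (starRingEnd ℂ) (dz i (fun q => ((u q : ℝ) : ℂ)) p) := by
  rw [dz_ofReal hu]
  unfold dzbar
  rw [fderiv_ofReal hu, fderiv_ofReal hu]
  simp only [map_div₀, map_sub, map_mul, Complex.conj_ofReal, Complex.conj_I, map_ofNat]
  ring

theorem dz_zero {u : (ι → ℂ) → ℝ} {p : ι → ℂ} (hp : p ∉ tsupport u) (i : ι) :
    dz i (fun q => ((u q : ℝ) : ℂ)) p = 0 := by
  have h1 : u =ᶠ[𝓝 p] fun _ => 0 := notMem_tsupport_iff_eventuallyEq.mp hp
  have h2 : (fun q => ((u q : ℝ) : ℂ)) =ᶠ[𝓝 p] fun _ => (0 : ℂ) := by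
    filter_upwards [h1] with q hq
    rw [hq]
    simp
  unfold dz
  rw [h2.fderiv_eq]
  simp

theorem det_re_pos (hpd : ∀ p ∈ X, (g p).PosDef) {p : ι → ℂ} (hp : p ∈ X) :
    0 < (g p).det.re := by
  have := (Complex.lt_def.mp (hpd p hp).det_pos).1
  simpa using this

theorem cont_mat (hg : ∀ i j, ContinuousOn (fun p => g p i j) X) : ContinuousOn g X := by
  have h1 : ContinuousOn (fun p => (fun i j => g p i j : ι → ι → ℂ)) X :=
    continuousOn_pi.mpr fun i => continuousOn_pi.mpr fun j => hg i j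
  exact h1

theorem cont_inv (hg : ∀ i j, ContinuousOn (fun p => g p i j) X) (hpd : ∀ p ∈ X, (g p).PosDef)
    (i j : ι) : ContinuousOn (fun p => (g p)⁻¹ i j) X := by
  have h1 : ContinuousOn (fun p => ((g p).det)⁻¹ * (g p).adjugate i j) X := by
    have hG := cont_mat hg
    have hdet : ContinuousOn (fun p => (g p).det) X :=
      (Continuous.matrix_det (A := fun M : Matrix ι ι ℂ => M) continuous_id).comp_continuousOn hG
    have hadj : ContinuousOn (fun p => (g p).adjugate) X :=
      (Continuous.matrix_adjugate (A := fun M : Matrix ι ι ℂ => M)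
        continuous_id).comp_continuousOn hG
    have hadj2 : ContinuousOn (fun p => (g p).adjugate i j) X := by
      have h3 : Continuous (fun M : Matrix ι ι ℂ => M i j) :=
        (continuous_apply j).comp (continuous_apply i)
      exact h3.comp_continuousOn hadj
    refine (hdet.inv₀ fun p hp => ?_).mul hadj2
    intro h0
    have := det_re_pos hpd hp
    rw [h0] at this
    simp at this
  refine h1.congr fun p hp => ?_
  simp only [Matrix.inv_def, Ring.inverse_eq_inv', Matrix.smul_apply, smul_eq_mul]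

theorem det_smooth (hg : ∀ i j, ContDiffOn ℝ SM (fun p => g p i j) X) :
    ContDiffOn ℝ SM (fun p => ((((g p).det.re : ℝ)) : ℂ)) X := by
  have h1 : ContDiffOn ℝ SM (fun p => (g p).det) X := by
    simp only [Matrix.det_apply]
    refine ContDiffOn.sum fun σ _ => ?_
    have h2 : ContDiffOn ℝ SM (fun p => ∏ i, g p (σ i) i) X :=
      contDiffOn_prod fun i _ => hg (σ i) i
    have h3 : (fun p => Equiv.Perm.sign σ • ∏ i, g p (σ i) i) =
        fun p => (((Equiv.Perm.sign σ : ℤ) : ℂ)) * ∏ i, g p (σ i) i := by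
      funext p
      rw [Units.smul_def, zsmul_eq_mul]
    rw [h3]
    exact contDiffOn_const.mul h2
  have h4 : ContDiffOn ℝ SM (fun p => (g p).det.re) X :=
    Complex.reCLM.contDiff.comp_contDiffOn h1
  exact Complex.ofRealCLM.contDiff.comp_contDiffOn h4

theorem integrable_of_cpt {h : (ι → ℂ) → ℝ} {K : Set (ι → ℂ)} (hX : IsOpen X) (hK : IsCompact K)
    (hKX : K ⊆ X) (hc : ContinuousOn h X) (h0 : ∀ p ∈ X \ K, h p = 0) : IntegrableOn h X := by
  have h1 : IntegrableOn h K := (hc.mono hKX).integrableOn_compact hK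
  exact h1.of_forall_sdiff_eq_zero hX.measurableSet h0

/-- the quotient `f² / φ` -/
noncomputable def qq (f ph : (ι → ℂ) → ℝ) (p : ι → ℂ) : ℝ := f p * f p * (ph p)⁻¹

theorem qq_deriv {f ph : (ι → ℂ) → ℝ} {p : ι → ℂ} (hf : DifferentiableAt ℝ f p)
    (hph : DifferentiableAt ℝ ph p) (h0 : ph p ≠ 0) :
    HasFDerivAt (qq f ph) ((2 * (f p / ph p)) • fderiv ℝ f p -
      ((f p / ph p) ^ 2) • fderiv ℝ ph p) p := by
  have h1 := (hf.hasFDerivAt.mul hf.hasFDerivAt).mul
    ((hasDerivAt_inv h0).comp_hasFDerivAt p hph.hasFDerivAt)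
  refine h1.congr_fderiv ?_
  ext v
  simp only [add_apply, sub_apply, smul_apply, smul_eq_mul, Function.comp, Pi.mul_apply]
  field_simp
  ring

theorem qq_supp (f ph : (ι → ℂ) → ℝ) : Function.support (qq f ph) ⊆ Function.support f := by
  intro p hp
  rw [Function.mem_support] at hp ⊢
  intro h0
  apply hp
  unfold qq
  rw [h0]
  ring

theorem qq_smooth {f ph : (ι → ℂ) → ℝ} (hX : IsOpen X) (hf : ContDiff ℝ SM f)
    (hs : tsupport f ⊆ X) (hph : ContDiffOn ℝ SM ph X) (hpos : ∀ p ∈ X, 0 < ph p) :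
    ContDiff ℝ 1 (qq f ph) := by
  rw [contDiff_iff_contDiffAt]
  intro p
  by_cases hp : p ∈ X
  · have h1 : ContDiffAt ℝ SM ph p := hph.contDiffAt (hX.mem_nhds hp)
    have h2 : ContDiffAt ℝ SM (qq f ph) p :=
      (hf.contDiffAt.mul hf.contDiffAt).mul (h1.inv (hpos p hp).ne')
    exact h2.of_le (by simp [SM])
  · have h1 : p ∉ tsupport f := fun h => hp (hs h)
    have h2 : f =ᶠ[𝓝 p] fun _ => 0 := notMem_tsupport_iff_eventuallyEq.mp h1
    have h3 : qq f ph =ᶠ[𝓝 p] fun _ => 0 := by
      filter_upwards [h2] with q hq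
      unfold qq
      rw [hq]
      ring
    exact (contDiffAt_const (c := (0 : ℝ))).congr_of_eventuallyEq h3

theorem gradSq_cont {f : (ι → ℂ) → ℝ} (hg : ∀ i j, ContinuousOn (fun p => g p i j) X)
    (hpd : ∀ p ∈ X, (g p).PosDef) (hf : ContDiff ℝ SM f) :
    ContinuousOn (fun p => gradSq g f p) X := by
  have hdz : ∀ i, Continuous (fun p => dz i (fun q => ((f q : ℝ) : ℂ)) p) := by
    intro i
    have h1 : ContDiff ℝ SM (fun q => ((f q : ℝ) : ℂ)) := Complex.ofRealCLM.contDiff.comp hf
    have h2 : Continuous (fun p => fderiv ℝ (fun q => ((f q : ℝ) : ℂ)) p) :=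
      h1.continuous_fderiv (by simp [SM])
    have h3 : Continuous (fun p => fderiv ℝ (fun q => ((f q : ℝ) : ℂ)) p (Pi.single i 1)) :=
      h2.clm_apply continuous_const
    have h4 : Continuous
        (fun p => fderiv ℝ (fun q => ((f q : ℝ) : ℂ)) p (Pi.single i Complex.I)) :=
      h2.clm_apply continuous_const
    unfold dz
    exact (h3.sub (continuous_const.mul h4)).div_const 2
  unfold gradSq
  refine continuousOn_const.mul (Complex.continuous_re.comp_continuousOn ?_)
  refine continuousOn_finsetSum _ fun i _ => continuousOn_finsetSum _ fun j _ => ?_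
  exact ((cont_inv hg hpd j i).mul (hdz i).continuousOn).mul
    (Complex.continuous_conj.comp (hdz j)).continuousOn

theorem nonempty_set (g : (ι → ℂ) → Matrix ι ι ℂ) (hX : IsOpen X) (hne : X.Nonempty) :
    {r : ℝ | ∃ f : (ι → ℂ) → ℝ, ContDiff ℝ ((⊤ : ℕ∞) : WithTop ℕ∞) f ∧
    HasCompactSupport f ∧ tsupport f ⊆ X ∧ f ≠ 0 ∧
    r = (∫ p in X, gradSq g f p * vol g p) / ∫ p in X, f p ^ 2 * vol g p}.Nonempty := by
  obtain ⟨x, hx⟩ := hne
  obtain ⟨f, h1, h2, h3, h4, h5⟩ := exists_contDiff_tsupport_subset (n := ⊤) (hX.mem_nhds hx)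
  refine ⟨_, f, h3, h2, h1, ?_, rfl⟩
  intro h0
  rw [h0] at h5
  simp at h5

end BARL

open MeasureTheory Set Filter Topology BARL
open scoped ComplexOrder

theorem t_BAR (h1 : S_PWI) (h2 : S_IBP) : S_BAR := by
  intro ι _ _ X g ph V μ hX hne _ hg hpd hph hpos hV heq hdiv
  have hgc : ∀ i j, ContinuousOn (fun p => g p i j) X := fun i j => (hg i j).continuousOn
  apply le_csInf (nonempty_set g hX hne)
  rintro r ⟨f, hf, hcs, hts, hf0, rfl⟩
  have hdc : ContinuousOn (fun p => (g p).det.re) X := by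
    have := Complex.continuous_re.comp_continuousOn (det_smooth hg).continuousOn
    refine this.congr fun p _ => ?_
    simp only [Function.comp, Complex.ofReal_re]
  have hfd : ∀ p, DifferentiableAt ℝ f p := fun p => (hf.differentiable (by simp)) p
  have hphd : ∀ p ∈ X, DifferentiableAt ℝ ph p := fun p hp =>
    (hph.contDiffAt (hX.mem_nhds hp)).differentiableAt (by simp [SM])
  -- the denominators
  have hf2 : IntegrableOn (fun p => f p ^ 2 * (g p).det.re) X := by
    refine integrable_of_cpt hX hcs hts ((hf.continuous.pow 2).continuousOn.mul hdc) ?_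
    intro p hp
    have : f p = 0 := image_eq_zero_of_notMem_tsupport hp.2
    simp only [this]
    ring
  have hden : 0 < ∫ p in X, f p ^ 2 * (g p).det.re := by
    have hzero : ∀ p, p ∉ X → f p ^ 2 * (g p).det.re = 0 := by
      intro p hp
      have : f p = 0 := image_eq_zero_of_notMem_tsupport fun h => hp (hts h)
      rw [this]
      ring
    rw [setIntegral_eq_integral_of_forall_compl_eq_zero hzero]
    obtain ⟨p0, hp0⟩ : ∃ p0, f p0 ≠ 0 := by
      by_contra hcon
      push Not at hcon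
      exact hf0 (funext hcon)
    have hp0X : p0 ∈ X := hts (subset_tsupport f hp0)
    have hcont : Continuous (fun p => f p ^ 2 * (g p).det.re) := by
      rw [continuous_iff_continuousAt]
      intro p
      by_cases hp : p ∈ X
      · exact (hf.continuous.continuousAt.pow 2).mul (hdc.continuousAt (hX.mem_nhds hp))
      · have h3 : f =ᶠ[𝓝 p] fun _ => 0 :=
          notMem_tsupport_iff_eventuallyEq.mp (fun h => hp (hts h))
        have h4 : (fun p => f p ^ 2 * (g p).det.re) =ᶠ[𝓝 p] fun _ => 0 := by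
          filter_upwards [h3] with q hq
          rw [hq]
          ring
        have h5 : ContinuousAt (fun _ : ι → ℂ => (0 : ℝ)) p := continuousAt_const
        exact h5.congr h4.symm
    refine hcont.integral_pos_of_hasCompactSupport_nonneg_nonzero (x := p0) ?_ ?_ ?_
    · refine hcs.mono ?_
      intro p hp
      rw [Function.mem_support] at hp ⊢
      intro h0
      apply hp
      rw [h0]
      ring
    · intro p
      by_cases hp : p ∈ X
      · exact mul_nonneg (sq_nonneg _) (det_re_pos hpd hp).le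
      · exact (hzero p hp).symm.le
    · exact mul_ne_zero (pow_ne_zero 2 hp0) (det_re_pos hpd hp0X).ne'
  -- integration by parts
  have hq1 := qq_smooth hX hf hts hph hpos
  have hq2 : HasCompactSupport (qq f ph) := hcs.mono (qq_supp f ph)
  have hq3 : tsupport (qq f ph) ⊆ X := (closure_mono (qq_supp f ph)).trans hts
  have hW : ∀ i, ContDiffOn ℝ 1 (fun p => (((g p).det.re : ℝ) : ℂ) * V i p) X := fun i =>
    ((det_smooth hg).mul (hV i)).of_le (by simp [SM])
  obtain ⟨i1, i2, i3⟩ := h2 ι X (qq f ph) (fun i p => (((g p).det.re : ℝ) : ℂ) * V i p) hX hq1 hq2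
    hq3 hW
  -- the gradient term
  have hgr : IntegrableOn (fun p => gradSq g f p * (g p).det.re) X := by
    refine integrable_of_cpt hX hcs hts ((gradSq_cont hgc hpd hf).mul hdc) ?_
    intro p hp
    have : gradSq g f p = 0 := by
      unfold gradSq
      simp [dz_zero hp.2]
    rw [this, zero_mul]
  have hpt : ∀ p ∈ X, 2 * (∑ i, dz i (fun p' => ((qq f ph p' : ℝ) : ℂ)) p *
      ((((g p).det.re : ℝ) : ℂ) * V i p)).re ≤ gradSq g f p * (g p).det.re := by
    intro p hp
    have hphp := (hpos p hp).ne'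
    have hqd := qq_deriv (hfd p) (hphd p hp) hphp
    have h4 : ∀ i, dz i (fun p' => ((qq f ph p' : ℝ) : ℂ)) p =
        2 * ((f p / ph p : ℝ) : ℂ) * dz i (fun q => ((f q : ℝ) : ℂ)) p -
        ((f p / ph p : ℝ) : ℂ) ^ 2 * dz i (fun q => ((ph q : ℝ) : ℂ)) p := by
      intro i
      rw [dz_ofReal hqd.differentiableAt, dz_ofReal (hfd p), dz_ofReal (hphd p hp), hqd.fderiv]
      simp only [sub_apply, smul_apply, smul_eq_mul]
      push_cast
      ring
    have h5 := h1 ι (g p) (fun i => dz i (fun q => ((f q : ℝ) : ℂ)) p)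
      (fun i => dz i (fun q => ((ph q : ℝ) : ℂ)) p) (fun i => V i p) (f p / ph p) (hpd p hp)
      (fun j => by rw [heq p hp j, dzbar_ofReal (hphd p hp)])
    have h6 : (∑ i, dz i (fun p' => ((qq f ph p' : ℝ) : ℂ)) p *
        ((((g p).det.re : ℝ) : ℂ) * V i p)) = (((g p).det.re : ℝ) : ℂ) *
        (((2 * (f p / ph p) : ℝ) : ℂ) * ∑ i, V i p * dz i (fun q => ((f q : ℝ) : ℂ)) p -
        (((f p / ph p) ^ 2 : ℝ) : ℂ) * ∑ i, V i p * dz i (fun q => ((ph q : ℝ) : ℂ)) p) := by
      simp only [Finset.mul_sum, ← Finset.sum_sub_distrib]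
      refine Finset.sum_congr rfl fun i _ => ?_
      rw [h4 i]
      push_cast
      ring
    rw [h6, Complex.re_ofReal_mul, Complex.sub_re, Complex.re_ofReal_mul, Complex.re_ofReal_mul]
    unfold gradSq
    have h7 := det_re_pos hpd hp
    have h8 := mul_le_mul_of_nonneg_left h5 h7.le
    linarith
  -- conclusion
  have hA : 2 * ∫ p in X, (∑ i, dz i (fun p' => ((qq f ph p' : ℝ) : ℂ)) p *
      ((((g p).det.re : ℝ) : ℂ) * V i p)).re ≤ ∫ p in X, gradSq g f p * (g p).det.re := by
    rw [← integral_const_mul]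
    exact setIntegral_mono_on (i1.const_mul 2) hgr hX.measurableSet hpt
  have hB : μ * ∫ p in X, f p ^ 2 * (g p).det.re ≤
      - ∫ p in X, qq f ph p * (∑ i, dz i (fun p => (((g p).det.re : ℝ) : ℂ) * V i p) p).re := by
    rw [← integral_const_mul, ← integral_neg]
    refine setIntegral_mono_on (hf2.const_mul μ) i2.neg hX.measurableSet fun p hp => ?_
    have hphp := hpos p hp
    have h4 := hdiv p hp
    have h5 : 0 ≤ qq f ph p := by
      unfold qq
      exact mul_nonneg (mul_self_nonneg _) (inv_pos.mpr hphp).le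
    have h6 := mul_le_mul_of_nonneg_left h4 h5
    have h7 : qq f ph p * (-μ * ph p * (g p).det.re) = - (μ * (f p ^ 2 * (g p).det.re)) := by
      unfold qq
      field_simp
    linarith
  have hC : 2 * μ * ∫ p in X, f p ^ 2 * (g p).det.re ≤
      ∫ p in X, gradSq g f p * (g p).det.re := by
    rw [i3] at hA
    linarith
  have hvol : ∀ p, vol g p = 2 ^ Fintype.card ι * (g p).det.re := fun p => rfl
  have e1 : (∫ p in X, gradSq g f p * vol g p) =
      2 ^ Fintype.card ι * ∫ p in X, gradSq g f p * (g p).det.re := by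
    rw [← integral_const_mul]
    refine integral_congr_ae (Eventually.of_forall fun p => ?_)
    simp only [hvol]
    ring
  have e2 : (∫ p in X, f p ^ 2 * vol g p) =
      2 ^ Fintype.card ι * ∫ p in X, f p ^ 2 * (g p).det.re := by
    rw [← integral_const_mul]
    refine integral_congr_ae (Eventually.of_forall fun p => ?_)
    simp only [hvol]
    ring
  rw [e1, e2, mul_div_mul_left _ _ (by positivity), le_div_iff₀ hden]
  exact hC

end Pool.Agent.H794.KM

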