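import Pool.Agent.H794.KM.Spec

set_option autoImplicit false

namespace Pool.Agent.H794.KM

open MeasureTheory Set Filter Topology
open scoped ComplexOrder

namespace BASL

theorem isOpen_M : IsOpen M := by
  have h : M = ({0}ᶜ ∩ {1}ᶜ : Set ℂ) := by
    ext z
    simp [M]
  rw [h]
  exact isOpen_compl_singleton.inter isOpen_compl_singleton

theorem conj_two : (starRingEnd ℂ) (2 : ℂ) = 2 := map_ofNat (starRingEnd ℂ) 2

theorem wl_apply (a b v : ℂ) : wl a b v = a * v + b * (starRingEnd ℂ) v := by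
  simp [wl]

theorem clm_ext {A B : ℂ →L[ℝ] ℂ} (h1 : A 1 = B 1) (h2 : A Complex.I = B Complex.I) : A = B := by
  ext v
  have hv : v = v.re • (1 : ℂ) + v.im • Complex.I := by
    rw [Complex.real_smul, Complex.real_smul, mul_one]
    exact (Complex.re_add_im v).symm
  rw [hv, map_add, map_add, map_smul, map_smul, map_smul, map_smul, h1, h2]

theorem fderiv_eq_wl (f : ℂ → ℂ) (z : ℂ) : fderiv ℝ f z = wl (dz1 f z) (dzb1 f z) := by
  refine clm_ext ?_ ?_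
  · rw [wl_apply, dz1, dzb1, map_one (starRingEnd ℂ)]
    ring
  · rw [wl_apply, dz1, dzb1, Complex.conj_I]
    linear_combination (fderiv ℝ f z Complex.I) * Complex.I_mul_I

theorem hasFDerivAt_wl {f : ℂ → ℂ} {z : ℂ} (h : DifferentiableAt ℝ f z) :
    HasFDerivAt f (wl (dz1 f z) (dzb1 f z)) z := by
  rw [← fderiv_eq_wl]
  exact h.hasFDerivAt

theorem fderiv_ofReal {f : ℂ → ℝ} {z : ℂ} (h : DifferentiableAt ℝ f z) (v : ℂ) :
    fderiv ℝ (fun w => ((f w : ℝ) : ℂ)) z v = ((fderiv ℝ f z v : ℝ) : ℂ) := by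
  have h1 := (Complex.ofRealCLM.hasFDerivAt (x := f z)).comp z h.hasFDerivAt
  have h2 : fderiv ℝ (fun w => ((f w : ℝ) : ℂ)) z = Complex.ofRealCLM.comp (fderiv ℝ f z) :=
    h1.fderiv
  rw [h2]
  rfl

theorem dzb1_real {f : ℂ → ℝ} {z : ℂ} (h : DifferentiableAt ℝ f z) :
    dzb1 (fun w => ((f w : ℝ) : ℂ)) z = (starRingEnd ℂ) (dz1 (fun w => ((f w : ℝ) : ℂ)) z) := by
  rw [dz1, dzb1, fderiv_ofReal h, fderiv_ofReal h]
  simp [conj_two]

theorem fderiv_conj {g : ℂ → ℂ} {z : ℂ} (h : DifferentiableAt ℝ g z) (v : ℂ) :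
    fderiv ℝ (fun w => (starRingEnd ℂ) (g w)) z v = (starRingEnd ℂ) (fderiv ℝ g z v) := by
  have h1 := ((Complex.conjCLE : ℂ →L[ℝ] ℂ).hasFDerivAt (x := g z)).comp z h.hasFDerivAt
  have h2 : fderiv ℝ (fun w => (starRingEnd ℂ) (g w)) z =
      (Complex.conjCLE : ℂ →L[ℝ] ℂ).comp (fderiv ℝ g z) := h1.fderiv
  rw [h2]
  simp

theorem dzb1_conj {g : ℂ → ℂ} {z : ℂ} (h : DifferentiableAt ℝ g z) :
    dzb1 (fun w => (starRingEnd ℂ) (g w)) z = (starRingEnd ℂ) (dz1 g z) := by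
  rw [dz1, dzb1, fderiv_conj h, fderiv_conj h]
  simp [conj_two]

theorem dz1_const_mul {g : ℂ → ℂ} {z : ℂ} (h : DifferentiableAt ℝ g z) (c : ℂ) :
    dz1 (fun w => c * g w) z = c * dz1 g z ∧ dzb1 (fun w => c * g w) z = c * dzb1 g z := by
  have h2 : fderiv ℝ (fun w => c * g w) z = c • fderiv ℝ g z := fderiv_const_mul h c
  constructor
  · rw [dz1, dz1, h2]
    show (c * fderiv ℝ g z 1 - Complex.I * (c * fderiv ℝ g z Complex.I)) / 2 = _
    ring
  · rw [dzb1, dzb1, h2]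
    show (c * fderiv ℝ g z 1 + Complex.I * (c * fderiv ℝ g z Complex.I)) / 2 = _
    ring

theorem contDiffAt_fd {F : ℂ → ℂ} {z : ℂ} (h : ContDiffAt ℝ SM F z) (v : ℂ) :
    ContDiffAt ℝ SM (fun w => fderiv ℝ F w v) z := by
  have h1 : ContDiffAt ℝ SM (fderiv ℝ F) z := h.fderiv_right (by
    show ((⊤ : ℕ∞) : WithTop ℕ∞) + 1 ≤ ((⊤ : ℕ∞) : WithTop ℕ∞)
    exact le_rfl)
  exact h1.clm_apply contDiffAt_const

theorem contDiffAt_dz1 {F : ℂ → ℂ} {z : ℂ} (h : ContDiffAt ℝ SM F z) :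
    ContDiffAt ℝ SM (dz1 F) z := by
  unfold dz1
  exact ((contDiffAt_fd h 1).sub (contDiffAt_const.mul (contDiffAt_fd h Complex.I))).div_const 2

theorem contDiffAt_dzb1 {F : ℂ → ℂ} {z : ℂ} (h : ContDiffAt ℝ SM F z) :
    ContDiffAt ℝ SM (dzb1 F) z := by
  unfold dzb1
  exact ((contDiffAt_fd h 1).add (contDiffAt_const.mul (contDiffAt_fd h Complex.I))).div_const 2

theorem contDiffAt_logr {r : ℂ → ℝ} (hr : Hyp r) {z : ℂ} (hz : z ∈ M) :
    ContDiffAt ℝ SM (fun w => Real.log (r w)) z :=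
  ((hr.smooth z hz).contDiffAt (isOpen_M.mem_nhds hz)).log (hr.pos z hz).ne'

theorem contDiffAt_lam {k : ℕ} {r : ℂ → ℝ} (hr : Hyp r) {z : ℂ} (hz : z ∈ M) :
    ContDiffAt ℝ SM (lam k r) z := by
  unfold lam
  exact contDiffAt_const.mul (contDiffAt_logr hr hz)

theorem sm_ne : (SM : WithTop ℕ∞) ≠ 0 := by
  intro h
  simp [SM] at h

theorem contDiffAt_ofReal {f : ℂ → ℝ} {z : ℂ} (h : ContDiffAt ℝ SM f z) :
    ContDiffAt ℝ SM (fun w => ((f w : ℝ) : ℂ)) z :=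
  (Complex.ofRealCLM.contDiff.contDiffAt (x := f z)).comp z h

/-- the formula for `θ` -/
theorem th_eq {k : ℕ} {r : ℂ → ℝ} (hr : Hyp r) {z : ℂ} (hz : z ∈ M) :
    th k r z = ((2 / ((k : ℝ) + 1) : ℝ) : ℂ) *
      (starRingEnd ℂ) (dzb1 (fun u => ((Real.log (r u) : ℝ) : ℂ)) z) := by
  have h1 : DifferentiableAt ℝ (fun w => Real.log (r w)) z :=
    (contDiffAt_logr hr hz).differentiableAt sm_ne
  have h2 : DifferentiableAt ℝ (fun w => ((Real.log (r w) : ℝ) : ℂ)) z :=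
    (contDiffAt_ofReal (contDiffAt_logr hr hz)).differentiableAt sm_ne
  rw [dzb1_real h1, Complex.conj_conj, ← (dz1_const_mul h2 _).1, th]
  congr 1
  funext w
  rw [lam]
  push_cast
  rfl

theorem dzb1_th {k : ℕ} {r : ℂ → ℝ} (hr : Hyp r) {z : ℂ} (hz : z ∈ M) :
    dzb1 (th k r) z = ((bet k r z : ℝ) : ℂ) := by
  obtain ⟨L, hL⟩ : ∃ L : ℂ → ℂ, L = dzb1 (fun u => ((Real.log (r u) : ℝ) : ℂ)) := ⟨_, rfl⟩
  have hev : th k r =ᶠ[𝓝 z] fun w => ((2 / ((k : ℝ) + 1) : ℝ) : ℂ) * (starRingEnd ℂ) (L w) := by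
    filter_upwards [isOpen_M.mem_nhds hz] with w hw
    rw [hL]
    exact th_eq hr hw
  have hLd : DifferentiableAt ℝ L z := by
    rw [hL]
    exact (contDiffAt_dzb1 (contDiffAt_ofReal (contDiffAt_logr hr hz))).differentiableAt sm_ne
  have hLc : DifferentiableAt ℝ (fun w => (starRingEnd ℂ) (L w)) z :=
    ((Complex.conjCLE : ℂ →L[ℝ] ℂ).differentiableAt (x := L z)).comp z hLd
  have h1 : dzb1 (th k r) z = dzb1 (fun w => ((2 / ((k : ℝ) + 1) : ℝ) : ℂ) *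
      (starRingEnd ℂ) (L w)) z := by
    rw [dzb1, dzb1, hev.fderiv_eq]
  have h2 : dz1 L z = ((r z ^ 2 / 4 : ℝ) : ℂ) := by
    rw [hL]
    exact hr.pde z hz
  rw [h1, (dz1_const_mul hLc _).2, dzb1_conj hLd, h2, Complex.conj_ofReal, ← Complex.ofReal_mul,
    bet]
  congr 1
  have : (k : ℝ) + 1 ≠ 0 := by positivity
  field_simp
  ring

end BASL

open BASL in
theorem t_BAS : S_BAS := by
  intro k r hr z hz
  have hpos := hr.pos z hz
  have hk : (0 : ℝ) < (k : ℝ) + 1 := by positivity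
  have h1 : ContDiffAt ℝ SM (lam k r) z := contDiffAt_lam hr hz
  have h2 : ContDiffAt ℝ SM (fun w => ((lam k r w : ℝ) : ℂ)) z := contDiffAt_ofReal h1
  have h3 : ContDiffAt ℝ SM (th k r) z := contDiffAt_dz1 h2
  refine ⟨?_, ⟨dz1 (th k r) z, ?_⟩, h1, h3, ?_, ?_, ?_⟩
  · have h4 := hasFDerivAt_wl (h2.differentiableAt sm_ne)
    rw [dzb1_real (h1.differentiableAt sm_ne)] at h4
    exact h4
  · have h4 := hasFDerivAt_wl (h3.differentiableAt sm_ne)
    rw [dzb1_th hr hz] at h4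
    exact h4
  · unfold bet
    exact (((hr.smooth z hz).contDiffAt (isOpen_M.mem_nhds hz)).pow 2).div_const _
  · unfold bet
    positivity
  · unfold bet lam
    rw [Real.log_div (by positivity) (by positivity), Real.log_pow]
    field_simp
    push_cast
    ring

end Pool.Agent.H794.KM
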