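import Pool.Agent.H794.KM.Spec

/-!
Leaf BLO of project KM: the spectral lower bound for `gm`, from the divergence formula `S_DVG` and
Barta's inequality `S_BAR`.
-/

namespace Pool.Agent.H794.KM

open MeasureTheory Set Filter Topology
open scoped ComplexOrder

namespace BLOL

/-- first partial derivatives of a smooth function are smooth at the points of `Sq` -/
theorem pd_smooth (h8 : S_PDR) {F : (Fin 2 → ℝ) → ℝ} (hF : SmS F) (a : Fin 2) : SmS (pd a F) := by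
  intro s hs
  exact ((h8 F F s a a).2.2.2.2.2.2.1 (hF s hs)).2.1

theorem pr_smooth (a : Fin 2) : SmS (fun s => s a) := by
  intro s _
  fun_prop

theorem gam_smooth (h8 : S_PDR) {F : (Fin 2 → ℝ) → ℝ} (hF : SmS F) : SmS (Gam F) := by
  intro s hs
  have e0 := pd_smooth h8 hF 0
  have e1 := pd_smooth h8 hF 1
  have e00 := pd_smooth h8 e0 0 s hs
  have e11 := pd_smooth h8 e1 1 s hs
  have e01 := pd_smooth h8 e0 1 s hs
  have p0 := pr_smooth 0 s hs
  have p1 := pr_smooth 1 s hs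
  have := (((e0 s hs).add (p0.mul e00)).mul ((e1 s hs).add (p1.mul e11))).sub
    ((p0.mul p1).mul (e01.pow 2))
  exact this

theorem alp_smooth (h8 : S_PDR) {F ph : (Fin 2 → ℝ) → ℝ} (hF : SmS F) (hph : SmS ph)
    (hG : ∀ s ∈ Sq, 0 < Gam F s) (a : Fin 2) : SmS (alp F ph a) := by
  intro s hs
  have e1 := pd_smooth h8 hF (1 - a)
  have e11 := pd_smooth h8 e1 (1 - a) s hs
  have e01 := pd_smooth h8 (pd_smooth h8 hF 0) 1 s hs
  have pa := pd_smooth h8 hph a s hs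
  have pb := pd_smooth h8 hph (1 - a) s hs
  have p1 := pr_smooth (1 - a) s hs
  have g := gam_smooth h8 hF s hs
  have := ((((e1 s hs).add (p1.mul e11)).mul pa).sub ((p1.mul e01).mul pb)).div g (hG s hs).ne'
  exact this

/-- `s = (s_0, s_1)` is smooth on the manifold -/
theorem ss_smooth (h4 : S_SSD) (k : ℕ) (r : ℂ → ℝ) (hr : Hyp r) (p : Ix k → ℂ)
    (hp : p ∈ XX k r) : ContDiffAt ℝ SM (fun q => ss k r q) p := by
  rw [contDiffAt_pi]
  intro a
  exact (((h4 k r hr).2.2.2 p hp.1 a).2.1)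

theorem comp_smooth (h4 : S_SSD) (k : ℕ) (r : ℂ → ℝ) (hr : Hyp r) {f : (Fin 2 → ℝ) → ℝ}
    (hf : SmS f) (p : Ix k → ℂ) (hp : p ∈ XX k r) :
    ContDiffAt ℝ SM (fun q => f (ss k r q)) p := by
  have h := hf _ ((h4 k r hr).2.2.1 p hp)
  exact ContDiffAt.comp p h (ss_smooth h4 k r hr p hp)

theorem V_smooth (h4 : S_SSD) (k : ℕ) (r : ℂ → ℝ) (hr : Hyp r) {f : Fin 2 → (Fin 2 → ℝ) → ℝ}
    (hf : ∀ a, SmS (f a)) (i : Ix k) :
    ContDiffOn ℝ SM (fun p : Ix k → ℂ => (Sum.elim (fun _ => 0)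
      (fun a => ((f a (ss k r p) : ℝ) : ℂ) * p (Sum.inr a)) i : ℂ)) (XX k r) := by
  intro p hp
  apply ContDiffAt.contDiffWithinAt
  rcases i with x | a
  · simp only [Sum.elim_inl]
    exact contDiffAt_const
  · simp only [Sum.elim_inr]
    have h1 := comp_smooth h4 k r hr (hf a) p hp
    have h2 : ContDiffAt ℝ SM (fun q : Ix k → ℂ => ((f a (ss k r q) : ℝ) : ℂ)) p :=
      (Complex.ofRealCLM.contDiff.contDiffAt).comp p h1
    have h3 : ContDiffAt ℝ SM (fun q : Ix k → ℂ => q (Sum.inr a)) p := by fun_prop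
    exact h2.mul h3

end BLOL

theorem t_BLO (h1 : S_DVG) (h2 : S_BAR) (h3 : S_DET) (h4 : S_SSD) (h5 : S_BAS) (h6 : S_KAH)
    (h7 : S_XOC) (h8 : S_PDR) : S_BLO := by
  intro k r hr F hF ph hph hpos μ hμ
  have hK := (h6 k r hr F hF).1
  have hD := h3 k r hr F hF
  have hal := BLOL.alp_smooth h8 hF.sm hph hD.1
  refine h2 (Ix k) (XX k r) (gm k r F) (fun p => ph (ss k r p))
    (fun i p => (Sum.elim (fun _ => 0)
      (fun a => ((alp F ph a (ss k r p) : ℝ) : ℂ) * p (Sum.inr a)) i : ℂ)) μ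
    (h7 k r hr).1 (h7 k r hr).2.1.nonempty ⟨Sum.inr 0⟩ hK.smooth hK.posDef ?_ ?_ ?_ ?_ ?_
  · intro p hp
    exact (BLOL.comp_smooth h4 k r hr hph p hp).contDiffWithinAt
  · intro p hp
    exact hpos _ ((h4 k r hr).2.2.1 p hp)
  · intro i
    exact BLOL.V_smooth h4 k r hr hal i
  · intro p hp j
    exact (h1 k r hr F hF ph hph p hp).1 j
  · intro p hp
    obtain ⟨-, e1, e2⟩ := h1 k r hr F hF ph hph p hp
    have hs := (h4 k r hr).2.2.1 p hp
    have hB : 0 < (∏ x, bet k r (p (Sum.inl x))) * (hh k r p 0 * hh k r p 1) := by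
      refine mul_pos (Finset.prod_pos fun x _ => ?_) (mul_pos ?_ ?_)
      · exact (h5 k r hr _ (hp.1 x)).2.2.2.2.2.1
      · exact ((h4 k r hr).2.2.2 p hp.1 0).2.2.1
      · exact ((h4 k r hr).2.2.2 p hp.1 1).2.2.1
    have hm := mul_le_mul_of_nonneg_left (hμ _ hs) hB.le
    refine le_of_eq_of_le e1 (hm.trans (le_of_eq ?_))
    rw [e2]
    ring

end Pool.Agent.H794.KM
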