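import Pool.Agent.H794.KM.Spec

namespace Pool.Agent.H794.KM

open Set Filter Topology

namespace C1PL

/-- `p` and `q` are joined in `X` by a `C¹` path which is constant before `0` and after `1`. -/
def J {E : Type} [NormedAddCommGroup E] [NormedSpace ℝ E] (X : Set E) (p q : E) : Prop :=
  ∃ c : ℝ → E, ContDiff ℝ 1 c ∧ (∀ t ≤ 0, c t = p) ∧ (∀ t, 1 ≤ t → c t = q) ∧ ∀ t, c t ∈ X

variable {E : Type} [NormedAddCommGroup E] [NormedSpace ℝ E] {X : Set E}

theorem symm {p q : E} (h : J X p q) : J X q p := by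
  obtain ⟨c, hc, h0, h1, hX⟩ := h
  refine ⟨fun t => c (1 - t), hc.comp (contDiff_const.sub contDiff_id), ?_, ?_, fun t => hX _⟩
  · intro t ht
    exact h1 _ (by linarith)
  · intro t ht
    exact h0 _ (by linarith)

theorem trans {p q m : E} (h : J X p m) (h' : J X m q) : J X p q := by
  obtain ⟨c, hc, h0, h1, hX⟩ := h
  obtain ⟨c', hc', h0', h1', hX'⟩ := h'
  have k1 : ∀ t : ℝ, t ≤ 1 / 2 → c (2 * t) + c' (2 * t - 1) - m = c (2 * t) := by
    intro t ht
    rw [h0' (2 * t - 1) (by linarith), add_sub_cancel_right]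
  have k2 : ∀ t : ℝ, 1 / 2 ≤ t → c (2 * t) + c' (2 * t - 1) - m = c' (2 * t - 1) := by
    intro t ht
    rw [h1 (2 * t) (by linarith), add_sub_cancel_left]
  refine ⟨fun t => c (2 * t) + c' (2 * t - 1) - m, ?_, ?_, ?_, ?_⟩
  · have e1 : ContDiff ℝ 1 fun t : ℝ => 2 * t := contDiff_const.mul contDiff_id
    exact ((hc.comp e1).add (hc'.comp (e1.sub contDiff_const))).sub contDiff_const
  · intro t ht
    change c (2 * t) + c' (2 * t - 1) - m = p
    rw [k1 t (by linarith), h0 (2 * t) (by linarith)]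
  · intro t ht
    change c (2 * t) + c' (2 * t - 1) - m = q
    rw [k2 t (by linarith), h1' (2 * t - 1) (by linarith)]
  · intro t
    change c (2 * t) + c' (2 * t - 1) - m ∈ X
    rcases le_total t (1 / 2) with ht | ht
    · rw [k1 t ht]
      exact hX _
    · rw [k2 t ht]
      exact hX' _

theorem loc {p : E} {r : ℝ} (hr : Metric.ball p r ⊆ X) {q : E} (hq : q ∈ Metric.ball p r) :
    J X p q := by
  refine ⟨fun t => p + Real.smoothTransition t • (q - p), ?_, ?_, ?_, ?_⟩
  · exact contDiff_const.add (Real.smoothTransition.contDiff.smul contDiff_const)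
  · intro t ht
    change p + Real.smoothTransition t • (q - p) = p
    rw [Real.smoothTransition.zero_of_nonpos ht, zero_smul, add_zero]
  · intro t ht
    change p + Real.smoothTransition t • (q - p) = q
    rw [Real.smoothTransition.one_of_one_le ht, one_smul, add_sub_cancel]
  · intro t
    apply hr
    have h1 := Real.smoothTransition.nonneg t
    have h2 := Real.smoothTransition.le_one t
    rw [Metric.mem_ball, dist_eq_norm] at hq ⊢
    rw [add_sub_cancel_left, norm_smul, Real.norm_of_nonneg h1]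
    exact (mul_le_of_le_one_left (norm_nonneg _) h2).trans_lt hq

theorem all (hX : IsOpen X) (hc : IsPreconnected X) {p q : E} (hp : p ∈ X) (hq : q ∈ X) :
    J X p q := by
  apply hc.induction₂ (J X) _ (fun x y z _ _ _ h h' => trans h h') (fun x y _ _ h => symm h) hp hq
  intro x hx
  obtain ⟨r, hr, hb⟩ := Metric.isOpen_iff.mp hX x hx
  exact mem_nhdsWithin_of_mem_nhds (mem_of_superset (Metric.ball_mem_nhds x hr)
    (fun y hy => loc hb hy))

end C1PL

theorem t_C1P : S_C1P := by
  intro ι _ X hX hc p hp q hq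
  obtain ⟨c, hc1, h0, h1, hm⟩ := C1PL.all hX hc.isPreconnected hp hq
  exact ⟨c, hc1, h0 0 le_rfl, h1 1 le_rfl, fun t _ => hm t⟩

end Pool.Agent.H794.KM

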