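import Pool.Agent.H794.KM.Spec

/-!
Project KM, leaf CLO: a potential gives smooth coefficients and a closed form.
-/

namespace Pool.Agent.H794.KM

open MeasureTheory Set Filter Topology
open scoped ComplexOrder

set_option linter.unusedSectionVars false

namespace CLOL

variable {ι : Type} [Fintype ι] [DecidableEq ι]

omit [DecidableEq ι] in
theorem smooth_fderiv {X : Set (ι → ℂ)} (hX : IsOpen X) {f : (ι → ℂ) → ℂ}
    (hf : ContDiffOn ℝ SM f X) : ContDiffOn ℝ SM (fun p => fderiv ℝ f p) X :=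
  hf.fderiv_of_isOpen hX (le_refl _)

theorem smooth_dir {X : Set (ι → ℂ)} (hX : IsOpen X) {f : (ι → ℂ) → ℂ}
    (hf : ContDiffOn ℝ SM f X) (v : ι → ℂ) : ContDiffOn ℝ SM (fun p => fderiv ℝ f p v) X :=
  (smooth_fderiv hX hf).clm_apply contDiffOn_const

theorem smooth_dz {X : Set (ι → ℂ)} (hX : IsOpen X) {f : (ι → ℂ) → ℂ}
    (hf : ContDiffOn ℝ SM f X) (i : ι) : ContDiffOn ℝ SM (fun p => dz i f p) X := by
  unfold dz
  exact ((smooth_dir hX hf _).sub (contDiffOn_const.mul (smooth_dir hX hf _))).div_const 2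

theorem smooth_dzbar {X : Set (ι → ℂ)} (hX : IsOpen X) {f : (ι → ℂ) → ℂ}
    (hf : ContDiffOn ℝ SM f X) (i : ι) : ContDiffOn ℝ SM (fun p => dzbar i f p) X := by
  unfold dzbar
  exact ((smooth_dir hX hf _).add (contDiffOn_const.mul (smooth_dir hX hf _))).div_const 2

/-- derivative of a directional derivative -/
theorem fderiv_dir {X : Set (ι → ℂ)} (hX : IsOpen X) {f : (ι → ℂ) → ℂ}
    (hf : ContDiffOn ℝ SM f X) {p : ι → ℂ} (hp : p ∈ X) (v : ι → ℂ) :
    HasFDerivAt (fun q => fderiv ℝ f q v) ((fderiv ℝ (fderiv ℝ f) p).flip v) p := by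
  have h1 : DifferentiableAt ℝ (fderiv ℝ f) p :=
    ((smooth_fderiv hX hf).contDiffAt (hX.mem_nhds hp)).differentiableAt (by simp)
  have h2 := h1.hasFDerivAt.clm_apply (hasFDerivAt_const v p)
  simpa using h2

theorem symm2 {X : Set (ι → ℂ)} (hX : IsOpen X) {f : (ι → ℂ) → ℂ}
    (hf : ContDiffOn ℝ SM f X) {p : ι → ℂ} (hp : p ∈ X) (v w : ι → ℂ) :
    fderiv ℝ (fderiv ℝ f) p v w = fderiv ℝ (fderiv ℝ f) p w v := by
  have h2 : minSmoothness ℝ 2 ≤ SM := by
    rw [minSmoothness_of_isRCLikeNormedField]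
    exact WithTop.coe_le_coe.2 le_top
  have h := (hf.contDiffAt (hX.mem_nhds hp)).isSymmSndFDerivAt h2
  exact h v w

theorem fderiv_dz {X : Set (ι → ℂ)} (hX : IsOpen X) {f : (ι → ℂ) → ℂ}
    (hf : ContDiffOn ℝ SM f X) {p : ι → ℂ} (hp : p ∈ X) (i : ι) (v : ι → ℂ) :
    fderiv ℝ (fun q => dz i f q) p v =
      (fderiv ℝ (fderiv ℝ f) p v (Pi.single i 1) -
        Complex.I * fderiv ℝ (fderiv ℝ f) p v (Pi.single i Complex.I)) / 2 := by
  have h := ((fderiv_dir hX hf hp (Pi.single i 1)).sub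
    ((fderiv_dir hX hf hp (Pi.single i Complex.I)).const_mul Complex.I)).mul_const (2⁻¹ : ℂ)
  have h2 : (fun q => dz i f q) = fun q => (fderiv ℝ f q (Pi.single i 1) -
      Complex.I * fderiv ℝ f q (Pi.single i Complex.I)) * (2⁻¹ : ℂ) := by
    funext q
    rw [dz, div_eq_mul_inv]
  rw [h2]
  have h3 := h.fderiv
  simp only [Pi.sub_def] at h3
  rw [h3]
  simp
  ring

theorem dz_comm {X : Set (ι → ℂ)} (hX : IsOpen X) {f : (ι → ℂ) → ℂ}
    (hf : ContDiffOn ℝ SM f X) {p : ι → ℂ} (hp : p ∈ X) (i k : ι) :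
    dz k (fun q => dz i f q) p = dz i (fun q => dz k f q) p := by
  rw [dz, dz, fderiv_dz hX hf hp, fderiv_dz hX hf hp, fderiv_dz hX hf hp, fderiv_dz hX hf hp,
    symm2 hX hf hp (Pi.single k 1) (Pi.single i 1),
    symm2 hX hf hp (Pi.single k 1) (Pi.single i Complex.I),
    symm2 hX hf hp (Pi.single k Complex.I) (Pi.single i 1),
    symm2 hX hf hp (Pi.single k Complex.I) (Pi.single i Complex.I)]
  ring

end CLOL

open CLOL in
theorem t_CLO : S_CLO := by
  intro ι _ _ X Φ hX hΦ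
  refine ⟨fun i j => smooth_dz hX (smooth_dzbar hX hΦ j) i, fun p hp i j k => ?_⟩
  exact dz_comm hX (smooth_dzbar hX hΦ j) hp i k

end Pool.Agent.H794.KM
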