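import Pool.Agent.H794.KM.Spec

/-! Leaf CMP: the completeness criterion. -/

namespace Pool.Agent.H794.KM
namespace CMPL

open MeasureTheory Set Filter Topology
open scoped ComplexOrder

variable {ι : Type} [Fintype ι] {g : (ι → ℂ) → Matrix ι ι ℂ} {X : Set (ι → ℂ)}

theorem normSq_eq (g : (ι → ℂ) → Matrix ι ι ℂ) (p v : ι → ℂ) :
    normSq g p v = 2 * (dotProduct (star (star v)) ((g p).mulVec (star v))).re := by
  unfold normSq
  congr 2
  simp only [dotProduct, Matrix.mulVec, Finset.mul_sum, star_star]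
  refine Finset.sum_congr rfl fun i _ => Finset.sum_congr rfl fun j _ => ?_
  simp only [Pi.star_apply, Complex.star_def]
  ring

theorem normSq_pos {p : ι → ℂ} (h : (g p).PosDef) {v : ι → ℂ} (hv : v ≠ 0) :
    0 < normSq g p v := by
  rw [normSq_eq]
  have h1 : star v ≠ 0 := by
    intro h0
    apply hv
    have := congrArg star h0
    simpa using this
  have h2 := h.dotProduct_mulVec_pos h1
  have h3 := (Complex.lt_def.mp h2).1
  simp only [Complex.zero_re] at h3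
  linarith

theorem normSq_zero (p : ι → ℂ) : normSq g p 0 = 0 := by
  unfold normSq
  simp

theorem normSq_nonneg {p : ι → ℂ} (h : (g p).PosDef) (v : ι → ℂ) : 0 ≤ normSq g p v := by
  by_cases hv : v = 0
  · rw [hv, normSq_zero]
  · exact (normSq_pos h hv).le

theorem normSq_smul (p : ι → ℂ) (r : ℝ) (v : ι → ℂ) :
    normSq g p (r • v) = r ^ 2 * normSq g p v := by
  unfold normSq
  have : ∑ i, ∑ j, g p i j * (r • v) i * (starRingEnd ℂ) ((r • v) j) =
      ((r ^ 2 : ℝ) : ℂ) * ∑ i, ∑ j, g p i j * v i * (starRingEnd ℂ) (v j) := by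
    simp only [Finset.mul_sum]
    refine Finset.sum_congr rfl fun i _ => Finset.sum_congr rfl fun j _ => ?_
    simp only [Pi.smul_apply, Complex.real_smul, map_mul, Complex.conj_ofReal]
    push_cast
    ring
  rw [this, Complex.re_ofReal_mul]
  ring

theorem spd_smul (p : ι → ℂ) {r : ℝ} (hr : 0 ≤ r) (v : ι → ℂ) :
    Real.sqrt (normSq g p (r • v)) = r * Real.sqrt (normSq g p v) := by
  rw [normSq_smul, Real.sqrt_mul (sq_nonneg r), Real.sqrt_sq hr]

theorem cont_spd (hg : ∀ i j, ContinuousOn (fun p => g p i j) X) :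
    ContinuousOn (fun x : (ι → ℂ) × (ι → ℂ) => Real.sqrt (normSq g x.1 x.2)) (X ×ˢ univ) := by
  apply ContinuousOn.sqrt
  unfold normSq
  refine continuousOn_const.mul (Complex.continuous_re.comp_continuousOn ?_)
  refine continuousOn_finsetSum _ fun i _ => continuousOn_finsetSum _ fun j _ => ?_
  have h1 : ContinuousOn (fun x : (ι → ℂ) × (ι → ℂ) => g x.1 i j) (X ×ˢ univ) :=
    (hg i j).comp continuousOn_fst (fun x hx => hx.1)
  have h2 : Continuous (fun x : (ι → ℂ) × (ι → ℂ) => x.2 i) :=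
    (continuous_apply i).comp continuous_snd
  have h3 : Continuous (fun x : (ι → ℂ) × (ι → ℂ) => (starRingEnd ℂ) (x.2 j)) :=
    Complex.continuous_conj.comp ((continuous_apply j).comp continuous_snd)
  exact (h1.mul h2.continuousOn).mul h3.continuousOn

/-- normalisation -/
theorem norm_split (v : ι → ℂ) (hv : v ≠ 0) :
    ∃ u : ι → ℂ, u ∈ Metric.sphere (0 : ι → ℂ) 1 ∧ v = ‖v‖ • u := by
  have h0 : ‖v‖ ≠ 0 := norm_ne_zero_iff.mpr hv
  refine ⟨‖v‖⁻¹ • v, ?_, ?_⟩
  · rw [mem_sphere_zero_iff_norm, norm_smul, norm_inv, norm_norm, inv_mul_cancel₀ h0]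
  · rw [smul_smul, mul_inv_cancel₀ h0, one_smul]

theorem lower {K : Set (ι → ℂ)} (hK : IsCompact K) (hKX : K ⊆ X)
    (hg : ∀ i j, ContinuousOn (fun p => g p i j) X) (hpd : ∀ p ∈ X, (g p).PosDef) :
    ∃ c > 0, ∀ p ∈ K, ∀ v, c * ‖v‖ ≤ Real.sqrt (normSq g p v) := by
  have hS : IsCompact (K ×ˢ Metric.sphere (0 : ι → ℂ) 1) := hK.prod (isCompact_sphere _ _)
  have hc : ContinuousOn (fun x : (ι → ℂ) × (ι → ℂ) => Real.sqrt (normSq g x.1 x.2))
      (K ×ˢ Metric.sphere (0 : ι → ℂ) 1) :=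
    (cont_spd hg).mono (prod_mono hKX (subset_univ _))
  rcases (K ×ˢ Metric.sphere (0 : ι → ℂ) 1).eq_empty_or_nonempty with he | hne
  · refine ⟨1, one_pos, fun p hp v => ?_⟩
    by_cases hv : v = 0
    · rw [hv, norm_zero, mul_zero]
      exact Real.sqrt_nonneg _
    · obtain ⟨u, hu, _⟩ := norm_split v hv
      exact absurd (show (p, u) ∈ K ×ˢ Metric.sphere (0 : ι → ℂ) 1 from ⟨hp, hu⟩)
        (by rw [he]; exact notMem_empty _)
  · obtain ⟨x, hx, hmin⟩ := hS.exists_isMinOn hne hc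
    have hx2 : x.2 ≠ 0 := by
      intro h0
      have := hx.2
      rw [h0] at this
      simp at this
    have hpos : 0 < Real.sqrt (normSq g x.1 x.2) :=
      Real.sqrt_pos.mpr (normSq_pos (hpd _ (hKX hx.1)) hx2)
    refine ⟨_, hpos, fun p hp v => ?_⟩
    by_cases hv : v = 0
    · rw [hv, norm_zero, mul_zero]
      exact Real.sqrt_nonneg _
    · obtain ⟨u, hu, huv⟩ := norm_split v hv
      have h1 : Real.sqrt (normSq g x.1 x.2) ≤ Real.sqrt (normSq g p u) :=
        isMinOn_iff.mp hmin (p, u) (mk_mem_prod hp hu)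
      have h2 : Real.sqrt (normSq g p v) = ‖v‖ * Real.sqrt (normSq g p u) := by
        conv_lhs => rw [huv]
        exact spd_smul p (norm_nonneg v) u
      rw [h2, mul_comm]
      exact mul_le_mul_of_nonneg_left h1 (norm_nonneg v)

theorem upper {K : Set (ι → ℂ)} (hK : IsCompact K) (hKX : K ⊆ X)
    (hg : ∀ i j, ContinuousOn (fun p => g p i j) X) :
    ∃ c : ℝ, ∀ p ∈ K, ∀ v, Real.sqrt (normSq g p v) ≤ c * ‖v‖ := by
  have hS : IsCompact (K ×ˢ Metric.sphere (0 : ι → ℂ) 1) := hK.prod (isCompact_sphere _ _)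
  have hc : ContinuousOn (fun x : (ι → ℂ) × (ι → ℂ) => Real.sqrt (normSq g x.1 x.2))
      (K ×ˢ Metric.sphere (0 : ι → ℂ) 1) :=
    (cont_spd hg).mono (prod_mono hKX (subset_univ _))
  obtain ⟨c, hc'⟩ : ∃ c, ∀ x ∈ K ×ˢ Metric.sphere (0 : ι → ℂ) 1,
      Real.sqrt (normSq g x.1 x.2) ≤ c := by
    obtain ⟨c, hc'⟩ := (hS.image_of_continuousOn hc).bddAbove
    exact ⟨c, fun x hx => hc' (mem_image_of_mem _ hx)⟩
  refine ⟨c, fun p hp v => ?_⟩
  by_cases hv : v = 0
  · rw [hv, norm_zero, mul_zero, normSq_zero, Real.sqrt_zero]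
  · obtain ⟨u, hu, huv⟩ := norm_split v hv
    have h1 : Real.sqrt (normSq g p u) ≤ c := hc' (p, u) (mk_mem_prod hp hu)
    have h2 : Real.sqrt (normSq g p v) = ‖v‖ * Real.sqrt (normSq g p u) := by
      conv_lhs => rw [huv]
      exact spd_smul p (norm_nonneg v) u
    rw [h2, mul_comm]
    exact mul_le_mul_of_nonneg_right h1 (norm_nonneg v)

theorem cont_speed (hg : ∀ i j, ContinuousOn (fun p => g p i j) X) {c : ℝ → ι → ℂ}
    (hc : ContDiff ℝ 1 c) (hcX : ∀ τ ∈ Icc (0 : ℝ) 1, c τ ∈ X) :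
    ContinuousOn (fun τ => Real.sqrt (normSq g (c τ) (deriv c τ))) (Icc 0 1) := by
  have h0 : Continuous (deriv c) := hc.continuous_deriv le_rfl
  have h1 : ContinuousOn (fun τ : ℝ => ((c τ, deriv c τ) : (ι → ℂ) × (ι → ℂ))) (Icc (0 : ℝ) 1) :=
    (hc.continuous.prodMk h0).continuousOn
  have h2 : MapsTo (fun τ : ℝ => ((c τ, deriv c τ) : (ι → ℂ) × (ι → ℂ))) (Icc (0 : ℝ) 1)
      (X ×ˢ univ) := fun τ hτ => mk_mem_prod (hcX τ hτ) (mem_univ _)
  exact ContinuousOn.comp (g := fun x : (ι → ℂ) × (ι → ℂ) => Real.sqrt (normSq g x.1 x.2))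
    (f := fun τ : ℝ => ((c τ, deriv c τ) : (ι → ℂ) × (ι → ℂ))) (cont_spd hg) h1 h2

theorem path_bound {F : Type*} [NormedAddCommGroup F] [NormedSpace ℝ F] [CompleteSpace F]
    {φ φ' : ℝ → F} {L : ℝ → ℝ} {T : ℝ} (hT : 0 ≤ T)
    (h1 : ∀ τ ∈ Icc (0 : ℝ) T, HasDerivAt φ (φ' τ) τ)
    (h2 : ContinuousOn φ' (Icc 0 T)) (h3 : ContinuousOn L (Icc 0 T))
    (h4 : ∀ τ ∈ Icc (0 : ℝ) T, ‖φ' τ‖ ≤ L τ) : ‖φ T - φ 0‖ ≤ ∫ τ in (0 : ℝ)..T, L τ := by
  have e : uIcc (0 : ℝ) T = Icc 0 T := uIcc_of_le hT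
  have i1 : IntervalIntegrable φ' volume 0 T := by
    apply ContinuousOn.intervalIntegrable; rwa [e]
  have i2 : IntervalIntegrable L volume 0 T := by
    apply ContinuousOn.intervalIntegrable; rwa [e]
  rw [← intervalIntegral.integral_eq_sub_of_hasDerivAt (fun τ hτ => h1 τ (by rwa [e] at hτ)) i1]
  apply intervalIntegral.norm_integral_le_of_norm_le hT _ i2
  refine Eventually.of_forall fun τ hτ => h4 τ (Ioc_subset_Icc_self hτ)

theorem pathLength_nonneg (g : (ι → ℂ) → Matrix ι ι ℂ) (c : ℝ → ι → ℂ) :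
    0 ≤ pathLength g c := by
  apply intervalIntegral.integral_nonneg zero_le_one
  intro τ _
  exact Real.sqrt_nonneg _

theorem partial_le (hg : ∀ i j, ContinuousOn (fun p => g p i j) X) {c : ℝ → ι → ℂ}
    (hc : ContDiff ℝ 1 c) (hcX : ∀ τ ∈ Icc (0 : ℝ) 1, c τ ∈ X) {T : ℝ} (hT : T ∈ Icc (0 : ℝ) 1) :
    ∫ τ in (0 : ℝ)..T, Real.sqrt (normSq g (c τ) (deriv c τ)) ≤ pathLength g c := by
  unfold pathLength
  have hs := cont_speed hg hc hcX
  have i1 : IntervalIntegrable (fun τ => Real.sqrt (normSq g (c τ) (deriv c τ))) volume 0 1 := by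
    apply ContinuousOn.intervalIntegrable
    rwa [uIcc_of_le zero_le_one]
  exact intervalIntegral.integral_mono_interval le_rfl hT.1 hT.2
    (Eventually.of_forall fun τ => Real.sqrt_nonneg _) i1

theorem E_bound {E : (ι → ℂ) → ℝ} {C : ℝ} (hX : IsOpen X)
    (hg : ∀ i j, ContinuousOn (fun p => g p i j) X) (hE : ContDiffOn ℝ 1 E X)
    (hgr : ∀ p ∈ X, ∀ v, |fderiv ℝ E p v| ≤ C * Real.sqrt (normSq g p v))
    {c : ℝ → ι → ℂ} (hc : ContDiff ℝ 1 c) (hcX : ∀ τ ∈ Icc (0 : ℝ) 1, c τ ∈ X)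
    {T : ℝ} (hT : T ∈ Icc (0 : ℝ) 1) :
    |E (c T) - E (c 0)| ≤ (|C| + 1) * pathLength g c := by
  have hs := cont_speed hg hc hcX
  have hsub : Icc (0 : ℝ) T ⊆ Icc 0 1 := Icc_subset_Icc le_rfl hT.2
  have hEd : ∀ p ∈ X, DifferentiableAt ℝ E p := fun p hp =>
    (hE.contDiffAt (hX.mem_nhds hp)).differentiableAt (by norm_num)
  have hder : ∀ τ ∈ Icc (0 : ℝ) 1,
      HasDerivAt (fun τ => E (c τ)) (fderiv ℝ E (c τ) (deriv c τ)) τ := by
    intro τ hτ
    have h1 := (hEd (c τ) (hcX τ hτ)).hasFDerivAt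
    have h2 : HasDerivAt c (deriv c τ) τ := ((hc.differentiable (by norm_num)) τ).hasDerivAt
    exact h1.comp_hasDerivAt τ h2
  have hcont : ContinuousOn (fun τ => fderiv ℝ E (c τ) (deriv c τ)) (Icc (0 : ℝ) 1) := by
    have h1 : ContinuousOn (fun p => fderiv ℝ E p) X := hE.continuousOn_fderiv_of_isOpen hX le_rfl
    have h2 : ContinuousOn (fun τ => fderiv ℝ E (c τ)) (Icc (0 : ℝ) 1) :=
      h1.comp hc.continuous.continuousOn hcX
    exact h2.clm_apply (hc.continuous_deriv le_rfl).continuousOn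
  have h5 := path_bound (φ := fun τ => E (c τ)) (φ' := fun τ => fderiv ℝ E (c τ) (deriv c τ))
    (L := fun τ => (|C| + 1) * Real.sqrt (normSq g (c τ) (deriv c τ))) hT.1
    (fun τ hτ => hder τ (hsub hτ)) (hcont.mono hsub) ((continuousOn_const.mul hs).mono hsub)
    (fun τ hτ => by
      rw [Real.norm_eq_abs]
      refine (hgr _ (hcX τ (hsub hτ)) _).trans ?_
      apply mul_le_mul_of_nonneg_right _ (Real.sqrt_nonneg _)
      linarith [le_abs_self C])
  rw [Real.norm_eq_abs, intervalIntegral.integral_const_mul] at h5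
  refine h5.trans ?_
  apply mul_le_mul_of_nonneg_left (partial_le hg hc hcX hT)
  positivity

theorem riemDist_nonneg (X : Set (ι → ℂ)) (g : (ι → ℂ) → Matrix ι ι ℂ)
    (p q : ι → ℂ) : 0 ≤ riemDist X g p q := by
  apply Real.sInf_nonneg
  rintro _ ⟨c, _, rfl⟩
  exact pathLength_nonneg g c

theorem dist_le {p : ι → ℂ} {ρ : ℝ} (hB : Metric.closedBall p ρ ⊆ X)
    (hg : ∀ i j, ContinuousOn (fun p => g p i j) X) :
    ∃ C : ℝ, ∀ q ∈ Metric.closedBall p ρ, riemDist X g q p ≤ C * ‖p - q‖ := by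
  obtain ⟨C, hC⟩ := upper (isCompact_closedBall p ρ) hB hg
  refine ⟨C, fun q hq => ?_⟩
  have hρ : 0 ≤ ρ := le_trans dist_nonneg (Metric.mem_closedBall.mp hq)
  have hp : p ∈ Metric.closedBall p ρ := Metric.mem_closedBall_self hρ
  have hmem : ∀ τ ∈ Icc (0 : ℝ) 1, q + τ • (p - q) ∈ Metric.closedBall p ρ := by
    intro τ hτ
    have h := (convex_closedBall p ρ) hq hp (by linarith [hτ.2] : (0:ℝ) ≤ 1 - τ) hτ.1 (by ring)
    have e : q + τ • (p - q) = (1 - τ) • q + τ • p := by module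
    rw [e]
    exact h
  have hpath : (fun τ : ℝ => q + τ • (p - q)) ∈ pathsIn X q p :=
    ⟨by fun_prop, by simp, by simp, fun τ hτ => hB (hmem τ hτ)⟩
  have hle : riemDist X g q p ≤ pathLength g (fun τ : ℝ => q + τ • (p - q)) := by
    apply csInf_le
    · refine ⟨0, ?_⟩
      rintro _ ⟨c, _, rfl⟩
      exact pathLength_nonneg _ c
    · exact ⟨_, hpath, rfl⟩
  refine hle.trans ?_
  unfold pathLength
  have hder : ∀ τ : ℝ, deriv (fun τ : ℝ => q + τ • (p - q)) τ = p - q := by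
    intro τ
    have : HasDerivAt (fun τ : ℝ => q + τ • (p - q)) (p - q) τ := by
      simpa using ((hasDerivAt_id τ).smul_const (p - q)).const_add q
    exact this.deriv
  have hb : ∀ τ ∈ Icc (0 : ℝ) 1, Real.sqrt (normSq g (q + τ • (p - q))
      (deriv (fun τ : ℝ => q + τ • (p - q)) τ)) ≤ C * ‖p - q‖ := by
    intro τ hτ
    rw [hder]
    exact hC _ (hmem τ hτ) _
  have hcont := cont_speed hg hpath.1 hpath.2.2.2
  have i1 : IntervalIntegrable (fun τ => Real.sqrt (normSq g (q + τ • (p - q))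
      (deriv (fun τ : ℝ => q + τ • (p - q)) τ))) volume 0 1 := by
    apply ContinuousOn.intervalIntegrable
    rwa [uIcc_of_le zero_le_one]
  refine (intervalIntegral.integral_mono_on zero_le_one i1 intervalIntegrable_const hb).trans ?_
  simp

end CMPL

open MeasureTheory Set Filter Topology CMPL
open scoped ComplexOrder

theorem t_CMP (h : S_C1P) : S_CMP := by
  intro ι _ _ X g E C hX hconn hg hpd hE hgr hcomp s hs hcauchy
  set C' : ℝ := |C| + 1 with hC'
  have hC'pos : 0 < C' := by positivity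
  have hEd : ∀ p ∈ X, ∀ q ∈ X, |E q - E p| ≤ C' * riemDist X g p q := by
    intro p hp q hq
    have hne : (pathLength g '' pathsIn X p q).Nonempty := (h ι X hX hconn p hp q hq).image _
    have h1 : |E q - E p| / C' ≤ riemDist X g p q := by
      apply le_csInf hne
      rintro _ ⟨c, ⟨h1, h2, h3, h4⟩, rfl⟩
      have h5 := E_bound hX hg hE hgr h1 h4 (T := 1) ⟨zero_le_one, le_rfl⟩
      rw [h2, h3] at h5
      rw [div_le_iff₀ hC'pos, mul_comm]
      exact h5
    rw [div_le_iff₀ hC'pos, mul_comm] at h1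
    exact h1
  obtain ⟨m₀, hm₀⟩ := hcauchy 1 one_pos
  set R : ℝ := E (s m₀) + C' with hR
  have hER : ∀ m ≥ m₀, E (s m) ≤ R := by
    intro m hm
    have h1 := hEd (s m) (hs m) (s m₀) (hs m₀)
    have h2 := hm₀ m hm m₀ le_rfl
    have h3 : C' * riemDist X g (s m) (s m₀) ≤ C' * 1 :=
      mul_le_mul_of_nonneg_left h2.le hC'pos.le
    have h4 := (abs_le.mp (h1.trans h3)).1
    rw [hR]
    linarith
  obtain ⟨c, hcpos, hclow⟩ := lower (hcomp (R + C')) (fun p hp => hp.1) hg hpd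
  have hdist : ∀ m ≥ m₀, ∀ k, ∀ ε > 0, riemDist X g (s m) (s k) < min 1 (c * ε) →
      ‖s k - s m‖ < ε := by
    intro m hm k ε hε hlt
    have hne : (pathLength g '' pathsIn X (s m) (s k)).Nonempty :=
      (h ι X hX hconn _ (hs m) _ (hs k)).image _
    obtain ⟨_, ⟨γ, ⟨g1, g2, g3, g4⟩, rfl⟩, hγ⟩ := exists_lt_of_csInf_lt hne hlt
    have hγ1 : pathLength g γ < 1 := lt_of_lt_of_le hγ (min_le_left _ _)
    have hγ2 : pathLength g γ < c * ε := lt_of_lt_of_le hγ (min_le_right _ _)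
    have hin : ∀ τ ∈ Icc (0 : ℝ) 1, γ τ ∈ {p | p ∈ X ∧ E p ≤ R + C'} := by
      intro τ hτ
      refine ⟨g4 τ hτ, ?_⟩
      have h5 := E_bound hX hg hE hgr g1 g4 hτ
      rw [g2] at h5
      have h6 : C' * pathLength g γ ≤ C' * 1 := mul_le_mul_of_nonneg_left hγ1.le hC'pos.le
      have h7 := (abs_le.mp (h5.trans h6)).2
      have h8 := hER m hm
      linarith
    have hsp := cont_speed hg g1 g4
    have h9 := path_bound (φ := γ) (φ' := deriv γ)
      (L := fun τ => c⁻¹ * Real.sqrt (normSq g (γ τ) (deriv γ τ))) zero_le_one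
      (fun τ _ => ((g1.differentiable (by norm_num)) τ).hasDerivAt)
      (g1.continuous_deriv le_rfl).continuousOn (continuousOn_const.mul hsp)
      (fun τ hτ => by
        have := hclow _ (hin τ hτ) (deriv γ τ)
        rw [← div_eq_inv_mul, le_div_iff₀ hcpos, mul_comm]
        exact this)
    rw [intervalIntegral.integral_const_mul, g2, g3] at h9
    have h10 : c⁻¹ * pathLength g γ < c⁻¹ * (c * ε) :=
      mul_lt_mul_of_pos_left hγ2 (inv_pos.mpr hcpos)
    rw [← mul_assoc, inv_mul_cancel₀ hcpos.ne', one_mul] at h10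
    exact lt_of_le_of_lt h9 h10
  have hCau : CauchySeq s := by
    rw [Metric.cauchySeq_iff]
    intro ε hε
    obtain ⟨N, hN⟩ := hcauchy (min 1 (c * ε)) (lt_min one_pos (mul_pos hcpos hε))
    refine ⟨max N m₀, fun m hm k hk => ?_⟩
    rw [dist_eq_norm]
    exact hdist k (le_trans (le_max_right _ _) hk) m ε hε
      (hN k (le_trans (le_max_left _ _) hk) m (le_trans (le_max_left _ _) hm))
  obtain ⟨p, hp⟩ := cauchySeq_tendsto_of_complete hCau
  have hpK : p ∈ {p | p ∈ X ∧ E p ≤ R} := by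
    apply (hcomp R).isClosed.mem_of_tendsto hp
    filter_upwards [eventually_ge_atTop m₀] with m hm
    exact ⟨hs m, hER m hm⟩
  refine ⟨p, hpK.1, ?_⟩
  obtain ⟨ρ, hρ, hB⟩ := Metric.nhds_basis_closedBall.mem_iff.mp (hX.mem_nhds hpK.1)
  obtain ⟨D, hD⟩ := dist_le hB hg
  have hlim : Tendsto (fun m => D * ‖p - s m‖) atTop (𝓝 0) := by
    have h1 : Tendsto (fun m => p - s m) atTop (𝓝 0) := by
      simpa using (tendsto_const_nhds (x := p)).sub hp
    simpa using (h1.norm).const_mul D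
  refine squeeze_zero' (Eventually.of_forall fun m => riemDist_nonneg _ _ _ _) ?_ hlim
  filter_upwards [hp.eventually (Metric.closedBall_mem_nhds p hρ)] with m hm
  exact hD (s m) hm

end Pool.Agent.H794.KM

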