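import Pool.Agent.H794.KM.Spec

/-!
Project KM, leaf COM: completeness of the metrics `gm k r F`.
-/

namespace Pool.Agent.H794.KM

open MeasureTheory Set Filter Topology
open scoped ComplexOrder

namespace COML

lemma ss_nonneg (k : ℕ) (r : ℂ → ℝ) (p : Ix k → ℂ) (a : Fin 2) : 0 ≤ ss k r p a := by
  unfold ss hh
  positivity

lemma mem_Sq {k : ℕ} {r : ℂ → ℝ} {p : Ix k → ℂ} (hp : p ∈ XX k r) : ss k r p ∈ Sq :=
  fun a => ⟨ss_nonneg k r p a, hp.2 a⟩

lemma bet_nonneg (k : ℕ) (r : ℂ → ℝ) (z : ℂ) : 0 ≤ bet k r z := by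
  unfold bet
  positivity

lemma hh_nonneg (k : ℕ) (r : ℂ → ℝ) (p : Ix k → ℂ) (a : Fin 2) : 0 ≤ hh k r p a := by
  unfold hh
  positivity

lemma re_term (e : ℝ) (z : ℂ) : (((e : ℝ) : ℂ) * z * (starRingEnd ℂ) z).re = e * ‖z‖ ^ 2 := by
  rw [mul_assoc, Complex.mul_conj, ← Complex.ofReal_mul, Complex.ofReal_re,
    Complex.normSq_eq_norm_sq]

end COML

theorem t_COM (h1 : S_FRA) (h2 : S_HGP) (h3 : S_KAH) (h4 : S_CMP) (h5 : S_EXH) (h6 : S_XOC) :
    S_COM := by
  intro k r hr F hF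
  obtain ⟨hopen, hconn, -⟩ := h6 k r hr
  obtain ⟨hK, -⟩ := h3 k r hr F hF
  obtain ⟨E, C, hE1, hE2, hE3⟩ := h5 k r hr
  obtain ⟨c, hc, hell⟩ := hF.ell
  refine h4 (Ix k) (XX k r) (gm k r F) E (Real.sqrt (max C 0 / (2 * c))) hopen hconn
    (fun i j => (hK.smooth i j).continuousOn) hK.posDef hE1 ?_ hE3
  intro p hp v
  have hs := COML.mem_Sq hp
  obtain ⟨hell1, hell2⟩ := hell _ hs
  obtain ⟨-, -, hGG, -, -⟩ := h2 k r hr F hF.sm p hp
  have hG' := hGG c hell2 (fun a => ∑ i, cof (Tm k r p) a i * v i)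
  obtain ⟨-, -, -, -, hF5, -⟩ := h1 k (Tm k r p)
  set Q : ℝ := ∑ x, bet k r (p (Sum.inl x)) * ‖v (Sum.inl x)‖ ^ 2 +
    ∑ a, hh k r p a * ‖∑ i, cof (Tm k r p) a i * v i‖ ^ 2 / (1 - ss k r p a) ^ 2 with hQ
  have hQ0 : 0 ≤ Q := by
    rw [hQ]
    apply add_nonneg
    · exact Finset.sum_nonneg (fun x _ => mul_nonneg (COML.bet_nonneg k r _) (sq_nonneg _))
    · exact Finset.sum_nonneg (fun a _ => div_nonneg
        (mul_nonneg (COML.hh_nonneg k r p a) (sq_nonneg _)) (sq_nonneg _))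
  have hn : 2 * c * Q ≤ normSq (gm k r F) p v := by
    have e1 : normSq (gm k r F) p v = 2 * ((∑ x, ((k : ℝ) + 2 + ss k r p x.1 *
        pd x.1 F (ss k r p)) * bet k r (p (Sum.inl x)) * ‖v (Sum.inl x)‖ ^ 2) +
        (∑ a, ∑ b, hG k r F p a b * (∑ i, cof (Tm k r p) a i * v i) *
          (starRingEnd ℂ) (∑ i, cof (Tm k r p) b i * v i)).re) := by
      unfold normSq gm
      rw [hF5, Complex.add_re, Complex.re_sum]
      congr 2
      apply Finset.sum_congr rfl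
      intro x _
      rw [COML.re_term]
    rw [e1, hQ, mul_add, mul_add, mul_assoc, mul_assoc 2 c]
    apply add_le_add
    · apply mul_le_mul_of_nonneg_left _ (by norm_num)
      rw [Finset.mul_sum]
      apply Finset.sum_le_sum
      intro x _
      have hb := COML.bet_nonneg k r (p (Sum.inl x))
      have := hell1 x.1
      rw [← mul_assoc]
      apply mul_le_mul_of_nonneg_right _ (sq_nonneg _)
      exact mul_le_mul_of_nonneg_right this hb
    · apply mul_le_mul_of_nonneg_left _ (by norm_num)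
      exact hG'
  have hf := hE2 p hp v
  have h7 : (fderiv ℝ E p v) ^ 2 ≤ (max C 0 / (2 * c)) * normSq (gm k r F) p v := by
    have hm : 0 ≤ max C 0 := le_max_right _ _
    calc (fderiv ℝ E p v) ^ 2 ≤ C * Q := hf
      _ ≤ max C 0 * Q := mul_le_mul_of_nonneg_right (le_max_left _ _) hQ0
      _ = (max C 0 / (2 * c)) * (2 * c * Q) := by field_simp
      _ ≤ (max C 0 / (2 * c)) * normSq (gm k r F) p v :=
        mul_le_mul_of_nonneg_left hn (by positivity)
  rw [← Real.sqrt_mul (by positivity), ← Real.sqrt_sq_eq_abs]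
  exact Real.sqrt_le_sqrt h7

end Pool.Agent.H794.KM
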