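import Pool.Agent.H794.KM.Spec

/-! Leaf CUT: cut-off functions of small energy on `ℂ ∖ {0, 1}`. -/

namespace Pool.Agent.H794.KM

open MeasureTheory Set Filter Topology

namespace CUTL

/-- the profile -/
noncomputable def PP (t : ℝ) : ℝ := Real.smoothTransition (2 + t) * Real.smoothTransition (2 - t)

lemma PP_contDiff : ContDiff ℝ SM PP := by
  unfold PP
  exact (Real.smoothTransition.contDiff.comp (contDiff_const.add contDiff_id)).mul
    (Real.smoothTransition.contDiff.comp (contDiff_const.sub contDiff_id))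

lemma PP_one {t : ℝ} (h : |t| ≤ 1) : PP t = 1 := by
  obtain ⟨h1, h2⟩ := abs_le.mp h
  unfold PP
  rw [Real.smoothTransition.one_of_one_le (by linarith),
    Real.smoothTransition.one_of_one_le (by linarith), mul_one]

lemma PP_zero {t : ℝ} (h : 2 ≤ |t|) : PP t = 0 := by
  unfold PP
  rcases le_abs.mp h with h | h
  · rw [Real.smoothTransition.zero_of_nonpos (x := 2 - t) (by linarith), mul_zero]
  · rw [Real.smoothTransition.zero_of_nonpos (x := 2 + t) (by linarith), zero_mul]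

lemma PP_abs (t : ℝ) : |PP t| ≤ 1 := by
  unfold PP
  rw [abs_mul, abs_of_nonneg (Real.smoothTransition.nonneg _),
    abs_of_nonneg (Real.smoothTransition.nonneg _)]
  exact mul_le_one₀ (Real.smoothTransition.le_one _) (Real.smoothTransition.nonneg _)
    (Real.smoothTransition.le_one _)

lemma PP_bound : ∃ C : ℝ, 0 ≤ C ∧ ∀ t, |deriv PP t| ≤ C := by
  have hs : HasCompactSupport PP := by
    refine HasCompactSupport.intro (isCompact_Icc (a := (-2 : ℝ)) (b := 2)) ?_
    intro t ht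
    apply PP_zero
    by_contra hc
    push Not at hc
    exact ht ⟨by linarith [neg_abs_le t], by linarith [le_abs_self t]⟩
  have hc : Continuous (deriv PP) := PP_contDiff.continuous_deriv (by simp)
  obtain ⟨C, hC⟩ := hc.bounded_above_of_compact_support hs.deriv
  exact ⟨C, (abs_nonneg _).trans (by simpa using hC 0), fun t => by simpa using hC t⟩

/-- the radial cut-off -/
noncomputable def q (N : ℝ) (z : ℂ) : ℝ := if z = 0 then 0 else PP (Real.log ‖z‖ / N)

lemma q_abs (N : ℝ) (z : ℂ) : |q N z| ≤ 1 := by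
  unfold q
  split_ifs
  · simp
  · exact PP_abs _

lemma q_eq_zero_small {N : ℝ} (hN : 0 < N) {z : ℂ} (h : ‖z‖ ≤ Real.exp (-(2 * N))) :
    q N z = 0 := by
  unfold q
  split_ifs with h0
  · rfl
  · apply PP_zero
    have hp : 0 < ‖z‖ := norm_pos_iff.mpr h0
    have h1 : Real.log ‖z‖ ≤ -(2 * N) := by
      rw [← Real.log_exp (-(2 * N))]; exact Real.log_le_log hp h
    rw [abs_div, abs_of_pos hN, le_div_iff₀ hN]
    rw [abs_of_nonpos (by linarith)]
    linarith

lemma q_eq_zero_large {N : ℝ} (hN : 0 < N) {z : ℂ} (h : Real.exp (2 * N) ≤ ‖z‖) :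
    q N z = 0 := by
  unfold q
  split_ifs with h0
  · rfl
  · apply PP_zero
    have hp : 0 < ‖z‖ := norm_pos_iff.mpr h0
    have h1 : 2 * N ≤ Real.log ‖z‖ := by
      rw [← Real.log_exp (2 * N)]; exact Real.log_le_log (Real.exp_pos _) h
    rw [abs_div, abs_of_pos hN, le_div_iff₀ hN]
    rw [abs_of_nonneg (by linarith)]
    linarith

lemma q_eq_one {N : ℝ} (hN : 0 < N) {z : ℂ} (h0 : z ≠ 0) (h : |Real.log ‖z‖| ≤ N) :
    q N z = 1 := by
  unfold q
  rw [if_neg h0]
  apply PP_one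
  rw [abs_div, abs_of_pos hN, div_le_one hN]
  exact h

/-- the annulus -/
def Ann (N : ℝ) : Set ℂ := {z | Real.exp (-(2 * N)) ≤ ‖z‖ ∧ ‖z‖ ≤ Real.exp (2 * N)}

lemma isClosed_Ann (N : ℝ) : IsClosed (Ann N) :=
  (isClosed_le continuous_const continuous_norm).inter (isClosed_le continuous_norm continuous_const)

lemma q_zero_of_notMem {N : ℝ} (hN : 0 < N) {z : ℂ} (h : z ∉ Ann N) : q N z = 0 := by
  by_contra hc
  apply h
  constructor
  · by_contra h1
    exact hc (q_eq_zero_small hN (not_le.mp h1).le)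
  · by_contra h1
    exact hc (q_eq_zero_large hN (not_le.mp h1).le)

lemma q_eventually {N : ℝ} {z : ℂ} (hz : z ≠ 0) :
    q N =ᶠ[𝓝 z] fun w => PP (Real.log ‖w‖ / N) := by
  filter_upwards [isOpen_ne.mem_nhds hz] with w hw
  unfold q
  rw [if_neg hw]

lemma q_contDiff {N : ℝ} (hN : 0 < N) : ContDiff ℝ SM (q N) := by
  rw [contDiff_iff_contDiffAt]
  intro z
  by_cases hz : z = 0
  · subst hz
    have h : q N =ᶠ[𝓝 (0 : ℂ)] fun _ => (0 : ℝ) := by
      filter_upwards [Metric.ball_mem_nhds (0 : ℂ) (Real.exp_pos (-(2 * N)))] with w hw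
      exact q_eq_zero_small hN (by simpa using (Metric.mem_ball.mp hw).le)
    exact contDiffAt_const.congr_of_eventuallyEq h
  · refine ContDiffAt.congr_of_eventuallyEq ?_ (q_eventually hz)
    have h1 : ContDiffAt ℝ SM (fun w : ℂ => Real.log ‖w‖ / N) z :=
      (ContDiffAt.log (contDiffAt_norm ℝ hz) (norm_ne_zero_iff.mpr hz)).div_const N
    exact ContDiffAt.comp z PP_contDiff.contDiffAt h1

lemma q_fderiv_le {N C : ℝ} (hN : 0 < N) (hC : ∀ t, |deriv PP t| ≤ C) (z : ℂ) :
    ‖fderiv ℝ (q N) z‖ ≤ (Ann N).indicator (fun w => C / N * ‖w‖⁻¹) z := by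
  by_cases hA : z ∈ Ann N
  · rw [indicator_of_mem hA]
    have hp : 0 < ‖z‖ := lt_of_lt_of_le (Real.exp_pos _) hA.1
    have hz : z ≠ 0 := norm_pos_iff.mp hp
    rw [(q_eventually hz).fderiv_eq]
    have hn : DifferentiableAt ℝ (fun w : ℂ => ‖w‖) z :=
      (contDiffAt_norm ℝ hz (n := 1)).differentiableAt (by simp)
    have h1 : HasFDerivAt (fun w : ℂ => Real.log ‖w‖ / N)
        (N⁻¹ • (‖z‖⁻¹ • fderiv ℝ (fun w : ℂ => ‖w‖) z)) z := by
      have := (hn.hasFDerivAt.log hp.ne').mul_const N⁻¹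
      simpa [div_eq_mul_inv] using this
    have h2 : HasDerivAt PP (deriv PP (Real.log ‖z‖ / N)) (Real.log ‖z‖ / N) :=
      (PP_contDiff.differentiable (by simp) _).hasDerivAt
    have h3 := h2.comp_hasFDerivAt z h1
    have h3' : HasFDerivAt (fun w : ℂ => PP (Real.log ‖w‖ / N))
      (deriv PP (Real.log ‖z‖ / N) • (N⁻¹ • (‖z‖⁻¹ • fderiv ℝ (fun w : ℂ => ‖w‖) z))) z := h3
    rw [h3'.fderiv]
    have h4 : ‖fderiv ℝ (fun w : ℂ => ‖w‖) z‖ ≤ 1 := by
      have := norm_fderiv_le_of_lipschitz ℝ (f := fun w : ℂ => ‖w‖) (C := 1) lipschitzWith_one_norm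
        (x₀ := z)
      simpa using this
    rw [norm_smul, norm_smul, norm_smul, Real.norm_eq_abs, Real.norm_eq_abs, Real.norm_eq_abs,
      abs_of_pos (inv_pos.mpr hN), abs_of_pos (inv_pos.mpr hp)]
    have hC0 : 0 ≤ C := (abs_nonneg _).trans (hC 0)
    calc |deriv PP (Real.log ‖z‖ / N)| * (N⁻¹ * (‖z‖⁻¹ * ‖fderiv ℝ (fun w : ℂ => ‖w‖) z‖))
        ≤ C * (N⁻¹ * (‖z‖⁻¹ * 1)) := by
          gcongr
          exact hC _
      _ = C / N * ‖z‖⁻¹ := by rw [mul_one, div_eq_mul_inv, mul_assoc]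
  · rw [indicator_of_notMem hA]
    have h : q N =ᶠ[𝓝 z] fun _ => (0 : ℝ) := by
      filter_upwards [(isClosed_Ann N).isOpen_compl.mem_nhds hA] with w hw
      exact q_zero_of_notMem hN hw
    rw [h.fderiv_eq]
    simp

/-- the radial majorant -/
noncomputable def fr (N C : ℝ) (y : ℝ) : ℝ :=
  (Icc (Real.exp (-(2 * N))) (Real.exp (2 * N))).indicator (fun y => (C / N) ^ 2 * (y ^ 2)⁻¹) y

lemma fr_norm (N C : ℝ) (z : ℂ) :
    fr N C ‖z‖ = ((Ann N).indicator (fun w => C / N * ‖w‖⁻¹) z) ^ 2 := by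
  unfold fr
  by_cases hA : z ∈ Ann N
  · rw [indicator_of_mem hA, indicator_of_mem (show ‖z‖ ∈ Icc _ _ from ⟨hA.1, hA.2⟩)]
    rw [mul_pow, inv_pow]
  · rw [indicator_of_notMem hA, indicator_of_notMem (show ‖z‖ ∉ Icc _ _ from fun h => hA ⟨h.1, h.2⟩)]
    simp

lemma fr_aux (N C : ℝ) : (fun y : ℝ => y ^ (Module.finrank ℝ ℂ - 1) • fr N C y) =
    (Icc (Real.exp (-(2 * N))) (Real.exp (2 * N))).indicator (fun y => (C / N) ^ 2 * y⁻¹) := by
  funext y
  rw [Complex.finrank_real_complex]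
  unfold fr
  by_cases hy : y ∈ Icc (Real.exp (-(2 * N))) (Real.exp (2 * N))
  · rw [indicator_of_mem hy, indicator_of_mem hy]
    have hp : 0 < y := lt_of_lt_of_le (Real.exp_pos _) hy.1
    have hne : y ≠ 0 := hp.ne'
    have e2 : (2 : ℕ) - 1 = 1 := rfl
    rw [smul_eq_mul, e2, pow_one]
    field_simp
  · rw [indicator_of_notMem hy, indicator_of_notMem hy]
    simp

lemma fr_intOn (N C : ℝ) : IntegrableOn (fun y : ℝ => (C / N) ^ 2 * y⁻¹)
    (Icc (Real.exp (-(2 * N))) (Real.exp (2 * N))) := by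
  apply ContinuousOn.integrableOn_Icc
  apply ContinuousOn.mul continuousOn_const
  apply ContinuousOn.inv₀ continuousOn_id
  intro y hy
  exact (lt_of_lt_of_le (Real.exp_pos _) hy.1).ne'

lemma fr_integrable (N C : ℝ) : Integrable (fun z : ℂ => fr N C ‖z‖) := by
  rw [integrable_fun_norm_addHaar volume (f := fr N C), fr_aux]
  exact ((integrable_indicator_iff measurableSet_Icc).mpr (fr_intOn N C)).integrableOn

lemma fr_integral {N : ℝ} (hN : 0 < N) (C : ℝ) :
    ∫ z : ℂ, fr N C ‖z‖ = 8 * Real.pi * C ^ 2 / N := by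
  rw [integral_fun_norm_addHaar volume (fr N C), fr_aux]
  rw [integral_indicator measurableSet_Icc, Measure.restrict_restrict measurableSet_Icc]
  have h1 : Icc (Real.exp (-(2 * N))) (Real.exp (2 * N)) ∩ Ioi 0 =
      Icc (Real.exp (-(2 * N))) (Real.exp (2 * N)) := by
    apply inter_eq_left.mpr
    intro y hy
    exact lt_of_lt_of_le (Real.exp_pos _) hy.1
  rw [h1, integral_Icc_eq_integral_Ioc, ← intervalIntegral.integral_of_le
    (Real.exp_le_exp.mpr (by linarith)), intervalIntegral.integral_const_mul,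
    integral_inv_of_pos (Real.exp_pos _) (Real.exp_pos _), ← Real.exp_sub, Real.log_exp]
  rw [Complex.finrank_real_complex]
  have h2 : volume.real (Metric.ball (0 : ℂ) 1) = Real.pi := by
    rw [Measure.real, Complex.volume_ball]
    simp
  rw [h2]
  simp only [nsmul_eq_mul, smul_eq_mul]
  field_simp
  push_cast
  ring

end CUTL

open CUTL

theorem t_CUT : S_CUT := by
  intro ε hε
  obtain ⟨C, hC0, hC⟩ := PP_bound
  obtain ⟨N, hN⟩ : ∃ N : ℝ, 2 ≤ N ∧ 32 * Real.pi * C ^ 2 / N ≤ ε := by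
    refine ⟨max 2 (32 * Real.pi * C ^ 2 / ε), le_max_left _ _, ?_⟩
    rw [div_le_iff₀ (lt_of_lt_of_le (by norm_num) (le_max_left _ _))]
    have := le_max_right 2 (32 * Real.pi * C ^ 2 / ε)
    rw [div_le_iff₀ hε] at this
    linarith
  have hN0 : 0 < N := by linarith [hN.1]
  set χ : ℂ → ℝ := fun z => q N z * q N (z - 1) with hχ
  have hsm : ContDiff ℝ SM χ :=
    (q_contDiff hN0).mul ((q_contDiff hN0).comp (contDiff_id.sub contDiff_const))
  have hcl : IsClosed {z : ℂ | z ∈ Ann N ∧ z - 1 ∈ Ann N} :=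
    (isClosed_Ann N).inter ((isClosed_Ann N).preimage (continuous_id.sub continuous_const))
  have hts : tsupport χ ⊆ {z : ℂ | z ∈ Ann N ∧ z - 1 ∈ Ann N} := by
    apply closure_minimal _ hcl
    intro z hz
    rw [Function.mem_support] at hz
    constructor
    · by_contra h
      exact hz (by simp [hχ, q_zero_of_notMem hN0 h])
    · by_contra h
      exact hz (by simp [hχ, q_zero_of_notMem hN0 h])
  have hcs : HasCompactSupport χ := by
    refine IsCompact.of_isClosed_subset (isCompact_closedBall (0 : ℂ) (Real.exp (2 * N)))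
      (isClosed_tsupport χ) ?_
    intro z hz
    simpa using (hts hz).1.2
  refine ⟨χ, hsm, hcs, ?_, ?_, ?_⟩
  · intro z hz
    obtain ⟨h1, h2⟩ := hts hz
    refine ⟨?_, ?_⟩
    · rintro rfl
      have := h1.1
      rw [norm_zero] at this
      exact absurd this (not_le.mpr (Real.exp_pos _))
    · rintro rfl
      have := h2.1
      rw [sub_self, norm_zero] at this
      exact absurd this (not_le.mpr (Real.exp_pos _))
  · intro z hz
    have hz' : ‖z - 1 / 2‖ < 1 / 8 := by simpa [dist_eq_norm] using hz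
    have key : ∀ w : ℂ, 3 / 8 ≤ ‖w‖ → ‖w‖ ≤ 1 → q N w = 1 := by
      intro w h1 h2
      have hp : 0 < ‖w‖ := by linarith
      apply q_eq_one hN0 (norm_pos_iff.mp hp)
      rw [abs_of_nonpos (Real.log_nonpos hp.le h2)]
      have h3 : -Real.log ‖w‖ = Real.log (‖w‖⁻¹) := (Real.log_inv _).symm
      have h4 : Real.log (‖w‖⁻¹) ≤ ‖w‖⁻¹ - 1 := Real.log_le_sub_one_of_pos (inv_pos.mpr hp)
      have h5 : ‖w‖⁻¹ ≤ (3 / 8)⁻¹ := inv_anti₀ (by norm_num) h1
      rw [h3]
      have h6 : ((3 : ℝ) / 8)⁻¹ = 8 / 3 := by norm_num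
      linarith [hN.1]
    have e1 : ‖(1 / 2 : ℂ)‖ = 1 / 2 := by norm_num
    have e2 : ‖(-1 / 2 : ℂ)‖ = 1 / 2 := by norm_num
    have a1 : q N z = 1 := by
      apply key
      · have := norm_sub_norm_le (1 / 2 : ℂ) (1 / 2 - z)
        rw [norm_sub_rev (1 / 2 : ℂ) z, e1, sub_sub_cancel] at this
        linarith
      · have := norm_add_le (z - 1 / 2) (1 / 2)
        rw [sub_add_cancel, e1] at this
        linarith
    have a2 : q N (z - 1) = 1 := by
      have e3 : z - 1 = (z - 1 / 2) + (-1 / 2) := by ring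
      apply key
      · have h := norm_sub_norm_le (-1 / 2 : ℂ) (-(z - 1 / 2))
        rw [norm_neg, e2, sub_neg_eq_add, add_comm, ← e3] at h
        linarith
      · rw [e3]
        have := norm_add_le (z - 1 / 2) (-1 / 2)
        rw [e2] at this
        linarith
    simp only [hχ, a1, a2, mul_one]
  · -- the energy
    have hpt : ∀ z : ℂ, ‖dz1 (fun w => ((χ w : ℝ) : ℂ)) z‖ ^ 2 ≤
        2 * fr N C ‖z‖ + 2 * fr N C ‖z - 1‖ := by
      intro z
      have hd1 : DifferentiableAt ℝ (q N) z := (q_contDiff hN0).differentiable (by simp) z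
      have hd2 : DifferentiableAt ℝ (q N) (z - 1) := (q_contDiff hN0).differentiable (by simp) _
      have hd3 : HasFDerivAt (fun w => q N (w - 1)) (fderiv ℝ (q N) (z - 1)) z := by
        have h0 := hd2.hasFDerivAt.comp z ((hasFDerivAt_id z).sub_const 1)
        rw [ContinuousLinearMap.comp_id] at h0
        exact h0
      have hd4 : HasFDerivAt χ (q N z • fderiv ℝ (q N) (z - 1) + q N (z - 1) • fderiv ℝ (q N) z) z :=
        hd1.hasFDerivAt.mul hd3
      have hd5 : HasFDerivAt (fun w => ((χ w : ℝ) : ℂ)) (Complex.ofRealCLM.comp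
          (q N z • fderiv ℝ (q N) (z - 1) + q N (z - 1) • fderiv ℝ (q N) z)) z :=
        Complex.ofRealCLM.hasFDerivAt.comp z hd4
      set D := q N z • fderiv ℝ (q N) (z - 1) + q N (z - 1) • fderiv ℝ (q N) z with hD
      have hb : ‖D‖ ≤ ‖fderiv ℝ (q N) (z - 1)‖ + ‖fderiv ℝ (q N) z‖ := by
        rw [hD]
        refine (norm_add_le _ _).trans ?_
        rw [norm_smul, norm_smul]
        have i1 := q_abs N z
        have i2 := q_abs N (z - 1)
        rw [← Real.norm_eq_abs] at i1 i2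
        have j1 := mul_le_mul_of_nonneg_right i1 (norm_nonneg (fderiv ℝ (q N) (z - 1)))
        have j2 := mul_le_mul_of_nonneg_right i2 (norm_nonneg (fderiv ℝ (q N) z))
        linarith
      have hc : ‖dz1 (fun w => ((χ w : ℝ) : ℂ)) z‖ ≤ ‖D‖ := by
        unfold dz1
        rw [hd5.fderiv]
        have k1 : ‖Complex.ofRealCLM.comp D (1 : ℂ)‖ ≤ ‖D‖ := by
          rw [ContinuousLinearMap.comp_apply, Complex.ofRealCLM_apply, Complex.norm_real]
          simpa using D.le_opNorm 1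
        have k2 : ‖Complex.ofRealCLM.comp D Complex.I‖ ≤ ‖D‖ := by
          rw [ContinuousLinearMap.comp_apply, Complex.ofRealCLM_apply, Complex.norm_real]
          simpa using D.le_opNorm Complex.I
        rw [norm_div]
        have k3 := norm_sub_le (Complex.ofRealCLM.comp D (1 : ℂ))
          (Complex.I * Complex.ofRealCLM.comp D Complex.I)
        rw [norm_mul, Complex.norm_I, one_mul] at k3
        rw [div_le_iff₀ (by norm_num)]
        have k4 : ‖(2 : ℂ)‖ = 2 := by norm_num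
        rw [k4]
        linarith
      have b1 := q_fderiv_le hN0 hC z
      have b2 := q_fderiv_le hN0 hC (z - 1)
      rw [fr_norm, fr_norm]
      set x1 := (Ann N).indicator (fun w => C / N * ‖w‖⁻¹) z
      set x2 := (Ann N).indicator (fun w => C / N * ‖w‖⁻¹) (z - 1)
      have hle : ‖dz1 (fun w => ((χ w : ℝ) : ℂ)) z‖ ≤ x1 + x2 := by linarith
      calc ‖dz1 (fun w => ((χ w : ℝ) : ℂ)) z‖ ^ 2 ≤ (x1 + x2) ^ 2 :=
            pow_le_pow_left₀ (norm_nonneg _) hle 2
        _ ≤ 2 * x1 ^ 2 + 2 * x2 ^ 2 := by nlinarith [sq_nonneg (x1 - x2)]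
    have hi1 := fr_integrable N C
    have hi2 : Integrable (fun z : ℂ => fr N C ‖z - 1‖) := hi1.comp_sub_right 1
    have hI2 : ∫ z : ℂ, fr N C ‖z - 1‖ = ∫ z : ℂ, fr N C ‖z‖ :=
      integral_sub_right_eq_self (fun z : ℂ => fr N C ‖z‖) 1
    calc ∫ z, ‖dz1 (fun w => ((χ w : ℝ) : ℂ)) z‖ ^ 2
        ≤ ∫ z : ℂ, (2 * fr N C ‖z‖ + 2 * fr N C ‖z - 1‖) := by
          apply integral_mono_of_nonneg
          · exact Filter.Eventually.of_forall fun z => by positivity
          · exact (hi1.const_mul 2).add (hi2.const_mul 2)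
          · exact Filter.Eventually.of_forall hpt
      _ = 32 * Real.pi * C ^ 2 / N := by
          rw [integral_add (hi1.const_mul 2) (hi2.const_mul 2), integral_const_mul,
            integral_const_mul, hI2, fr_integral hN0]
          ring
      _ ≤ ε := hN.2

end Pool.Agent.H794.KM
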