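import Pool.Agent.H794.KM.Spec

/-!
Project KM, leaf DET (helper71): the determinant of the metric.
-/

namespace Pool.Agent.H794.KM

open MeasureTheory Set Filter Topology
open scoped ComplexOrder

namespace DETL

theorem gam_pos {k : ℕ} {F : (Fin 2 → ℝ) → ℝ} (hF : Good k F) : ∀ s ∈ Sq, 0 < Gam F s := by
  intro s hs
  obtain ⟨c, hc, hell⟩ := hF.ell
  obtain ⟨_, hq⟩ := hell s hs
  have h0 := (hs 0).1
  have h1 := (hs 1).1
  have h0' : 0 < 1 - s 0 := sub_pos.2 (hs 0).2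
  have h1' : 0 < 1 - s 1 := sub_pos.2 (hs 1).2
  have hsq : Real.sqrt (s 0 * s 1) ^ 2 = s 0 * s 1 := Real.sq_sqrt (mul_nonneg h0 h1)
  unfold Gam
  set A := pd 0 F s + s 0 * pd 0 (pd 0 F) s with hA
  set B := pd 1 F s + s 1 * pd 1 (pd 1 F) s with hB
  set D := Real.sqrt (s 0 * s 1) * pd 1 (pd 0 F) s with hD
  have hDD : s 0 * s 1 * pd 1 (pd 0 F) s ^ 2 = D ^ 2 := by
    rw [hD, mul_pow, hsq]
  have hQ : ∀ x : Fin 2 → ℝ, QF F s x = A * x 0 ^ 2 + B * x 1 ^ 2 + 2 * D * x 0 * x 1 := by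
    intro x
    unfold QF
    rw [Fin.sum_univ_two, hA, hB, hD]
    ring
  have hq' : ∀ x0 x1 : ℝ, c * (x0 ^ 2 / (1 - s 0) ^ 2 + x1 ^ 2 / (1 - s 1) ^ 2) ≤
      A * x0 ^ 2 + B * x1 ^ 2 + 2 * D * x0 * x1 := by
    intro x0 x1
    have h := hq ![x0, x1]
    rw [hQ, Fin.sum_univ_two] at h
    simpa using h
  have hBpos : 0 < B := by
    have h := hq' 0 1
    have h2 : 0 < c * (0 ^ 2 / (1 - s 0) ^ 2 + 1 ^ 2 / (1 - s 1) ^ 2) := by positivity
    nlinarith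
  have h3 := hq' B (-D)
  have h4 : 0 < c * (B ^ 2 / (1 - s 0) ^ 2 + (-D) ^ 2 / (1 - s 1) ^ 2) := by positivity
  have h5 : A * B ^ 2 + B * (-D) ^ 2 + 2 * D * B * (-D) = B * (A * B - D ^ 2) := by ring
  rw [hDD]
  rw [h5] at h3
  exact (mul_pos_iff_of_pos_left hBpos).1 (lt_of_lt_of_le h4 h3)

theorem ell_pos {k : ℕ} {F : (Fin 2 → ℝ) → ℝ} (hF : Good k F) :
    ∀ s ∈ Sq, ∀ a, 0 < (k : ℝ) + 2 + s a * pd a F s := by
  intro s hs a
  obtain ⟨c, hc, hell⟩ := hF.ell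
  exact lt_of_lt_of_le hc ((hell s hs).1 a)

theorem sm_coord (s : Fin 2 → ℝ) (a : Fin 2) : ContDiffAt ℝ SM (fun s' : Fin 2 → ℝ => s' a) s :=
  contDiffAt_apply ℝ ℝ a s

theorem sm_UU (h1 : S_PDR) {k : ℕ} {F : (Fin 2 → ℝ) → ℝ} (hF : Good k F) : SmS (UU k F) := by
  intro s hs
  have hpd : ∀ (G : (Fin 2 → ℝ) → ℝ), ContDiffAt ℝ SM G s → ∀ a, ContDiffAt ℝ SM (pd a G) s :=
    fun G hG a => ((h1 G G s a a).2.2.2.2.2.2.1 hG).2.1
  have hFs := hF.sm s hs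
  have hk : ∀ a, ContDiffAt ℝ SM (fun s' : Fin 2 → ℝ => (k : ℝ) + 2 + s' a * pd a F s') s :=
    fun a => contDiffAt_const.add ((sm_coord s a).mul (hpd F hFs a))
  have hg : ∀ a, ContDiffAt ℝ SM (fun s' : Fin 2 → ℝ => pd a F s' + s' a * pd a (pd a F) s') s :=
    fun a => (hpd F hFs a).add ((sm_coord s a).mul (hpd _ (hpd F hFs a) a))
  have hG : ContDiffAt ℝ SM (Gam F) s :=
    ((hg 0).mul (hg 1)).sub (((sm_coord s 0).mul (sm_coord s 1)).mul
      ((hpd _ (hpd F hFs 0) 1).pow 2))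
  have hN : ContDiffAt ℝ SM (NN k F) s := by
    have h2 : ContDiffAt ℝ SM
        (fun s' : Fin 2 → ℝ => ∑ a, Real.log ((k : ℝ) + 2 + s' a * pd a F s')) s :=
      ContDiffAt.sum fun a _ => (hk a).log (ell_pos hF s hs a).ne'
    exact (contDiffAt_const.mul h2).add (hG.log (gam_pos hF s hs).ne')
  exact hFs.sub hN

end DETL

open DETL in
theorem t_DET (h1 : S_PDR) (h2 : S_SSD) (h3 : S_FRA) (h4 : S_HGP) (h5 : S_BAS) : S_DET := by
  intro k r hr F hF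
  refine ⟨gam_pos hF, sm_UU h1 hF, fun p hp => ?_⟩
  have hs : ss k r p ∈ Sq := (h2 k r hr).2.2.1 p hp
  have hM : ∀ x, p (Sum.inl x) ∈ M := hp.1
  have hh0 : ∀ a, 0 < hh k r p a := fun a => Real.exp_pos _
  have hbet : ∀ x, 0 < bet k r (p (Sum.inl x)) := fun x => (h5 k r hr _ (hM x)).2.2.2.2.2.1
  have hlogb : ∀ x, Real.log (bet k r (p (Sum.inl x))) =
      ((k : ℝ) + 1) * lam k r (p (Sum.inl x)) - Real.log (2 * ((k : ℝ) + 1)) :=
    fun x => (h5 k r hr _ (hM x)).2.2.2.2.2.2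
  have hell := ell_pos hF _ hs
  have hgam := gam_pos hF _ hs
  have hdet : (gm k r F p).det = (((∏ x, (((k : ℝ) + 2 + ss k r p x.1 * pd x.1 F (ss k r p)) *
      bet k r (p (Sum.inl x)))) * (hh k r p 0 * hh k r p 1 * Gam F (ss k r p)) : ℝ) : ℂ) := by
    unfold gm
    rw [(h3 k (Tm k r p)).2.1, (h4 k r hr F hF.sm p hp).2.1, ← Complex.ofReal_prod,
      ← Complex.ofReal_mul]
  have hprod : 0 < ∏ x : Fin 2 × Fin k, (((k : ℝ) + 2 + ss k r p x.1 * pd x.1 F (ss k r p)) *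
      bet k r (p (Sum.inl x))) :=
    Finset.prod_pos fun x _ => mul_pos (hell x.1) (hbet x)
  have hrest : 0 < hh k r p 0 * hh k r p 1 * Gam F (ss k r p) :=
    mul_pos (mul_pos (hh0 0) (hh0 1)) hgam
  refine ⟨hdet, ?_, ?_⟩
  · rw [hdet, Complex.ofReal_re]
    exact mul_pos hprod hrest
  · rw [hdet, Complex.ofReal_re, Real.log_mul hprod.ne' hrest.ne',
      Real.log_prod fun x _ => (mul_pos (hell x.1) (hbet x)).ne',
      Real.log_mul (mul_pos (hh0 0) (hh0 1)).ne' hgam.ne', Real.log_mul (hh0 0).ne' (hh0 1).ne']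
    have e1 : ∀ x : Fin 2 × Fin k, Real.log ((((k : ℝ) + 2 + ss k r p x.1 * pd x.1 F (ss k r p)) *
        bet k r (p (Sum.inl x)))) =
        Real.log ((k : ℝ) + 2 + ss k r p x.1 * pd x.1 F (ss k r p)) +
          (((k : ℝ) + 1) * lam k r (p (Sum.inl x)) - Real.log (2 * ((k : ℝ) + 1))) := by
      intro x
      rw [Real.log_mul (hell x.1).ne' (hbet x).ne', hlogb]
    have e2 : ∀ a, Real.log (hh k r p a) = ∑ j, lam k r (p (Sum.inl (a, j))) := by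
      intro a
      unfold hh
      rw [Real.log_exp]
    rw [Finset.sum_congr rfl fun x _ => e1 x, e2, e2, Fintype.sum_prod_type,
      Fintype.sum_prod_type, Fin.sum_univ_two, Fin.sum_univ_two]
    unfold NN
    rw [Fin.sum_univ_two]
    simp only [Finset.sum_add_distrib, Finset.sum_sub_distrib, Finset.sum_const,
      Finset.card_univ, Fintype.card_fin, nsmul_eq_mul, ← Finset.mul_sum]
    ring

end Pool.Agent.H794.KM
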