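import Pool.Agent.H794.KM.Spec

namespace Pool.Agent.H794.KM

open MeasureTheory Set Filter Topology
open scoped ComplexOrder

namespace DVGL

theorem wL_apply {ι : Type} [Fintype ι] (a b v : ι → ℂ) :
    wL a b v = ∑ i, (a i * v i + b i * (starRingEnd ℂ) (v i)) := by
  unfold wL wl
  rw [sum_apply]
  refine Finset.sum_congr rfl fun i _ => ?_
  simp

theorem fderiv_dir_zero {E : Type} [NormedAddCommGroup E] [NormedSpace ℝ E] {G : Type}
    [NormedAddCommGroup G] [NormedSpace ℝ G] {f : E → G} {p v : E} (hf : DifferentiableAt ℝ f p)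
    (h : ∀ t : ℝ, f (p + t • v) = f p) : fderiv ℝ f p v = 0 := by
  rw [← hf.lineDeriv_eq_fderiv]
  unfold lineDeriv
  have h1 : (fun t : ℝ => f (p + t • v)) = fun _ => f p := funext h
  rw [h1, deriv_const]

/-- the chain rule for a function of real functions -/
theorem chain {ι : Type} [Fintype ι] (s : (ι → ℂ) → Fin 2 → ℝ) (p : ι → ℂ)
    (a b : Fin 2 → ι → ℂ) (hs : ∀ c, HW (fun q => ((s q c : ℝ) : ℂ)) p (a c) (b c))
    (G : (Fin 2 → ℝ) → ℝ)
    (hG : HasFDerivAt G (∑ c, pd c G (s p) •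
      (ContinuousLinearMap.proj (R := ℝ) c : (Fin 2 → ℝ) →L[ℝ] ℝ)) (s p)) :
    HW (fun q => ((G (s q) : ℝ) : ℂ)) p (fun i => ∑ c, ((pd c G (s p) : ℝ) : ℂ) * a c i)
      (fun i => ∑ c, ((pd c G (s p) : ℝ) : ℂ) * b c i) := by
  have h1 : ∀ c, HasFDerivAt (fun q => s q c) (Complex.reCLM.comp (wL (a c) (b c))) p := by
    intro c
    exact Complex.reCLM.hasFDerivAt.comp p (hs c)
  have h2 : ∀ c, Complex.ofRealCLM.comp (Complex.reCLM.comp (wL (a c) (b c))) = wL (a c) (b c) := by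
    intro c
    exact (Complex.ofRealCLM.hasFDerivAt.comp p (h1 c)).unique (hs c)
  have h3 : HasFDerivAt s (ContinuousLinearMap.pi fun c =>
      Complex.reCLM.comp (wL (a c) (b c))) p := hasFDerivAt_pi.2 h1
  have h4 := Complex.ofRealCLM.hasFDerivAt.comp p (hG.comp p h3)
  unfold HW
  refine HasFDerivAt.congr_fderiv h4 ?_
  ext v
  have h5 : ∀ c, ((Complex.reCLM (wL (a c) (b c) v) : ℝ) : ℂ) = wL (a c) (b c) v := fun c =>
    DFunLike.congr_fun (h2 c) v
  rw [wL_apply]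
  have h6 : (Complex.ofRealCLM.comp ((∑ c, pd c G (s p) •
      (ContinuousLinearMap.proj (R := ℝ) c : (Fin 2 → ℝ) →L[ℝ] ℝ)).comp
      (ContinuousLinearMap.pi fun c => Complex.reCLM.comp (wL (a c) (b c))))) v =
      ∑ c, ((pd c G (s p) : ℝ) : ℂ) * wL (a c) (b c) v := by
    simp only [ContinuousLinearMap.comp_apply, sum_apply,
      smul_apply, ContinuousLinearMap.proj_apply,
      ContinuousLinearMap.pi_apply, Complex.ofRealCLM_apply, smul_eq_mul]
    rw [Complex.ofReal_sum]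
    refine Finset.sum_congr rfl fun c _ => ?_
    rw [Complex.ofReal_mul, h5 c]
  refine h6.trans ?_
  simp only [wL_apply, Finset.mul_sum, Finset.sum_mul]
  rw [Finset.sum_comm]
  refine Finset.sum_congr rfl fun i _ => ?_
  rw [← Finset.sum_add_distrib]
  refine Finset.sum_congr rfl fun c _ => ?_
  ring

theorem cd_pd (h2 : S_PDR) {F : (Fin 2 → ℝ) → ℝ} {s : Fin 2 → ℝ} (h : ContDiffAt ℝ SM F s)
    (a : Fin 2) : ContDiffAt ℝ SM (pd a F) s := ((h2 F F s a a).2.2.2.2.2.2.1 h).2.1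

theorem cd_co (s : Fin 2 → ℝ) (a : Fin 2) : ContDiffAt ℝ SM (fun s' : Fin 2 → ℝ => s' a) s :=
  (contDiff_apply ℝ ℝ a).contDiffAt

theorem cd_Gam (h2 : S_PDR) {F : (Fin 2 → ℝ) → ℝ} {s : Fin 2 → ℝ} (h : ContDiffAt ℝ SM F s) :
    ContDiffAt ℝ SM (Gam F) s := by
  have e : ∀ a, ContDiffAt ℝ SM (pd a F) s := fun a => cd_pd h2 h a
  have e2 : ∀ a b, ContDiffAt ℝ SM (pd b (pd a F)) s := fun a b => cd_pd h2 (e a) b
  exact (((e 0).add ((cd_co s 0).mul (e2 0 0))).mul ((e 1).add ((cd_co s 1).mul (e2 1 1)))).sub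
    (((cd_co s 0).mul (cd_co s 1)).mul ((e2 0 1).pow 2))

theorem cd_PP (h2 : S_PDR) (k : ℕ) {F : (Fin 2 → ℝ) → ℝ} {s : Fin 2 → ℝ}
    (h : ContDiffAt ℝ SM F s) : ContDiffAt ℝ SM (PP k F) s := by
  have e : ∀ a, ContDiffAt ℝ SM (pd a F) s := fun a => cd_pd h2 h a
  refine ContDiffAt.mul (contDiffAt_prod fun a _ => ?_) (cd_Gam h2 h)
  exact (contDiffAt_const.add ((cd_co s a).mul (e a))).pow k

theorem cd_alp (h2 : S_PDR) {F ph : (Fin 2 → ℝ) → ℝ} {s : Fin 2 → ℝ} (h : ContDiffAt ℝ SM F s)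
    (hp : ContDiffAt ℝ SM ph s) (hG : Gam F s ≠ 0) (a : Fin 2) :
    ContDiffAt ℝ SM (alp F ph a) s := by
  have e : ∀ a, ContDiffAt ℝ SM (pd a F) s := fun a => cd_pd h2 h a
  have e2 : ∀ a b, ContDiffAt ℝ SM (pd b (pd a F)) s := fun a b => cd_pd h2 (e a) b
  have e3 : ∀ a, ContDiffAt ℝ SM (pd a ph) s := fun a => cd_pd h2 hp a
  exact ((((e (1 - a)).add ((cd_co s (1 - a)).mul (e2 (1 - a) (1 - a)))).mul (e3 a)).sub
    (((cd_co s (1 - a)).mul (e2 0 1)).mul (e3 (1 - a)))).div (cd_Gam h2 h) hG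

/-- the linear system -/
theorem alp_eq {F ph : (Fin 2 → ℝ) → ℝ} {s : Fin 2 → ℝ} (hG : Gam F s ≠ 0)
    (hsym : pd 0 (pd 1 F) s = pd 1 (pd 0 F) s) (b : Fin 2) :
    pd b F s * alp F ph b s + ∑ a, s a * pd b (pd a F) s * alp F ph a s = pd b ph s := by
  have h0 : (1 - 0 : Fin 2) = 1 := rfl
  have h1 : (1 - 1 : Fin 2) = 0 := rfl
  have hG' : Gam F s = (pd 0 F s + s 0 * pd 0 (pd 0 F) s) * (pd 1 F s + s 1 * pd 1 (pd 1 F) s) -
    s 0 * s 1 * pd 1 (pd 0 F) s ^ 2 := rfl
  fin_cases b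
  · simp only [Fin.zero_eta, Fin.sum_univ_two, alp, h0, h1]
    rw [hsym]
    generalize Gam F s = G at hG hG'
    field_simp
    rw [hG']
    ring
  · simp only [Fin.mk_one, Fin.sum_univ_two, alp, h0, h1]
    generalize Gam F s = G at hG hG'
    field_simp
    rw [hG']
    ring

end DVGL

open DVGL

theorem t_DVG (h1 : S_WIR) (h2 : S_PDR) (h3 : S_SSD) (h4 : S_FRA) (h5 : S_HGP) (h6 : S_DET)
    (h7 : S_BAS) : S_DVG := by
  intro k r hr F hF ph hph p hp
  obtain ⟨hXo, hMo, hSq, hss⟩ := h3 k r hr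
  obtain ⟨hGam, hUU, hdet⟩ := h6 k r hr F hF
  have hW := h1 (Ix k)
  -- the determinant
  have det_eq : ∀ q ∈ XX k r, (gm k r F q).det.re =
      (∏ x, bet k r (q (Sum.inl x))) * (hh k r q 0 * hh k r q 1) * PP k F (ss k r q) := by
    intro q hq
    rw [(hdet q hq).1, Complex.ofReal_re, Finset.prod_mul_distrib]
    have e1 : ∏ x : Fin 2 × Fin k, ((k : ℝ) + 2 + ss k r q x.1 * pd x.1 F (ss k r q)) =
        ∏ a, ((k : ℝ) + 2 + ss k r q a * pd a F (ss k r q)) ^ k := by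
      rw [Fintype.prod_prod_type]
      refine Finset.prod_congr rfl fun a _ => ?_
      show ∏ _y : Fin k, ((k : ℝ) + 2 + ss k r q a * pd a F (ss k r q)) = _
      rw [Finset.prod_const, Finset.card_univ, Fintype.card_fin]
    rw [e1]
    unfold PP
    ring
  have hpM := hp.1
  have hsp := hSq p hp
  have hFs := hF.sm _ hsp
  have hphs := hph _ hsp
  have hG0 : Gam F (ss k r p) ≠ 0 := (hGam _ hsp).ne'
  have hsym : pd 0 (pd 1 F) (ss k r p) = pd 1 (pd 0 F) (ss k r p) :=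
    ((h2 F F (ss k r p) 0 1).2.2.2.2.2.2.1 hFs).2.2.2
  have hHW := fun c => (hss p hpM c).2.2.2.1
  refine ⟨?_, ?_, det_eq p hp⟩
  · -- the vector field
    intro j
    have c1 := chain (fun q => ss k r q) p _ _ hHW ph
      ((h2 ph ph (ss k r p) 0 0).2.2.2.2.2.2.1 hphs).2.2.1
    rw [(hW.1 _ _ _ _ c1 j).2]
    have hfr := (h4 k (Tm k r p)).1
    have e1 : ∀ i, gm k r F p i j = _ := fun i => hfr _ _ i j
    simp only [e1]
    rw [Fintype.sum_sum_type]
    simp only [Sum.elim_inl, Sum.elim_inr, zero_mul, Finset.sum_const_zero, zero_add]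
    have e2 : ∀ a c : Fin 2, cof (Tm k r p) a (Sum.inr c) = if a = c then 1 else 0 := fun a c => rfl
    simp only [e2]
    have e3 : ∀ c : Fin 2, (∑ a, ∑ b, hG k r F p a b * (if a = c then (1 : ℂ) else 0) *
        (starRingEnd ℂ) (cof (Tm k r p) b j)) =
        ∑ b, hG k r F p c b * (starRingEnd ℂ) (cof (Tm k r p) b j) := by
      intro c
      rw [Finset.sum_comm]
      refine Finset.sum_congr rfl fun b _ => ?_
      simp
    simp only [e3, Finset.mul_sum]
    rw [Finset.sum_comm]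
    refine Finset.sum_congr rfl fun b _ => ?_
    have hsys := alp_eq (ph := ph) hG0 hsym b
    have hs : ∀ a, ((ss k r p a : ℝ) : ℂ) = p (Sum.inr a) * (starRingEnd ℂ) (p (Sum.inr a)) *
        ((hh k r p a : ℝ) : ℂ) := by
      intro a
      unfold ss
      push_cast
      rw [Complex.mul_conj, Complex.normSq_eq_norm_sq]
      push_cast
      ring
    have hsysC : ((pd b ph (ss k r p) : ℝ) : ℂ) =
        ((pd b F (ss k r p) : ℝ) : ℂ) * ((alp F ph b (ss k r p) : ℝ) : ℂ) +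
        ∑ a, ((ss k r p a : ℝ) : ℂ) * ((pd b (pd a F) (ss k r p) : ℝ) : ℂ) *
          ((alp F ph a (ss k r p) : ℝ) : ℂ) := by
      rw [← hsys]
      push_cast
      rfl
    rw [hsysC]
    unfold hG
    simp only [Matrix.of_apply, hs]
    fin_cases b
    · simp [Fin.sum_univ_two]
      ring
    · simp [Fin.sum_univ_two]
      ring
  · -- the divergence
    set B : (Ix k → ℂ) → ℝ := fun q =>
      (∏ x, bet k r (q (Sum.inl x))) * (hh k r q 0 * hh k r q 1) with hB
    have hBc : ContDiffAt ℝ SM B p := by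
      refine ContDiffAt.mul (contDiffAt_prod fun x _ => ?_)
        (((hss p hpM 0).1).mul ((hss p hpM 1).1))
      have b1 := (h7 k r hr (p (Sum.inl x)) (hpM x)).2.2.2.2.1
      exact ContDiffAt.comp (g := bet k r) (f := fun q : Ix k → ℂ => q (Sum.inl x)) p b1
        (contDiff_apply ℝ ℂ (Sum.inl x : Ix k)).contDiffAt
    have hBd : DifferentiableAt ℝ (fun q => ((B q : ℝ) : ℂ)) p :=
      Complex.ofRealCLM.differentiableAt.comp p (hBc.differentiableAt (by simp))
    have hB0 : ∀ (a : Fin 2), dz (Sum.inr a : Ix k) (fun q => ((B q : ℝ) : ℂ)) p = 0 := by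
      intro a
      have b1 : ∀ w : ℂ, fderiv ℝ (fun q => ((B q : ℝ) : ℂ)) p (Pi.single (Sum.inr a : Ix k) w) = 0 := by
        intro w
        refine fderiv_dir_zero hBd fun t => ?_
        have b2 : ∀ x, (p + t • (Pi.single (Sum.inr a : Ix k) w : Ix k → ℂ)) (Sum.inl x) =
            p (Sum.inl x) := by
          intro x
          simp
        simp only [hB, hh, b2]
      unfold dz
      rw [b1, b1]
      simp
    have hBW := hW.2.1 _ _ hBd
    have term : ∀ a : Fin 2, dz (Sum.inr a : Ix k) (fun q => (((gm k r F q).det.re : ℝ) : ℂ) *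
        (((alp F ph a (ss k r q) : ℝ) : ℂ) * q (Sum.inr a))) p =
        ((B p * (PP k F (ss k r p) * alp F ph a (ss k r p) + ss k r p a *
          pd a (fun s' => PP k F s' * alp F ph a s') (ss k r p)) : ℝ) : ℂ) := by
      intro a
      set Φ : (Fin 2 → ℝ) → ℝ := fun s' => PP k F s' * alp F ph a s' with hΦ
      have hΦc : ContDiffAt ℝ SM Φ (ss k r p) := (cd_PP h2 k hFs).mul (cd_alp h2 hFs hphs hG0 a)
      have c1 := chain (fun q => ss k r q) p _ _ hHW Φ
        ((h2 Φ Φ (ss k r p) 0 0).2.2.2.2.2.2.1 hΦc).2.2.1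
      have c2 : HW (fun q : Ix k → ℂ => q (Sum.inr a)) p
          (fun i => if i = (Sum.inr a : Ix k) then 1 else 0)
          (fun i => if i = (Sum.inr a : Ix k) then 0 else 0) := by
        refine hW.2.2.2.2.2 p (Sum.inr a) (fun z => z) 1 0 ?_
        have c3 : wl 1 0 = ContinuousLinearMap.id ℝ ℂ := by
          refine ContinuousLinearMap.ext fun v => ?_
          show (1 : ℂ) * v + (0 : ℂ) * (starRingEnd ℂ) v = v
          ring
        rw [c3]
        exact hasFDerivAt_id _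
      have c4 := hW.2.2.2.1 _ _ _ _ _ _ _ (hW.2.2.2.1 _ _ _ _ _ _ _ hBW c1) c2
      have c5 := (hW.1 _ _ _ _ c4 (Sum.inr a)).1
      have c6 : (fun q => (((gm k r F q).det.re : ℝ) : ℂ) *
          (((alp F ph a (ss k r q) : ℝ) : ℂ) * q (Sum.inr a))) =ᶠ[𝓝 p]
          fun q => ((B q : ℝ) : ℂ) * ((Φ (ss k r q) : ℝ) : ℂ) * q (Sum.inr a) := by
        filter_upwards [hXo.mem_nhds hp] with q hq
        rw [det_eq q hq]
        simp only [hB, hΦ]
        push_cast
        ring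
      have c7 : dz (Sum.inr a : Ix k) (fun q => (((gm k r F q).det.re : ℝ) : ℂ) *
          (((alp F ph a (ss k r q) : ℝ) : ℂ) * q (Sum.inr a))) p =
          dz (Sum.inr a : Ix k) (fun q => ((B q : ℝ) : ℂ) * ((Φ (ss k r q) : ℝ) : ℂ) *
            q (Sum.inr a)) p := by
        unfold dz
        rw [c6.fderiv_eq]
      rw [c7, c5, hB0 a]
      have e2 : ∀ c : Fin 2, cof (Tm k r p) c (Sum.inr a) = if c = a then 1 else 0 := fun c => rfl
      have e4 : ∑ c, ((pd c Φ (ss k r p) : ℝ) : ℂ) * (((hh k r p c : ℝ) : ℂ) *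
          (starRingEnd ℂ) (p (Sum.inr c)) * cof (Tm k r p) c (Sum.inr a)) =
          ((pd a Φ (ss k r p) : ℝ) : ℂ) * (((hh k r p a : ℝ) : ℂ) *
          (starRingEnd ℂ) (p (Sum.inr a))) := by
        simp only [e2]
        simp
      have hs : ((ss k r p a : ℝ) : ℂ) = p (Sum.inr a) * (starRingEnd ℂ) (p (Sum.inr a)) *
          ((hh k r p a : ℝ) : ℂ) := by
        unfold ss
        push_cast
        rw [Complex.mul_conj, Complex.normSq_eq_norm_sq]
        push_cast
        ring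
      rw [e4]
      have hΦp : Φ (ss k r p) = PP k F (ss k r p) * alp F ph a (ss k r p) := rfl
      rw [← hΦp]
      push_cast
      rw [hs]
      simp only [if_true]
      ring
    rw [Fintype.sum_sum_type]
    simp only [Sum.elim_inl, Sum.elim_inr, mul_zero]
    have z1 : ∀ x : Fin 2 × Fin k, dz (Sum.inl x : Ix k) (fun _ : Ix k → ℂ => (0 : ℂ)) p = 0 := by
      intro x
      unfold dz
      simp
    simp only [z1, Finset.sum_const_zero, zero_add, term]
    rw [← Complex.ofReal_sum, Complex.ofReal_re, ← Finset.mul_sum]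
    rfl

end Pool.Agent.H794.KM
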