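import Mathlib

/-!
Kähler metrics on open subsets of `ℂ^ι` (`ι` a finite type), their Ricci form, completeness and
the bottom of the spectrum.

A Kähler metric `ω = √-1 ∑ g_{i j̄} dz_i ∧ dz̄_j` on an open set `X ⊆ ℂ^ι` is given by the matrix
valued function `g`, with `g p i j = g_{i j̄}(p)`.
-/

namespace Pool.Agent.H794.KM

open MeasureTheory Set Filter Topology
open scoped ComplexOrder

/-- The Wirtinger derivative `∂f/∂z_i = (∂f/∂x_i - √-1 ∂f/∂y_i) / 2` at the point `p`. -/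
noncomputable def dz {ι : Type} [Fintype ι] [DecidableEq ι] (i : ι) (f : (ι → ℂ) → ℂ)
    (p : ι → ℂ) : ℂ :=
  (fderiv ℝ f p (Pi.single i 1) - Complex.I * fderiv ℝ f p (Pi.single i Complex.I)) / 2

/-- The Wirtinger derivative `∂f/∂z̄_i = (∂f/∂x_i + √-1 ∂f/∂y_i) / 2` at the point `p`. -/
noncomputable def dzbar {ι : Type} [Fintype ι] [DecidableEq ι] (i : ι) (f : (ι → ℂ) → ℂ)
    (p : ι → ℂ) : ℂ :=
  (fderiv ℝ f p (Pi.single i 1) + Complex.I * fderiv ℝ f p (Pi.single i Complex.I)) / 2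

/-- `ω = √-1 ∑ g_{i j̄} dz_i ∧ dz̄_j` is a Kähler metric on the open set `X ⊆ ℂ^ι`: its
coefficients are smooth on `X`, the matrix `g` is Hermitian positive definite at every point of
`X`, and `dω = 0`, that is `∂g_{i j̄}/∂z_k = ∂g_{k j̄}/∂z_i`. -/
structure IsKahler {ι : Type} [Fintype ι] [DecidableEq ι] (X : Set (ι → ℂ))
    (g : (ι → ℂ) → Matrix ι ι ℂ) : Prop where
  smooth : ∀ i j, ContDiffOn ℝ ((⊤ : ℕ∞) : WithTop ℕ∞) (fun p => g p i j) X
  posDef : ∀ p ∈ X, (g p).PosDef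
  closed : ∀ p ∈ X, ∀ i j k, dz k (fun q => g q i j) p = dz i (fun q => g q k j) p

/-- The Ricci form `Ric(ω) = -√-1 ∂∂̄ log det g`, given by the matrix of its coefficients
`-∂² log det g / ∂z_i ∂z̄_j`. -/
noncomputable def ricci {ι : Type} [Fintype ι] [DecidableEq ι] (g : (ι → ℂ) → Matrix ι ι ℂ)
    (p : ι → ℂ) : Matrix ι ι ℂ :=
  Matrix.of fun i j => - dz i (dzbar j fun q => ((Real.log (g q).det.re : ℝ) : ℂ)) p

/-- The squared length `2 Re ∑ g_{i j̄} v_i v̄_j` of the tangent vector `v` for the Riemannian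
metric `ω(·, J ·)` with Kähler form `ω = √-1 ∑ g_{i j̄} dz_i ∧ dz̄_j`. -/
noncomputable def normSq {ι : Type} [Fintype ι] (g : (ι → ℂ) → Matrix ι ι ℂ) (p v : ι → ℂ) : ℝ :=
  2 * (∑ i, ∑ j, g p i j * v i * (starRingEnd ℂ) (v j)).re

/-- The `C¹` paths in `X` from `p` to `q`, parametrized by `[0, 1]`. -/
def pathsIn {ι : Type} [Fintype ι] (X : Set (ι → ℂ)) (p q : ι → ℂ) : Set (ℝ → ι → ℂ) :=
  {c | ContDiff ℝ 1 c ∧ c 0 = p ∧ c 1 = q ∧ ∀ t ∈ Icc (0 : ℝ) 1, c t ∈ X}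

/-- The length of a path for the Riemannian metric of `ω`. -/
noncomputable def pathLength {ι : Type} [Fintype ι] (g : (ι → ℂ) → Matrix ι ι ℂ)
    (c : ℝ → ι → ℂ) : ℝ :=
  ∫ t in (0 : ℝ)..1, Real.sqrt (normSq g (c t) (deriv c t))

/-- The Riemannian distance of `(X, ω)`: the infimum of the lengths of the paths in `X`. -/
noncomputable def riemDist {ι : Type} [Fintype ι] (X : Set (ι → ℂ))
    (g : (ι → ℂ) → Matrix ι ι ℂ) (p q : ι → ℂ) : ℝ :=
  sInf (pathLength g '' pathsIn X p q)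

/-- `(X, ω)` is complete: every sequence in `X` which is Cauchy for the Riemannian distance
converges, for the Riemannian distance, to a point of `X`. -/
def IsCompleteMetric {ι : Type} [Fintype ι] (X : Set (ι → ℂ))
    (g : (ι → ℂ) → Matrix ι ι ℂ) : Prop :=
  ∀ s : ℕ → ι → ℂ, (∀ m, s m ∈ X) →
    (∀ ε > 0, ∃ m₀ : ℕ, ∀ m ≥ m₀, ∀ k ≥ m₀, riemDist X g (s m) (s k) < ε) →
      ∃ p ∈ X, Tendsto (fun m => riemDist X g (s m) p) atTop (𝓝 0)

/-- The set `𝒦(X)` of the complete Kähler metrics `ω` on `X` with `Ric(ω) ≥ -ω`: the Hermitian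
matrix of the form `Ric(ω) + ω` is positive semidefinite at every point of `X`. -/
def Kcal {ι : Type} [Fintype ι] [DecidableEq ι] (X : Set (ι → ℂ)) :
    Set ((ι → ℂ) → Matrix ι ι ℂ) :=
  {g | IsKahler X g ∧ IsCompleteMetric X g ∧ ∀ p ∈ X, (ricci g p + g p).PosSemidef}

/-- `ω` is Kähler-Einstein with `Ric(ω) = -ω` on `X`. -/
def IsKE {ι : Type} [Fintype ι] [DecidableEq ι] (X : Set (ι → ℂ))
    (g : (ι → ℂ) → Matrix ι ι ℂ) : Prop :=
  ∀ p ∈ X, ricci g p = - g p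

/-- The squared length `|∇f|² = 2 Re ∑ g^{i j̄} (∂f/∂z_i) conj (∂f/∂z_j)` of the gradient of the
real function `f` for the Riemannian metric of `ω`, where `(g^{i j̄})` is the transpose of the
inverse of the matrix `(g_{i j̄})`. -/
noncomputable def gradSq {ι : Type} [Fintype ι] [DecidableEq ι] (g : (ι → ℂ) → Matrix ι ι ℂ)
    (f : (ι → ℂ) → ℝ) (p : ι → ℂ) : ℝ :=
  2 * (∑ i, ∑ j, (g p)⁻¹ j i * dz i (fun q => (f q : ℂ)) p *
    (starRingEnd ℂ) (dz j (fun q => (f q : ℂ)) p)).re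

/-- The density `2ⁿ det g` of the Riemannian volume `ωⁿ / n!` with respect to the Lebesgue
measure of `ℂ^ι = ℝ²ⁿ`, where `n` is the number of elements of `ι`. -/
noncomputable def vol {ι : Type} [Fintype ι] [DecidableEq ι] (g : (ι → ℂ) → Matrix ι ι ℂ)
    (p : ι → ℂ) : ℝ :=
  2 ^ Fintype.card ι * (g p).det.re

/-- The bottom of the spectrum `λ₀(X, ω)`: the infimum of the Rayleigh quotients
`∫_X |∇f|² dV / ∫_X f² dV` over the nonzero smooth real functions `f` with compact support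
in `X`. -/
noncomputable def bottom {ι : Type} [Fintype ι] [DecidableEq ι] (X : Set (ι → ℂ))
    (g : (ι → ℂ) → Matrix ι ι ℂ) : ℝ :=
  sInf {r : ℝ | ∃ f : (ι → ℂ) → ℝ, ContDiff ℝ ((⊤ : ℕ∞) : WithTop ℕ∞) f ∧
    HasCompactSupport f ∧ tsupport f ⊆ X ∧ f ≠ 0 ∧
    r = (∫ p in X, gradSq g f p * vol g p) / ∫ p in X, f p ^ 2 * vol g p}

end Pool.Agent.H794.KM
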