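import Pool.Agent.H794.KM.Spec

namespace Pool.Agent.H794.KM

open MeasureTheory Set Filter Topology

namespace EPQL

theorem pd_smooth {f : (Fin 2 → ℝ) → ℝ} (hf : ContDiff ℝ SM f) (a : Fin 2) :
    ContDiff ℝ SM (pd a f) := by
  have h : ContDiff ℝ SM (fderiv ℝ f) := hf.fderiv_right (by simp)
  exact h.clm_apply contDiff_const

theorem pd_cont {f : ℝ → (Fin 2 → ℝ) → ℝ} (hf : ContDiff ℝ SM (Function.uncurry f)) (a : Fin 2) :
    Continuous (fun p : ℝ × (Fin 2 → ℝ) => pd a (f p.1) p.2) := by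
  have h1 : ContDiff ℝ SM (Function.uncurry
      fun (p : ℝ × (Fin 2 → ℝ)) (s : Fin 2 → ℝ) => f p.1 s) :=
    hf.comp ((contDiff_fst.comp contDiff_fst).prodMk contDiff_snd)
  have h2 : ContDiff ℝ 0 fun p : ℝ × (Fin 2 → ℝ) => fderiv ℝ (f p.1) p.2 :=
    h1.fderiv contDiff_snd (by simp)
  have h3 := h2.continuous
  exact h3.clm_apply continuous_const

theorem rQ_smooth (k : ℕ) {w g : (Fin 2 → ℝ) → ℝ} (α : ℝ) (hw : ContDiff ℝ SM w)
    (hg : ContDiff ℝ SM g) (a : Fin 2) :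
    ContDiff ℝ SM (Function.uncurry fun (ε : ℝ) (s : Fin 2 → ℝ) => rQ k w g α ε a s) := by
  have g1 : ∀ a, ContDiff ℝ SM (pd a g) := pd_smooth hg
  have w1 : ∀ a, ContDiff ℝ SM (pd a w) := pd_smooth hw
  have w2 : ∀ a b, ContDiff ℝ SM (pd a (pd b w)) := fun a b => pd_smooth (w1 b) a
  have e1 : ∀ a, ContDiff ℝ SM fun p : ℝ × (Fin 2 → ℝ) => pd a g p.2 :=
    fun a => (g1 a).comp contDiff_snd
  have e2 : ∀ a, ContDiff ℝ SM fun p : ℝ × (Fin 2 → ℝ) => pd a w p.2 :=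
    fun a => (w1 a).comp contDiff_snd
  have e3 : ∀ a b, ContDiff ℝ SM fun p : ℝ × (Fin 2 → ℝ) => pd a (pd b w) p.2 :=
    fun a b => (w2 a b).comp contDiff_snd
  have e4 : ∀ a, ContDiff ℝ SM fun p : ℝ × (Fin 2 → ℝ) => p.2 a := by
    intro a
    fun_prop
  have e5 : ContDiff ℝ SM fun p : ℝ × (Fin 2 → ℝ) => p.1 := contDiff_fst
  have eA : ∀ a, ContDiff ℝ SM fun p : ℝ × (Fin 2 → ℝ) => AW k w a p.2 := by
    intro a
    unfold AW
    exact (((contDiff_const.sub (e4 a)).pow 2).mul ((e2 a).add ((e4 a).mul (e3 a a)))).div_const _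
  show ContDiff ℝ SM fun p : ℝ × (Fin 2 → ℝ) => rQ k w g α p.1 a p.2
  unfold rQ
  have c1 : ∀ b, ContDiff ℝ SM fun p : ℝ × (Fin 2 → ℝ) =>
      (-((k : ℝ) + p.1 * α) + p.1 * (1 - p.2 b) * pd b g p.2) := fun b =>
    ((contDiff_const.add (e5.mul contDiff_const)).neg).add
      ((e5.mul (contDiff_const.sub (e4 b))).mul (e1 b))
  exact (((contDiff_const.add ((contDiff_const.sub (e4 a)).mul (e1 a))).add
    ((eA (1 - a)).mul (c1 a))).sub
    ((((((e4 (1 - a)).mul (contDiff_const.sub (e4 0))).mul (contDiff_const.sub (e4 1))).mul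
      (e3 1 0)).mul (c1 (1 - a))).div_const _))

theorem pdr_cont (k : ℕ) {w g : (Fin 2 → ℝ) → ℝ} (α : ℝ) (hw : ContDiff ℝ SM w)
    (hg : ContDiff ℝ SM g) (a : Fin 2) :
    Continuous fun p : ℝ × (Fin 2 → ℝ) => pd a (rQ k w g α p.1 a) p.2 :=
  pd_cont (f := fun (ε : ℝ) (s : Fin 2 → ℝ) => rQ k w g α ε a s) (rQ_smooth k α hw hg a) a

theorem bW_smooth (k : ℕ) {w : (Fin 2 → ℝ) → ℝ} (hw : ContDiff ℝ SM w) (c : Fin 2) :
    ContDiff ℝ SM (bW k w c) := by
  have w1 := pd_smooth hw c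
  have e4 : ContDiff ℝ SM fun s : Fin 2 → ℝ => s c := by fun_prop
  exact (((contDiff_const.sub e4).mul e4).mul w1).div_const _

theorem gW_cont (k : ℕ) {w : (Fin 2 → ℝ) → ℝ} (hw : ContDiff ℝ SM w) :
    Continuous fun p : ℝ × (Fin 2 → ℝ) => gW k w p.1 p.2 := by
  have w1 : ∀ a, Continuous (pd a w) := fun a => (pd_smooth hw a).continuous
  have w2 : ∀ a b, Continuous (pd a (pd b w)) :=
    fun a b => (pd_smooth (pd_smooth hw b) a).continuous
  have e2 : ∀ a, Continuous fun p : ℝ × (Fin 2 → ℝ) => pd a w p.2 :=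
    fun a => (w1 a).comp continuous_snd
  have e3 : ∀ a b, Continuous fun p : ℝ × (Fin 2 → ℝ) => pd a (pd b w) p.2 :=
    fun a b => (w2 a b).comp continuous_snd
  have e4 : ∀ a, Continuous fun p : ℝ × (Fin 2 → ℝ) => p.2 a := by
    intro a
    fun_prop
  have eA : ∀ a, Continuous fun p : ℝ × (Fin 2 → ℝ) => AW k w a p.2 := by
    intro a
    unfold AW
    exact (((continuous_const.sub (e4 a)).pow 2).mul
      ((e2 a).add ((e4 a).mul (e3 a a)))).div_const _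
  have eC : Continuous fun p : ℝ × (Fin 2 → ℝ) => cW k w p.2 := by
    unfold cW
    exact (((((e4 0).mul (e4 1)).mul ((continuous_const.sub (e4 0)).pow 2)).mul
      ((continuous_const.sub (e4 1)).pow 2)).mul ((e3 1 0).pow 2)).div_const _
  unfold gW
  exact ((eA 0).add (eA 1)).add (continuous_fst.mul (((eA 0).mul (eA 1)).sub eC))

theorem mQ_cont (k : ℕ) {w g : (Fin 2 → ℝ) → ℝ} (α : ℝ) (hw : ContDiff ℝ SM w)
    (hg : ContDiff ℝ SM g) (a : Fin 2) (s : Fin 2 → ℝ) :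
    ContinuousAt (fun p : ℝ × (Fin 2 → ℝ) => mQ k w g α p.1 a p.2) (0, s) := by
  have e1 : Continuous fun p : ℝ × (Fin 2 → ℝ) => pd a g p.2 :=
    (pd_smooth hg a).continuous.comp continuous_snd
  have e4 : Continuous fun p : ℝ × (Fin 2 → ℝ) => p.2 a := by fun_prop
  have e5 : ∀ c, Continuous fun p : ℝ × (Fin 2 → ℝ) => bW k w c p.2 :=
    fun c => (bW_smooth k hw c).continuous.comp continuous_snd
  have e6 : ∀ c, Continuous fun p : ℝ × (Fin 2 → ℝ) => pd a (bW k w c) p.2 :=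
    fun c => (pd_smooth (bW_smooth k hw c) a).continuous.comp continuous_snd
  unfold mQ
  refine ContinuousAt.add
    ((continuous_const.add ((continuous_const.sub e4).mul e1)).continuousAt)
    (ContinuousAt.mul continuousAt_const ?_)
  refine tendsto_finsetSum _ fun c _ => ?_
  refine ContinuousAt.div (((continuous_const.sub e4).mul (e6 c)).continuousAt)
    ((continuous_const.add (continuous_fst.mul (e5 c))).continuousAt) ?_
  simp

theorem TQ_cont (k : ℕ) {w g : (Fin 2 → ℝ) → ℝ} (α : ℝ) (hw : ContDiff ℝ SM w)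
    (hg : ContDiff ℝ SM g) (s : Fin 2 → ℝ) :
    ContinuousAt (fun p : ℝ × (Fin 2 → ℝ) => TQ k w g α p.1 p.2) (0, s) := by
  have hr : ∀ a, ContinuousAt (fun p : ℝ × (Fin 2 → ℝ) => rQ k w g α p.1 a p.2) (0, s) :=
    fun a => (rQ_smooth k α hw hg a).continuous.continuousAt
  have hm := fun a => mQ_cont k α hw hg a s
  have hd := fun a => (pdr_cont k α hw hg a).continuousAt (x := ((0 : ℝ), s))
  have e4 : ∀ a, ContinuousAt (fun p : ℝ × (Fin 2 → ℝ) => p.2 a) (0, s) := by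
    intro a
    fun_prop
  unfold TQ
  refine ContinuousAt.sub (ContinuousAt.neg ?_)
    (ContinuousAt.mul continuousAt_const (gW_cont k hw).continuousAt)
  refine tendsto_finsetSum _ fun a _ => ?_
  exact (((hr a).sub ((continuousAt_const.mul (e4 a)).mul (hm a))).add
    (((e4 a).mul (continuousAt_const.sub (e4 a))).mul (hd a))).add
    (((continuous_fst.continuousAt.mul (e4 a)).mul (hr a)).mul (hm a))

theorem isCompact_cSq : IsCompact cSq := by
  have h : cSq = Set.pi univ fun _ : Fin 2 => Icc (0 : ℝ) 1 := by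
    ext s
    exact ⟨fun h a _ => h a, fun h a => h a (mem_univ a)⟩
  rw [h]
  exact isCompact_univ_pi fun _ => isCompact_Icc

/-- the first order term is continuous -/
theorem D_cont (k : ℕ) {w g : (Fin 2 → ℝ) → ℝ} (α : ℝ) (hw : ContDiff ℝ SM w)
    (hg : ContDiff ℝ SM g) :
    Continuous fun s : Fin 2 → ℝ => TQ k w g α 0 s := by
  rw [continuous_iff_continuousAt]
  intro s
  have h := TQ_cont k α hw hg s
  have h2 : ContinuousAt (fun s : Fin 2 → ℝ => ((0 : ℝ), s)) s := by fun_prop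
  exact h.comp h2

/-- the bounds for small `ε` -/
theorem bounds (k : ℕ) {w g : (Fin 2 → ℝ) → ℝ} (α : ℝ) (hw : ContDiff ℝ SM w)
    (hg : ContDiff ℝ SM g) (h3 : S_EQ2)
    (hpos : ∀ s ∈ cSq, 0 < DD k w s - LL k g s - α * (∑ a, (k * s a - 1)) / ((k : ℝ) + 2)) :
    ∃ m > 0, ∀ᶠ ε in 𝓝 (0 : ℝ), ∀ s ∈ cSq, (∀ a, 0 < 1 + ε * bW k w a s) ∧
      0 < 1 + ε * gW k w ε s ∧ 1 + ε * gW k w ε s < 2 ∧ m < TQ k w g α ε s := by
  have hT : ∀ s ∈ cSq, 0 < TQ k w g α 0 s := by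
    intro s hs
    rw [h3 k w g α hw hg s]
    have := hpos s hs
    positivity
  have hne : cSq.Nonempty := ⟨fun _ => 0, fun a => ⟨le_rfl, zero_le_one⟩⟩
  obtain ⟨s₀, hs₀, hmin⟩ := isCompact_cSq.exists_isMinOn hne
    (D_cont k α hw hg).continuousOn
  have hm := hT s₀ hs₀
  refine ⟨TQ k w g α 0 s₀ / 2, by positivity, ?_⟩
  refine isCompact_cSq.eventually_forall_of_forall_eventually fun s hs => ?_
  have e1 : ∀ a, ∀ᶠ p : ℝ × (Fin 2 → ℝ) in 𝓝 (0, s), 0 < 1 + p.1 * bW k w a p.2 := by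
    intro a
    have hc : Continuous fun p : ℝ × (Fin 2 → ℝ) => 1 + p.1 * bW k w a p.2 :=
      continuous_const.add (continuous_fst.mul
        ((bW_smooth k hw a).continuous.comp continuous_snd))
    exact hc.continuousAt.eventually_const_lt (by simp)
  have hg1 : Continuous fun p : ℝ × (Fin 2 → ℝ) => 1 + p.1 * gW k w p.1 p.2 :=
    continuous_const.add (continuous_fst.mul (gW_cont k hw))
  have e2 : ∀ᶠ p : ℝ × (Fin 2 → ℝ) in 𝓝 (0, s), 0 < 1 + p.1 * gW k w p.1 p.2 :=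
    hg1.continuousAt.eventually_const_lt (by simp)
  have e3 : ∀ᶠ p : ℝ × (Fin 2 → ℝ) in 𝓝 (0, s), 1 + p.1 * gW k w p.1 p.2 < 2 :=
    hg1.continuousAt.eventually_lt_const (by simp)
  have e4 : ∀ᶠ p : ℝ × (Fin 2 → ℝ) in 𝓝 (0, s), TQ k w g α 0 s₀ / 2 < TQ k w g α p.1 p.2 := by
    refine (TQ_cont k α hw hg s).eventually_const_lt ?_
    have h5 : TQ k w g α 0 s₀ ≤ TQ k w g α 0 s := hmin hs
    show TQ k w g α 0 s₀ / 2 < TQ k w g α 0 s
    linarith
  filter_upwards [e1 0, e1 1, e2, e3, e4] with p p1 p2 p3 p4 p5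
  refine ⟨fun a => ?_, p3, p4, p5⟩
  fin_cases a
  · exact p1
  · exact p2

theorem PP_pos (k : ℕ) (w : (Fin 2 → ℝ) → ℝ) (ε : ℝ) (hw : ContDiff ℝ SM w) (h4 : S_FPD)
    (s : Fin 2 → ℝ) (hs : ∀ a, s a < 1) (hb : ∀ a, 0 < 1 + ε * bW k w a s)
    (hg : 0 < 1 + ε * gW k w ε s) : 0 < PP k (FF k w ε) s := by
  obtain ⟨-, -, -, h5, -, h6⟩ := h4 k w ε hw s hs
  have hs' : ∀ a, 0 < 1 - s a := fun a => sub_pos.2 (hs a)
  unfold PP
  rw [h6]
  have h7 : ∀ a, 0 < (k : ℝ) + 2 + s a * pd a (FF k w ε) s := by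
    intro a
    rw [h5 a]
    have h8 := hs' a
    have h9 := hb a
    positivity
  have h10 : 0 < ∏ a, ((k : ℝ) + 2 + s a * pd a (FF k w ε) s) ^ k :=
    Finset.prod_pos fun a _ => pow_pos (h7 a) k
  have h11 := hs' 0
  have h12 := hs' 1
  positivity

end EPQL

/-- **The supersolution inequality for small `ε`.** -/
theorem t_EPQ (h1 : S_PDR) (h2 : S_EQ1) (h3 : S_EQ2) (h4 : S_FPD) : S_EPQ := by
  intro k w g α hw hg hpos
  obtain ⟨m, hm, hev⟩ := EPQL.bounds k α hw hg h3 hpos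
  obtain ⟨ρ, hρ, hball⟩ := Metric.eventually_nhds_iff.1 hev
  refine ⟨ρ / 2, by positivity, fun ε hε hε' => ?_⟩
  have hK : (0 : ℝ) < (k : ℝ) + 2 := by positivity
  refine ⟨ε * m / (((k : ℝ) + 2) * 2), by positivity, fun s hs => ?_⟩
  have hsc : s ∈ cSq := fun a => ⟨(hs a).1, (hs a).2.le⟩
  have hd : dist ε 0 < ρ := by
    rw [Real.dist_eq, sub_zero, abs_of_pos hε]
    linarith
  obtain ⟨b1, b2, b3, b4⟩ := hball hd s hsc
  have hs1 : ∀ a, s a < 1 := fun a => (hs a).2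
  rw [h2 k w g α ε hw hg s hs1 b1 b2]
  have hP : 0 < PP k (FF k w ε) s := EPQL.PP_pos k w ε hw h4 s hs1 b1 b2
  have hφ : 0 < Ph k g α ε s := Real.exp_pos _
  have hc : ε * m / (((k : ℝ) + 2) * 2) ≤
      ε * TQ k w g α ε s / (((k : ℝ) + 2) * (1 + ε * gW k w ε s)) := by
    rw [div_le_div_iff₀ (by positivity) (by positivity)]
    have h5 : m * (1 + ε * gW k w ε s) ≤ TQ k w g α ε s * 2 := by
      nlinarith
    have h6 : 0 < ε * ((k : ℝ) + 2) := by positivity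
    nlinarith [mul_le_mul_of_nonneg_left h5 h6.le]
  have h7 : 0 < Ph k g α ε s * PP k (FF k w ε) s := by positivity
  nlinarith [mul_le_mul_of_nonneg_right hc h7.le]

end Pool.Agent.H794.KM
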