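import Pool.Agent.H794.KM.Spec

namespace Pool.Agent.H794.KM

open MeasureTheory Set Filter Topology
open scoped ComplexOrder

namespace EPUL

theorem smooth_pd {f : (Fin 2 → ℝ) → ℝ} (hf : ContDiff ℝ SM f) (a : Fin 2) :
    ContDiff ℝ SM (pd a f) := by
  have h1 : ContDiff ℝ SM (fderiv ℝ f) := hf.fderiv_right (m := SM) (by simp [SM])
  exact h1.clm_apply contDiff_const

theorem smooth_ap (a : Fin 2) : ContDiff ℝ SM (fun s : Fin 2 → ℝ => s a) := contDiff_apply ℝ ℝ a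

theorem smooth_bW (k : ℕ) {w : (Fin 2 → ℝ) → ℝ} (hw : ContDiff ℝ SM w) (a : Fin 2) :
    ContDiff ℝ SM (bW k w a) := by
  unfold bW
  exact (((contDiff_const.sub (smooth_ap a)).mul (smooth_ap a)).mul (smooth_pd hw a)).div_const _

theorem smooth_AW (k : ℕ) {w : (Fin 2 → ℝ) → ℝ} (hw : ContDiff ℝ SM w) (a : Fin 2) :
    ContDiff ℝ SM (AW k w a) := by
  unfold AW
  exact (((contDiff_const.sub (smooth_ap a)).pow 2).mul ((smooth_pd hw a).add
    ((smooth_ap a).mul (smooth_pd (smooth_pd hw a) a)))).div_const _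

theorem smooth_cW (k : ℕ) {w : (Fin 2 → ℝ) → ℝ} (hw : ContDiff ℝ SM w) :
    ContDiff ℝ SM (cW k w) := by
  unfold cW
  exact (((((smooth_ap 0).mul (smooth_ap 1)).mul ((contDiff_const.sub (smooth_ap 0)).pow 2)).mul
    ((contDiff_const.sub (smooth_ap 1)).pow 2)).mul
    ((smooth_pd (smooth_pd hw 0) 1).pow 2)).div_const _

/-- the part of order zero of `gW` -/
noncomputable def g0 (k : ℕ) (w : (Fin 2 → ℝ) → ℝ) (s : Fin 2 → ℝ) : ℝ := AW k w 0 s + AW k w 1 s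

/-- the part of order one of `gW` -/
noncomputable def g1 (k : ℕ) (w : (Fin 2 → ℝ) → ℝ) (s : Fin 2 → ℝ) : ℝ :=
  AW k w 0 s * AW k w 1 s - cW k w s

theorem smooth_g0 (k : ℕ) {w : (Fin 2 → ℝ) → ℝ} (hw : ContDiff ℝ SM w) :
    ContDiff ℝ SM (g0 k w) := (smooth_AW k hw 0).add (smooth_AW k hw 1)

theorem smooth_g1 (k : ℕ) {w : (Fin 2 → ℝ) → ℝ} (hw : ContDiff ℝ SM w) :
    ContDiff ℝ SM (g1 k w) := ((smooth_AW k hw 0).mul (smooth_AW k hw 1)).sub (smooth_cW k hw)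

theorem gW_eq (k : ℕ) (w : (Fin 2 → ℝ) → ℝ) (ε : ℝ) (s : Fin 2 → ℝ) :
    gW k w ε s = g0 k w s + ε * g1 k w s := rfl

theorem smooth_gW (k : ℕ) {w : (Fin 2 → ℝ) → ℝ} (hw : ContDiff ℝ SM w) (ε : ℝ) :
    ContDiff ℝ SM (gW k w ε) := (smooth_g0 k hw).add (contDiff_const.mul (smooth_g1 k hw))

section rules

variable (h : S_PDR)
include h

theorem r_congr {F G : (Fin 2 → ℝ) → ℝ} {s : Fin 2 → ℝ} (a : Fin 2) (hFG : F =ᶠ[𝓝 s] G) :
    pd a F s = pd a G s := (h F G s a a).2.1 hFG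

theorem r_const (s : Fin 2 → ℝ) (a : Fin 2) (c : ℝ) : pd a (fun _ => c) s = 0 :=
  (h (fun _ => c) (fun _ => c) s a a).2.2.2.1 c

theorem r_add {F G : (Fin 2 → ℝ) → ℝ} {s : Fin 2 → ℝ} (a : Fin 2) (hF : DifferentiableAt ℝ F s)
    (hG : DifferentiableAt ℝ G s) : pd a (fun s' => F s' + G s') s = pd a F s + pd a G s :=
  ((h F G s a a).2.2.2.2.1 hF hG).1

theorem r_sub {F G : (Fin 2 → ℝ) → ℝ} {s : Fin 2 → ℝ} (a : Fin 2) (hF : DifferentiableAt ℝ F s)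
    (hG : DifferentiableAt ℝ G s) : pd a (fun s' => F s' - G s') s = pd a F s - pd a G s :=
  ((h F G s a a).2.2.2.2.1 hF hG).2.1

theorem r_mul {F G : (Fin 2 → ℝ) → ℝ} {s : Fin 2 → ℝ} (a : Fin 2) (hF : DifferentiableAt ℝ F s)
    (hG : DifferentiableAt ℝ G s) :
    pd a (fun s' => F s' * G s') s = pd a F s * G s + F s * pd a G s :=
  ((h F G s a a).2.2.2.2.1 hF hG).2.2

theorem r_cmul {F : (Fin 2 → ℝ) → ℝ} {s : Fin 2 → ℝ} (a : Fin 2) (hF : DifferentiableAt ℝ F s)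
    (c : ℝ) : pd a (fun s' => c * F s') s = c * pd a F s := by
  rw [r_mul h a (differentiableAt_const c) hF, r_const h, zero_mul, zero_add]

theorem r_comp {F : (Fin 2 → ℝ) → ℝ} {s : Fin 2 → ℝ} (a : Fin 2) (hF : DifferentiableAt ℝ F s)
    {φ : ℝ → ℝ} {c : ℝ} (hφ : HasDerivAt φ c (F s)) :
    pd a (fun s' => φ (F s')) s = c * pd a F s :=
  (h F F s a a).2.2.2.2.2.1 hF φ c hφ

theorem r_lin {F G0 G1 H : (Fin 2 → ℝ) → ℝ} {s : Fin 2 → ℝ} (a : Fin 2) (c : ℝ)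
    (hF : DifferentiableAt ℝ F s) (h0 : DifferentiableAt ℝ G0 s) (h1 : DifferentiableAt ℝ G1 s)
    (hH : DifferentiableAt ℝ H s) :
    pd a (fun s' => (F s' - c * (G0 s' + G1 s')) - H s') s =
      pd a F s - c * (pd a G0 s + pd a G1 s) - pd a H s := by
  have d3 := h0.fun_add h1
  have d5 := (differentiableAt_const (x := s) c).fun_mul d3
  have d6 := hF.fun_sub d5
  rw [r_sub h a d6 hH, r_sub h a hF d5, r_cmul h a d3, r_add h a h0 h1]

end rules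

/-- the first derivative of `log (1 + ε f)` divided by `ε` -/
noncomputable def D1 (ε : ℝ) (f : (Fin 2 → ℝ) → ℝ) (a : Fin 2) (s : Fin 2 → ℝ) : ℝ :=
  pd a f s / (1 + ε * f s)

/-- the second derivative of `log (1 + ε f)` divided by `ε` -/
noncomputable def D2 (ε : ℝ) (f : (Fin 2 → ℝ) → ℝ) (a b : Fin 2) (s : Fin 2 → ℝ) : ℝ :=
  pd b (pd a f) s / (1 + ε * f s) - ε * pd a f s * pd b f s / (1 + ε * f s) ^ 2

theorem pd_log (h : S_PDR) {f : (Fin 2 → ℝ) → ℝ} (hf : ContDiff ℝ SM f) {ε : ℝ}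
    {s : Fin 2 → ℝ} (hs : 0 < 1 + ε * f s) (a : Fin 2) :
    pd a (fun s' => Real.log (1 + ε * f s')) s = ε * D1 ε f a s := by
  have h1 : HasDerivAt (fun t : ℝ => Real.log (1 + ε * t)) (ε / (1 + ε * f s)) (f s) := by
    have h2 : HasDerivAt (fun t : ℝ => 1 + ε * t) ε (f s) := by
      simpa using ((hasDerivAt_id (f s)).const_mul ε).const_add 1
    exact h2.log hs.ne'
  rw [r_comp h a (hf.differentiable (by simp [SM])).differentiableAt h1]
  unfold D1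
  ring

theorem diff_D1 {f : (Fin 2 → ℝ) → ℝ} (hf : ContDiff ℝ SM f) {ε : ℝ}
    {s : Fin 2 → ℝ} (hs : 0 < 1 + ε * f s) (a : Fin 2) : DifferentiableAt ℝ (D1 ε f a) s := by
  have e : D1 ε f a = fun s' => pd a f s' * (1 + ε * f s')⁻¹ := by
    funext s'; unfold D1; rw [div_eq_mul_inv]
  rw [e]
  have h1 : DifferentiableAt ℝ f s := (hf.differentiable (by simp [SM])).differentiableAt
  have h2 : DifferentiableAt ℝ (pd a f) s :=
    ((smooth_pd hf a).differentiable (by simp [SM])).differentiableAt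
  have h3 : DifferentiableAt ℝ (fun s' => 1 + ε * f s') s :=
    (differentiableAt_const 1).fun_add ((differentiableAt_const ε).fun_mul h1)
  exact h2.fun_mul (h3.inv hs.ne')

theorem pd_D1 (h : S_PDR) {f : (Fin 2 → ℝ) → ℝ} (hf : ContDiff ℝ SM f) {ε : ℝ}
    {s : Fin 2 → ℝ} (hs : 0 < 1 + ε * f s) (a b : Fin 2) :
    pd b (D1 ε f a) s = D2 ε f a b s := by
  have h1 : DifferentiableAt ℝ f s := (hf.differentiable (by simp [SM])).differentiableAt
  have h2 : DifferentiableAt ℝ (pd a f) s :=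
    ((smooth_pd hf a).differentiable (by simp [SM])).differentiableAt
  have h3 : HasDerivAt (fun t : ℝ => (1 + ε * t)⁻¹) (-ε / (1 + ε * f s) ^ 2) (f s) := by
    have h4 : HasDerivAt (fun t : ℝ => 1 + ε * t) ε (f s) := by
      simpa using ((hasDerivAt_id (f s)).const_mul ε).const_add 1
    exact h4.inv hs.ne'
  have h5 : DifferentiableAt ℝ (fun s' => (1 + ε * f s')⁻¹) s :=
    ((differentiableAt_const 1).add ((differentiableAt_const ε).mul h1)).inv hs.ne'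
  have e : D1 ε f a = fun s' => pd a f s' * (1 + ε * f s')⁻¹ := by
    funext s'; unfold D1; rw [div_eq_mul_inv]
  rw [e, r_mul h b h2 h5, r_comp h b h1 h3]
  unfold D2
  ring

/-- the closed form of the first derivative of `U`, divided by `ε` -/
noncomputable def V1 (k : ℕ) (w : (Fin 2 → ℝ) → ℝ) (ε : ℝ) (a : Fin 2) (s : Fin 2 → ℝ) : ℝ :=
  pd a w s - k * (D1 ε (bW k w 0) a s + D1 ε (bW k w 1) a s) - D1 ε (gW k w ε) a s

/-- the closed form of the second derivative of `U`, divided by `ε` -/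
noncomputable def V2 (k : ℕ) (w : (Fin 2 → ℝ) → ℝ) (ε : ℝ) (a b : Fin 2) (s : Fin 2 → ℝ) : ℝ :=
  pd b (pd a w) s - k * (D2 ε (bW k w 0) a b s + D2 ε (bW k w 1) a b s) -
    D2 ε (gW k w ε) a b s

/-- the set where the closed form holds -/
def Om (k : ℕ) (w : (Fin 2 → ℝ) → ℝ) (ε : ℝ) : Set (Fin 2 → ℝ) :=
  {s | (∀ a, s a < 1) ∧ (∀ a, 0 < 1 + ε * bW k w a s) ∧ 0 < 1 + ε * gW k w ε s}

theorem isOpen_Om (k : ℕ) {w : (Fin 2 → ℝ) → ℝ} (hw : ContDiff ℝ SM w) (ε : ℝ) :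
    IsOpen (Om k w ε) := by
  have h1 : IsOpen {s : Fin 2 → ℝ | ∀ a, s a < 1} := by
    rw [Set.ofPred_forall]
    exact isOpen_iInter_of_finite fun a => isOpen_lt (continuous_apply a) continuous_const
  have h2 : IsOpen {s : Fin 2 → ℝ | ∀ a, 0 < 1 + ε * bW k w a s} := by
    rw [Set.ofPred_forall]
    exact isOpen_iInter_of_finite fun a => isOpen_lt continuous_const
      (continuous_const.add (continuous_const.mul (smooth_bW k hw a).continuous))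
  have h3 : IsOpen {s : Fin 2 → ℝ | 0 < 1 + ε * gW k w ε s} := isOpen_lt continuous_const
      (continuous_const.add (continuous_const.mul (smooth_gW k hw ε).continuous))
  exact h1.inter (h2.inter h3)

theorem pd_U1 (h : S_PDR) (h3 : S_EU1) (k : ℕ) {w : (Fin 2 → ℝ) → ℝ} (hw : ContDiff ℝ SM w)
    (ε : ℝ) {s : Fin 2 → ℝ} (hs : s ∈ Om k w ε) (a : Fin 2) :
    pd a (UU k (FF k w ε)) s = ε * V1 k w ε a s := by
  have e : UU k (FF k w ε) =ᶠ[𝓝 s] fun s' => (ε * w s' -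
      k * (Real.log (1 + ε * bW k w 0 s') + Real.log (1 + ε * bW k w 1 s'))) -
      Real.log (1 + ε * gW k w ε s') - (2 * k + 2) * Real.log ((k : ℝ) + 2) := by
    filter_upwards [(isOpen_Om k hw ε).mem_nhds hs] with s' hs'
    rw [h3 k w ε hw s' hs'.1 hs'.2.1 hs'.2.2, Fin.sum_univ_two]
  rw [r_congr h a e]
  have dw : DifferentiableAt ℝ w s := (hw.differentiable (by simp [SM])).differentiableAt
  have dl : ∀ {f : (Fin 2 → ℝ) → ℝ}, ContDiff ℝ SM f → 0 < 1 + ε * f s →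
      DifferentiableAt ℝ (fun s' => Real.log (1 + ε * f s')) s := fun hf h0 =>
    ((differentiableAt_const 1).fun_add ((differentiableAt_const ε).fun_mul
      (hf.differentiable (by simp [SM])).differentiableAt)).log h0.ne'
  have d0 := dl (smooth_bW k hw 0) (hs.2.1 0)
  have d1 := dl (smooth_bW k hw 1) (hs.2.1 1)
  have dg := dl (smooth_gW k hw ε) hs.2.2
  have d4 : DifferentiableAt ℝ (fun s' => ε * w s') s := (differentiableAt_const ε).fun_mul dw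
  have d6 : DifferentiableAt ℝ (fun s' => (ε * w s' -
      k * (Real.log (1 + ε * bW k w 0 s') + Real.log (1 + ε * bW k w 1 s'))) -
      Real.log (1 + ε * gW k w ε s')) s :=
    (d4.fun_sub ((differentiableAt_const _).fun_mul (d0.fun_add d1))).fun_sub dg
  rw [r_sub h a d6 (differentiableAt_const _), r_lin h a k d4 d0 d1 dg,
    r_cmul h a dw, r_const h,
    pd_log h (smooth_bW k hw 0) (hs.2.1 0), pd_log h (smooth_bW k hw 1) (hs.2.1 1),
    pd_log h (smooth_gW k hw ε) hs.2.2]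
  unfold V1
  ring

theorem pd_U2 (h : S_PDR) (h3 : S_EU1) (k : ℕ) {w : (Fin 2 → ℝ) → ℝ} (hw : ContDiff ℝ SM w)
    (ε : ℝ) {s : Fin 2 → ℝ} (hs : s ∈ Om k w ε) (a b : Fin 2) :
    pd b (pd a (UU k (FF k w ε))) s = ε * V2 k w ε a b s := by
  have e : pd a (UU k (FF k w ε)) =ᶠ[𝓝 s] fun s' => ε * V1 k w ε a s' := by
    filter_upwards [(isOpen_Om k hw ε).mem_nhds hs] with s' hs'
    exact pd_U1 h h3 k hw ε hs' a
  rw [r_congr h b e]
  have dw : DifferentiableAt ℝ (pd a w) s :=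
    ((smooth_pd hw a).differentiable (by simp [SM])).differentiableAt
  have d0 := diff_D1 (smooth_bW k hw 0) (hs.2.1 0) a
  have d1 := diff_D1 (smooth_bW k hw 1) (hs.2.1 1) a
  have dg := diff_D1 (smooth_gW k hw ε) hs.2.2 a
  have d7 : DifferentiableAt ℝ (V1 k w ε a) s :=
    (dw.fun_sub ((differentiableAt_const (k : ℝ)).fun_mul (d0.fun_add d1))).fun_sub dg
  rw [r_cmul h b d7]
  congr 1
  have e2 : V1 k w ε a = fun s' => (pd a w s' - (k : ℝ) *
      (D1 ε (bW k w 0) a s' + D1 ε (bW k w 1) a s')) - D1 ε (gW k w ε) a s' := rfl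
  rw [e2, r_lin h b k dw d0 d1 dg,
    pd_D1 h (smooth_bW k hw 0) (hs.2.1 0), pd_D1 h (smooth_bW k hw 1) (hs.2.1 1),
    pd_D1 h (smooth_gW k hw ε) hs.2.2]
  rfl

theorem uu_eq (k : ℕ) (w : (Fin 2 → ℝ) → ℝ) : uu k w = fun s =>
    (w s - k * (bW k w 0 s + bW k w 1 s)) - g0 k w s := by
  funext s
  unfold uu g0 bW AW
  rw [Fin.sum_univ_two]
  ring

theorem V1_zero (h : S_PDR) (k : ℕ) {w : (Fin 2 → ℝ) → ℝ} (hw : ContDiff ℝ SM w) (a : Fin 2)
    (s : Fin 2 → ℝ) : V1 k w 0 a s = pd a (uu k w) s := by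
  have df : ∀ {f : (Fin 2 → ℝ) → ℝ}, ContDiff ℝ SM f → DifferentiableAt ℝ f s := fun hf =>
    (hf.differentiable (by simp [SM])).differentiableAt
  have d0 := df (smooth_bW k hw 0)
  have d1 := df (smooth_bW k hw 1)
  rw [uu_eq, r_lin h a k (df hw) d0 d1 (df (smooth_g0 k hw))]
  unfold V1 D1
  have e : gW k w 0 = g0 k w := by
    funext s'
    rw [gW_eq, zero_mul, add_zero]
  rw [e]
  simp

theorem V2_zero (h : S_PDR) (k : ℕ) {w : (Fin 2 → ℝ) → ℝ} (hw : ContDiff ℝ SM w) (a b : Fin 2)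
    (s : Fin 2 → ℝ) : V2 k w 0 a b s = pd b (pd a (uu k w)) s := by
  have df : ∀ {f : (Fin 2 → ℝ) → ℝ}, ContDiff ℝ SM f → DifferentiableAt ℝ f s := fun hf =>
    (hf.differentiable (by simp [SM])).differentiableAt
  have e1 : pd a (uu k w) = fun s' => (pd a w s' -
      (k : ℝ) * (pd a (bW k w 0) s' + pd a (bW k w 1) s')) - pd a (g0 k w) s' := by
    funext s'
    rw [← V1_zero h k hw a s']
    unfold V1 D1
    have e : gW k w 0 = g0 k w := by
      funext s''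
      rw [gW_eq, zero_mul, add_zero]
    rw [e]
    simp
  have d0 := df (smooth_pd (smooth_bW k hw 0) a)
  have d1 := df (smooth_pd (smooth_bW k hw 1) a)
  have dw := df (smooth_pd hw a)
  rw [e1, r_lin h b k dw d0 d1 (df (smooth_pd (smooth_g0 k hw) a))]
  unfold V2 D2
  have e : gW k w 0 = g0 k w := by
    funext s'
    rw [gW_eq, zero_mul, add_zero]
  rw [e]
  simp

/-- the first derivative of `gW` -/
theorem pd_gW (h : S_PDR) (k : ℕ) {w : (Fin 2 → ℝ) → ℝ} (hw : ContDiff ℝ SM w) (ε : ℝ)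
    (a : Fin 2) : pd a (gW k w ε) = fun s => pd a (g0 k w) s + ε * pd a (g1 k w) s := by
  funext s
  have df : ∀ {f : (Fin 2 → ℝ) → ℝ}, ContDiff ℝ SM f → DifferentiableAt ℝ f s := fun hf =>
    (hf.differentiable (by simp [SM])).differentiableAt
  have e : gW k w ε = fun s => g0 k w s + ε * g1 k w s := rfl
  rw [e, r_add h a (df (smooth_g0 k hw))
    ((differentiableAt_const ε).fun_mul (df (smooth_g1 k hw))), r_cmul h a (df (smooth_g1 k hw))]

theorem pd_pd_gW (h : S_PDR) (k : ℕ) {w : (Fin 2 → ℝ) → ℝ} (hw : ContDiff ℝ SM w) (ε : ℝ)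
    (a b : Fin 2) : pd b (pd a (gW k w ε)) =
      fun s => pd b (pd a (g0 k w)) s + ε * pd b (pd a (g1 k w)) s := by
  funext s
  have df : ∀ {f : (Fin 2 → ℝ) → ℝ}, ContDiff ℝ SM f → DifferentiableAt ℝ f s := fun hf =>
    (hf.differentiable (by simp [SM])).differentiableAt
  have d0 := df (smooth_pd (smooth_g0 k hw) a)
  have d1 := df (smooth_pd (smooth_g1 k hw) a)
  rw [pd_gW h k hw ε a, r_add h b d0 ((differentiableAt_const ε).fun_mul d1), r_cmul h b d1]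

section cont

variable {f f' : (Fin 2 → ℝ) → ℝ}

theorem cD1 (hf : ContDiff ℝ SM f) (a : Fin 2) (s : Fin 2 → ℝ) :
    ContinuousAt (fun z : ℝ × (Fin 2 → ℝ) => D1 z.1 f a z.2) (0, s) := by
  unfold D1
  have h1 : Continuous (fun z : ℝ × (Fin 2 → ℝ) => f z.2) := hf.continuous.comp continuous_snd
  have h2 : Continuous (fun z : ℝ × (Fin 2 → ℝ) => pd a f z.2) :=
    (smooth_pd hf a).continuous.comp continuous_snd
  refine h2.continuousAt.div
    (continuousAt_const.add (continuous_fst.continuousAt.mul h1.continuousAt)) ?_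
  simp

theorem cD2 (hf : ContDiff ℝ SM f) (a b : Fin 2) (s : Fin 2 → ℝ) :
    ContinuousAt (fun z : ℝ × (Fin 2 → ℝ) => D2 z.1 f a b z.2) (0, s) := by
  unfold D2
  have h1 : Continuous (fun z : ℝ × (Fin 2 → ℝ) => f z.2) := hf.continuous.comp continuous_snd
  have h2 : Continuous (fun z : ℝ × (Fin 2 → ℝ) => pd a f z.2) :=
    (smooth_pd hf a).continuous.comp continuous_snd
  have h2' : Continuous (fun z : ℝ × (Fin 2 → ℝ) => pd b f z.2) :=
    (smooth_pd hf b).continuous.comp continuous_snd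
  have h3 : Continuous (fun z : ℝ × (Fin 2 → ℝ) => pd b (pd a f) z.2) :=
    (smooth_pd (smooth_pd hf a) b).continuous.comp continuous_snd
  have h4 : ContinuousAt (fun z : ℝ × (Fin 2 → ℝ) => 1 + z.1 * f z.2) (0, s) :=
    continuousAt_const.add (continuous_fst.continuousAt.mul h1.continuousAt)
  refine (h3.continuousAt.div h4 (by simp)).sub
    (((continuous_fst.continuousAt.mul h2.continuousAt).mul h2'.continuousAt).div
      (h4.pow 2) (by simp))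

end cont

theorem cG1 (h : S_PDR) (k : ℕ) {w : (Fin 2 → ℝ) → ℝ} (hw : ContDiff ℝ SM w) (a : Fin 2)
    (s : Fin 2 → ℝ) :
    ContinuousAt (fun z : ℝ × (Fin 2 → ℝ) => D1 z.1 (gW k w z.1) a z.2) (0, s) := by
  unfold D1
  simp_rw [pd_gW h k hw, gW_eq]
  have c0 : Continuous (fun z : ℝ × (Fin 2 → ℝ) => g0 k w z.2) :=
    (smooth_g0 k hw).continuous.comp continuous_snd
  have c1 : Continuous (fun z : ℝ × (Fin 2 → ℝ) => g1 k w z.2) :=
    (smooth_g1 k hw).continuous.comp continuous_snd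
  have c2 : Continuous (fun z : ℝ × (Fin 2 → ℝ) => pd a (g0 k w) z.2) :=
    (smooth_pd (smooth_g0 k hw) a).continuous.comp continuous_snd
  have c3 : Continuous (fun z : ℝ × (Fin 2 → ℝ) => pd a (g1 k w) z.2) :=
    (smooth_pd (smooth_g1 k hw) a).continuous.comp continuous_snd
  have h4 : Continuous (fun z : ℝ × (Fin 2 → ℝ) => 1 + z.1 * (g0 k w z.2 + z.1 * g1 k w z.2)) :=
    continuous_const.add (continuous_fst.mul (c0.add (continuous_fst.mul c1)))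
  have h5 : Continuous (fun z : ℝ × (Fin 2 → ℝ) => pd a (g0 k w) z.2 + z.1 * pd a (g1 k w) z.2) :=
    c2.add (continuous_fst.mul c3)
  exact h5.continuousAt.div h4.continuousAt (by simp)

theorem cG2 (h : S_PDR) (k : ℕ) {w : (Fin 2 → ℝ) → ℝ} (hw : ContDiff ℝ SM w) (a b : Fin 2)
    (s : Fin 2 → ℝ) :
    ContinuousAt (fun z : ℝ × (Fin 2 → ℝ) => D2 z.1 (gW k w z.1) a b z.2) (0, s) := by
  unfold D2
  simp_rw [pd_pd_gW h k hw, pd_gW h k hw, gW_eq]
  have c0 : Continuous (fun z : ℝ × (Fin 2 → ℝ) => g0 k w z.2) :=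
    (smooth_g0 k hw).continuous.comp continuous_snd
  have c1 : Continuous (fun z : ℝ × (Fin 2 → ℝ) => g1 k w z.2) :=
    (smooth_g1 k hw).continuous.comp continuous_snd
  have c2 : ∀ a, Continuous (fun z : ℝ × (Fin 2 → ℝ) => pd a (g0 k w) z.2) := fun a =>
    (smooth_pd (smooth_g0 k hw) a).continuous.comp continuous_snd
  have c3 : ∀ a, Continuous (fun z : ℝ × (Fin 2 → ℝ) => pd a (g1 k w) z.2) := fun a =>
    (smooth_pd (smooth_g1 k hw) a).continuous.comp continuous_snd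
  have c4 : Continuous (fun z : ℝ × (Fin 2 → ℝ) => pd b (pd a (g0 k w)) z.2) :=
    (smooth_pd (smooth_pd (smooth_g0 k hw) a) b).continuous.comp continuous_snd
  have c5 : Continuous (fun z : ℝ × (Fin 2 → ℝ) => pd b (pd a (g1 k w)) z.2) :=
    (smooth_pd (smooth_pd (smooth_g1 k hw) a) b).continuous.comp continuous_snd
  have h4 : Continuous (fun z : ℝ × (Fin 2 → ℝ) => 1 + z.1 * (g0 k w z.2 + z.1 * g1 k w z.2)) :=
    continuous_const.add (continuous_fst.mul (c0.add (continuous_fst.mul c1)))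
  have h5 : ∀ a, Continuous (fun z : ℝ × (Fin 2 → ℝ) =>
      pd a (g0 k w) z.2 + z.1 * pd a (g1 k w) z.2) := fun a =>
    (c2 a).add (continuous_fst.mul (c3 a))
  have h6 : Continuous (fun z : ℝ × (Fin 2 → ℝ) =>
      pd b (pd a (g0 k w)) z.2 + z.1 * pd b (pd a (g1 k w)) z.2) :=
    c4.add (continuous_fst.mul c5)
  exact (h6.continuousAt.div h4.continuousAt (by simp)).sub
    (((continuous_fst.mul (h5 a)).mul (h5 b)).continuousAt.div (h4.pow 2).continuousAt (by simp))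

theorem cV1 (h : S_PDR) (k : ℕ) {w : (Fin 2 → ℝ) → ℝ} (hw : ContDiff ℝ SM w) (a : Fin 2)
    (s : Fin 2 → ℝ) :
    ContinuousAt (fun z : ℝ × (Fin 2 → ℝ) => V1 k w z.1 a z.2) (0, s) := by
  unfold V1
  have h2 : Continuous (fun z : ℝ × (Fin 2 → ℝ) => pd a w z.2) :=
    (smooth_pd hw a).continuous.comp continuous_snd
  exact (h2.continuousAt.sub (continuousAt_const.mul ((cD1 (smooth_bW k hw 0) a s).add
    (cD1 (smooth_bW k hw 1) a s)))).sub (cG1 h k hw a s)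

theorem cV2 (h : S_PDR) (k : ℕ) {w : (Fin 2 → ℝ) → ℝ} (hw : ContDiff ℝ SM w) (a b : Fin 2)
    (s : Fin 2 → ℝ) :
    ContinuousAt (fun z : ℝ × (Fin 2 → ℝ) => V2 k w z.1 a b z.2) (0, s) := by
  unfold V2
  have h2 : Continuous (fun z : ℝ × (Fin 2 → ℝ) => pd b (pd a w) z.2) :=
    (smooth_pd (smooth_pd hw a) b).continuous.comp continuous_snd
  exact (h2.continuousAt.sub (continuousAt_const.mul ((cD2 (smooth_bW k hw 0) a b s).add
    (cD2 (smooth_bW k hw 1) a b s)))).sub (cG2 h k hw a b s)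

/-- the quadratic form of `U`, divided by `ε` -/
noncomputable def qV (k : ℕ) (w : (Fin 2 → ℝ) → ℝ) (ε : ℝ) (s x : Fin 2 → ℝ) : ℝ :=
  ((V1 k w ε 0 s + s 0 * V2 k w ε 0 0 s) * x 0 ^ 2 +
    (V1 k w ε 1 s + s 1 * V2 k w ε 1 1 s) * x 1 ^ 2) +
    2 * Real.sqrt (s 0 * s 1) * V2 k w ε 0 1 s * x 0 * x 1

theorem qV_zero (h : S_PDR) (k : ℕ) {w : (Fin 2 → ℝ) → ℝ} (hw : ContDiff ℝ SM w)
    (s x : Fin 2 → ℝ) : qV k w 0 s x = QF (uu k w) s x := by
  unfold qV QF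
  rw [Fin.sum_univ_two]
  simp only [V1_zero h k hw, V2_zero h k hw]

theorem qV_eq (h : S_PDR) (h3 : S_EU1) (k : ℕ) {w : (Fin 2 → ℝ) → ℝ} (hw : ContDiff ℝ SM w)
    (ε : ℝ) {s : Fin 2 → ℝ} (hs : s ∈ Om k w ε) (x : Fin 2 → ℝ) :
    QF (UU k (FF k w ε)) s x = ε * qV k w ε s x := by
  unfold qV QF
  rw [Fin.sum_univ_two]
  simp only [pd_U1 h h3 k hw ε hs, pd_U2 h h3 k hw ε hs]
  ring

theorem qV_smul (k : ℕ) (w : (Fin 2 → ℝ) → ℝ) (ε : ℝ) (s x : Fin 2 → ℝ) (c : ℝ) :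
    qV k w ε s (fun a => c * x a) = c ^ 2 * qV k w ε s x := by
  unfold qV
  ring

theorem cqV (h : S_PDR) (k : ℕ) {w : (Fin 2 → ℝ) → ℝ} (hw : ContDiff ℝ SM w)
    (y : (Fin 2 → ℝ) × (Fin 2 → ℝ)) :
    ContinuousAt (fun z : ℝ × ((Fin 2 → ℝ) × (Fin 2 → ℝ)) => qV k w z.1 z.2.1 z.2.2) (0, y) := by
  unfold qV
  have p : ContinuousAt (fun z : ℝ × ((Fin 2 → ℝ) × (Fin 2 → ℝ)) => (z.1, z.2.1)) (0, y) := by
    fun_prop
  have v1 : ∀ a, ContinuousAt (fun z : ℝ × ((Fin 2 → ℝ) × (Fin 2 → ℝ)) => V1 k w z.1 a z.2.1)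
      (0, y) := fun a => ContinuousAt.comp (g := fun z : ℝ × (Fin 2 → ℝ) => V1 k w z.1 a z.2)
        (f := fun z : ℝ × ((Fin 2 → ℝ) × (Fin 2 → ℝ)) => (z.1, z.2.1)) (cV1 h k hw a y.1) p
  have v2 : ∀ a b, ContinuousAt (fun z : ℝ × ((Fin 2 → ℝ) × (Fin 2 → ℝ)) =>
      V2 k w z.1 a b z.2.1) (0, y) := fun a b =>
    ContinuousAt.comp (g := fun z : ℝ × (Fin 2 → ℝ) => V2 k w z.1 a b z.2)
        (f := fun z : ℝ × ((Fin 2 → ℝ) × (Fin 2 → ℝ)) => (z.1, z.2.1)) (cV2 h k hw a b y.1) p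
  have s0 : ∀ a, ContinuousAt (fun z : ℝ × ((Fin 2 → ℝ) × (Fin 2 → ℝ)) => z.2.1 a) (0, y) :=
    fun a => by fun_prop
  have x0 : ∀ a, ContinuousAt (fun z : ℝ × ((Fin 2 → ℝ) × (Fin 2 → ℝ)) => z.2.2 a) (0, y) :=
    fun a => by fun_prop
  exact ((((v1 0).add ((s0 0).mul (v2 0 0))).mul ((x0 0).pow 2)).add
    (((v1 1).add ((s0 1).mul (v2 1 1))).mul ((x0 1).pow 2))).add
    ((((continuousAt_const.mul ((s0 0).mul (s0 1)).sqrt).mul (v2 0 1)).mul (x0 0)).mul (x0 1))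

theorem compact_cSq : IsCompact cSq := by
  have e : cSq = Set.pi Set.univ (fun _ : Fin 2 => Set.Icc (0 : ℝ) 1) := by
    ext s
    constructor
    · intro h a _
      exact h a
    · intro h a
      exact h a (Set.mem_univ a)
  rw [e]
  exact isCompact_univ_pi fun _ => isCompact_Icc

/-- the unit circle -/
def Ci : Set (Fin 2 → ℝ) := {x | x 0 ^ 2 + x 1 ^ 2 = 1}

theorem compact_Ci : IsCompact Ci := by
  have h1 : IsCompact (Set.pi Set.univ (fun _ : Fin 2 => Set.Icc (-1 : ℝ) 1)) :=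
    isCompact_univ_pi fun _ => isCompact_Icc
  refine IsCompact.of_isClosed_subset h1 (isClosed_eq (by fun_prop) continuous_const) ?_
  intro x hx a _
  have hx' : x 0 ^ 2 + x 1 ^ 2 = 1 := hx
  have h2 : x a ^ 2 ≤ 1 := by
    fin_cases a
    · show x 0 ^ 2 ≤ 1
      nlinarith [sq_nonneg (x 1)]
    · show x 1 ^ 2 ≤ 1
      nlinarith [sq_nonneg (x 0)]
  have h3 := abs_le_one_iff_mul_self_le_one.2 (by rw [← sq]; exact h2 : x a * x a ≤ 1)
  exact abs_le.1 h3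

/-- small `ε`, functions of `s` -/
theorem small {P : ℝ → (Fin 2 → ℝ) → ℝ} {c : ℝ} (hc : ∀ s ∈ cSq, c < P 0 s)
    (hP : ∀ s ∈ cSq, ContinuousAt (fun z : ℝ × (Fin 2 → ℝ) => P z.1 z.2) (0, s)) :
    ∀ᶠ ε in 𝓝 (0 : ℝ), ∀ s ∈ cSq, c < P ε s :=
  compact_cSq.eventually_forall_of_forall_eventually fun s hs =>
    (hP s hs).eventually (lt_mem_nhds (hc s hs))

theorem ell_aux {K A0 A1 c x0 x1 u0 u1 t : ℝ} (hK : 2 ≤ K) (h0 : 3 / 4 ≤ 1 + A0)
    (h1 : 3 / 4 ≤ 1 + A1) (hc : |c| ≤ 1 / 4) (hu0 : 1 ≤ u0) (hu1 : 1 ≤ u1) (ht0 : 0 ≤ t)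
    (ht : t ≤ 1) :
    1 * (x0 ^ 2 * u0 + x1 ^ 2 * u1) ≤
      (K * u0 * (1 + A0) * x0 ^ 2 + K * u1 * (1 + A1) * x1 ^ 2) + 2 * t * c * x0 * x1 := by
  have a0 : 3 / 2 ≤ K * (1 + A0) := by nlinarith
  have a1 : 3 / 2 ≤ K * (1 + A1) := by nlinarith
  have b0 : 3 / 2 * (x0 ^ 2 * u0) ≤ K * (1 + A0) * (x0 ^ 2 * u0) :=
    mul_le_mul_of_nonneg_right a0 (by positivity)
  have b1 : 3 / 2 * (x1 ^ 2 * u1) ≤ K * (1 + A1) * (x1 ^ 2 * u1) :=
    mul_le_mul_of_nonneg_right a1 (by positivity)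
  have c0 : x0 ^ 2 ≤ x0 ^ 2 * u0 := le_mul_of_one_le_right (sq_nonneg _) hu0
  have c1 : x1 ^ 2 ≤ x1 ^ 2 * u1 := le_mul_of_one_le_right (sq_nonneg _) hu1
  have d0 : |t * c| ≤ 1 / 4 := by
    rw [abs_mul, abs_of_nonneg ht0]
    nlinarith [abs_nonneg c]
  have d1 : |2 * t * c * x0 * x1| ≤ 1 / 4 * (x0 ^ 2 + x1 ^ 2) := by
    have e : 2 * t * c * x0 * x1 = (t * c) * (2 * (x0 * x1)) := by ring
    rw [e, abs_mul]
    have e2 : |2 * (x0 * x1)| ≤ x0 ^ 2 + x1 ^ 2 := by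
      rw [abs_le]
      constructor <;> nlinarith [sq_nonneg (x0 + x1), sq_nonneg (x0 - x1)]
    exact mul_le_mul d0 e2 (abs_nonneg _) (by norm_num)
  have d2 := (abs_le.1 d1).1
  nlinarith

end EPUL

open EPUL in
/-- **EPU** -/
theorem t_EPU (h1 : S_PDR) (h2 : S_FPD) (h3 : S_EU1) : S_EPU := by
  intro k w hw hu
  have hsub : Sq ⊆ cSq := fun s hs a => ⟨(hs a).1, (hs a).2.le⟩
  have cb : ∀ {f : (Fin 2 → ℝ) → ℝ}, ContDiff ℝ SM f → ∀ s,
      ContinuousAt (fun z : ℝ × (Fin 2 → ℝ) => 1 + z.1 * f z.2) (0, s) := fun hf s =>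
    (continuous_const.add (continuous_fst.mul (hf.continuous.comp continuous_snd))).continuousAt
  have e1 : ∀ a : Fin 2, ∀ᶠ ε in 𝓝 (0 : ℝ), ∀ s ∈ cSq, 3 / 4 < 1 + ε * bW k w a s := fun a =>
    small (P := fun ε s => 1 + ε * bW k w a s) (fun s _ => by norm_num)
      (fun s _ => cb (smooth_bW k hw a) s)
  have e2 : ∀ a : Fin 2, ∀ᶠ ε in 𝓝 (0 : ℝ), ∀ s ∈ cSq, 3 / 4 < 1 + ε * AW k w a s := fun a =>
    small (P := fun ε s => 1 + ε * AW k w a s) (fun s _ => by norm_num)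
      (fun s _ => cb (smooth_AW k hw a) s)
  have e3 : ∀ᶠ ε in 𝓝 (0 : ℝ), ∀ s ∈ cSq, 0 < 1 + ε * gW k w ε s := by
    refine small (P := fun ε s => 1 + ε * gW k w ε s) (fun s _ => by norm_num) (fun s _ => ?_)
    simp_rw [gW_eq]
    exact (continuous_const.add (continuous_fst.mul
      (((smooth_g0 k hw).continuous.comp continuous_snd).add (continuous_fst.mul
        ((smooth_g1 k hw).continuous.comp continuous_snd))))).continuousAt
  have e4 : ∀ᶠ ε in 𝓝 (0 : ℝ), ∀ s ∈ cSq, -(1 / 4) < ε * pd 1 (pd 0 w) s :=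
    small (P := fun ε s => ε * pd 1 (pd 0 w) s) (fun s _ => by norm_num) (fun s _ =>
      (continuous_fst.mul ((smooth_pd (smooth_pd hw 0) 1).continuous.comp
        continuous_snd)).continuousAt)
  have e5 : ∀ᶠ ε in 𝓝 (0 : ℝ), ∀ s ∈ cSq, -(1 / 4) < -(ε * pd 1 (pd 0 w) s) :=
    small (P := fun ε s => -(ε * pd 1 (pd 0 w) s)) (fun s _ => by norm_num) (fun s _ =>
      (continuous_fst.mul ((smooth_pd (smooth_pd hw 0) 1).continuous.comp
        continuous_snd)).neg.continuousAt)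
  have e6 : ∀ a : Fin 2, ∀ᶠ ε in 𝓝 (0 : ℝ), ∀ s ∈ cSq, 0 < V1 k w ε a s := fun a =>
    small (P := fun ε s => V1 k w ε a s)
      (fun s hs => by rw [V1_zero h1 k hw a s]; exact (hu s hs).1 a)
      (fun s _ => cV1 h1 k hw a s)
  have e7 : ∀ᶠ ε in 𝓝 (0 : ℝ), ∀ y ∈ cSq ×ˢ Ci, 0 < qV k w ε y.1 y.2 := by
    refine (compact_cSq.prod compact_Ci).eventually_forall_of_forall_eventually fun y hy => ?_
    refine (cqV h1 k hw y).eventually (lt_mem_nhds ?_)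
    show 0 < qV k w 0 y.1 y.2
    rw [qV_zero h1 k hw]
    refine (hu y.1 hy.1).2 y.2 ?_
    intro h0
    have h5 : y.2 0 ^ 2 + y.2 1 ^ 2 = 1 := hy.2
    rw [h0] at h5
    simp at h5
  have eall := (e1 0).and ((e1 1).and ((e2 0).and ((e2 1).and (e3.and (e4.and (e5.and
    ((e6 0).and ((e6 1).and e7))))))))
  obtain ⟨δ, hδ, hball⟩ := Metric.eventually_nhds_iff.1 eall
  refine ⟨δ / 2, by positivity, fun ε hε hε2 => ?_⟩
  obtain ⟨f1, f2, f3, f4, f5, f6, f7, f8, f9, f10⟩ := @hball ε (by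
    rw [Real.dist_eq, sub_zero, abs_of_pos hε]; linarith)
  have fb : ∀ s ∈ cSq, ∀ a : Fin 2, 3 / 4 < 1 + ε * bW k w a s := fun s hs a => by
    fin_cases a
    · exact f1 s hs
    · exact f2 s hs
  have fA : ∀ s ∈ cSq, ∀ a : Fin 2, 3 / 4 < 1 + ε * AW k w a s := fun s hs a => by
    fin_cases a
    · exact f3 s hs
    · exact f4 s hs
  have fV : ∀ s ∈ cSq, ∀ a : Fin 2, 0 < V1 k w ε a s := fun s hs a => by
    fin_cases a
    · exact f8 s hs
    · exact f9 s hs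
  have hOm : ∀ s ∈ Sq, s ∈ Om k w ε := fun s hs =>
    ⟨fun a => (hs a).2, fun a => by linarith [fb s (hsub hs) a], f5 s (hsub hs)⟩
  have hK : (2 : ℝ) ≤ (k : ℝ) + 2 := by
    have : (0 : ℝ) ≤ k := Nat.cast_nonneg k
    linarith
  refine ⟨fun s hs => (h2 k w ε hw s fun a => (hs a).2).1, ⟨1, one_pos, fun s hs => ⟨fun a => ?_,
    fun x => ?_⟩⟩, fun s hs => ⟨fun a => ?_, fun x => ?_⟩⟩
  · rw [(h2 k w ε hw s fun a => (hs a).2).2.2.2.1 a]
    have g1 : 1 ≤ 1 / (1 - s a) := by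
      rw [le_div_iff₀ (by linarith [(hs a).2])]
      linarith [(hs a).1]
    have g2 := fb s (hsub hs) a
    have g3 : 2 ≤ ((k : ℝ) + 2) / (1 - s a) := by
      rw [div_eq_mul_one_div]
      nlinarith
    nlinarith
  · obtain ⟨-, -, i1, -, i2, -⟩ := h2 k w ε hw s fun a => (hs a).2
    unfold QF
    rw [Fin.sum_univ_two, Fin.sum_univ_two, i2 0, i2 1, i1 0 1, if_neg (by decide), zero_add]
    have gu : ∀ a : Fin 2, 1 ≤ 1 / (1 - s a) ^ 2 := fun a => by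
      rw [le_div_iff₀ (pow_pos (by linarith [(hs a).2]) 2)]
      nlinarith [(hs a).1, (hs a).2]
    have gt : Real.sqrt (s 0 * s 1) ≤ 1 := by
      rw [Real.sqrt_le_one]
      nlinarith [(hs 0).1, (hs 0).2, (hs 1).1, (hs 1).2]
    have key := ell_aux (x0 := x 0) (x1 := x 1) hK (fA s (hsub hs) 0).le (fA s (hsub hs) 1).le
      (abs_le.2 ⟨(f6 s (hsub hs)).le, by linarith [f7 s (hsub hs)]⟩ :
        |ε * pd 1 (pd 0 w) s| ≤ 1 / 4) (gu 0) (gu 1) (Real.sqrt_nonneg (s 0 * s 1)) gt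
    calc _ = 1 * (x 0 ^ 2 * (1 / (1 - s 0) ^ 2) + x 1 ^ 2 * (1 / (1 - s 1) ^ 2)) := by ring
      _ ≤ _ := key
      _ = _ := by ring
  · rw [pd_U1 h1 h3 k hw ε (hOm s hs) a]
    exact (mul_pos hε (fV s (hsub hs) a)).le
  · rw [qV_eq h1 h3 k hw ε (hOm s hs)]
    refine mul_nonneg hε.le ?_
    by_cases hx : x 0 ^ 2 + x 1 ^ 2 = 0
    · have hx0 : x 0 = 0 := by
        have : x 0 ^ 2 = 0 := by nlinarith [sq_nonneg (x 0), sq_nonneg (x 1)]
        exact pow_eq_zero_iff (two_ne_zero) |>.1 this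
      have hx1 : x 1 = 0 := by
        have : x 1 ^ 2 = 0 := by nlinarith [sq_nonneg (x 0), sq_nonneg (x 1)]
        exact pow_eq_zero_iff (two_ne_zero) |>.1 this
      unfold qV
      rw [hx0, hx1]
      simp
    · have hpos : 0 < x 0 ^ 2 + x 1 ^ 2 := lt_of_le_of_ne (by positivity) (Ne.symm hx)
      set ρ : ℝ := Real.sqrt (x 0 ^ 2 + x 1 ^ 2) with hρ
      have hρ0 : 0 < ρ := Real.sqrt_pos.2 hpos
      have hρ2 : ρ ^ 2 = x 0 ^ 2 + x 1 ^ 2 := Real.sq_sqrt hpos.le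
      have hy : (fun a => ρ⁻¹ * x a) ∈ Ci := by
        show (ρ⁻¹ * x 0) ^ 2 + (ρ⁻¹ * x 1) ^ 2 = 1
        rw [mul_pow, mul_pow, ← mul_add, ← hρ2, inv_pow]
        exact inv_mul_cancel₀ (pow_ne_zero 2 hρ0.ne')
      have h6 := f10 (s, fun a => ρ⁻¹ * x a) ⟨hsub hs, hy⟩
      have e : x = fun a => ρ * (ρ⁻¹ * x a) := by
        funext a
        rw [← mul_assoc, mul_inv_cancel₀ hρ0.ne', one_mul]
      rw [e, qV_smul k w ε s (fun a => ρ⁻¹ * x a) ρ]
      exact (mul_pos (by positivity) h6).le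

end Pool.Agent.H794.KM
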