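import Pool.Agent.H794.KM.Spec

/-!
The exact formula for the divergence.
-/

namespace Pool.Agent.H794.KM

open Filter Topology

namespace EQ1L

/-- `F` is differentiable at `s` with derivative `c` with respect to `s_a` -/
def HP (a : Fin 2) (F : (Fin 2 → ℝ) → ℝ) (s : Fin 2 → ℝ) (c : ℝ) : Prop :=
  ∃ L : (Fin 2 → ℝ) →L[ℝ] ℝ, HasFDerivAt F L s ∧ L (Pi.single a 1) = c

variable {a : Fin 2} {F G : (Fin 2 → ℝ) → ℝ} {s : Fin 2 → ℝ} {c d : ℝ}

theorem HP.pd_eq (h : HP a F s c) : pd a F s = c := by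
  obtain ⟨L, h1, h2⟩ := h
  unfold pd
  rw [h1.fderiv, h2]

theorem HP.add (h : HP a F s c) (h' : HP a G s d) : HP a (fun s' => F s' + G s') s (c + d) := by
  obtain ⟨L, h1, h2⟩ := h
  obtain ⟨L', h1', h2'⟩ := h'
  exact ⟨L + L', h1.add h1', by rw [add_apply, h2, h2']⟩

theorem HP.sub (h : HP a F s c) (h' : HP a G s d) : HP a (fun s' => F s' - G s') s (c - d) := by
  obtain ⟨L, h1, h2⟩ := h
  obtain ⟨L', h1', h2'⟩ := h'
  exact ⟨L - L', h1.sub h1', by rw [sub_apply, h2, h2']⟩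

theorem HP.mul (h : HP a F s c) (h' : HP a G s d) :
    HP a (fun s' => F s' * G s') s (c * G s + F s * d) := by
  obtain ⟨L, h1, h2⟩ := h
  obtain ⟨L', h1', h2'⟩ := h'
  refine ⟨_, h1.mul h1', ?_⟩
  rw [add_apply, smul_apply,
    smul_apply, h2, h2', smul_eq_mul, smul_eq_mul]
  ring

theorem HP.const (x : ℝ) : HP a (fun _ => x) s 0 :=
  ⟨0, hasFDerivAt_const x s, by simp⟩

theorem HP.coord (b : Fin 2) : HP a (fun s' => s' b) s (if a = b then 1 else 0) := by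
  refine ⟨ContinuousLinearMap.proj (R := ℝ) b, hasFDerivAt_apply b s, ?_⟩
  rw [ContinuousLinearMap.proj_apply, Pi.single_apply]
  by_cases h : a = b
  · rw [if_pos h, if_pos h.symm]
  · rw [if_neg h, if_neg (fun h' => h h'.symm)]

theorem HP.comp {φ : ℝ → ℝ} (hφ : HasDerivAt φ d (F s)) (h : HP a F s c) :
    HP a (fun s' => φ (F s')) s (d * c) := by
  obtain ⟨L, h1, h2⟩ := h
  refine ⟨_, hφ.comp_hasFDerivAt s h1, ?_⟩
  rw [smul_apply, h2, smul_eq_mul]

theorem HP.of (h : DifferentiableAt ℝ F s) : HP a F s (pd a F s) :=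
  ⟨_, h.hasFDerivAt, rfl⟩

theorem HP.val (h : HP a F s c) (e : c = d) : HP a F s d := e ▸ h

theorem sm_pd (h1 : S_PDR) (h : ContDiff ℝ SM F) (b : Fin 2) : ContDiff ℝ SM (pd b F) := by
  rw [contDiff_iff_contDiffAt]
  intro s
  obtain ⟨-, -, -, -, -, -, h7, -⟩ := h1 F F s b b
  exact (h7 h.contDiffAt).2.1

theorem sm_coord (b : Fin 2) : ContDiff ℝ SM (fun s : Fin 2 → ℝ => s b) := contDiff_apply ℝ ℝ b

theorem sm_bW (h1 : S_PDR) {w : (Fin 2 → ℝ) → ℝ} (hw : ContDiff ℝ SM w) (k : ℕ) (b : Fin 2) :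
    ContDiff ℝ SM (bW k w b) := by
  unfold bW
  exact (((contDiff_const.sub (sm_coord b)).mul (sm_coord b)).mul (sm_pd h1 hw b)).div_const _

theorem sm_AW (h1 : S_PDR) {w : (Fin 2 → ℝ) → ℝ} (hw : ContDiff ℝ SM w) (k : ℕ) (b : Fin 2) :
    ContDiff ℝ SM (AW k w b) := by
  unfold AW
  exact (((contDiff_const.sub (sm_coord b)).pow 2).mul ((sm_pd h1 hw b).add
    ((sm_coord b).mul (sm_pd h1 (sm_pd h1 hw b) b)))).div_const _

theorem sm_cW (h1 : S_PDR) {w : (Fin 2 → ℝ) → ℝ} (hw : ContDiff ℝ SM w) (k : ℕ) :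
    ContDiff ℝ SM (cW k w) := by
  unfold cW
  exact (((((sm_coord 0).mul (sm_coord 1)).mul ((contDiff_const.sub (sm_coord 0)).pow 2)).mul
    ((contDiff_const.sub (sm_coord 1)).pow 2)).mul
    ((sm_pd h1 (sm_pd h1 hw 0) 1).pow 2)).div_const _

theorem sm_gW (h1 : S_PDR) {w : (Fin 2 → ℝ) → ℝ} (hw : ContDiff ℝ SM w) (k : ℕ) (ε : ℝ) :
    ContDiff ℝ SM (gW k w ε) := by
  unfold gW
  exact ((sm_AW h1 hw k 0).add (sm_AW h1 hw k 1)).add (contDiff_const.mul
    (((sm_AW h1 hw k 0).mul (sm_AW h1 hw k 1)).sub (sm_cW h1 hw k)))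

theorem sm_rQ (h1 : S_PDR) {w g : (Fin 2 → ℝ) → ℝ} (hw : ContDiff ℝ SM w) (hg : ContDiff ℝ SM g)
    (k : ℕ) (α ε : ℝ) (b : Fin 2) : ContDiff ℝ SM (rQ k w g α ε b) := by
  unfold rQ
  have e1 : ContDiff ℝ SM (fun s : Fin 2 → ℝ => (1 - s b) * pd b g s) :=
    (contDiff_const.sub (sm_coord b)).mul (sm_pd h1 hg b)
  have e2 : ContDiff ℝ SM (fun s : Fin 2 → ℝ => -((k : ℝ) + ε * α) + ε * (1 - s b) * pd b g s) :=
    contDiff_const.add ((contDiff_const.mul (contDiff_const.sub (sm_coord b))).mul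
      (sm_pd h1 hg b))
  have e3 : ContDiff ℝ SM (fun s : Fin 2 → ℝ =>
      -((k : ℝ) + ε * α) + ε * (1 - s (1 - b)) * pd (1 - b) g s) :=
    contDiff_const.add ((contDiff_const.mul (contDiff_const.sub (sm_coord (1 - b)))).mul
      (sm_pd h1 hg (1 - b)))
  have e4 : ContDiff ℝ SM (fun s : Fin 2 → ℝ =>
      s (1 - b) * (1 - s 0) * (1 - s 1) * pd 1 (pd 0 w) s) :=
    (((sm_coord (1 - b)).mul (contDiff_const.sub (sm_coord 0))).mul
      (contDiff_const.sub (sm_coord 1))).mul (sm_pd h1 (sm_pd h1 hw 0) 1)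
  exact ((contDiff_const.add e1).add ((sm_AW h1 hw k (1 - b)).mul e2)).sub
    ((e4.mul e3).div_const _)

/-- `log Ψ` up to a constant -/
noncomputable def LP (k : ℕ) (w g : (Fin 2 → ℝ) → ℝ) (α ε : ℝ) (s : Fin 2 → ℝ) : ℝ :=
  (ε * α - 2) * (Real.log (1 - s 0) + Real.log (1 - s 1)) +
    k * (Real.log (1 + ε * bW k w 0 s) + Real.log (1 + ε * bW k w 1 s)) + ε * g s

/-- `Ψ` -/
noncomputable def PSI (k : ℕ) (w g : (Fin 2 → ℝ) → ℝ) (α ε : ℝ) (s : Fin 2 → ℝ) : ℝ :=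
  ((k : ℝ) + 2) ^ (2 * k + 1) * Real.exp (LP k w g α ε s)

theorem hp_log1 (b : Fin 2) (h : s b < 1) :
    HP a (fun s' => Real.log (1 - s' b)) s ((1 - s b)⁻¹ * (0 - if a = b then 1 else 0)) :=
  HP.comp (Real.hasDerivAt_log (by linarith : (1 : ℝ) - s b ≠ 0)) ((HP.const 1).sub (HP.coord b))

theorem hp_Ph (k : ℕ) {g : (Fin 2 → ℝ) → ℝ} (hg : ContDiff ℝ SM g) (α ε : ℝ) (hs : ∀ b, s b < 1) :
    HP a (Ph k g α ε) s (Ph k g α ε s * (-((k : ℝ) + ε * α) / (1 - s a) + ε * pd a g s)) := by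
  have hgd : DifferentiableAt ℝ g s := hg.contDiffAt.differentiableAt (by decide)
  have e1 := HP.comp (Real.hasDerivAt_exp _) (((HP.const ((k : ℝ) + ε * α)).mul
    ((hp_log1 (a := a) (s := s) 0 (hs 0)).add (hp_log1 (a := a) (s := s) 1 (hs 1)))).add
    ((HP.const ε).mul (HP.of hgd)))
  have e2 : Ph k g α ε = fun s' => Real.exp (((k : ℝ) + ε * α) *
      (Real.log (1 - s' 0) + Real.log (1 - s' 1)) + ε * g s') := by
    funext s'
    unfold Ph
    rw [Fin.sum_univ_two]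
  rw [e2]
  refine e1.val ?_
  have y0 : (1 : ℝ) - s 0 ≠ 0 := by have := hs 0; linarith
  have y1 : (1 : ℝ) - s 1 ≠ 0 := by have := hs 1; linarith
  fin_cases a
  · simp only [Fin.zero_eta, Fin.isValue, if_true, zero_ne_one, if_false]
    field_simp
    ring
  · simp only [Fin.mk_one, Fin.isValue, if_true, one_ne_zero, if_false]
    field_simp
    ring

theorem hp_LP (h1 : S_PDR) (k : ℕ) {w g : (Fin 2 → ℝ) → ℝ} (hw : ContDiff ℝ SM w)
    (hg : ContDiff ℝ SM g) (α ε : ℝ) (hs : ∀ b, s b < 1) (hB : ∀ b, 0 < 1 + ε * bW k w b s) :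
    HP a (LP k w g α ε) s ((2 + ε * mQ k w g α ε a s) / (1 - s a)) := by
  have hgd : DifferentiableAt ℝ g s := hg.contDiffAt.differentiableAt (by decide)
  have hbd : ∀ b, DifferentiableAt ℝ (bW k w b) s := fun b =>
    (sm_bW h1 hw k b).contDiffAt.differentiableAt (by decide)
  have hb : ∀ b, HP a (fun s' => Real.log (1 + ε * bW k w b s')) s
      ((1 + ε * bW k w b s)⁻¹ * (0 + (0 * bW k w b s + ε * pd a (bW k w b) s))) := fun b =>
    HP.comp (Real.hasDerivAt_log (hB b).ne') ((HP.const 1).add ((HP.const ε).mul (HP.of (hbd b))))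
  have e1 := (((HP.const (ε * α - 2)).mul
    ((hp_log1 (a := a) (s := s) 0 (hs 0)).add (hp_log1 (a := a) (s := s) 1 (hs 1)))).add
    ((HP.const (k : ℝ)).mul ((hb 0).add (hb 1)))).add ((HP.const ε).mul (HP.of hgd))
  have e2 : LP k w g α ε = fun s' => (ε * α - 2) * (Real.log (1 - s' 0) + Real.log (1 - s' 1)) +
    k * (Real.log (1 + ε * bW k w 0 s') + Real.log (1 + ε * bW k w 1 s')) + ε * g s' := rfl
  rw [e2]
  refine e1.val ?_
  have y0 : (1 : ℝ) - s 0 ≠ 0 := by have := hs 0; linarith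
  have y1 : (1 : ℝ) - s 1 ≠ 0 := by have := hs 1; linarith
  have b0 := (hB 0).ne'
  have b1 := (hB 1).ne'
  unfold mQ
  rw [Fin.sum_univ_two]
  fin_cases a
  · simp only [Fin.zero_eta, Fin.isValue, if_true, zero_ne_one, if_false]
    field_simp
    ring
  · simp only [Fin.mk_one, Fin.isValue, if_true, one_ne_zero, if_false]
    field_simp
    ring

theorem hp_PSI (h1 : S_PDR) (k : ℕ) {w g : (Fin 2 → ℝ) → ℝ} (hw : ContDiff ℝ SM w)
    (hg : ContDiff ℝ SM g) (α ε : ℝ) (hs : ∀ b, s b < 1) (hB : ∀ b, 0 < 1 + ε * bW k w b s) :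
    HP a (PSI k w g α ε) s (PSI k w g α ε s * ((2 + ε * mQ k w g α ε a s) / (1 - s a))) := by
  have e1 := (HP.const (a := a) (s := s) (((k : ℝ) + 2) ^ (2 * k + 1))).mul
    (HP.comp (Real.hasDerivAt_exp _) (hp_LP (a := a) h1 k hw hg α ε hs hB))
  refine HP.val (F := PSI k w g α ε) e1 ?_
  unfold PSI
  ring

/-- the exponentials -/
theorem psi_eq (k : ℕ) (w g : (Fin 2 → ℝ) → ℝ) (α ε : ℝ) (hs : ∀ b, s b < 1)
    (hB : ∀ b, 0 < 1 + ε * bW k w b s) :
    ((((k : ℝ) + 2) / (1 - s 0) * (1 + ε * bW k w 0 s)) ^ k *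
      (((k : ℝ) + 2) / (1 - s 1) * (1 + ε * bW k w 1 s)) ^ k) * Ph k g α ε s *
      (((k : ℝ) + 2) / ((1 - s 0) ^ 2 * (1 - s 1) ^ 2)) = PSI k w g α ε s := by
  have y0 : 0 < (1 : ℝ) - s 0 := by have := hs 0; linarith
  have y1 : 0 < (1 : ℝ) - s 1 := by have := hs 1; linarith
  have b0 := hB 0
  have b1 := hB 1
  set E : ℝ := Real.exp (ε * α * (Real.log (1 - s 0) + Real.log (1 - s 1)) + ε * g s) with hE
  have e1 : Ph k g α ε s = E * ((1 - s 0) ^ k * (1 - s 1) ^ k) := by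
    unfold Ph
    rw [Fin.sum_univ_two]
    have : ((k : ℝ) + ε * α) * (Real.log (1 - s 0) + Real.log (1 - s 1)) + ε * g s =
        (ε * α * (Real.log (1 - s 0) + Real.log (1 - s 1)) + ε * g s) +
        ((k : ℝ) * Real.log (1 - s 0) + (k : ℝ) * Real.log (1 - s 1)) := by ring
    have h5 : Real.exp ((k : ℝ) * Real.log (1 - s 0)) = (1 - s 0) ^ k := by
      rw [Real.exp_nat_mul, Real.exp_log y0]
    have h6 : Real.exp ((k : ℝ) * Real.log (1 - s 1)) = (1 - s 1) ^ k := by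
      rw [Real.exp_nat_mul, Real.exp_log y1]
    rw [this, Real.exp_add, Real.exp_add ((k : ℝ) * Real.log (1 - s 0)), h5, h6]
  have e2 : Real.exp (LP k w g α ε s) * ((1 - s 0) ^ 2 * (1 - s 1) ^ 2) =
      E * ((1 + ε * bW k w 0 s) ^ k * (1 + ε * bW k w 1 s) ^ k) := by
    have h0 : (1 - s 0) ^ 2 = Real.exp (2 * Real.log (1 - s 0)) := by
      rw [two_mul, Real.exp_add, Real.exp_log y0, sq]
    have h1 : (1 - s 1) ^ 2 = Real.exp (2 * Real.log (1 - s 1)) := by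
      rw [two_mul, Real.exp_add, Real.exp_log y1, sq]
    have h2 : (1 + ε * bW k w 0 s) ^ k = Real.exp ((k : ℝ) * Real.log (1 + ε * bW k w 0 s)) := by
      rw [Real.exp_nat_mul, Real.exp_log b0]
    have h3 : (1 + ε * bW k w 1 s) ^ k = Real.exp ((k : ℝ) * Real.log (1 + ε * bW k w 1 s)) := by
      rw [Real.exp_nat_mul, Real.exp_log b1]
    rw [h0, h1, h2, h3, hE, ← Real.exp_add, ← Real.exp_add, ← Real.exp_add, ← Real.exp_add]
    congr 1
    unfold LP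
    ring
  have e3 : Real.exp (LP k w g α ε s) =
      E * ((1 + ε * bW k w 0 s) ^ k * (1 + ε * bW k w 1 s) ^ k) /
        ((1 - s 0) ^ 2 * (1 - s 1) ^ 2) := by
    rw [← e2]
    field_simp
  unfold PSI
  rw [e1, e3]
  generalize 1 + ε * bW k w 0 s = B0 at *
  generalize 1 + ε * bW k w 1 s = B1 at *
  generalize 1 - s 0 = Y0 at *
  generalize 1 - s 1 = Y1 at *
  have hK : ((k : ℝ) + 2) ^ (2 * k + 1) = ((k : ℝ) + 2) ^ k * ((k : ℝ) + 2) ^ k *
      ((k : ℝ) + 2) := by ring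
  rw [hK, mul_pow, mul_pow, div_pow, div_pow]
  field_simp

theorem key (h2 : S_FPD) (k : ℕ) {w g : (Fin 2 → ℝ) → ℝ} (hw : ContDiff ℝ SM w)
    (hg : ContDiff ℝ SM g) (α ε : ℝ) (hs : ∀ b, s b < 1) (hB : ∀ b, 0 < 1 + ε * bW k w b s)
    (hG : 0 < 1 + ε * gW k w ε s) :
    PP k (FF k w ε) s * alp (FF k w ε) (Ph k g α ε) a s =
      PSI k w g α ε s * ((1 - s a) * (-(k : ℝ) + ε * rQ k w g α ε a s)) ∧
    PP k (FF k w ε) s * Ph k g α ε s = ((k : ℝ) + 2) * PSI k w g α ε s * (1 + ε * gW k w ε s) := by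
  obtain ⟨-, -, f3, f4, f5, f6⟩ := h2 k w ε hw s hs
  have hpsi := psi_eq k w g α ε hs hB
  have y0 : 0 < (1 : ℝ) - s 0 := by have := hs 0; linarith
  have y1 : 0 < (1 : ℝ) - s 1 := by have := hs 1; linarith
  have hk : (0 : ℝ) < (k : ℝ) + 2 := by positivity
  have f3' : pd 1 (pd 0 (FF k w ε)) s = ε * pd 1 (pd 0 w) s := by
    rw [f3 0 1, if_neg (by decide), zero_add]
  have hP : PP k (FF k w ε) s = ((((k : ℝ) + 2) / (1 - s 0) * (1 + ε * bW k w 0 s)) ^ k *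
      (((k : ℝ) + 2) / (1 - s 1) * (1 + ε * bW k w 1 s)) ^ k) *
      (((k : ℝ) + 2) ^ 2 / ((1 - s 0) ^ 2 * (1 - s 1) ^ 2) * (1 + ε * gW k w ε s)) := by
    unfold PP
    rw [Fin.prod_univ_two, f4 0, f4 1, f6]
  refine ⟨?_, ?_⟩
  · have hR : (((k : ℝ) + 2) / (1 - s (1 - a)) ^ 2 * (1 + ε * AW k w (1 - a) s)) *
        (-((k : ℝ) + ε * α) / (1 - s a) + ε * pd a g s) -
        s (1 - a) * (ε * pd 1 (pd 0 w) s) *
          (-((k : ℝ) + ε * α) / (1 - s (1 - a)) + ε * pd (1 - a) g s) =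
        (((k : ℝ) + 2) / ((1 - s 0) ^ 2 * (1 - s 1) ^ 2)) *
          ((1 - s a) * (-(k : ℝ) + ε * rQ k w g α ε a s)) := by
      unfold rQ
      fin_cases a
      · simp only [Fin.zero_eta, Fin.isValue, sub_zero]
        field_simp
        ring
      · simp only [Fin.mk_one, Fin.isValue, sub_self]
        field_simp
        ring
    have hA : alp (FF k w ε) (Ph k g α ε) a s =
        Ph k g α ε s * ((((k : ℝ) + 2) / ((1 - s 0) ^ 2 * (1 - s 1) ^ 2)) *
          ((1 - s a) * (-(k : ℝ) + ε * rQ k w g α ε a s))) /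
        (((k : ℝ) + 2) ^ 2 / ((1 - s 0) ^ 2 * (1 - s 1) ^ 2) * (1 + ε * gW k w ε s)) := by
      rw [← hR]
      unfold alp
      rw [f5 (1 - a), f3', f6, (hp_Ph k hg α ε hs).pd_eq, (hp_Ph k hg α ε hs).pd_eq]
      ring
    rw [hP, hA, ← hpsi]
    have hG' := hG.ne'
    generalize 1 + ε * gW k w ε s = GG at *
    field_simp
  · rw [hP, ← hpsi]
    ring

end EQ1L

open EQ1L in
theorem t_EQ1 (h1 : S_PDR) (h2 : S_FPD) : S_EQ1 := by
  intro k w g α ε hw hg s hs hB hG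
  have hev : ∀ᶠ s' in 𝓝 s, (∀ b, s' b < 1) ∧ (∀ b, 0 < 1 + ε * bW k w b s') ∧
      0 < 1 + ε * gW k w ε s' := by
    refine Filter.Eventually.and ?_ (Filter.Eventually.and ?_ ?_)
    · rw [Filter.eventually_all]
      intro b
      exact ((sm_coord b).continuous.tendsto s).eventually_lt_const (hs b)
    · rw [Filter.eventually_all]
      intro b
      have hc : Continuous fun s' => 1 + ε * bW k w b s' :=
        continuous_const.add (continuous_const.mul (sm_bW h1 hw k b).continuous)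
      exact (hc.tendsto s).eventually_const_lt (hB b)
    · have hc : Continuous fun s' => 1 + ε * gW k w ε s' :=
        continuous_const.add (continuous_const.mul (sm_gW h1 hw k ε).continuous)
      exact (hc.tendsto s).eventually_const_lt hG
  have hterm : ∀ a : Fin 2, PP k (FF k w ε) s * alp (FF k w ε) (Ph k g α ε) a s +
      s a * pd a (fun s' => PP k (FF k w ε) s' * alp (FF k w ε) (Ph k g α ε) a s') s =
      PSI k w g α ε s * ((-(k : ℝ) + ε * rQ k w g α ε a s) * (1 + ε * s a * mQ k w g α ε a s) +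
        ε * s a * (1 - s a) * pd a (rQ k w g α ε a) s) := by
    intro a
    have hy : (1 : ℝ) - s a ≠ 0 := by have := hs a; linarith
    have e1 : (fun s' => PP k (FF k w ε) s' * alp (FF k w ε) (Ph k g α ε) a s') =ᶠ[𝓝 s]
        fun s' => PSI k w g α ε s' * ((1 - s' a) * (-(k : ℝ) + ε * rQ k w g α ε a s')) := by
      filter_upwards [hev] with s' hs'
      exact (key h2 k hw hg α ε hs'.1 hs'.2.1 hs'.2.2).1
    have e2 : pd a (fun s' => PP k (FF k w ε) s' * alp (FF k w ε) (Ph k g α ε) a s') s =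
        pd a (fun s' => PSI k w g α ε s' * ((1 - s' a) * (-(k : ℝ) + ε * rQ k w g α ε a s'))) s := by
      unfold pd
      rw [e1.fderiv_eq]
    have hrd : DifferentiableAt ℝ (rQ k w g α ε a) s :=
      (sm_rQ h1 hw hg k α ε a).contDiffAt.differentiableAt (by decide)
    have e3 := (hp_PSI (a := a) h1 k hw hg α ε hs hB).mul
      (((HP.const (a := a) (s := s) (1 : ℝ)).sub (HP.coord a)).mul
        ((HP.const (-(k : ℝ))).add ((HP.const ε).mul (HP.of hrd))))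
    rw [e2, e3.pd_eq, (key h2 k hw hg α ε hs hB hG).1, if_pos rfl]
    field_simp
    ring
  have hk : (0 : ℝ) < (k : ℝ) + 2 := by positivity
  unfold DV
  rw [Finset.sum_congr rfl fun a _ => hterm a, Fin.sum_univ_two,
    mul_assoc (-(2 * (k : ℝ) / ((k : ℝ) + 2) + _)), mul_comm (Ph k g α ε s),
    (key (a := 0) h2 k hw hg α ε hs hB hG).2]
  have hT : TQ k w g α ε s = -(
      (rQ k w g α ε 0 s - k * s 0 * mQ k w g α ε 0 s +
        s 0 * (1 - s 0) * pd 0 (rQ k w g α ε 0) s +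
        ε * s 0 * rQ k w g α ε 0 s * mQ k w g α ε 0 s) +
      (rQ k w g α ε 1 s - k * s 1 * mQ k w g α ε 1 s +
        s 1 * (1 - s 1) * pd 1 (rQ k w g α ε 1) s +
        ε * s 1 * rQ k w g α ε 1 s * mQ k w g α ε 1 s)) - 2 * k * gW k w ε s := by
    unfold TQ
    rw [Fin.sum_univ_two]
  rw [hT]
  generalize hγ : gW k w ε s = γ at *
  have hG' := hG.ne'
  field_simp
  ring

end Pool.Agent.H794.KM
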