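import Pool.Agent.H794.KM.Spec

namespace Pool.Agent.H794.KM

open MeasureTheory Set Filter Topology
open scoped ComplexOrder

namespace EQ2L

/-- `F` is differentiable at `s` and has the partial derivative `c` -/
def HP (a : Fin 2) (F : (Fin 2 → ℝ) → ℝ) (s : Fin 2 → ℝ) (c : ℝ) : Prop :=
  DifferentiableAt ℝ F s ∧ pd a F s = c

variable (h : S_PDR) {a : Fin 2} {F G : (Fin 2 → ℝ) → ℝ} {s : Fin 2 → ℝ} {c d : ℝ}

include h

theorem const (c : ℝ) : HP a (fun _ => c) s 0 :=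
  ⟨differentiableAt_const c, (h (fun _ => 0) (fun _ => 0) s a a).2.2.2.1 c⟩

theorem coord (b : Fin 2) : HP a (fun s' => s' b) s (if a = b then 1 else 0) :=
  ⟨(ContinuousLinearMap.proj (R := ℝ) (φ := fun _ : Fin 2 => ℝ) b).differentiableAt,
    (h (fun _ => 0) (fun _ => 0) s a b).2.2.1⟩

theorem add (h1 : HP a F s c) (h2 : HP a G s d) : HP a (fun s' => F s' + G s') s (c + d) :=
  ⟨h1.1.fun_add h2.1, by rw [((h F G s a a).2.2.2.2.1 h1.1 h2.1).1, h1.2, h2.2]⟩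

theorem sub (h1 : HP a F s c) (h2 : HP a G s d) : HP a (fun s' => F s' - G s') s (c - d) :=
  ⟨h1.1.fun_sub h2.1, by rw [((h F G s a a).2.2.2.2.1 h1.1 h2.1).2.1, h1.2, h2.2]⟩

theorem mul (h1 : HP a F s c) (h2 : HP a G s d) :
    HP a (fun s' => F s' * G s') s (c * G s + F s * d) :=
  ⟨h1.1.fun_mul h2.1, by rw [((h F G s a a).2.2.2.2.1 h1.1 h2.1).2.2, h1.2, h2.2]⟩

theorem sq (h1 : HP a F s c) : HP a (fun s' => F s' ^ 2) s (c * F s + F s * c) := by
  have h2 := mul h h1 h1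
  have h3 : (fun s' => F s' ^ 2) = fun s' => F s' * F s' := by
    funext s'; ring
  rw [h3]; exact h2

theorem divc (h1 : HP a F s c) (K : ℝ) : HP a (fun s' => F s' / K) s (c / K) := by
  have h2 := mul h h1 (const h K⁻¹)
  have h3 : (fun s' => F s' / K) = fun s' => F s' * K⁻¹ := by
    funext s'; rw [div_eq_mul_inv]
  rw [h3, div_eq_mul_inv]
  rw [mul_zero, add_zero] at h2
  exact h2

theorem smooth (h1 : ContDiff ℝ SM F) : HP a F s (pd a F s) :=
  ⟨((h F F s a a).2.2.2.2.2.2.1 h1.contDiffAt).1, rfl⟩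

theorem cd (h1 : ContDiff ℝ SM F) (a : Fin 2) : ContDiff ℝ SM (pd a F) :=
  contDiff_iff_contDiffAt.2 fun s => ((h F F s a a).2.2.2.2.2.2.1 h1.contDiffAt).2.1

theorem symm (h1 : ContDiff ℝ SM F) (a b : Fin 2) : pd a (pd b F) = pd b (pd a F) := by
  funext s
  exact ((h F F s a b).2.2.2.2.2.2.1 h1.contDiffAt).2.2.2

theorem omc (b : Fin 2) : HP a (fun s' => 1 - s' b) s (0 - if a = b then 1 else 0) :=
  sub h (const h 1) (coord h b)

/-- the derivatives of `b_c` -/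
theorem hp_bW (k : ℕ) {w : (Fin 2 → ℝ) → ℝ} (hw : ContDiff ℝ SM w) (a c : Fin 2) :
    HP a (bW k w c) s ((((0 - if a = c then 1 else 0) * s c + (1 - s c) * (if a = c then 1 else 0)) *
      pd c w s + (1 - s c) * s c * pd a (pd c w) s) / ((k : ℝ) + 2)) :=
  divc h (mul h (mul h (omc h c) (coord h c)) (smooth h (cd h hw c))) _

/-- the derivatives of `A_c` -/
theorem hp_AW (k : ℕ) {w : (Fin 2 → ℝ) → ℝ} (hw : ContDiff ℝ SM w) (a c : Fin 2) :
    HP a (AW k w c) s ((((0 - if a = c then 1 else 0) * (1 - s c) +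
      (1 - s c) * (0 - if a = c then 1 else 0)) * (pd c w s + s c * pd c (pd c w) s) +
      (1 - s c) ^ 2 * (pd a (pd c w) s + ((if a = c then 1 else 0) * pd c (pd c w) s +
        s c * pd a (pd c (pd c w)) s))) / ((k : ℝ) + 2)) :=
  divc h (mul h (sq h (omc h c)) (add h (smooth h (cd h hw c))
    (mul h (coord h c) (smooth h (cd h (cd h hw c) c))))) _

/-- the derivatives of `r_0` for `ε = 0` -/
theorem hp_r (k : ℕ) {w g : (Fin 2 → ℝ) → ℝ} (α : ℝ) (hw : ContDiff ℝ SM w)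
    (hg : ContDiff ℝ SM g) (a : Fin 2) :
    HP a (rQ k w g α 0 a) s (0 + ((0 - if a = a then 1 else 0) * pd a g s +
        (1 - s a) * pd a (pd a g) s) +
      (pd a (AW k w (1 - a)) s * (-(k : ℝ)) + AW k w (1 - a) s * 0) -
      (((((if a = 1 - a then 1 else 0) * (1 - s 0) + s (1 - a) * (0 - if a = 0 then 1 else 0)) *
        (1 - s 1) + s (1 - a) * (1 - s 0) * (0 - if a = 1 then 1 else 0)) *
        pd 1 (pd 0 w) s + s (1 - a) * (1 - s 0) * (1 - s 1) * pd a (pd 1 (pd 0 w)) s) *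
        (-(k : ℝ)) + s (1 - a) * (1 - s 0) * (1 - s 1) * pd 1 (pd 0 w) s * 0) / ((k : ℝ) + 2)) := by
  have e : rQ k w g α 0 a = fun s => -α + (1 - s a) * pd a g s +
    AW k w (1 - a) s * (-(k : ℝ)) -
    s (1 - a) * (1 - s 0) * (1 - s 1) * pd 1 (pd 0 w) s * (-(k : ℝ)) / ((k : ℝ) + 2) := by
    funext s
    unfold rQ
    ring
  rw [e]
  have hA : HP a (AW k w (1 - a)) s (pd a (AW k w (1 - a)) s) :=
    ⟨(hp_AW h k hw a (1 - a)).1, rfl⟩
  exact sub h (add h (add h (const h (-α)) (mul h (omc h a)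
    (smooth h (cd h hg a)))) (mul h hA (const h (-(k : ℝ)))))
    (divc h (mul h (mul h (mul h (mul h (coord h (1 - a)) (omc h 0)) (omc h 1))
      (smooth h (cd h (cd h hw 0) 1))) (const h (-(k : ℝ)))) _)

end EQ2L

open EQ2L in
theorem t_EQ2 (h : S_PDR) : S_EQ2 := by
  intro k w g α hw hg s
  have hK : ((k : ℝ) + 2) ≠ 0 := by positivity
  have s1 : pd 0 (pd 1 w) = pd 1 (pd 0 w) := symm h hw 0 1
  have s2 : pd 0 (pd 1 (pd 1 w)) = pd 1 (pd 1 (pd 0 w)) := by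
    rw [symm h (cd h hw 1) 0 1, s1]
  have s3 : pd 0 (pd 1 (pd 0 w)) = pd 1 (pd 0 (pd 0 w)) := symm h (cd h hw 0) 0 1
  have e0 : (1 - 0 : Fin 2) = 1 := rfl
  have e1 : (1 - 1 : Fin 2) = 0 := rfl
  have n01 : ¬ ((0 : Fin 2) = 1) := by decide
  have n10 : ¬ ((1 : Fin 2) = 0) := by decide
  have r0 := (hp_r h (s := s) k α hw hg 0).2
  have r1 := (hp_r h (s := s) k α hw hg 1).2
  have a01 := (hp_AW h (s := s) k hw 0 1).2
  have a10 := (hp_AW h (s := s) k hw 1 0).2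
  have b00 := (hp_bW h (s := s) k hw 0 0).2
  have b01 := (hp_bW h (s := s) k hw 0 1).2
  have b10 := (hp_bW h (s := s) k hw 1 0).2
  have b11 := (hp_bW h (s := s) k hw 1 1).2
  simp only [e0, e1, if_neg n01, if_neg n10, if_true, a01, a10, s1, s2, s3] at r0 r1 a01 a10 b00 b01 b10 b11
  unfold TQ
  simp only [Fin.sum_univ_two, r0, r1]
  simp only [mQ, Fin.sum_univ_two, b00, b01, b10, b11]
  simp only [rQ, gW, AW, e0, e1, DD, LL, Fin.sum_univ_two]
  field_simp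
  ring

end Pool.Agent.H794.KM
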