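import Pool.Agent.H794.KM.Spec

/-!
Leaf EU1: closed form of `U` for `F_ε`.
-/

set_option autoImplicit false

namespace Pool.Agent.H794.KM

namespace EU1L

theorem log_div_mul {K y t : ℝ} (hK : 0 < K) (hy : 0 < y) (ht : 0 < t) :
    Real.log (K / y * t) = Real.log K - Real.log y + Real.log t := by
  rw [Real.log_mul (div_pos hK hy).ne' ht.ne', Real.log_div hK.ne' hy.ne']

end EU1L

theorem t_EU1 (h : S_FPD) : S_EU1 := by
  intro k w ε hw s hs hb hg
  obtain ⟨-, -, -, h1, -, h2⟩ := h k w ε hw s hs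
  have hK : (0 : ℝ) < (k : ℝ) + 2 := by positivity
  have hy : ∀ a, 0 < 1 - s a := fun a => sub_pos.2 (hs a)
  have e1 : ∀ a, Real.log ((k : ℝ) + 2 + s a * pd a (FF k w ε) s) =
      Real.log ((k : ℝ) + 2) - Real.log (1 - s a) + Real.log (1 + ε * bW k w a s) := by
    intro a
    rw [h1 a]
    exact EU1L.log_div_mul hK (hy a) (hb a)
  have e2 : Real.log (Gam (FF k w ε) s) = 2 * Real.log ((k : ℝ) + 2) -
      (2 * Real.log (1 - s 0) + 2 * Real.log (1 - s 1)) + Real.log (1 + ε * gW k w ε s) := by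
    rw [h2, EU1L.log_div_mul (pow_pos hK 2) (mul_pos (pow_pos (hy 0) 2) (pow_pos (hy 1) 2)) hg,
      Real.log_mul (pow_pos (hy 0) 2).ne' (pow_pos (hy 1) 2).ne', Real.log_pow, Real.log_pow,
      Real.log_pow]
    norm_num
  unfold UU NN
  rw [e2]
  simp only [e1]
  unfold FF
  simp only [Fin.sum_univ_two]
  ring

end Pool.Agent.H794.KM
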