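import Pool.Agent.H794.KM.Spec

/-!
EXB: an exhaustion of `ℂ ∖ {0, 1}` with gradient bounded by the hyperbolic density.
-/

namespace Pool.Agent.H794.KM

open MeasureTheory Set Filter Topology
open scoped ComplexOrder

namespace EXBL

/-- `log |z - p|²` -/
noncomputable def lg (p z : ℂ) : ℝ := Real.log (‖z - p‖ ^ 2)

theorem lg_abs {p z : ℂ} : |lg p z| = 2 * |Real.log ‖z - p‖| := by
  unfold lg
  rw [Real.log_pow, abs_mul]
  norm_num

theorem lg_sq {p z : ℂ} : lg p z ^ 2 = 4 * |Real.log ‖z - p‖| ^ 2 := by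
  rw [← sq_abs, lg_abs]
  ring

theorem contDiffAt_lg {p z : ℂ} (h : z ≠ p) : ContDiffAt ℝ SM (lg p) z := by
  unfold lg
  refine ContDiffAt.log ?_ (pow_ne_zero 2 (norm_ne_zero_iff.2 (sub_ne_zero.2 h)))
  exact ((contDiff_id.sub contDiff_const).norm_sq ℝ).contDiffAt

theorem hasFDerivAt_lg {p z : ℂ} (h : z ≠ p) :
    ∃ L : ℂ →L[ℝ] ℝ, HasFDerivAt (lg p) L z ∧ ‖L‖ ≤ 2 / ‖z - p‖ := by
  have h0 : 0 < ‖z - p‖ := norm_pos_iff.2 (sub_ne_zero.2 h)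
  have h1 : HasFDerivAt (fun u : ℂ => u - p) (ContinuousLinearMap.id ℝ ℂ) z :=
    (hasFDerivAt_id z).sub_const p
  have h2 := (h1.norm_sq).log (pow_ne_zero 2 h0.ne')
  refine ⟨_, h2, ?_⟩
  rw [ContinuousLinearMap.comp_id, norm_smul, norm_inv, norm_pow, norm_norm]
  have h3 : ‖(2 : ℕ) • innerSL ℝ (z - p)‖ ≤ 2 * ‖z - p‖ := by
    rw [two_nsmul, two_mul]
    refine (norm_add_le _ _).trans ?_
    rw [innerSL_apply_norm]
  calc (‖z - p‖ ^ 2)⁻¹ * ‖(2 : ℕ) • innerSL ℝ (z - p)‖ ≤ (‖z - p‖ ^ 2)⁻¹ * (2 * ‖z - p‖) :=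
        mul_le_mul_of_nonneg_left h3 (by positivity)
    _ = 2 / ‖z - p‖ := by field_simp

/-- the exhaustion function -/
noncomputable def ex (z : ℂ) : ℝ := Real.log (2 + lg 0 z ^ 2 + lg 1 z ^ 2)

theorem pos (z : ℂ) : 0 < 2 + lg 0 z ^ 2 + lg 1 z ^ 2 := by positivity

theorem contDiffAt_ex {z : ℂ} (hz : z ∈ M) : ContDiffAt ℝ SM ex z := by
  unfold ex
  refine ContDiffAt.log ?_ (pos z).ne'
  exact (contDiffAt_const.add ((contDiffAt_lg hz.1).pow 2)).add ((contDiffAt_lg hz.2).pow 2)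

theorem norm_fderiv_ex {z : ℂ} (hz : z ∈ M) : ‖fderiv ℝ ex z‖ ≤
    (2 + lg 0 z ^ 2 + lg 1 z ^ 2)⁻¹ * (2 * |lg 0 z| * (2 / ‖z - 0‖) + 2 * |lg 1 z| * (2 / ‖z - 1‖)) := by
  obtain ⟨L0, h0, n0⟩ := hasFDerivAt_lg hz.1
  obtain ⟨L1, h1, n1⟩ := hasFDerivAt_lg hz.2
  have h2 : HasFDerivAt ex ((2 + lg 0 z ^ 2 + lg 1 z ^ 2)⁻¹ •
      ((2 * lg 0 z) • L0 + (2 * lg 1 z) • L1)) z := by
    have h3 : HasFDerivAt (fun u => 2 + lg 0 u ^ 2 + lg 1 u ^ 2)
        ((2 * lg 0 z) • L0 + (2 * lg 1 z) • L1) z := by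
      have h4 := ((h0.pow 2).const_add (2 : ℝ)).add (h1.pow 2)
      refine h4.congr_fderiv ?_
      ext v
      simp
    exact h3.log (pos z).ne'
  rw [h2.fderiv, norm_smul, norm_inv, Real.norm_of_nonneg (pos z).le]
  refine mul_le_mul_of_nonneg_left ?_ (inv_nonneg.2 (pos z).le)
  refine (norm_add_le _ _).trans (add_le_add ?_ ?_)
  · rw [norm_smul, norm_mul, Real.norm_eq_abs, Real.norm_eq_abs, abs_two]
    exact mul_le_mul_of_nonneg_left n0 (by positivity)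
  · rw [norm_smul, norm_mul, Real.norm_eq_abs, Real.norm_eq_abs, abs_two]
    exact mul_le_mul_of_nonneg_left n1 (by positivity)

theorem key {X Y A B c r : ℝ} (hX : 0 < X) (hY : 0 < Y) (hYX : Y ≤ 1 + X) (hA : 0 ≤ A) (hB : 0 ≤ B)
    (hc : 0 < c) (hr : c * (1 + X) ≤ r * (X * Y * (1 + A + B))) :
    (2 + 4 * A ^ 2 + 4 * B ^ 2)⁻¹ * (2 * (2 * A) * (2 / X) + 2 * (2 * B) * (2 / Y)) ≤
      12 / c * r := by
  have h1 : (1 + X) / (X * Y * (1 + A + B)) ≤ r / c := by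
    rw [div_le_div_iff₀ (by positivity) hc]
    linarith
  have h2 : (2 + 4 * A ^ 2 + 4 * B ^ 2)⁻¹ * (2 * (2 * A) * (2 / X) + 2 * (2 * B) * (2 / Y)) ≤
      12 * ((1 + X) / (X * Y * (1 + A + B))) := by
    have h3 : (2 + 4 * A ^ 2 + 4 * B ^ 2)⁻¹ * (2 * (2 * A) * (2 / X) + 2 * (2 * B) * (2 / Y)) =
        (8 * (A * Y + B * X)) / ((2 + 4 * A ^ 2 + 4 * B ^ 2) * (X * Y)) := by
      field_simp
      ring
    have h4 : 12 * ((1 + X) / (X * Y * (1 + A + B))) =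
        (12 * (1 + X)) / (X * Y * (1 + A + B)) := by ring
    rw [h3, h4, div_le_div_iff₀ (by positivity) (by positivity)]
    have h5 : A * Y + B * X ≤ (A + B) * (1 + X) := by nlinarith
    have h6 : (A + B) * (1 + A + B) ≤ 3 / 2 * (2 + 4 * A ^ 2 + 4 * B ^ 2) := by
      nlinarith [sq_nonneg (A - B), sq_nonneg (A - 1), sq_nonneg (B - 1)]
    calc 8 * (A * Y + B * X) * (X * Y * (1 + A + B))
        ≤ 8 * ((A + B) * (1 + X)) * (X * Y * (1 + A + B)) := by gcongr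
      _ = 8 * (1 + X) * (X * Y) * ((A + B) * (1 + A + B)) := by ring
      _ ≤ 8 * (1 + X) * (X * Y) * (3 / 2 * (2 + 4 * A ^ 2 + 4 * B ^ 2)) := by gcongr
      _ = 12 * (1 + X) * ((2 + 4 * A ^ 2 + 4 * B ^ 2) * (X * Y)) := by ring
  calc _ ≤ 12 * ((1 + X) / (X * Y * (1 + A + B))) := h2
    _ ≤ 12 * (r / c) := by gcongr
    _ = 12 / c * r := by ring

theorem bounds {z : ℂ} {p : ℂ} (h : z ≠ p) {K : ℝ} (hK : lg p z ^ 2 ≤ K) :
    Real.exp (-(1 + K)) ≤ ‖z - p‖ ∧ ‖z - p‖ ≤ Real.exp (1 + K) := by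
  have h0 : 0 < ‖z - p‖ := norm_pos_iff.2 (sub_ne_zero.2 h)
  rw [lg_sq] at hK
  have h1 : |Real.log ‖z - p‖| ≤ 1 + K := by
    nlinarith [sq_nonneg (|Real.log ‖z - p‖| - 1), abs_nonneg (Real.log ‖z - p‖)]
  obtain ⟨h2, h3⟩ := abs_le.1 h1
  constructor
  · rw [← Real.exp_log h0]
    exact Real.exp_le_exp.2 h2
  · rw [← Real.exp_log h0]
    exact Real.exp_le_exp.2 h3

theorem compact (R : ℝ) : IsCompact {z | z ∈ M ∧ ex z ≤ R} := by
  set K : ℝ := Real.exp R with hK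
  set D : Set ℂ := {z | ‖z‖ ≤ Real.exp (1 + K) ∧ Real.exp (-(1 + K)) ≤ ‖z‖ ∧
    Real.exp (-(1 + K)) ≤ ‖z - 1‖} with hD
  have hDM : D ⊆ M := by
    rintro z ⟨-, h2, h3⟩
    refine ⟨fun h => ?_, fun h => ?_⟩
    · rw [h, norm_zero] at h2
      exact absurd h2 (not_le.2 (Real.exp_pos _))
    · rw [h, sub_self, norm_zero] at h3
      exact absurd h3 (not_le.2 (Real.exp_pos _))
  have hDc : IsClosed D := by
    have h1 : IsClosed {z : ℂ | ‖z‖ ≤ Real.exp (1 + K)} := isClosed_le continuous_norm continuous_const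
    have h2 : IsClosed {z : ℂ | Real.exp (-(1 + K)) ≤ ‖z‖} := isClosed_le continuous_const continuous_norm
    have h3 : IsClosed {z : ℂ | Real.exp (-(1 + K)) ≤ ‖z - 1‖} :=
      isClosed_le continuous_const (by fun_prop)
    exact h1.inter (h2.inter h3)
  have hDk : IsCompact D := by
    refine (isCompact_closedBall (0 : ℂ) (Real.exp (1 + K))).of_isClosed_subset hDc ?_
    rintro z ⟨h1, -⟩
    rwa [Metric.mem_closedBall, dist_zero_right]
  have hcont : ContinuousOn ex D := fun z hz =>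
    ((contDiffAt_ex (hDM hz)).continuousAt).continuousWithinAt
  have hEq : {z | z ∈ M ∧ ex z ≤ R} = D ∩ ex ⁻¹' Iic R := by
    ext z
    constructor
    · rintro ⟨hz, hR⟩
      refine ⟨?_, hR⟩
      have h1 : 2 + lg 0 z ^ 2 + lg 1 z ^ 2 ≤ K := by
        rw [hK, ← Real.exp_log (pos z)]
        exact Real.exp_le_exp.2 hR
      have h2 := bounds hz.1 (K := K) (by nlinarith [sq_nonneg (lg 1 z)])
      have h3 := bounds hz.2 (K := K) (by nlinarith [sq_nonneg (lg 0 z)])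
      rw [sub_zero] at h2
      exact ⟨h2.2, h2.1, h3.1⟩
    · rintro ⟨hz, hR⟩
      exact ⟨hDM hz, hR⟩
  rw [hEq]
  exact hDk.of_isClosed_subset (hcont.preimage_isClosed_of_isClosed hDc isClosed_Iic)
    inter_subset_left

end EXBL

open EXBL in
theorem t_EXB : S_EXB := by
  intro r hr
  obtain ⟨c, hc, hlow⟩ := hr.lower
  refine ⟨ex, 12 / c, fun z hz => (contDiffAt_ex hz).contDiffWithinAt, fun z hz => ⟨?_, ?_⟩, compact⟩
  · refine Real.log_nonneg ?_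
    nlinarith [sq_nonneg (lg 0 z), sq_nonneg (lg 1 z)]
  · refine (norm_fderiv_ex hz).trans ?_
    rw [lg_sq, lg_sq, lg_abs, lg_abs, sub_zero]
    have hX : 0 < ‖z‖ := norm_pos_iff.2 hz.1
    have hY : 0 < ‖z - 1‖ := norm_pos_iff.2 (sub_ne_zero.2 hz.2)
    have hYX : ‖z - 1‖ ≤ 1 + ‖z‖ := by
      have := norm_sub_le z 1
      rw [norm_one] at this
      linarith
    exact key hX hY hYX (abs_nonneg _) (abs_nonneg _) hc (hlow z hz)

end Pool.Agent.H794.KM
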