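import Pool.Agent.H794.KM.Spec

/-!
Project KM, leaf EXH: the exhaustion function of `XX` (helper264).
-/

namespace Pool.Agent.H794.KM

open MeasureTheory Set Filter Topology
open scoped ComplexOrder

namespace EXHL

theorem wl_apply (a b v : ℂ) : wl a b v = a * v + b * (starRingEnd ℂ) v := by
  simp [wl]

theorem wL_apply {ι : Type} [Fintype ι] (a b v : ι → ℂ) :
    wL a b v = ∑ i, (a i * v i + b i * (starRingEnd ℂ) (v i)) := by
  simp only [wL, _root_.sum_apply, ContinuousLinearMap.comp_apply,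
    ContinuousLinearMap.proj_apply, wl_apply]

theorem one_le_SM : (1 : WithTop ℕ∞) ≤ SM := by
  change ((1 : ℕ∞) : WithTop ℕ∞) ≤ ((⊤ : ℕ∞) : WithTop ℕ∞)
  exact WithTop.coe_le_coe.2 le_top

theorem isOpen_M : IsOpen M := isOpen_ne.inter isOpen_ne

/-- the derivative of `s_a` is bounded by `2 h |v_a| |η_a|` -/
theorem ds_le {ι : Type} [Fintype ι] {s : (ι → ℂ) → ℝ} {L : (ι → ℂ) →L[ℝ] ℝ} {p c : ι → ℂ} {h : ℝ}
    {w : ℂ} (hh : 0 < h) (hL : HasFDerivAt s L p)
    (hW : HW (fun q => ((s q : ℝ) : ℂ)) p (fun i => (h : ℂ) * (starRingEnd ℂ) w * c i)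
      (fun i => (h : ℂ) * w * (starRingEnd ℂ) (c i))) (v : ι → ℂ) :
    (L v) ^ 2 ≤ 4 * (‖w‖ ^ 2 * h) * (h * ‖∑ i, c i * v i‖ ^ 2) := by
  have h1 : HasFDerivAt (fun q => ((s q : ℝ) : ℂ)) (Complex.ofRealCLM.comp L) p :=
    Complex.ofRealCLM.hasFDerivAt.comp p hL
  have h2 := h1.unique hW
  have h3 : ((L v : ℝ) : ℂ) = (h : ℂ) * (starRingEnd ℂ) w * (∑ i, c i * v i) +
      (h : ℂ) * w * (starRingEnd ℂ) (∑ i, c i * v i) := by
    have h4 := DFunLike.congr_fun h2 v
    rw [wL_apply, Finset.sum_add_distrib] at h4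
    rw [map_sum, Finset.mul_sum, Finset.mul_sum]
    refine h4.trans ?_
    congr 1
    · exact Finset.sum_congr rfl fun i _ => by ring
    · exact Finset.sum_congr rfl fun i _ => by rw [map_mul]; ring
  have h5 : |L v| ≤ 2 * h * ‖w‖ * ‖∑ i, c i * v i‖ := by
    have h6 : ‖((L v : ℝ) : ℂ)‖ = |L v| := by rw [Complex.norm_real, Real.norm_eq_abs]
    rw [← h6, h3]
    refine (norm_add_le _ _).trans ?_
    rw [norm_mul, norm_mul, norm_mul, norm_mul, RCLike.norm_conj, RCLike.norm_conj,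
      Complex.norm_real, Real.norm_of_nonneg hh.le]
    exact le_of_eq (by ring)
  have h7 : (L v) ^ 2 ≤ (2 * h * ‖w‖ * ‖∑ i, c i * v i‖) ^ 2 := by
    rw [← sq_abs]
    exact pow_le_pow_left₀ (abs_nonneg _) h5 2
  refine h7.trans (le_of_eq ?_)
  ring

end EXHL

open EXHL in
theorem t_EXH (h1 : S_BAS) (h2 : S_SSD) (h3 : S_EXB) (_h4 : S_WIR) : S_EXH := by
  intro k r hr
  obtain ⟨hopen, -, hSq, hss⟩ := h2 k r hr
  obtain ⟨e, C₀, he1, he2, he3⟩ := h3 r hr
  have heAt : ∀ z ∈ M, ContDiffAt ℝ SM e z := fun z hz =>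
    (he1 z hz).contDiffAt (isOpen_M.mem_nhds hz)
  refine ⟨fun q => (∑ a, -Real.log (1 - ss k r q a)) + ∑ x, e (q (Sum.inl x)),
    16 + 8 * (k : ℝ) * ((k : ℝ) + 1) * C₀ ^ 2, ?_, ?_, ?_⟩
  · intro p hp
    refine ContDiffAt.contDiffWithinAt ?_
    refine ContDiffAt.add ?_ ?_
    · refine ContDiffAt.sum fun a _ => ?_
      refine ContDiffAt.neg ?_
      refine ContDiffAt.log ?_ ?_
      · exact contDiffAt_const.sub (((hss p hp.1 a).2.1).of_le one_le_SM)
      · have := hp.2 a
        exact (sub_pos.2 this).ne'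
    · refine ContDiffAt.sum fun x _ => ?_
      have h5 : ContDiffAt ℝ 1 e (p (Sum.inl x)) :=
        (heAt _ (hp.1 x)).of_le one_le_SM
      exact h5.comp p (contDiff_apply ℝ ℂ (Sum.inl x : Ix k)).contDiffAt
  · intro p hp v
    have hs1 : ∀ a, 0 ≤ ss k r p a ∧ ss k r p a < 1 := hSq p hp
    let L : Fin 2 → ((Ix k → ℂ) →L[ℝ] ℝ) := fun a => fderiv ℝ (fun q => ss k r q a) p
    have hL : ∀ a, HasFDerivAt (fun q => ss k r q a) (L a) p := fun a =>
      (((hss p hp.1 a).2.1).differentiableAt (by simp)).hasFDerivAt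
    have hD : ∀ x, HasFDerivAt e (fderiv ℝ e (p (Sum.inl x))) (p (Sum.inl x)) := fun x =>
      ((heAt _ (hp.1 x)).differentiableAt (by simp)).hasFDerivAt
    have hE : HasFDerivAt (fun q : Ix k → ℂ => (∑ a, -Real.log (1 - ss k r q a)) +
        ∑ x, e (q (Sum.inl x)))
        ((∑ a, -((1 - ss k r p a)⁻¹ • (-(L a)))) +
          ∑ x, (fderiv ℝ e (p (Sum.inl x))).comp
            (ContinuousLinearMap.proj (R := ℝ) (φ := fun _ : Ix k => ℂ) (Sum.inl x))) p := by
      refine HasFDerivAt.add ?_ ?_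
      · refine HasFDerivAt.fun_sum fun a _ => ?_
        refine HasFDerivAt.neg ?_
        exact ((hL a).const_sub 1).log (sub_pos.2 (hs1 a).2).ne'
      · refine HasFDerivAt.fun_sum fun x _ => ?_
        exact HasFDerivAt.comp p (g := e) (f := fun q : Ix k → ℂ => q (Sum.inl x)) (hD x)
          (ContinuousLinearMap.proj (R := ℝ) (φ := fun _ : Ix k => ℂ) (Sum.inl x)).hasFDerivAt
    rw [hE.fderiv]
    have h5 : ((∑ a, -((1 - ss k r p a)⁻¹ • (-(L a)))) +
          ∑ x, (fderiv ℝ e (p (Sum.inl x))).comp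
            (ContinuousLinearMap.proj (R := ℝ) (φ := fun _ : Ix k => ℂ) (Sum.inl x))) v =
        (∑ a, (1 - ss k r p a)⁻¹ * L a v) +
          ∑ x, fderiv ℝ e (p (Sum.inl x)) (v (Sum.inl x)) := by
      rw [_root_.add_apply, _root_.sum_apply, _root_.sum_apply]
      congr 1
      refine Finset.sum_congr rfl fun a _ => ?_
      rw [_root_.neg_apply, _root_.smul_apply, _root_.neg_apply, smul_eq_mul]
      ring
    rw [h5]
    have hk : (0 : ℝ) < (k : ℝ) + 1 := by positivity
    have hA : ∀ a, ((1 - ss k r p a)⁻¹ * L a v) ^ 2 ≤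
        4 * (hh k r p a * ‖∑ i, cof (Tm k r p) a i * v i‖ ^ 2 / (1 - ss k r p a) ^ 2) := by
      intro a
      have h6 := ds_le (hss p hp.1 a).2.2.1 (hL a) (hss p hp.1 a).2.2.2.1 v
      have h7 : ‖p (Sum.inr a)‖ ^ 2 * hh k r p a ≤ 1 := (hs1 a).2.le
      have h8 : 0 ≤ hh k r p a * ‖∑ i, cof (Tm k r p) a i * v i‖ ^ 2 :=
        mul_nonneg (hss p hp.1 a).2.2.1.le (sq_nonneg _)
      have h9 : (L a v) ^ 2 ≤ 4 * (hh k r p a * ‖∑ i, cof (Tm k r p) a i * v i‖ ^ 2) := by
        refine h6.trans ?_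
        have h10 := mul_le_mul_of_nonneg_right h7 h8
        linarith
      have h11 : 0 < (1 - ss k r p a) ^ 2 := pow_pos (sub_pos.2 (hs1 a).2) 2
      rw [mul_pow, inv_pow, ← mul_div_assoc, le_div_iff₀ h11, mul_comm _ ((L a v) ^ 2), mul_assoc,
        inv_mul_cancel₀ h11.ne', mul_one]
      exact h9
    have hB : ∀ x, (fderiv ℝ e (p (Sum.inl x)) (v (Sum.inl x))) ^ 2 ≤
        2 * ((k : ℝ) + 1) * C₀ ^ 2 * (bet k r (p (Sum.inl x)) * ‖v (Sum.inl x)‖ ^ 2) := by
      intro x
      have h6 : ‖fderiv ℝ e (p (Sum.inl x)) (v (Sum.inl x))‖ ≤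
          C₀ * r (p (Sum.inl x)) * ‖v (Sum.inl x)‖ :=
        (ContinuousLinearMap.le_opNorm _ _).trans
          (mul_le_mul_of_nonneg_right (he2 _ (hp.1 x)).2 (norm_nonneg _))
      have h7 : (fderiv ℝ e (p (Sum.inl x)) (v (Sum.inl x))) ^ 2 ≤
          (C₀ * r (p (Sum.inl x)) * ‖v (Sum.inl x)‖) ^ 2 := by
        rw [← sq_abs, ← Real.norm_eq_abs]
        exact pow_le_pow_left₀ (norm_nonneg _) h6 2
      refine h7.trans (le_of_eq ?_)
      unfold bet
      field_simp
    have hA2 : (∑ a, (1 - ss k r p a)⁻¹ * L a v) ^ 2 ≤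
        8 * ∑ a, hh k r p a * ‖∑ i, cof (Tm k r p) a i * v i‖ ^ 2 / (1 - ss k r p a) ^ 2 := by
      refine (sq_sum_le_card_mul_sum_sq).trans ?_
      rw [Finset.card_univ, Fintype.card_fin]
      have h6 := Finset.sum_le_sum fun a (_ : a ∈ (Finset.univ : Finset (Fin 2))) => hA a
      rw [← Finset.mul_sum] at h6
      push_cast
      linarith
    have hB2 : (∑ x, fderiv ℝ e (p (Sum.inl x)) (v (Sum.inl x))) ^ 2 ≤
        (4 * (k : ℝ) * ((k : ℝ) + 1) * C₀ ^ 2) *
          ∑ x, bet k r (p (Sum.inl x)) * ‖v (Sum.inl x)‖ ^ 2 := by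
      refine (sq_sum_le_card_mul_sum_sq).trans ?_
      rw [Finset.card_univ, Fintype.card_prod, Fintype.card_fin, Fintype.card_fin]
      have h6 := Finset.sum_le_sum fun x (_ : x ∈ (Finset.univ : Finset (Fin 2 × Fin k))) => hB x
      rw [← Finset.mul_sum] at h6
      push_cast
      have h7 := mul_le_mul_of_nonneg_left h6 (by positivity : (0 : ℝ) ≤ 2 * (k : ℝ))
      refine h7.trans (le_of_eq ?_)
      ring
    have hS1 : 0 ≤ ∑ a, hh k r p a * ‖∑ i, cof (Tm k r p) a i * v i‖ ^ 2 /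
        (1 - ss k r p a) ^ 2 :=
      Finset.sum_nonneg fun a _ => div_nonneg (mul_nonneg (hss p hp.1 a).2.2.1.le (sq_nonneg _))
        (sq_nonneg _)
    have hS2 : 0 ≤ ∑ x, bet k r (p (Sum.inl x)) * ‖v (Sum.inl x)‖ ^ 2 :=
      Finset.sum_nonneg fun x _ => mul_nonneg (by unfold bet; positivity) (sq_nonneg _)
    have h12 : 0 ≤ (k : ℝ) * ((k : ℝ) + 1) * C₀ ^ 2 := by positivity
    have h13 := mul_nonneg h12 hS1
    have h14 := sq_nonneg ((∑ a, (1 - ss k r p a)⁻¹ * L a v) -
      ∑ x, fderiv ℝ e (p (Sum.inl x)) (v (Sum.inl x)))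
    nlinarith [hA2, hB2, h13, h14, hS1, hS2]
  · intro R
    have hK := he3 R
    set K : Set ℂ := {z | z ∈ M ∧ e z ≤ R} with hKdef
    have hlam : ContinuousOn (lam k r) K := fun z hz =>
      ((h1 k r hr z hz.1).2.2.1).continuousAt.continuousWithinAt
    obtain ⟨B, hB⟩ := hK.exists_bound_of_continuousOn hlam
    let ρ : ℝ := Real.exp ((k : ℝ) * B) + 1
    let D : Set (Ix k → ℂ) :=
      Set.pi univ (Sum.elim (fun _ => K) (fun _ => Metric.closedBall (0 : ℂ) ρ))
    have hDc : IsCompact D := by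
      refine isCompact_univ_pi ?_
      rintro (x | a)
      · exact hK
      · exact isCompact_closedBall _ _
    have hDM : ∀ p ∈ D, ∀ x, p (Sum.inl x) ∈ M := fun p hp x => (hp (Sum.inl x) (mem_univ _)).1
    let D1 : Set (Ix k → ℂ) := {p | p ∈ D ∧ ∀ a, ss k r p a ≤ 1 - Real.exp (-R)}
    have hD1 : IsClosed D1 := by
      have h5 : D1 = ⋂ a, D ∩ (fun q => ss k r q a) ⁻¹' Iic (1 - Real.exp (-R)) := by
        ext p
        simp only [D1, mem_ofPred_eq, mem_iInter, mem_inter_iff, mem_preimage, mem_Iic]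
        exact ⟨fun h a => ⟨h.1, h.2 a⟩, fun h => ⟨(h 0).1, fun a => (h a).2⟩⟩
      rw [h5]
      refine isClosed_iInter fun a => ?_
      refine ContinuousOn.preimage_isClosed_of_isClosed ?_ hDc.isClosed isClosed_Iic
      intro p hp
      exact ((hss p (hDM p hp) a).2.1).continuousAt.continuousWithinAt
    have hEeq : {p | p ∈ XX k r ∧ (∑ a, -Real.log (1 - ss k r p a)) + ∑ x, e (p (Sum.inl x)) ≤ R} =
        D1 ∩ (fun q : Ix k → ℂ => (∑ a, -Real.log (1 - ss k r q a)) +
          ∑ x, e (q (Sum.inl x))) ⁻¹' Iic R := by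
      ext p
      simp only [mem_ofPred_eq, mem_inter_iff, mem_preimage, mem_Iic, D1]
      constructor
      · rintro ⟨hp, hE⟩
        refine ⟨⟨?_, ?_⟩, hE⟩
        · have hs1 : ∀ a, 0 ≤ ss k r p a ∧ ss k r p a < 1 := hSq p hp
          have hn1 : ∀ a ∈ (Finset.univ : Finset (Fin 2)), 0 ≤ -Real.log (1 - ss k r p a) :=
            fun a _ => neg_nonneg.2 (Real.log_nonpos (sub_nonneg.2 (hs1 a).2.le)
              (sub_le_self _ (hs1 a).1))
          have hn2 : ∀ x ∈ (Finset.univ : Finset (Fin 2 × Fin k)), 0 ≤ e (p (Sum.inl x)) :=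
            fun x _ => (he2 _ (hp.1 x)).1
          have hz : ∀ x, p (Sum.inl x) ∈ K := by
            intro x
            refine ⟨hp.1 x, ?_⟩
            have h6 := Finset.single_le_sum hn2 (Finset.mem_univ x)
            have h7 := Finset.sum_nonneg hn1
            linarith
          intro i _
          rcases i with x | a
          · exact hz x
          · change p (Sum.inr a) ∈ Metric.closedBall (0 : ℂ) ρ
            rw [mem_closedBall_zero_iff]
            have h6 : Real.exp (-((k : ℝ) * B)) ≤ hh k r p a := by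
              unfold hh
              refine Real.exp_le_exp.2 ?_
              have h7 : ∀ j ∈ (Finset.univ : Finset (Fin k)),
                  -B ≤ lam k r (p (Sum.inl (a, j))) := by
                intro j _
                have h8 := hB _ (hz (a, j))
                rw [Real.norm_eq_abs] at h8
                exact (abs_le.1 h8).1
              have h9 := Finset.card_nsmul_le_sum _ _ _ h7
              rw [Finset.card_univ, Fintype.card_fin, nsmul_eq_mul] at h9
              linarith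
            have h7 : ‖p (Sum.inr a)‖ ^ 2 * hh k r p a < 1 := hp.2 a
            have h8 : ‖p (Sum.inr a)‖ ^ 2 * Real.exp (-((k : ℝ) * B)) < 1 :=
              (mul_le_mul_of_nonneg_left h6 (sq_nonneg _)).trans_lt h7
            have h9 : ‖p (Sum.inr a)‖ ^ 2 < Real.exp ((k : ℝ) * B) := by
              rw [Real.exp_neg, ← div_eq_mul_inv, div_lt_one (Real.exp_pos _)] at h8
              exact h8
            have h10 := Real.exp_pos ((k : ℝ) * B)
            refine abs_le_of_sq_le_sq' ?_ (by positivity) |>.2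
            nlinarith
        · intro a
          have hs1 : ∀ a, 0 ≤ ss k r p a ∧ ss k r p a < 1 := hSq p hp
          have hn1 : ∀ a ∈ (Finset.univ : Finset (Fin 2)), 0 ≤ -Real.log (1 - ss k r p a) :=
            fun a _ => neg_nonneg.2 (Real.log_nonpos (sub_nonneg.2 (hs1 a).2.le)
              (sub_le_self _ (hs1 a).1))
          have hn2 : ∀ x ∈ (Finset.univ : Finset (Fin 2 × Fin k)), 0 ≤ e (p (Sum.inl x)) :=
            fun x _ => (he2 _ (hp.1 x)).1
          have h6 := Finset.single_le_sum hn1 (Finset.mem_univ a)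
          have h7 := Finset.sum_nonneg hn2
          have h8 : -R ≤ Real.log (1 - ss k r p a) := by linarith
          have h9 := (Real.le_log_iff_exp_le (sub_pos.2 (hs1 a).2)).1 h8
          linarith
      · rintro ⟨⟨hp, hs⟩, hE⟩
        refine ⟨⟨hDM p hp, fun a => ?_⟩, hE⟩
        have h6 := hs a
        have h7 := Real.exp_pos (-R)
        linarith
    change IsCompact {p | p ∈ XX k r ∧
      (∑ a, -Real.log (1 - ss k r p a)) + ∑ x, e (p (Sum.inl x)) ≤ R}
    rw [hEeq]
    refine hDc.of_isClosed_subset ?_ ?_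
    · refine ContinuousOn.preimage_isClosed_of_isClosed ?_ hD1 isClosed_Iic
      intro p hp
      refine ContinuousAt.continuousWithinAt ?_
      have hM := hDM p hp.1
      refine ContinuousAt.add ?_ ?_
      · refine tendsto_finsetSum _ fun a _ => ?_
        refine ContinuousAt.neg ?_
        refine ContinuousAt.log ?_ ?_
        · exact continuousAt_const.sub ((hss p hM a).2.1).continuousAt
        · have h6 := hp.2 a
          have h7 := Real.exp_pos (-R)
          exact (by linarith : 0 < 1 - ss k r p a).ne'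
      · refine tendsto_finsetSum _ fun x _ => ?_
        exact ContinuousAt.comp (g := e) (f := fun q : Ix k → ℂ => q (Sum.inl x))
          (heAt _ (hM x)).continuousAt (continuous_apply _).continuousAt
    · exact fun p hp => hp.1.1

end Pool.Agent.H794.KM

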