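import Pool.Agent.H794.KM.Spec

namespace Pool.Agent.H794.KM

open MeasureTheory Set Filter Topology

/-- The statement with the value of the bottom of the spectrum of the Kähler-Einstein metric. -/
def Stm3 (ι : Type) [Fintype ι] [DecidableEq ι] : Prop :=
  ∃ (X : Set (ι → ℂ)) (g₀ g₁ : (ι → ℂ) → Matrix ι ι ℂ), IsOpen X ∧ IsConnected X ∧ ¬ IsCompact X ∧
    g₀ ∈ Kcal X ∧ IsKE X g₀ ∧ g₁ ∈ Kcal X ∧ bottom X g₀ = 3 ∧ 3 < bottom X g₁

namespace FINL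

theorem frame_zero {k : ℕ} (T : Matrix (Fin 2) (Fin 2 × Fin k) ℂ) :
    frame T (fun _ => 0) 0 = 0 := by
  unfold frame
  simp

theorem smS_Ph (k : ℕ) {g : (Fin 2 → ℝ) → ℝ} (hg : ContDiff ℝ SM g) (α ε : ℝ) :
    SmS (Ph k g α ε) := by
  intro s hs
  unfold Ph
  have h : ∀ a : Fin 2, ContDiffAt ℝ SM (fun s : Fin 2 → ℝ => Real.log (1 - s a)) s := by
    intro a
    have h1 : ContDiffAt ℝ SM (fun s : Fin 2 → ℝ => 1 - s a) s := by fun_prop
    exact h1.log (by have := (hs a).2; linarith)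
  apply ContDiffAt.exp
  apply ContDiffAt.add
  · apply contDiffAt_const.mul
    exact ContDiffAt.sum fun a _ => h a
  · exact contDiffAt_const.mul hg.contDiffAt

end FINL

open FINL in
theorem t_FIN (hHYP : S_HYP) (hXOC : S_XOC) (hKAH : S_KAH) (hCOM : S_COM) (hRIC : S_RIC)
    (hKE0 : S_KE0) (hEPU : S_EPU) (hEPQ : S_EPQ) (hPOL : S_POL) (hBLO : S_BLO) (hUPP : S_UPP)
    (hEQ1 : S_EQ1) : Stm3 (Ix 6) := by
  obtain ⟨r, hr⟩ := hHYP
  obtain ⟨hw, hg, h1, h2⟩ := hPOL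
  obtain ⟨e1, he1, H1⟩ := hEPU 6 wF hw h1
  obtain ⟨e2, he2, H2⟩ := hEPQ 6 wF gF (-285) hw hg h2
  have hε : 0 < min e1 e2 := lt_min he1 he2
  have G0 := (hKE0 6 wF).1
  have G1 := H1 (min e1 e2) hε (min_le_left _ _)
  obtain ⟨c, hc, H⟩ := H2 (min e1 e2) hε (min_le_right _ _)
  obtain ⟨x1, x2, x3⟩ := hXOC 6 r hr
  refine ⟨XX 6 r, gm 6 r (FF 6 wF 0), gm 6 r (FF 6 wF (min e1 e2)), x1, x2, x3,
    ⟨(hKAH 6 r hr _ G0).1, hCOM 6 r hr _ G0, (hKAH 6 r hr _ G0).2⟩, ?_,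
    ⟨(hKAH 6 r hr _ G1).1, hCOM 6 r hr _ G1, (hKAH 6 r hr _ G1).2⟩, ?_, ?_⟩
  · intro p hp
    have e := hRIC 6 r hr _ G0 p hp
    have hs : ss 6 r p ∈ Sq := by
      intro a
      refine ⟨?_, hp.2 a⟩
      unfold ss
      exact mul_nonneg (by positivity) (Real.exp_pos _).le
    have k1 : hE 6 r (UU 6 (FF 6 wF 0)) p = fun _ => 0 := by
      funext x
      unfold hE
      rw [((hKE0 6 wF).2 _ hs x.1).1]
      ring
    have k2 : hG 6 r (UU 6 (FF 6 wF 0)) p = 0 := by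
      ext a b
      unfold hG
      simp [((hKE0 6 wF).2 _ hs a).1, ((hKE0 6 wF).2 _ hs a).2 b]
    rw [k1, k2, frame_zero] at e
    exact eq_neg_of_add_eq_zero_left e
  · have u := hUPP 6 r (by norm_num) hr wF
    have l := hBLO 6 r hr _ G0 (Ph 6 gF (-285) 0) (smS_Ph 6 hg _ _)
      (fun s _ => Real.exp_pos _) (2 * (6 : ℕ) / (((6 : ℕ) : ℝ) + 2)) (fun s hs => by
        have e := hEQ1 6 wF gF (-285) 0 hw hg s (fun a => (hs a).2) (fun a => by simp) (by simp)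
        rw [e]
        simp)
    norm_num at u l
    linarith
  · have l := hBLO 6 r hr _ G1 (Ph 6 gF (-285) (min e1 e2)) (smS_Ph 6 hg _ _)
      (fun s _ => Real.exp_pos _) (2 * (6 : ℕ) / (((6 : ℕ) : ℝ) + 2) + c) H
    norm_num at l
    linarith

end Pool.Agent.H794.KM
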