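import Pool.Agent.H794.KM.Spec

namespace Pool.Agent.H794.KM

open MeasureTheory Set Filter Topology
open scoped ComplexOrder

namespace FPDL

variable {k : ℕ} {w : (Fin 2 → ℝ) → ℝ} {ε : ℝ} {s : Fin 2 → ℝ}

theorem hasL (hw : ContDiff ℝ SM w) (hs : ∀ a, s a < 1) :
    HasFDerivAt (FF k w ε) ((-((k : ℝ) + 2)) • (∑ a : Fin 2, (-(1 / (1 - s a))) •
      (ContinuousLinearMap.proj (R := ℝ) a : (Fin 2 → ℝ) →L[ℝ] ℝ)) + ε • fderiv ℝ w s) s := by
  have h1 : ∀ a : Fin 2, HasFDerivAt (fun s' : Fin 2 → ℝ => Real.log (1 - s' a))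
      ((-(1 / (1 - s a))) • (ContinuousLinearMap.proj (R := ℝ) a : (Fin 2 → ℝ) →L[ℝ] ℝ)) s := by
    intro a
    have hd : HasDerivAt (fun x : ℝ => Real.log (1 - x)) (-(1 / (1 - s a))) (s a) := by
      have h2 := ((hasDerivAt_id (s a)).const_sub 1).log (by
        have := hs a
        simp only [id]
        linarith)
      simp only [id] at h2
      rw [← neg_div]
      exact h2
    exact hd.comp_hasFDerivAt s
      (ContinuousLinearMap.proj (R := ℝ) a : (Fin 2 → ℝ) →L[ℝ] ℝ).hasFDerivAt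
  have h3 := HasFDerivAt.fun_sum (u := Finset.univ) fun a _ => h1 a
  have hwd : DifferentiableAt ℝ w s := hw.contDiffAt.differentiableAt (by decide)
  exact (h3.const_mul (-((k : ℝ) + 2))).add (hwd.hasFDerivAt.const_mul ε)

theorem pd1 (h : S_PDR) (hw : ContDiff ℝ SM w) (hs : ∀ a, s a < 1) (b : Fin 2) :
    pd b (FF k w ε) s = ((k : ℝ) + 2) / (1 - s b) + ε * pd b w s := by
  rw [(h (FF k w ε) w s b b).1 _ (hasL hw hs)]
  simp only [add_apply, smul_apply, sum_apply, ContinuousLinearMap.proj_apply, smul_eq_mul]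
  have e1 : ∑ a : Fin 2, (-(1 / (1 - s a))) * (Pi.single b (1 : ℝ) : Fin 2 → ℝ) a =
      -(1 / (1 - s b)) := by
    rw [Finset.sum_eq_single b]
    · rw [Pi.single_eq_same, mul_one]
    · intro a _ hab
      rw [Pi.single_eq_of_ne hab, mul_zero]
    · intro hb
      exact absurd (Finset.mem_univ b) hb
  rw [e1]
  unfold pd
  ring

theorem ev (hs : ∀ a, s a < 1) : ∀ᶠ s' in 𝓝 s, ∀ a : Fin 2, s' a < 1 := by
  rw [eventually_all]
  intro a
  exact (continuous_apply a).continuousAt.eventually_lt continuousAt_const (hs a)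

theorem pd2 (h : S_PDR) (hw : ContDiff ℝ SM w) (hs : ∀ a, s a < 1) (a b : Fin 2) :
    pd b (pd a (FF k w ε)) s =
      (if a = b then ((k : ℝ) + 2) / (1 - s a) ^ 2 else 0) + ε * pd b (pd a w) s := by
  have h1 : pd a (FF k w ε) =ᶠ[𝓝 s] fun s' => ((k : ℝ) + 2) / (1 - s' a) + ε * pd a w s' := by
    filter_upwards [ev hs] with s' hs'
    exact pd1 h hw hs' a
  rw [(h (pd a (FF k w ε)) (fun s' => ((k : ℝ) + 2) / (1 - s' a) + ε * pd a w s') s b b).2.1 h1]
  have hne : 1 - s a ≠ 0 := by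
    have := hs a
    linarith
  have hd : HasDerivAt (fun x : ℝ => ((k : ℝ) + 2) / (1 - x)) (((k : ℝ) + 2) / (1 - s a) ^ 2)
      (s a) := by
    have h2 := (((hasDerivAt_id (s a)).const_sub 1).inv hne).const_mul ((k : ℝ) + 2)
    simp only [id] at h2
    refine h2.congr_deriv ?_
    rw [neg_neg]
    ring
  have hpa : HasFDerivAt (fun s' : Fin 2 → ℝ => ((k : ℝ) + 2) / (1 - s' a))
      ((((k : ℝ) + 2) / (1 - s a) ^ 2) •
        (ContinuousLinearMap.proj (R := ℝ) a : (Fin 2 → ℝ) →L[ℝ] ℝ)) s := by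
    have h3 := HasDerivAt.comp_hasFDerivAt (h₂ := fun x : ℝ => ((k : ℝ) + 2) / (1 - x))
      (f := fun s' : Fin 2 → ℝ => s' a) s hd
      (ContinuousLinearMap.proj (R := ℝ) a : (Fin 2 → ℝ) →L[ℝ] ℝ).hasFDerivAt
    exact h3
  have hpw : ContDiffAt ℝ SM (pd a w) s :=
    ((h w w s a a).2.2.2.2.2.2.1 hw.contDiffAt).2.1
  have hpd : DifferentiableAt ℝ (pd a w) s := hpw.differentiableAt (by decide)
  have hL := hpa.add (hpd.hasFDerivAt.const_mul ε)
  rw [(h (fun s' => ((k : ℝ) + 2) / (1 - s' a) + ε * pd a w s') w s b b).1 _ hL]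
  simp only [add_apply, smul_apply, ContinuousLinearMap.proj_apply, smul_eq_mul]
  congr 1
  by_cases hab : a = b
  · subst hab
    rw [Pi.single_eq_same, if_pos rfl, mul_one]
  · rw [Pi.single_eq_of_ne hab, if_neg hab, mul_zero]

theorem smooth (hw : ContDiff ℝ SM w) (hs : ∀ a, s a < 1) : ContDiffAt ℝ SM (FF k w ε) s := by
  unfold FF
  refine ContDiffAt.add (contDiffAt_const.mul (ContDiffAt.sum fun a _ => ?_))
    (contDiffAt_const.mul hw.contDiffAt)
  refine ContDiffAt.log (contDiffAt_const.sub (contDiff_apply ℝ ℝ a).contDiffAt) ?_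
  have := hs a
  intro h0
  linarith

end FPDL

/-- **FPD** -/
theorem t_FPD (h : S_PDR) : S_FPD := by
  intro k w ε hw s hs
  have hK : (0 : ℝ) < (k : ℝ) + 2 := by positivity
  have hne : ∀ a, 1 - s a ≠ 0 := fun a => by
    have := hs a
    linarith
  have h1 : ∀ a, pd a (FF k w ε) s = ((k : ℝ) + 2) / (1 - s a) + ε * pd a w s :=
    fun a => FPDL.pd1 h hw hs a
  have h2 : ∀ a b, pd b (pd a (FF k w ε)) s =
      (if a = b then ((k : ℝ) + 2) / (1 - s a) ^ 2 else 0) + ε * pd b (pd a w) s :=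
    fun a b => FPDL.pd2 h hw hs a b
  have h3 : ∀ a, pd a (FF k w ε) s + s a * pd a (pd a (FF k w ε)) s =
      ((k : ℝ) + 2) / (1 - s a) ^ 2 * (1 + ε * AW k w a s) := by
    intro a
    rw [h1, h2, if_pos rfl]
    unfold AW
    have := hne a
    field_simp
    ring
  refine ⟨FPDL.smooth hw hs, h1, h2, ?_, h3, ?_⟩
  · intro a
    rw [h1]
    unfold bW
    have := hne a
    field_simp
    ring
  · unfold Gam
    rw [h3, h3, h2 0 1, if_neg (by decide)]
    unfold gW cW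
    have e0 := hne 0
    have e1 := hne 1
    field_simp
    ring

end Pool.Agent.H794.KM
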