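import Pool.Agent.H794.KM.Spec

/-! Leaf FRA of project KM (helper794), by helper286. -/

set_option autoImplicit false

namespace Pool.Agent.H794.KM

open MeasureTheory Set Filter Topology
open scoped ComplexOrder

namespace FRAL

open Matrix

variable {k : ℕ}

/-- the lower triangular matrix of the coframe -/
def Lt (T : Matrix (Fin 2) (Fin 2 × Fin k) ℂ) : Matrix (Ix k) (Ix k) ℂ :=
  Matrix.fromBlocks 1 0 T 1

/-- block diagonal matrix -/
def Dg (E : Fin 2 × Fin k → ℂ) (G : Matrix (Fin 2) (Fin 2) ℂ) : Matrix (Ix k) (Ix k) ℂ :=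
  Matrix.fromBlocks (Matrix.diagonal E) 0 0 G

theorem frame_eq (T : Matrix (Fin 2) (Fin 2 × Fin k) ℂ) (E : Fin 2 × Fin k → ℝ)
    (G : Matrix (Fin 2) (Fin 2) ℂ) :
    frame T E G = (Lt T)ᵀ * Dg (fun x => ((E x : ℝ) : ℂ)) G * (Lt T).map (starRingEnd ℂ) := rfl

theorem Lt_apply (T : Matrix (Fin 2) (Fin 2 × Fin k) ℂ) (a : Fin 2) (i : Ix k) :
    Lt T (Sum.inr a) i = cof T a i := by
  rcases i with x | b
  · rfl
  · simp only [Lt, cof, fromBlocks_apply₂₂, Sum.elim_inr, Matrix.one_apply]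

theorem Lt_inl (T : Matrix (Fin 2) (Fin 2 × Fin k) ℂ) (x : Fin 2 × Fin k) (i : Ix k) :
    Lt T (Sum.inl x) i = if i = Sum.inl x then 1 else 0 := by
  rcases i with y | b
  · simp only [Lt, fromBlocks_apply₁₁, Matrix.one_apply, Sum.inl.injEq]
    by_cases h : x = y
    · subst h; simp
    · rw [if_neg h, if_neg (fun h' => h h'.symm)]
  · simp [Lt]

theorem entry (T : Matrix (Fin 2) (Fin 2 × Fin k) ℂ) (E : Fin 2 × Fin k → ℂ)
    (G : Matrix (Fin 2) (Fin 2) ℂ) (i j : Ix k) :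
    ((Lt T)ᵀ * Dg E G * (Lt T).map (starRingEnd ℂ)) i j =
      Sum.elim (fun x => if i = j ∧ i = Sum.inl x then E x else 0) (fun _ => 0) i +
      ∑ a, ∑ b, G a b * cof T a i * (starRingEnd ℂ) (cof T b j) := by
  have h1 : ((Lt T)ᵀ * Dg E G * (Lt T).map (starRingEnd ℂ)) i j =
      ∑ x, Lt T (Sum.inl x) i * E x * (starRingEnd ℂ) (Lt T (Sum.inl x) j) +
        ∑ a, ∑ b, G a b * cof T a i * (starRingEnd ℂ) (cof T b j) := by
    rw [Matrix.mul_assoc, Matrix.mul_apply, Fintype.sum_sum_type]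
    congr 1
    · refine Finset.sum_congr rfl fun x _ => ?_
      rw [Matrix.mul_apply, Fintype.sum_sum_type]
      simp only [Dg, fromBlocks_apply₁₁, fromBlocks_apply₁₂, Matrix.zero_apply, zero_mul,
        Finset.sum_const_zero, add_zero, Matrix.transpose_apply, Matrix.map_apply]
      rw [Finset.sum_eq_single x]
      · rw [Matrix.diagonal_apply_eq]; ring
      · intro y _ hy
        rw [Matrix.diagonal_apply_ne _ (Ne.symm hy), zero_mul]
      · intro h; exact absurd (Finset.mem_univ x) h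
    · refine Finset.sum_congr rfl fun a _ => ?_
      rw [Matrix.mul_apply, Fintype.sum_sum_type]
      simp only [Dg, fromBlocks_apply₂₁, fromBlocks_apply₂₂, Matrix.zero_apply, zero_mul,
        Finset.sum_const_zero, zero_add, Matrix.transpose_apply, Matrix.map_apply]
      rw [Finset.mul_sum]
      refine Finset.sum_congr rfl fun b _ => ?_
      rw [Lt_apply, Lt_apply]
      ring
  rw [h1]
  congr 1
  rcases i with y | b
  · simp only [Sum.elim_inl]
    rw [Finset.sum_eq_single y]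
    · rw [Lt_inl, Lt_inl, if_pos rfl]
      by_cases h : (Sum.inl y : Ix k) = j
      · rw [if_pos h.symm, if_pos (by simp [h]), map_one]; ring
      · rw [if_neg (fun h' => h h'.symm), if_neg (fun h' => h h'.1), map_zero, mul_zero]
    · intro x _ hx
      rw [Lt_inl, if_neg (fun h => hx (Sum.inl.inj h).symm)]
      ring
    · intro h; exact absurd (Finset.mem_univ y) h
  · simp only [Sum.elim_inr]
    refine Finset.sum_eq_zero fun x _ => ?_
    rw [Lt_inl, if_neg (by simp)]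
    ring

theorem quad (T : Matrix (Fin 2) (Fin 2 × Fin k) ℂ) (E : Fin 2 × Fin k → ℂ)
    (G : Matrix (Fin 2) (Fin 2) ℂ) (v : Ix k → ℂ) :
    ∑ i, ∑ j, ((Lt T)ᵀ * Dg E G * (Lt T).map (starRingEnd ℂ)) i j * v i * (starRingEnd ℂ) (v j) =
    ∑ x, E x * v (Sum.inl x) * (starRingEnd ℂ) (v (Sum.inl x)) +
      ∑ a, ∑ b, G a b * (∑ i, cof T a i * v i) * (starRingEnd ℂ) (∑ i, cof T b i * v i) := by
  have h1 : ∀ i j, ((Lt T)ᵀ * Dg E G * (Lt T).map (starRingEnd ℂ)) i j * v i *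
      (starRingEnd ℂ) (v j) =
      Sum.elim (fun x => if i = j ∧ i = Sum.inl x then E x else 0) (fun _ => 0) i * v i *
        (starRingEnd ℂ) (v j) +
      ∑ a, ∑ b, (G a b * (cof T a i * v i)) * (starRingEnd ℂ) (cof T b j * v j) := by
    intro i j
    rw [entry, add_mul, add_mul, Finset.sum_mul, Finset.sum_mul]
    congr 1
    refine Finset.sum_congr rfl fun a _ => ?_
    rw [Finset.sum_mul, Finset.sum_mul]
    refine Finset.sum_congr rfl fun b _ => ?_
    rw [map_mul]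
    ring
  simp only [h1, Finset.sum_add_distrib]
  congr 1
  · rw [Fintype.sum_sum_type]
    simp only [Sum.elim_inl, Sum.elim_inr, zero_mul, Finset.sum_const_zero, add_zero, and_true]
    refine Finset.sum_congr rfl fun x _ => ?_
    rw [Finset.sum_eq_single (Sum.inl x)]
    · rw [if_pos rfl]
    · intro j _ hj
      rw [if_neg (fun h => hj h.symm)]
      ring
    · intro h; exact absurd (Finset.mem_univ _) h
  · calc ∑ i, ∑ j, ∑ a, ∑ b, (G a b * (cof T a i * v i)) * (starRingEnd ℂ) (cof T b j * v j)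
        = ∑ a, ∑ b, ∑ i, ∑ j, (G a b * (cof T a i * v i)) *
            (starRingEnd ℂ) (cof T b j * v j) := by
          simp only [Fin.sum_univ_two, Finset.sum_add_distrib]
      _ = _ := by
          refine Finset.sum_congr rfl fun a _ => Finset.sum_congr rfl fun b _ => ?_
          have e1 : G a b * (∑ i, cof T a i * v i) * (starRingEnd ℂ) (∑ i, cof T b i * v i) =
              (∑ i, G a b * (cof T a i * v i)) * ∑ j, (starRingEnd ℂ) (cof T b j * v j) := by
            have e2 : G a b * (∑ i, cof T a i * v i) = ∑ i, G a b * (cof T a i * v i) :=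
              Finset.mul_sum _ _ _
            rw [e2, map_sum]
          rw [e1, Finset.sum_mul_sum]

theorem det_frame (T : Matrix (Fin 2) (Fin 2 × Fin k) ℂ) (E : Fin 2 × Fin k → ℂ)
    (G : Matrix (Fin 2) (Fin 2) ℂ) :
    ((Lt T)ᵀ * Dg E G * (Lt T).map (starRingEnd ℂ)).det = (∏ x, E x) * G.det := by
  have hL : (Lt T).det = 1 := by
    rw [Lt, Matrix.det_fromBlocks_zero₁₂, Matrix.det_one, Matrix.det_one, one_mul]
  have hL' : ((Lt T).map (starRingEnd ℂ)).det = 1 := by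
    rw [show (Lt T).map (starRingEnd ℂ) = (starRingEnd ℂ).mapMatrix (Lt T) from rfl,
      ← RingHom.map_det, hL, map_one]
  rw [Matrix.det_mul, Matrix.det_mul, Matrix.det_transpose, hL, hL', one_mul, mul_one, Dg,
    Matrix.det_fromBlocks_zero₁₂, Matrix.det_diagonal]

theorem Lt_mul (T T' : Matrix (Fin 2) (Fin 2 × Fin k) ℂ) : Lt T * Lt T' = Lt (T + T') := by
  simp only [Lt, Matrix.fromBlocks_multiply, Matrix.one_mul, Matrix.mul_one, Matrix.zero_mul,
    Matrix.mul_zero, add_zero, zero_add]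

theorem Lt_zero : Lt (0 : Matrix (Fin 2) (Fin 2 × Fin k) ℂ) = 1 := by
  simp only [Lt, Matrix.fromBlocks_one]

theorem Lt_unit (T : Matrix (Fin 2) (Fin 2 × Fin k) ℂ) : IsUnit (Lt T) := by
  refine ⟨⟨Lt T, Lt (-T), ?_, ?_⟩, rfl⟩
  · rw [Lt_mul, add_neg_cancel, Lt_zero]
  · rw [Lt_mul, neg_add_cancel, Lt_zero]

theorem map_eq (T : Matrix (Fin 2) (Fin 2 × Fin k) ℂ) :
    (Lt T).map (starRingEnd ℂ) = star ((Lt T)ᵀ) := rfl

theorem dot_Dg (E : Fin 2 × Fin k → ℂ) (G : Matrix (Fin 2) (Fin 2) ℂ) (x : Ix k → ℂ) :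
    star x ⬝ᵥ (Dg E G *ᵥ x) =
      star (fun y => x (Sum.inl y)) ⬝ᵥ (Matrix.diagonal E *ᵥ fun y => x (Sum.inl y)) +
      star (fun b => x (Sum.inr b)) ⬝ᵥ (G *ᵥ fun b => x (Sum.inr b)) := by
  simp only [dotProduct, Fintype.sum_sum_type, Dg, Matrix.fromBlocks_mulVec, Sum.elim_inl,
    Sum.elim_inr, Matrix.zero_mulVec, add_zero, zero_add, Pi.star_apply]
  rfl

theorem herm_Dg (E : Fin 2 × Fin k → ℝ) {G : Matrix (Fin 2) (Fin 2) ℂ} (hG : G.IsHermitian) :
    (Dg (fun x => ((E x : ℝ) : ℂ)) G).IsHermitian := by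
  refine Matrix.IsHermitian.fromBlocks ?_ (by simp) hG
  refine Matrix.isHermitian_diagonal_of_self_adjoint _ ?_
  funext x
  simp

theorem Dg_psd (E : Fin 2 × Fin k → ℝ) {G : Matrix (Fin 2) (Fin 2) ℂ} (hE : ∀ x, 0 ≤ E x)
    (hG : G.PosSemidef) : (Dg (fun x => ((E x : ℝ) : ℂ)) G).PosSemidef := by
  refine PosSemidef.of_dotProduct_mulVec_nonneg (herm_Dg E hG.1) fun x => ?_
  rw [dot_Dg]
  have h1 : (Matrix.diagonal fun x => ((E x : ℝ) : ℂ)).PosSemidef :=
    PosSemidef.diagonal fun x => by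
      show (0 : ℂ) ≤ ((E x : ℝ) : ℂ)
      exact_mod_cast hE x
  exact add_nonneg (h1.dotProduct_mulVec_nonneg _) (hG.dotProduct_mulVec_nonneg _)

theorem Dg_pd (E : Fin 2 × Fin k → ℝ) {G : Matrix (Fin 2) (Fin 2) ℂ} (hE : ∀ x, 0 < E x)
    (hG : G.PosDef) : (Dg (fun x => ((E x : ℝ) : ℂ)) G).PosDef := by
  refine PosDef.of_dotProduct_mulVec_pos (herm_Dg E hG.1) fun x hx => ?_
  rw [dot_Dg]
  have h1 : (Matrix.diagonal fun x => ((E x : ℝ) : ℂ)).PosDef :=
    PosDef.diagonal fun x => by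
      show (0 : ℂ) < ((E x : ℝ) : ℂ)
      exact_mod_cast hE x
  by_cases h2 : (fun b => x (Sum.inr b)) = 0
  · have h3 : (fun y => x (Sum.inl y)) ≠ 0 := by
      intro h3
      apply hx
      funext i
      rcases i with y | b
      · exact congrFun h3 y
      · exact congrFun h2 b
    exact add_pos_of_pos_of_nonneg (h1.dotProduct_mulVec_pos h3)
      (hG.posSemidef.dotProduct_mulVec_nonneg _)
  · exact add_pos_of_nonneg_of_pos (h1.posSemidef.dotProduct_mulVec_nonneg _)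
      (hG.dotProduct_mulVec_pos h2)

theorem inv_frame (T : Matrix (Fin 2) (Fin 2 × Fin k) ℂ) (E : Fin 2 × Fin k → ℂ) (d : Fin 2 → ℂ)
    (hE : ∀ x, E x ≠ 0) (hd : ∀ a, d a ≠ 0) :
    ((Lt T)ᵀ * Dg E (Matrix.diagonal d) * (Lt T).map (starRingEnd ℂ))⁻¹ =
      (Lt (-T)).map (starRingEnd ℂ) *
        Dg (fun x => (E x)⁻¹) (Matrix.diagonal fun a => (d a)⁻¹) * (Lt (-T))ᵀ := by
  refine Matrix.inv_eq_right_inv ?_
  have h1 : (Lt T).map (starRingEnd ℂ) * (Lt (-T)).map (starRingEnd ℂ) = 1 := by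
    rw [← Matrix.map_mul, Lt_mul, add_neg_cancel, Lt_zero]
    exact Matrix.map_one _ (map_zero _) (map_one _)
  have h2 : (Lt T)ᵀ * (Lt (-T))ᵀ = 1 := by
    rw [← Matrix.transpose_mul, Lt_mul, neg_add_cancel, Lt_zero, Matrix.transpose_one]
  have h3 : Dg E (Matrix.diagonal d) *
      Dg (fun x => (E x)⁻¹) (Matrix.diagonal fun a => (d a)⁻¹) = 1 := by
    simp only [Dg, Matrix.fromBlocks_multiply, Matrix.mul_zero, Matrix.zero_mul, add_zero,
      zero_add, Matrix.diagonal_mul_diagonal]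
    rw [show (fun i => E i * (E i)⁻¹) = fun _ => 1 from funext fun i => mul_inv_cancel₀ (hE i),
      show (fun i => d i * (d i)⁻¹) = fun _ => 1 from funext fun i => mul_inv_cancel₀ (hd i)]
    rw [Matrix.diagonal_one, Matrix.diagonal_one, Matrix.fromBlocks_one]
  calc (Lt T)ᵀ * Dg E (Matrix.diagonal d) * (Lt T).map (starRingEnd ℂ) *
        ((Lt (-T)).map (starRingEnd ℂ) *
        Dg (fun x => (E x)⁻¹) (Matrix.diagonal fun a => (d a)⁻¹) * (Lt (-T))ᵀ)
      = (Lt T)ᵀ * (Dg E (Matrix.diagonal d) * (((Lt T).map (starRingEnd ℂ) *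
        (Lt (-T)).map (starRingEnd ℂ)) *
        Dg (fun x => (E x)⁻¹) (Matrix.diagonal fun a => (d a)⁻¹))) * (Lt (-T))ᵀ := by
        simp only [Matrix.mul_assoc]
    _ = 1 := by rw [h1, Matrix.one_mul, h3, Matrix.mul_one, h2]

/-- the quadratic form of the inverse -/
theorem inv_quad (T : Matrix (Fin 2) (Fin 2 × Fin k) ℂ) (E : Fin 2 × Fin k → ℝ) (d : Fin 2 → ℝ)
    (hE : ∀ x, 0 < E x) (hd : ∀ a, 0 < d a) (c : Ix k → ℂ) :
    (∑ i, ∑ j, (frame T E (Matrix.diagonal fun a => ((d a : ℝ) : ℂ)))⁻¹ j i * c i *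
      (starRingEnd ℂ) (c j)).re =
    ∑ x, ‖c (Sum.inl x) - ∑ a, T a x * c (Sum.inr a)‖ ^ 2 / E x +
      ∑ a, ‖c (Sum.inr a)‖ ^ 2 / d a := by
  rw [frame_eq, inv_frame T _ _ (fun x => by exact_mod_cast (hE x).ne')
    (fun a => by exact_mod_cast (hd a).ne')]
  set e : Ix k → ℂ := (Lt (-T))ᵀ *ᵥ c with he
  have he1 : ∀ x, e (Sum.inl x) = c (Sum.inl x) - ∑ a, T a x * c (Sum.inr a) := by
    intro x
    rw [he, Matrix.mulVec, dotProduct, Fintype.sum_sum_type]
    simp only [Matrix.transpose_apply, Lt_inl, Lt_apply, cof, Sum.elim_inl, Matrix.neg_apply,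
      Sum.inl.injEq, ite_mul, one_mul, zero_mul, Finset.sum_ite_eq, Finset.mem_univ, if_true,
      neg_mul, Finset.sum_neg_distrib]
    ring
  have he2 : ∀ a, e (Sum.inr a) = c (Sum.inr a) := by
    intro a
    rw [he, Matrix.mulVec, dotProduct, Fintype.sum_sum_type]
    simp only [Matrix.transpose_apply, Lt_inl, Lt_apply, cof, Sum.elim_inr, reduceCtorEq,
      if_false, zero_mul, Finset.sum_const_zero, zero_add, ite_mul, one_mul,
      Finset.sum_ite_eq', Finset.mem_univ, if_true]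
  have h1 : ∑ i, ∑ j, ((Lt (-T)).map (starRingEnd ℂ) *
      Dg (fun x => (((E x : ℝ) : ℂ))⁻¹) (Matrix.diagonal fun a => (((d a : ℝ) : ℂ))⁻¹) *
        (Lt (-T))ᵀ) j i * c i * (starRingEnd ℂ) (c j) =
      star e ⬝ᵥ (Dg (fun x => (((E x : ℝ) : ℂ))⁻¹)
        (Matrix.diagonal fun a => (((d a : ℝ) : ℂ))⁻¹) *ᵥ e) := by
    rw [he, Matrix.mulVec_mulVec, Matrix.star_mulVec, ← Matrix.dotProduct_mulVec,
      Matrix.mulVec_mulVec]
    rw [show ((Lt (-T))ᵀ)ᴴ = (Lt (-T)).map (starRingEnd ℂ) from rfl, ← Matrix.mul_assoc]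
    rw [Finset.sum_comm, dotProduct]
    refine Finset.sum_congr rfl fun j _ => ?_
    rw [Matrix.mulVec, dotProduct, Finset.mul_sum]
    refine Finset.sum_congr rfl fun i _ => ?_
    rw [Pi.star_apply, ← starRingEnd_apply]
    ring
  rw [h1, dot_Dg]
  simp only [dotProduct, Matrix.mulVec_diagonal, Pi.star_apply, he1, he2]
  rw [Complex.add_re, Complex.re_sum, Complex.re_sum]
  have h2 : ∀ (z : ℂ) (t : ℝ), (star z * ((((t : ℝ) : ℂ))⁻¹ * z)).re = ‖z‖ ^ 2 / t := by
    intro z t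
    rw [show star z * ((((t : ℝ) : ℂ))⁻¹ * z) = (((t : ℝ) : ℂ))⁻¹ * (z * star z) by ring,
      ← starRingEnd_apply, Complex.mul_conj, Complex.normSq_eq_norm_sq, ← Complex.ofReal_inv,
      ← Complex.ofReal_mul, Complex.ofReal_re]
    ring
  simp only [h2]

end FRAL

open FRAL in
theorem t_FRA : S_FRA := by
  intro k T
  refine ⟨fun E G i j => ?_, fun E G => ?_, fun E G hE hG => ?_, fun E G hE hG => ?_,
    fun E G v => ?_, fun E d hE hd c => ?_⟩
  · rw [frame_eq]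
    exact entry T _ G i j
  · rw [frame_eq]
    exact det_frame T _ G
  · rw [frame_eq, map_eq]
    refine (Matrix.IsUnit.posDef_star_right_conjugate_iff ?_).2 (Dg_pd E hE hG)
    exact (Matrix.isUnit_transpose (Lt T)).2 (Lt_unit T)
  · rw [frame_eq, map_eq]
    refine (Matrix.IsUnit.posSemidef_star_right_conjugate_iff ?_).2 (Dg_psd E hE hG)
    exact (Matrix.isUnit_transpose (Lt T)).2 (Lt_unit T)
  · rw [frame_eq]
    exact quad T _ G v
  · exact inv_quad T E d hE hd c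

end Pool.Agent.H794.KM
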