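import Pool.Agent.H794.KM.Spec

set_option autoImplicit false
set_option linter.unusedSectionVars false

namespace Pool.Agent.H794.KM

open MeasureTheory Set Filter Topology
open scoped ComplexOrder

namespace GR0L

theorem isOpen_M : IsOpen M := by
  have h : M = ({0}ᶜ ∩ {1}ᶜ : Set ℂ) := by
    ext z
    simp [M]
  rw [h]
  exact isOpen_compl_singleton.inter isOpen_compl_singleton

theorem sm_ne : (SM : WithTop ℕ∞) ≠ 0 := by
  intro h
  simp [SM] at h

/-! ### One variable -/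

theorem wl_apply (a b v : ℂ) : wl a b v = a * v + b * (starRingEnd ℂ) v := by
  simp [wl]

theorem clm_ext {A B : ℂ →L[ℝ] ℂ} (h1 : A 1 = B 1) (h2 : A Complex.I = B Complex.I) : A = B := by
  ext v
  have hv : v = v.re • (1 : ℂ) + v.im • Complex.I := by
    rw [Complex.real_smul, Complex.real_smul, mul_one]
    exact (Complex.re_add_im v).symm
  rw [hv, map_add, map_add, map_smul, map_smul, map_smul, map_smul, h1, h2]

theorem fderiv_eq_wl (f : ℂ → ℂ) (z : ℂ) : fderiv ℝ f z = wl (dz1 f z) (dzb1 f z) := by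
  refine clm_ext ?_ ?_
  · rw [wl_apply, dz1, dzb1, map_one (starRingEnd ℂ)]
    ring
  · rw [wl_apply, dz1, dzb1, Complex.conj_I]
    linear_combination (fderiv ℝ f z Complex.I) * Complex.I_mul_I

theorem hasFDerivAt_wl {f : ℂ → ℂ} {z : ℂ} (h : DifferentiableAt ℝ f z) :
    HasFDerivAt f (wl (dz1 f z) (dzb1 f z)) z := by
  rw [← fderiv_eq_wl]
  exact h.hasFDerivAt

/-! ### Rules for `dz` -/

section rules

variable {ι : Type} [Fintype ι] [DecidableEq ι]

theorem fderiv_ofReal {f : (ι → ℂ) → ℝ} {p : ι → ℂ} (h : DifferentiableAt ℝ f p) (v : ι → ℂ) :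
    fderiv ℝ (fun q => ((f q : ℝ) : ℂ)) p v = ((fderiv ℝ f p v : ℝ) : ℂ) := by
  have h1 := (Complex.ofRealCLM.hasFDerivAt (x := f p)).comp p h.hasFDerivAt
  have h2 : fderiv ℝ (fun q => ((f q : ℝ) : ℂ)) p = Complex.ofRealCLM.comp (fderiv ℝ f p) :=
    h1.fderiv
  rw [h2]
  rfl

theorem diff_ofReal {f : (ι → ℂ) → ℝ} {p : ι → ℂ} (h : DifferentiableAt ℝ f p) :
    DifferentiableAt ℝ (fun q => ((f q : ℝ) : ℂ)) p :=
  (Complex.ofRealCLM.differentiableAt (x := f p)).comp p h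

theorem dz_comp {f : (ι → ℂ) → ℝ} {p : ι → ℂ} (h : DifferentiableAt ℝ f p) {η : ℝ → ℝ}
    (hη : DifferentiableAt ℝ η (f p)) (i : ι) :
    dz i (fun q => ((η (f q) : ℝ) : ℂ)) p =
      ((deriv η (f p) : ℝ) : ℂ) * dz i (fun q => ((f q : ℝ) : ℂ)) p := by
  have h1 : fderiv ℝ (fun q => η (f q)) p = deriv η (f p) • fderiv ℝ f p :=
    (hη.hasDerivAt.comp_hasFDerivAt p h.hasFDerivAt).fderiv
  have h2 : DifferentiableAt ℝ (fun q => η (f q)) p := hη.comp p h
  have h3 : ∀ v, fderiv ℝ (fun q => ((η (f q) : ℝ) : ℂ)) p v =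
      ((deriv η (f p) : ℝ) : ℂ) * fderiv ℝ (fun q => ((f q : ℝ) : ℂ)) p v := by
    intro v
    rw [fderiv_ofReal h2, fderiv_ofReal h, h1, ← Complex.ofReal_mul]
    rfl
  rw [dz, dz, h3, h3]
  ring

theorem dz_mul {f g : (ι → ℂ) → ℂ} {p : ι → ℂ} (hf : DifferentiableAt ℝ f p)
    (hg : DifferentiableAt ℝ g p) (i : ι) :
    dz i (fun q => f q * g q) p = g p * dz i f p + f p * dz i g p := by
  have h1 : fderiv ℝ (fun q => f q * g q) p = f p • fderiv ℝ g p + g p • fderiv ℝ f p :=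
    fderiv_fun_mul hf hg
  have h3 : ∀ v, fderiv ℝ (fun q => f q * g q) p v =
      f p * fderiv ℝ g p v + g p * fderiv ℝ f p v := by
    intro v
    rw [h1]
    rfl
  rw [dz, dz, dz, h3, h3]
  ring

theorem dz_prod {κ : Type} [DecidableEq κ] (u : Finset κ) (f : κ → (ι → ℂ) → ℂ) (p : ι → ℂ)
    (h : ∀ j ∈ u, DifferentiableAt ℝ (f j) p) (i : ι) :
    dz i (fun q => ∏ j ∈ u, f j q) p = ∑ j ∈ u, (∏ l ∈ u.erase j, f l p) * dz i (f j) p := by
  have h1 : fderiv ℝ (fun q => ∏ j ∈ u, f j q) p =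
      ∑ j ∈ u, (∏ l ∈ u.erase j, f l p) • fderiv ℝ (f j) p :=
    (HasFDerivAt.finsetProd (fun j hj => (h j hj).hasFDerivAt)).fderiv
  have h3 : ∀ v, fderiv ℝ (fun q => ∏ j ∈ u, f j q) p v =
      ∑ j ∈ u, (∏ l ∈ u.erase j, f l p) * fderiv ℝ (f j) p v := by
    intro v
    rw [h1, _root_.sum_apply]
    rfl
  rw [dz, h3, h3, Finset.mul_sum, ← Finset.sum_sub_distrib, Finset.sum_div]
  refine Finset.sum_congr rfl fun j _ => ?_
  rw [dz]
  ring

end rules

/-! ### The support of the test function -/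

section supp

variable {k : ℕ} {r : ℂ → ℝ} {η : ℝ → ℝ} {χ : ℂ → ℝ}

/-- a closed set which contains the support -/
def KS (k : ℕ) (r : ℂ → ℝ) (χ : ℂ → ℝ) (t : ℝ) : Set (Ix k → ℂ) :=
  {p | ∀ x, p (Sum.inl x) ∈ tsupport χ} ∩ (fun p => ss k r p) ⁻¹' Set.Iic (fun _ => t)

theorem isClosed_C : IsClosed {p : Ix k → ℂ | ∀ x, p (Sum.inl x) ∈ tsupport χ} := by
  have h : {p : Ix k → ℂ | ∀ x, p (Sum.inl x) ∈ tsupport χ} =
      ⋂ x : Fin 2 × Fin k, (fun p : Ix k → ℂ => p (Sum.inl x)) ⁻¹' tsupport χ := by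
    ext p
    simp
  rw [h]
  exact isClosed_iInter fun x => (isClosed_tsupport χ).preimage (continuous_apply _)

theorem isClosed_KS (h3 : S_SSD) (hr : Hyp r) (hM : tsupport χ ⊆ M) (t : ℝ) :
    IsClosed (KS k r χ t) := by
  refine ContinuousOn.preimage_isClosed_of_isClosed ?_ isClosed_C isClosed_Iic
  intro p hp
  refine ContinuousAt.continuousWithinAt ?_
  refine continuousAt_pi.2 fun a => ?_
  exact ((h3 k r hr).2.2.2 p (fun x => hM (hp x)) a).2.1.continuousAt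

theorem lam_bd (h2 : S_BAS) (hr : Hyp r) (hc : HasCompactSupport χ) (hM : tsupport χ ⊆ M) :
    ∃ B : ℝ, ∀ z ∈ tsupport χ, -B ≤ lam k r z := by
  have h4 : ContinuousOn (lam k r) (tsupport χ) := fun z hz =>
    (h2 k r hr z (hM hz)).2.2.1.continuousAt.continuousWithinAt
  obtain ⟨B, hB⟩ := IsCompact.exists_bound_of_continuousOn hc h4
  refine ⟨B, fun z hz => ?_⟩
  have h5 := hB z hz
  rw [Real.norm_eq_abs] at h5
  exact (abs_le.1 h5).1

theorem hh_pos (p : Ix k → ℂ) (a : Fin 2) : 0 < hh k r p a := Real.exp_pos _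

theorem isCompact_KS (h2 : S_BAS) (h3 : S_SSD) (hr : Hyp r) (hc : HasCompactSupport χ)
    (hM : tsupport χ ⊆ M) {t : ℝ} (ht : t < 1) : IsCompact (KS k r χ t) := by
  refine Metric.isCompact_of_isClosed_isBounded (isClosed_KS h3 hr hM t) ?_
  obtain ⟨B, hB⟩ := lam_bd (k := k) h2 hr hc hM
  obtain ⟨R, hR⟩ := (show IsCompact (tsupport χ) from hc).isBounded.exists_norm_le
  obtain ⟨S, hS⟩ : ∃ S : ℝ, S = Real.sqrt (Real.exp (k * B)) := ⟨_, rfl⟩
  refine (Metric.isBounded_closedBall (x := (0 : Ix k → ℂ)) (r := max (max R S) 0)).subset ?_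
  rintro p ⟨hp1, hp2⟩
  rw [mem_closedBall_zero_iff, pi_norm_le_iff_of_nonneg (le_max_right _ _)]
  rintro (x | a)
  · exact (hR _ (hp1 x)).trans ((le_max_left _ _).trans (le_max_left _ _))
  · refine le_trans ?_ ((le_max_right R S).trans (le_max_left _ _))
    have h4 : ss k r p a ≤ t := hp2 a
    have h5 : Real.exp (-(k * B)) ≤ hh k r p a := by
      unfold hh
      refine Real.exp_le_exp.2 ?_
      have h6 : ∑ _j : Fin k, -B ≤ ∑ j, lam k r (p (Sum.inl (a, j))) :=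
        Finset.sum_le_sum fun j _ => hB _ (hp1 (a, j))
      simpa using h6
    have h6 : ‖p (Sum.inr a)‖ ^ 2 * Real.exp (-(k * B)) ≤ 1 := by
      calc ‖p (Sum.inr a)‖ ^ 2 * Real.exp (-(k * B)) ≤ ‖p (Sum.inr a)‖ ^ 2 * hh k r p a :=
            mul_le_mul_of_nonneg_left h5 (sq_nonneg _)
        _ = ss k r p a := rfl
        _ ≤ 1 := h4.trans ht.le
    have h7 : ‖p (Sum.inr a)‖ ^ 2 ≤ Real.exp (k * B) := by
      rw [Real.exp_neg, ← div_eq_mul_inv, div_le_iff₀ (Real.exp_pos _), one_mul] at h6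
      exact h6
    rw [hS]
    exact Real.le_sqrt_of_sq_le h7

theorem KS_sub (hM : tsupport χ ⊆ M) {t : ℝ} (ht : t < 1) : KS k r χ t ⊆ XX k r := by
  rintro p ⟨hp1, hp2⟩
  exact ⟨fun x => hM (hp1 x), fun a => lt_of_le_of_lt (hp2 a) ht⟩

theorem supp_sub {t : ℝ} (hη : ∀ s ≥ t, η s = 0) : Function.support (tf k r η χ) ⊆ KS k r χ t := by
  intro p hp
  rw [Function.mem_support, tf] at hp
  have h1 := left_ne_zero_of_mul hp
  have h2 := right_ne_zero_of_mul hp
  rw [Finset.prod_ne_zero_iff] at h1 h2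
  refine ⟨fun x => subset_tsupport _ (h2 x (Finset.mem_univ x)), fun a => ?_⟩
  show ss k r p a ≤ t
  by_contra h
  exact h1 a (Finset.mem_univ a) (hη _ (not_le.1 h).le)

theorem tf_smooth (h3 : S_SSD) (hr : Hyp r) (hη : ContDiff ℝ SM η) (hχ : ContDiff ℝ SM χ)
    (hM : tsupport χ ⊆ M) : ContDiff ℝ SM (tf k r η χ) := by
  rw [contDiff_iff_contDiffAt]
  intro p
  by_cases hp : ∀ x, p (Sum.inl x) ∈ M
  · unfold tf
    refine ContDiffAt.mul ?_ ?_
    · refine contDiffAt_prod fun a _ => ?_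
      exact (hη.contDiffAt (x := ss k r p a)).comp p ((h3 k r hr).2.2.2 p hp a).2.1
    · refine contDiffAt_prod fun x _ => ?_
      exact (hχ.comp (contDiff_apply ℝ ℂ (Sum.inl x : Ix k))).contDiffAt
  · push Not at hp
    obtain ⟨x, hx⟩ := hp
    have h4 : tf k r η χ =ᶠ[𝓝 p] fun _ => 0 := by
      have h5 : IsOpen ((fun q : Ix k → ℂ => q (Sum.inl x)) ⁻¹' (tsupport χ)ᶜ) :=
        (isClosed_tsupport χ).isOpen_compl.preimage (continuous_apply _)
      filter_upwards [h5.mem_nhds (show p (Sum.inl x) ∈ (tsupport χ)ᶜ from fun h => hx (hM h))]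
        with q hq
      have h6 : χ (q (Sum.inl x)) = 0 := image_eq_zero_of_notMem_tsupport hq
      rw [tf, Finset.prod_eq_zero (Finset.mem_univ x) h6, mul_zero]
    exact contDiffAt_const.congr_of_eventuallyEq h4

end supp

/-! ### The Kähler-Einstein metric -/

theorem FF_zero (k : ℕ) (w : (Fin 2 → ℝ) → ℝ) : FF k w 0 = FF k (fun _ => 0) 0 := by
  funext s
  simp [FF]

theorem s_eq {k : ℕ} {r : ℂ → ℝ} (p : Ix k → ℂ) (a : Fin 2) :
    ((starRingEnd ℂ) (p (Sum.inr a)) * p (Sum.inr a)) * ((hh k r p a : ℝ) : ℂ) =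
      ((ss k r p a : ℝ) : ℂ) := by
  rw [mul_comm ((starRingEnd ℂ) (p (Sum.inr a))), Complex.mul_conj, Complex.normSq_eq_norm_sq,
    ← Complex.ofReal_mul]
  rfl

theorem gm_eq (h9 : S_FPD) (k : ℕ) (r : ℂ → ℝ) (w : (Fin 2 → ℝ) → ℝ) (p : Ix k → ℂ)
    (hs : ∀ a, ss k r p a < 1) :
    gm k r (FF k w 0) p = frame (Tm k r p)
      (fun x => ((k : ℝ) + 2) / (1 - ss k r p x.1) * bet k r (p (Sum.inl x)))
      (Matrix.diagonal fun a =>
        ((hh k r p a * (((k : ℝ) + 2) / (1 - ss k r p a) ^ 2) : ℝ) : ℂ)) := by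
  obtain ⟨_, f1, f2, f3, f4, _⟩ := h9 k (fun _ => 0) 0 contDiff_const (ss k r p) hs
  rw [← FF_zero k w] at f1 f2 f3 f4
  have e1 : (fun x : Fin 2 × Fin k => ((k : ℝ) + 2 + ss k r p x.1 *
      pd x.1 (FF k w 0) (ss k r p)) * bet k r (p (Sum.inl x))) =
      fun x => ((k : ℝ) + 2) / (1 - ss k r p x.1) * bet k r (p (Sum.inl x)) := by
    funext x
    rw [f3, zero_mul, add_zero, mul_one]
  have e2 : hG k r (FF k w 0) p = Matrix.diagonal fun a =>
      ((hh k r p a * (((k : ℝ) + 2) / (1 - ss k r p a) ^ 2) : ℝ) : ℂ) := by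
    ext a b
    rw [hG, Matrix.of_apply, Matrix.diagonal_apply]
    by_cases hab : a = b
    · subst hab
      rw [if_pos rfl, if_pos rfl]
      have f5 := f4 a
      rw [zero_mul, add_zero, mul_one] at f5
      rw [← f5]
      have e3 := s_eq (k := k) (r := r) p a
      push_cast
      rw [← e3]
      ring
    · rw [if_neg hab, if_neg hab, f2 a b, if_neg hab]
      simp
  rw [gm, e1, e2]

end GR0L

open GR0L in
theorem t_GR0 (h1 : S_WIR) (h2 : S_BAS) (h3 : S_SSD) (h4 : S_FRA) (h5 : S_HGP) (h6 : S_DET)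
    (h7 : S_KE0) (h8 : S_PDR) (h9 : S_FPD) : S_GR0 := by
  intro k r hr w η χ hη ⟨t, ht, hηt⟩ hχ hc hM
  refine ⟨⟨tf_smooth h3 hr hη hχ hM, ?_, ?_⟩, ?_⟩
  · have h10 := isCompact_KS (k := k) h2 h3 hr hc hM ht
    exact HasCompactSupport.intro' h10 (isClosed_KS h3 hr hM t) fun p hp => by
      by_contra h
      exact hp (supp_sub hηt h)
  · exact (closure_minimal (supp_sub hηt) (isClosed_KS h3 hr hM t)).trans (KS_sub hM ht)
  intro p hp
  obtain ⟨hpM, hps⟩ := hp
  have hss : ∀ a, 0 < 1 - ss k r p a := fun a => sub_pos.2 (hps a)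
  have hK : (0 : ℝ) < (k : ℝ) + 2 := by positivity
  have hbet : ∀ x : Fin 2 × Fin k, 0 < bet k r (p (Sum.inl x)) := fun x =>
    (h2 k r hr _ (hpM x)).2.2.2.2.2.1
  have hE : ∀ x : Fin 2 × Fin k,
      0 < ((k : ℝ) + 2) / (1 - ss k r p x.1) * bet k r (p (Sum.inl x)) := fun x =>
    mul_pos (div_pos hK (hss _)) (hbet x)
  have hd : ∀ a, 0 < hh k r p a * (((k : ℝ) + 2) / (1 - ss k r p a) ^ 2) := fun a =>
    mul_pos (hh_pos p a) (div_pos hK (pow_pos (hss a) 2))
  have hgm := gm_eq h9 k r w p hps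
  obtain ⟨_, fdet, _, _, _, finv⟩ := h4 k (Tm k r p)
  constructor
  · -- the derivatives of the test function
    have dss : ∀ a, DifferentiableAt ℝ (fun q => ss k r q a) p := fun a =>
      ((h3 k r hr).2.2.2 p hpM a).2.1.differentiableAt sm_ne
    have dη : ∀ s, DifferentiableAt ℝ η s := fun s => (hη.differentiable sm_ne) s
    have dA : ∀ a, DifferentiableAt ℝ (fun q => ((η (ss k r q a) : ℝ) : ℂ)) p := fun a =>
      diff_ofReal ((dη _).comp p (dss a))
    have dχ : ∀ z, DifferentiableAt ℝ (fun z => ((χ z : ℝ) : ℂ)) z := fun z =>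
      (Complex.ofRealCLM.differentiableAt (x := χ z)).comp z ((hχ.differentiable sm_ne) z)
    have dB : ∀ x : Fin 2 × Fin k,
        DifferentiableAt ℝ (fun q : Ix k → ℂ => ((χ (q (Sum.inl x)) : ℝ) : ℂ)) p := fun x =>
      DifferentiableAt.comp (g := fun z : ℂ => ((χ z : ℝ) : ℂ)) p (dχ (p (Sum.inl x)))
        (ContinuousLinearMap.proj (R := ℝ) (φ := fun _ : Ix k => ℂ) (Sum.inl x)).differentiableAt
    have zA : ∀ a i, dz i (fun q => ((η (ss k r q a) : ℝ) : ℂ)) p =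
        ((deriv η (ss k r p a) : ℝ) : ℂ) *
          ((hh k r p a : ℂ) * (starRingEnd ℂ) (p (Sum.inr a)) * cof (Tm k r p) a i) := by
      intro a i
      rw [dz_comp (dss a) (dη _) i]
      congr 1
      exact ((h1 (Ix k)).1 _ _ _ _ ((h3 k r hr).2.2.2 p hpM a).2.2.2.1 i).1
    have zB : ∀ (x : Fin 2 × Fin k) (i : Ix k),
        dz i (fun q : Ix k → ℂ => ((χ (q (Sum.inl x)) : ℝ) : ℂ)) p =
        if i = Sum.inl x then dz1 (fun z => ((χ z : ℝ) : ℂ)) (p (Sum.inl x)) else 0 := by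
      intro x i
      exact ((h1 (Ix k)).1 _ _ _ _ ((h1 (Ix k)).2.2.2.2.2 p (Sum.inl x)
        (fun z => ((χ z : ℝ) : ℂ)) _ _ (hasFDerivAt_wl (dχ _))) i).1
    obtain ⟨c, hcdef⟩ : ∃ c : Ix k → ℂ, c = fun i => dz i (fun q => ((tf k r η χ q : ℝ) : ℂ)) p :=
      ⟨_, rfl⟩
    have hc1 : ∀ i, c i =
        (∏ x, ((χ (p (Sum.inl x)) : ℝ) : ℂ)) *
          (∑ a, (∏ b ∈ Finset.univ.erase a, ((η (ss k r p b) : ℝ) : ℂ)) *
            (((deriv η (ss k r p a) : ℝ) : ℂ) *
              ((hh k r p a : ℂ) * (starRingEnd ℂ) (p (Sum.inr a)) * cof (Tm k r p) a i))) +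
        (∏ a, ((η (ss k r p a) : ℝ) : ℂ)) *
          (∑ x, (∏ y ∈ Finset.univ.erase x, ((χ (p (Sum.inl y)) : ℝ) : ℂ)) *
            (if i = Sum.inl x then dz1 (fun z => ((χ z : ℝ) : ℂ)) (p (Sum.inl x)) else 0)) := by
      intro i
      have e1 : (fun q => ((tf k r η χ q : ℝ) : ℂ)) = fun q =>
          (∏ a, ((η (ss k r q a) : ℝ) : ℂ)) * ∏ x, ((χ (q (Sum.inl x)) : ℝ) : ℂ) := by
        funext q
        rw [tf]
        push_cast
        rfl
      have e2 : DifferentiableAt ℝ (fun q => ∏ a, ((η (ss k r q a) : ℝ) : ℂ)) p :=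
        (HasFDerivAt.finsetProd (u := Finset.univ) (fun a _ => (dA a).hasFDerivAt)).differentiableAt
      have e3 : DifferentiableAt ℝ (fun q : Ix k → ℂ => ∏ x, ((χ (q (Sum.inl x)) : ℝ) : ℂ)) p :=
        (HasFDerivAt.finsetProd (u := Finset.univ) (fun x _ => (dB x).hasFDerivAt)).differentiableAt
      rw [hcdef]
      show dz i (fun q => ((tf k r η χ q : ℝ) : ℂ)) p = _
      rw [e1, dz_mul e2 e3, dz_prod _ _ _ (fun a _ => dA a), dz_prod _ _ _ (fun x _ => dB x)]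
      simp only [zA, zB]
    have hcr : ∀ a, c (Sum.inr a) = (∏ x, ((χ (p (Sum.inl x)) : ℝ) : ℂ)) *
        ((∏ b ∈ Finset.univ.erase a, ((η (ss k r p b) : ℝ) : ℂ)) *
          (((deriv η (ss k r p a) : ℝ) : ℂ) *
            ((hh k r p a : ℂ) * (starRingEnd ℂ) (p (Sum.inr a))))) := by
      intro a
      rw [hc1]
      have e1 : ∀ x : Fin 2 × Fin k, (∏ y ∈ Finset.univ.erase x, ((χ (p (Sum.inl y)) : ℝ) : ℂ)) *
            (if (Sum.inr a : Ix k) = Sum.inl x then
              dz1 (fun z => ((χ z : ℝ) : ℂ)) (p (Sum.inl x)) else 0) = 0 := by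
        intro x
        rw [if_neg (by simp), mul_zero]
      rw [Finset.sum_congr rfl fun x _ => e1 x, Finset.sum_const_zero, mul_zero, add_zero]
      congr 1
      rw [Finset.sum_eq_single a]
      · simp [cof]
      · intro b _ hb
        have : cof (Tm k r p) b (Sum.inr a) = 0 := by
          simp [cof, hb]
        rw [this]
        simp
      · intro h
        exact absurd (Finset.mem_univ a) h
    have hcl : ∀ x, c (Sum.inl x) - ∑ a, Tm k r p a x * c (Sum.inr a) =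
        (∏ a, ((η (ss k r p a) : ℝ) : ℂ)) *
          ((∏ y ∈ Finset.univ.erase x, ((χ (p (Sum.inl y)) : ℝ) : ℂ)) *
            dz1 (fun z => ((χ z : ℝ) : ℂ)) (p (Sum.inl x))) := by
      intro x
      rw [hc1]
      have e1 : ∑ y : Fin 2 × Fin k,
          (∏ z ∈ Finset.univ.erase y, ((χ (p (Sum.inl z)) : ℝ) : ℂ)) *
            (if (Sum.inl x : Ix k) = Sum.inl y then
              dz1 (fun z => ((χ z : ℝ) : ℂ)) (p (Sum.inl y)) else 0) =
          (∏ y ∈ Finset.univ.erase x, ((χ (p (Sum.inl y)) : ℝ) : ℂ)) *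
            dz1 (fun z => ((χ z : ℝ) : ℂ)) (p (Sum.inl x)) := by
        rw [Finset.sum_eq_single x]
        · rw [if_pos rfl]
        · intro y _ hy
          rw [if_neg (fun h => hy (Sum.inl_injective h).symm), mul_zero]
        · intro h
          exact absurd (Finset.mem_univ x) h
      rw [e1]
      have e2 : ∑ a, Tm k r p a x * c (Sum.inr a) = (∏ x, ((χ (p (Sum.inl x)) : ℝ) : ℂ)) *
          (∑ a, (∏ b ∈ Finset.univ.erase a, ((η (ss k r p b) : ℝ) : ℂ)) *
            (((deriv η (ss k r p a) : ℝ) : ℂ) *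
              ((hh k r p a : ℂ) * (starRingEnd ℂ) (p (Sum.inr a)) *
                cof (Tm k r p) a (Sum.inl x)))) := by
        rw [Finset.mul_sum]
        refine Finset.sum_congr rfl fun a _ => ?_
        rw [hcr a]
        simp only [cof, Sum.elim_inl]
        ring
      rw [e2]
      ring
    have h10 := finv _ _ hE hd c
    rw [gradSq, hgm]
    have e0 : ∀ i j, (frame (Tm k r p)
        (fun x => ((k : ℝ) + 2) / (1 - ss k r p x.1) * bet k r (p (Sum.inl x)))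
        (Matrix.diagonal fun a =>
          ((hh k r p a * (((k : ℝ) + 2) / (1 - ss k r p a) ^ 2) : ℝ) : ℂ)))⁻¹ j i *
        dz i (fun q => ((tf k r η χ q : ℝ) : ℂ)) p *
        (starRingEnd ℂ) (dz j (fun q => ((tf k r η χ q : ℝ) : ℂ)) p) = (frame (Tm k r p)
        (fun x => ((k : ℝ) + 2) / (1 - ss k r p x.1) * bet k r (p (Sum.inl x)))
        (Matrix.diagonal fun a =>
          ((hh k r p a * (((k : ℝ) + 2) / (1 - ss k r p a) ^ 2) : ℝ) : ℂ)))⁻¹ j i *
        c i * (starRingEnd ℂ) (c j) := by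
      intro i j
      rw [hcdef]
    simp only [e0]
    rw [h10, add_comm]
    congr 1
    congr 1
    · refine Finset.sum_congr rfl fun a _ => ?_
      rw [hcr a]
      simp only [norm_mul, norm_prod, Complex.norm_real, Real.norm_eq_abs, RCLike.norm_conj]
      rw [mul_pow, mul_pow, mul_pow, mul_pow, ← Finset.prod_pow, ← Finset.prod_pow]
      simp only [sq_abs]
      have e5 : ss k r p a = ‖p (Sum.inr a)‖ ^ 2 * hh k r p a := rfl
      have e6 := (hh_pos (r := r) p a).ne'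
      have e7 := (hss a).ne'
      rw [div_eq_iff (hd a).ne']
      field_simp
      rw [e5]
      ring
    · refine Finset.sum_congr rfl fun x _ => ?_
      rw [hcl x]
      simp only [norm_mul, norm_prod, Complex.norm_real, Real.norm_eq_abs]
      rw [mul_pow, mul_pow, ← Finset.prod_pow, ← Finset.prod_pow]
      simp only [sq_abs]
      have e6 := (hbet x).ne'
      have e7 := (hss x.1).ne'
      rw [div_eq_iff (hE x).ne']
      field_simp
  · rw [vol, hgm, fdet, Matrix.det_diagonal]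
    have e1 : (∏ x : Fin 2 × Fin k, ((((k : ℝ) + 2) / (1 - ss k r p x.1) *
        bet k r (p (Sum.inl x)) : ℝ) : ℂ)) * ∏ a : Fin 2,
        ((hh k r p a * (((k : ℝ) + 2) / (1 - ss k r p a) ^ 2) : ℝ) : ℂ) =
        (((∏ x : Fin 2 × Fin k, (((k : ℝ) + 2) / (1 - ss k r p x.1) *
        bet k r (p (Sum.inl x)))) * ∏ a : Fin 2,
        (hh k r p a * (((k : ℝ) + 2) / (1 - ss k r p a) ^ 2)) : ℝ) : ℂ) := by
      rw [Complex.ofReal_mul, Complex.ofReal_prod, Complex.ofReal_prod]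
    rw [e1, Complex.ofReal_re]
    congr 2
    simp [Fintype.card_sum]

end Pool.Agent.H794.KM
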