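import Pool.Agent.H794.KM.Spec

/-!
Leaf HES of project KM: the complex Hessian of a function of `(s_0, s_1)`.
-/

namespace Pool.Agent.H794.KM

open MeasureTheory Set Filter Topology
open scoped ComplexOrder

namespace HESL

/-- Uniqueness: a real function with complexified derivative `wL a b`. -/
theorem wL_eq {ι : Type} [Fintype ι] {f : (ι → ℂ) → ℝ} {p a b : ι → ℂ}
    (hf : DifferentiableAt ℝ f p) (h : HW (fun q => ((f q : ℝ) : ℂ)) p a b) (v : ι → ℂ) :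
    wL a b v = ((fderiv ℝ f p v : ℝ) : ℂ) := by
  have h1 : HasFDerivAt (fun q => ((f q : ℝ) : ℂ)) (Complex.ofRealCLM.comp (fderiv ℝ f p)) p :=
    Complex.ofRealCLM.hasFDerivAt.comp p hf.hasFDerivAt
  have h2 : wL a b = Complex.ofRealCLM.comp (fderiv ℝ f p) := HasFDerivAt.unique h h1
  rw [h2]
  rfl

theorem wL_apply {ι : Type} [Fintype ι] (a b v : ι → ℂ) :
    wL a b v = ∑ i, (a i * v i + b i * (starRingEnd ℂ) (v i)) := by
  simp [wL, wl]

theorem wL_sum {ι : Type} [Fintype ι] (c : Fin 2 → ℂ) (A B : Fin 2 → ι → ℂ) (v : ι → ℂ) :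
    wL (fun i => ∑ a, c a * A a i) (fun i => ∑ a, c a * B a i) v =
      ∑ a, c a * wL (A a) (B a) v := by
  simp only [wL_apply, Fin.sum_univ_two, Finset.mul_sum, ← Finset.sum_add_distrib]
  refine Finset.sum_congr rfl fun i _ => ?_
  ring

/-- The chain rule for `F (s_0, s_1)`. -/
theorem chain {ι : Type} [Fintype ι] (h2 : S_PDR) (F : (Fin 2 → ℝ) → ℝ)
    (s : (ι → ℂ) → Fin 2 → ℝ) (p : ι → ℂ) (hF : ContDiffAt ℝ SM F (s p))
    (A B : Fin 2 → ι → ℂ) (hs : ∀ a, DifferentiableAt ℝ (fun q => s q a) p)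
    (hA : ∀ a, HW (fun q => ((s q a : ℝ) : ℂ)) p (A a) (B a)) :
    HW (fun q => ((F (s q) : ℝ) : ℂ)) p
      (fun i => ∑ a, ((pd a F (s p) : ℝ) : ℂ) * A a i)
      (fun i => ∑ a, ((pd a F (s p) : ℝ) : ℂ) * B a i) := by
  have hd := ((h2 F F (s p) 0 0).2.2.2.2.2.2.1 hF).2.2.1
  have hsp : HasFDerivAt s (ContinuousLinearMap.pi fun a => fderiv ℝ (fun q => s q a) p) p := by
    rw [hasFDerivAt_pi]
    exact fun a => (hs a).hasFDerivAt
  have h3 := Complex.ofRealCLM.hasFDerivAt.comp p (hd.comp p hsp)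
  have h4 : Complex.ofRealCLM.comp ((∑ c, pd c F (s p) •
      ContinuousLinearMap.proj (R := ℝ) (φ := fun _ : Fin 2 => ℝ) c).comp
        (ContinuousLinearMap.pi fun a => fderiv ℝ (fun q => s q a) p)) =
      wL (fun i => ∑ a, ((pd a F (s p) : ℝ) : ℂ) * A a i)
        (fun i => ∑ a, ((pd a F (s p) : ℝ) : ℂ) * B a i) := by
    ext v
    rw [wL_sum]
    simp only [Fin.sum_univ_two, wL_eq (hs 0) (hA 0), wL_eq (hs 1) (hA 1)]
    simp
  rw [h4] at h3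
  exact h3

theorem sms_pd (h2 : S_PDR) {F : (Fin 2 → ℝ) → ℝ} (hF : SmS F) (a : Fin 2) : SmS (pd a F) :=
  fun s hs => ((h2 F F s a a).2.2.2.2.2.2.1 (hF s hs)).2.1

end HESL

open HESL in
theorem t_HES (h1 : S_WIR) (h2 : S_PDR) (h3 : S_SSD) (h4 : S_FRA) : S_HES := by
  intro k r hr F hF p hp i j
  obtain ⟨hXo, _, hSq, hss⟩ := h3 k r hr
  obtain ⟨w1, w2, w3, w4, w5, w6⟩ := h1 (Ix k)
  have key : ∀ G, SmS G → ∀ q ∈ XX k r, HW (fun q' => ((G (ss k r q') : ℝ) : ℂ)) q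
      (fun i => ∑ a, ((pd a G (ss k r q) : ℝ) : ℂ) *
        ((hh k r q a : ℂ) * (starRingEnd ℂ) (q (Sum.inr a)) * cof (Tm k r q) a i))
      (fun i => ∑ a, ((pd a G (ss k r q) : ℝ) : ℂ) *
        ((hh k r q a : ℂ) * q (Sum.inr a) * (starRingEnd ℂ) (cof (Tm k r q) a i))) := by
    intro G hG q hq
    refine chain h2 G (fun q => ss k r q) q (hG _ (hSq q hq)) _ _ (fun a => ?_) (fun a => ?_)
    · exact (hss q hq.1 a).2.1.differentiableAt (by simp [SM])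
    · exact (hss q hq.1 a).2.2.2.1
  have hev : (fun q => dzbar j (fun q' => ((F (ss k r q') : ℝ) : ℂ)) q) =ᶠ[𝓝 p]
      fun q => ((pd 0 F (ss k r q) : ℝ) : ℂ) *
          dzbar j (fun q' => ((ss k r q' 0 : ℝ) : ℂ)) q +
        ((pd 1 F (ss k r q) : ℝ) : ℂ) * dzbar j (fun q' => ((ss k r q' 1 : ℝ) : ℂ)) q := by
    filter_upwards [hXo.mem_nhds hp] with q hq
    have e := (w1 _ _ _ _ (key F hF q hq) j).2
    have e0 := (w1 _ _ _ _ (hss q hq.1 0).2.2.2.1 j).2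
    have e1 := (w1 _ _ _ _ (hss q hq.1 1).2.2.2.1 j).2
    rw [e, e0, e1, Fin.sum_univ_two]
  obtain ⟨b0, hb0⟩ := (hss p hp.1 0).2.2.2.2 j
  obtain ⟨b1, hb1⟩ := (hss p hp.1 1).2.2.2.2 j
  have k0 := key (pd 0 F) (sms_pd h2 hF 0) p hp
  have k1 := key (pd 1 F) (sms_pd h2 hF 1) p hp
  have hsum := w3 _ _ _ _ _ _ _ (w4 _ _ _ _ _ _ _ k0 hb0) (w4 _ _ _ _ _ _ _ k1 hb1)
  have hfin := HasFDerivAt.congr_of_eventuallyEq hsum hev
  refine ⟨hfin.differentiableAt, ?_⟩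
  rw [(w1 _ _ _ _ hfin i).1, (h4 k (Tm k r p)).1]
  have e0 := (w1 _ _ _ _ (hss p hp.1 0).2.2.2.1 j).2
  have e1 := (w1 _ _ _ _ (hss p hp.1 1).2.2.2.1 j).2
  have hsym : pd 0 (pd 1 F) (ss k r p) = pd 1 (pd 0 F) (ss k r p) :=
    ((h2 F F (ss k r p) 0 1).2.2.2.2.2.2.1 (hF _ (hSq p hp))).2.2.2
  rw [e0, e1]
  simp only [Fin.sum_univ_two, hG, Matrix.of_apply, hsym]
  rcases i with x | c
  · rcases j with y | d
    · by_cases hxy : x = y
      · subst hxy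
        obtain ⟨a, l⟩ := x
        fin_cases a
        · simp [hE]
          ring
        · simp [hE]
          ring
      · simp [hxy]
        ring
    · simp
      ring
  · simp
    ring

end Pool.Agent.H794.KM
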