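import Pool.Agent.H794.KM.Spec

namespace Pool.Agent.H794.KM

open MeasureTheory Set Filter Topology
open scoped ComplexOrder

namespace HGPL

theorem cm (z : ℂ) : (starRingEnd ℂ) z * z = ((‖z‖ ^ 2 : ℝ) : ℂ) := by
  rw [Complex.conj_mul']
  push_cast
  rfl

theorem mc (z : ℂ) : z * (starRingEnd ℂ) z = ((‖z‖ ^ 2 : ℝ) : ℂ) := by
  rw [mul_comm, cm]

variable {k : ℕ} {r : ℂ → ℝ} {F : (Fin 2 → ℝ) → ℝ} {p : Ix k → ℂ}

theorem g00 (a : Fin 2) : hG k r F p a a =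
    ((hh k r p a * (pd a F (ss k r p) + ss k r p a * pd a (pd a F) (ss k r p)) : ℝ) : ℂ) := by
  unfold hG
  rw [Matrix.of_apply, if_pos rfl, cm]
  have e : ss k r p a = ‖p (Sum.inr a)‖ ^ 2 * hh k r p a := rfl
  have e2 : hh k r p a * (pd a F (ss k r p) + ss k r p a * pd a (pd a F) (ss k r p)) =
      pd a F (ss k r p) * hh k r p a + pd a (pd a F) (ss k r p) * (hh k r p a * hh k r p a) *
        ‖p (Sum.inr a)‖ ^ 2 := by
    rw [e]; ring
  rw [e2]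
  push_cast
  ring

theorem g01 : hG k r F p 0 1 = ((pd 1 (pd 0 F) (ss k r p) * (hh k r p 0 * hh k r p 1) : ℝ) : ℂ) *
    ((starRingEnd ℂ) (p (Sum.inr 0)) * p (Sum.inr 1)) := by
  unfold hG
  rw [Matrix.of_apply, if_neg (by decide), zero_add]

theorem g10 (hs : pd 0 (pd 1 F) (ss k r p) = pd 1 (pd 0 F) (ss k r p)) : hG k r F p 1 0 =
    ((pd 1 (pd 0 F) (ss k r p) * (hh k r p 0 * hh k r p 1) : ℝ) : ℂ) *
    ((starRingEnd ℂ) (p (Sum.inr 1)) * p (Sum.inr 0)) := by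
  unfold hG
  rw [Matrix.of_apply, if_neg (by decide), zero_add, hs, mul_comm (hh k r p 1)]

theorem form (hs : pd 0 (pd 1 F) (ss k r p) = pd 1 (pd 0 F) (ss k r p)) (η : Fin 2 → ℂ) :
    ∑ a, ∑ b, hG k r F p a b * η a * (starRingEnd ℂ) (η b) =
      ((∑ a, hh k r p a * (pd a F (ss k r p) + ss k r p a * pd a (pd a F) (ss k r p)) *
        ‖η a‖ ^ 2 + 2 * (pd 1 (pd 0 F) (ss k r p) * (hh k r p 0 * hh k r p 1)) *
        ((starRingEnd ℂ) (p (Sum.inr 0)) * p (Sum.inr 1) * η 0 * (starRingEnd ℂ) (η 1)).re : ℝ) :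
          ℂ) := by
  set w : ℂ := (starRingEnd ℂ) (p (Sum.inr 0)) * p (Sum.inr 1) * η 0 * (starRingEnd ℂ) (η 1)
    with hw
  have hw' : (starRingEnd ℂ) w =
      (starRingEnd ℂ) (p (Sum.inr 1)) * p (Sum.inr 0) * η 1 * (starRingEnd ℂ) (η 0) := by
    rw [hw]
    simp only [map_mul, Complex.conj_conj]
    ring
  have hre : w + (starRingEnd ℂ) w = ((2 * w.re : ℝ) : ℂ) := Complex.add_conj w
  simp only [Fin.sum_univ_two]
  rw [g00 0, g00 1, g01, g10 hs]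
  have m0 := mc (η 0)
  have m1 := mc (η 1)
  push_cast at m0 m1 hre ⊢
  calc _ = (hh k r p 0 : ℂ) * (pd 0 F (ss k r p) + ss k r p 0 * pd 0 (pd 0 F) (ss k r p)) *
        (η 0 * (starRingEnd ℂ) (η 0)) + (hh k r p 1 : ℂ) * (pd 1 F (ss k r p) + ss k r p 1 *
        pd 1 (pd 1 F) (ss k r p)) * (η 1 * (starRingEnd ℂ) (η 1)) +
        (pd 1 (pd 0 F) (ss k r p) * (hh k r p 0 * hh k r p 1)) * (w + (starRingEnd ℂ) w) := by
          rw [hw', hw]; ring
    _ = _ := by rw [m0, m1, hre]; ring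

theorem lower (hs : pd 0 (pd 1 F) (ss k r p) = pd 1 (pd 0 F) (ss k r p))
    (h0 : ∀ a, 0 < hh k r p a) (c : ℝ)
    (hq : ∀ x : Fin 2 → ℝ, c * ∑ a, x a ^ 2 / (1 - ss k r p a) ^ 2 ≤ QF F (ss k r p) x)
    (η : Fin 2 → ℂ) : c * ∑ a, hh k r p a * ‖η a‖ ^ 2 / (1 - ss k r p a) ^ 2 ≤
      (∑ a, ∑ b, hG k r F p a b * η a * (starRingEnd ℂ) (η b)).re := by
  rw [form hs, Complex.ofReal_re]
  set D := pd 1 (pd 0 F) (ss k r p) with hD
  set w : ℂ := (starRingEnd ℂ) (p (Sum.inr 0)) * p (Sum.inr 1) * η 0 * (starRingEnd ℂ) (η 1)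
    with hw
  have hwn : ‖w‖ = ‖p (Sum.inr 0)‖ * ‖p (Sum.inr 1)‖ * ‖η 0‖ * ‖η 1‖ := by
    rw [hw]
    simp only [norm_mul, RCLike.norm_conj]
  have key : ∀ σ : ℝ, σ ^ 2 = 1 → c * ∑ a, hh k r p a * ‖η a‖ ^ 2 / (1 - ss k r p a) ^ 2 ≤
      ∑ a, hh k r p a * (pd a F (ss k r p) + ss k r p a * pd a (pd a F) (ss k r p)) *
        ‖η a‖ ^ 2 + σ * (2 * (D * (hh k r p 0 * hh k r p 1)) * ‖w‖) := by
    intro σ hσ
    have h1 := hq ![Real.sqrt (hh k r p 0) * ‖η 0‖, σ * (Real.sqrt (hh k r p 1) * ‖η 1‖)]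
    have s0 := Real.sq_sqrt (h0 0).le
    have s1 := Real.sq_sqrt (h0 1).le
    have hss : Real.sqrt (ss k r p 0 * ss k r p 1) = ‖p (Sum.inr 0)‖ * ‖p (Sum.inr 1)‖ *
        (Real.sqrt (hh k r p 0) * Real.sqrt (hh k r p 1)) := by
      have e : ss k r p 0 * ss k r p 1 = (‖p (Sum.inr 0)‖ * ‖p (Sum.inr 1)‖ *
          (Real.sqrt (hh k r p 0) * Real.sqrt (hh k r p 1))) ^ 2 := by
        have e0 : ss k r p 0 = ‖p (Sum.inr 0)‖ ^ 2 * hh k r p 0 := rfl
        have e1 : ss k r p 1 = ‖p (Sum.inr 1)‖ ^ 2 * hh k r p 1 := rfl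
        rw [e0, e1]
        calc _ = ‖p (Sum.inr 0)‖ ^ 2 * (Real.sqrt (hh k r p 0) ^ 2) * (‖p (Sum.inr 1)‖ ^ 2 *
              Real.sqrt (hh k r p 1) ^ 2) := by rw [s0, s1]
          _ = _ := by ring
      rw [e, Real.sqrt_sq (by positivity)]
    unfold QF at h1
    rw [hss] at h1
    simp only [Fin.sum_univ_two, Matrix.cons_val_zero, Matrix.cons_val_one] at h1 ⊢
    rw [← hD] at h1
    rw [hwn]
    have a0 : (Real.sqrt (hh k r p 0) * ‖η 0‖) ^ 2 = hh k r p 0 * ‖η 0‖ ^ 2 := by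
      rw [mul_pow, s0]
    have a1 : (σ * (Real.sqrt (hh k r p 1) * ‖η 1‖)) ^ 2 = hh k r p 1 * ‖η 1‖ ^ 2 := by
      rw [mul_pow, mul_pow, s1, hσ, one_mul]
    rw [a0, a1] at h1
    have a2 : 2 * (‖p (Sum.inr 0)‖ * ‖p (Sum.inr 1)‖ *
          (Real.sqrt (hh k r p 0) * Real.sqrt (hh k r p 1))) * D *
          (Real.sqrt (hh k r p 0) * ‖η 0‖) * (σ * (Real.sqrt (hh k r p 1) * ‖η 1‖)) =
        σ * (2 * (D * (hh k r p 0 * hh k r p 1)) *
          (‖p (Sum.inr 0)‖ * ‖p (Sum.inr 1)‖ * ‖η 0‖ * ‖η 1‖)) := by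
      calc _ = σ * (2 * (D * ((Real.sqrt (hh k r p 0)) ^ 2 * (Real.sqrt (hh k r p 1)) ^ 2)) *
          (‖p (Sum.inr 0)‖ * ‖p (Sum.inr 1)‖ * ‖η 0‖ * ‖η 1‖)) := by ring
        _ = _ := by rw [s0, s1]
    rw [a2] at h1
    linarith
  have hre := Complex.abs_re_le_norm w
  have hpos : 0 ≤ hh k r p 0 * hh k r p 1 := (mul_pos (h0 0) (h0 1)).le
  have habs : -(|2 * (D * (hh k r p 0 * hh k r p 1))| * ‖w‖) ≤
      2 * (D * (hh k r p 0 * hh k r p 1)) * w.re := by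
    have h2 : |2 * (D * (hh k r p 0 * hh k r p 1)) * w.re| ≤
        |2 * (D * (hh k r p 0 * hh k r p 1))| * ‖w‖ := by
      rw [abs_mul]
      exact mul_le_mul_of_nonneg_left hre (abs_nonneg _)
    exact (abs_le.1 h2).1
  rcases le_total 0 (2 * (D * (hh k r p 0 * hh k r p 1))) with h3 | h3
  · rw [abs_of_nonneg h3] at habs
    have := key (-1) (by norm_num)
    linarith
  · rw [abs_of_nonpos h3] at habs
    have := key 1 (by norm_num)
    linarith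

theorem form' (x : Fin 2 → ℂ) : star x ⬝ᵥ (hG k r F p).mulVec x =
    ∑ a, ∑ b, hG k r F p a b * (starRingEnd ℂ) (x a) *
      (starRingEnd ℂ) ((starRingEnd ℂ) (x b)) := by
  simp only [dotProduct, Matrix.mulVec, Fin.sum_univ_two, Complex.conj_conj, Pi.star_apply]
  simp only [← starRingEnd_apply]
  ring

end HGPL

open HGPL

theorem t_HGP (h1 : S_PDR) (h2 : S_SSD) : S_HGP := by
  intro k r hr F hF p hp
  have hsq : ss k r p ∈ Sq := (h2 k r hr).2.2.1 p hp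
  have h0 : ∀ a, 0 < hh k r p a := fun a => ((h2 k r hr).2.2.2 p hp.1 a).2.2.1
  have hs : pd 0 (pd 1 F) (ss k r p) = pd 1 (pd 0 F) (ss k r p) :=
    ((h1 F F (ss k r p) 0 1).2.2.2.2.2.2.1 (hF _ hsq)).2.2.2
  have hherm : (hG k r F p).IsHermitian := by
    ext a b
    rw [Matrix.conjTranspose_apply]
    fin_cases a <;> fin_cases b
    · show star (hG k r F p 0 0) = hG k r F p 0 0
      rw [g00 0]; exact Complex.conj_ofReal _
    · show star (hG k r F p 1 0) = hG k r F p 0 1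
      rw [g10 hs, g01, ← starRingEnd_apply]
      simp only [map_mul, Complex.conj_conj, Complex.conj_ofReal]
      ring
    · show star (hG k r F p 0 1) = hG k r F p 1 0
      rw [g10 hs, g01, ← starRingEnd_apply]
      simp only [map_mul, Complex.conj_conj, Complex.conj_ofReal]
      ring
    · show star (hG k r F p 1 1) = hG k r F p 1 1
      rw [g00 1]; exact Complex.conj_ofReal _
  refine ⟨hherm, ?_, ?_, ?_, ?_⟩
  · rw [Matrix.det_fin_two, g00 0, g00 1, g01, g10 hs]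
    have e0 : ss k r p 0 = ‖p (Sum.inr 0)‖ ^ 2 * hh k r p 0 := rfl
    have e1 : ss k r p 1 = ‖p (Sum.inr 1)‖ ^ 2 * hh k r p 1 := rfl
    have c0 := cm (p (Sum.inr 0))
    have c1 := cm (p (Sum.inr 1))
    set D := pd 1 (pd 0 F) (ss k r p) with hD
    have e2 : ((D * (hh k r p 0 * hh k r p 1) : ℝ) : ℂ) *
        ((starRingEnd ℂ) (p (Sum.inr 0)) * p (Sum.inr 1)) *
        (((D * (hh k r p 0 * hh k r p 1) : ℝ) : ℂ) *
        ((starRingEnd ℂ) (p (Sum.inr 1)) * p (Sum.inr 0))) =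
        ((hh k r p 0 * hh k r p 1 * (ss k r p 0 * ss k r p 1 * D ^ 2) : ℝ) : ℂ) := by
      calc _ = ((D * (hh k r p 0 * hh k r p 1) : ℝ) : ℂ) ^ 2 *
          (((starRingEnd ℂ) (p (Sum.inr 0)) * p (Sum.inr 0)) *
          ((starRingEnd ℂ) (p (Sum.inr 1)) * p (Sum.inr 1))) := by ring
        _ = _ := by
          rw [c0, c1, ← Complex.ofReal_pow, ← Complex.ofReal_mul, ← Complex.ofReal_mul, e0, e1]
          congr 1
          ring
    rw [e2, ← Complex.ofReal_mul, ← Complex.ofReal_sub]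
    congr 1
    unfold Gam
    rw [← hD]
    ring
  · intro c hc η
    exact lower hs h0 c hc η
  · intro hq
    refine Matrix.PosSemidef.of_dotProduct_mulVec_nonneg hherm fun x => ?_
    rw [form' x]
    have h3 := lower hs h0 0 (fun y => by rw [zero_mul]; exact hq y)
      (fun a => (starRingEnd ℂ) (x a))
    rw [zero_mul] at h3
    rw [form hs (fun a => (starRingEnd ℂ) (x a))] at h3 ⊢
    rw [Complex.ofReal_re] at h3
    exact Complex.zero_le_real.2 h3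
  · rintro ⟨c, hc, hq⟩
    refine Matrix.PosDef.of_dotProduct_mulVec_pos hherm fun x hx => ?_
    rw [form' x]
    have h3 := lower hs h0 c hq (fun a => (starRingEnd ℂ) (x a))
    have h4 : 0 < c * ∑ a, hh k r p a * ‖(starRingEnd ℂ) (x a)‖ ^ 2 / (1 - ss k r p a) ^ 2 := by
      refine mul_pos hc ?_
      obtain ⟨b, hb⟩ := Function.ne_iff.1 hx
      have hnn : ∀ a, 0 ≤ hh k r p a * ‖(starRingEnd ℂ) (x a)‖ ^ 2 / (1 - ss k r p a) ^ 2 :=
        fun a => div_nonneg (mul_nonneg (h0 a).le (sq_nonneg _)) (sq_nonneg _)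
      refine Finset.sum_pos' (fun a _ => hnn a) ⟨b, Finset.mem_univ _, ?_⟩
      refine div_pos (mul_pos (h0 b) ?_) ?_
      · rw [RCLike.norm_conj]
        exact pow_pos (norm_pos_iff.2 hb) 2
      · exact pow_pos (sub_pos.2 (hsq b).2) 2
    rw [form hs (fun a => (starRingEnd ℂ) (x a))] at h3 ⊢
    rw [Complex.ofReal_re] at h3
    exact Complex.zero_lt_real.2 (h4.trans_le h3)

end Pool.Agent.H794.KM
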