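import Pool.Agent.H794.KM.Spec

namespace Pool.Agent.H794.KM

open MeasureTheory Set Filter Topology
open scoped ComplexOrder

namespace HYPL

theorem norm_pos_M {z : ℂ} (hz : z ∈ M) : 0 < ‖z‖ ∧ 0 < ‖z - 1‖ ∧ ‖z * (1 - z)‖ = ‖z‖ * ‖z - 1‖ := by
  obtain ⟨h0, h1⟩ := hz
  refine ⟨norm_pos_iff.2 h0, norm_pos_iff.2 (sub_ne_zero.2 h1), ?_⟩
  rw [norm_mul, norm_sub_rev]

end HYPL

/-- **HYP** -/
theorem t_HYP (h1 : S_ARE) (h2 : S_APO) (h3 : S_WPD) : S_HYP := by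
  obtain ⟨c, hc, hrep⟩ := h1
  obtain ⟨C, hC, hA⟩ := h2
  have hcp : 0 < |c| := abs_pos.2 hc
  have key : ∀ z₀ ∈ M, ContDiffAt ℝ SM (fun z => |c| / (‖z * (1 - z)‖ * Ag z)) z₀ ∧
      dz1 (fun w => dzb1 (fun u => ((Real.log (|c| / (‖u * (1 - u)‖ * Ag u)) : ℝ) : ℂ)) w) z₀
        = (((|c| / (‖z₀ * (1 - z₀)‖ * Ag z₀)) ^ 2 / 4 : ℝ) : ℂ) := by
    intro z₀ hz₀
    obtain ⟨a, b, hab⟩ := hrep z₀ hz₀
    exact h3 a b Ag c z₀ hz₀ hc (hA z₀ hz₀).1 hab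
  refine ⟨fun z => |c| / (‖z * (1 - z)‖ * Ag z), ?_, ?_, ?_, ?_⟩
  · intro z hz
    exact (key z hz).1.contDiffWithinAt
  · intro z hz
    obtain ⟨n1, n2, n3⟩ := HYPL.norm_pos_M hz
    have hp := (hA z hz).1
    show 0 < |c| / (‖z * (1 - z)‖ * Ag z)
    rw [n3]
    positivity
  · intro z hz
    exact (key z hz).2
  · refine ⟨|c| / C, div_pos hcp hC, ?_⟩
    intro z hz
    obtain ⟨n1, n2, n3⟩ := HYPL.norm_pos_M hz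
    obtain ⟨hp, hu⟩ := hA z hz
    show |c| / C * (1 + ‖z‖) ≤ |c| / (‖z * (1 - z)‖ * Ag z) *
      (‖z‖ * ‖z - 1‖ * (1 + |Real.log ‖z‖| + |Real.log ‖z - 1‖|))
    rw [n3]
    have e1 : |c| / (‖z‖ * ‖z - 1‖ * Ag z) *
        (‖z‖ * ‖z - 1‖ * (1 + |Real.log ‖z‖| + |Real.log ‖z - 1‖|)) =
        |c| * (1 + |Real.log ‖z‖| + |Real.log ‖z - 1‖|) / Ag z := by
      field_simp
    have e2 : |c| / C * (1 + ‖z‖) = |c| * (Ag z * (1 + ‖z‖)) / C / Ag z := by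
      field_simp
    rw [e1, e2]
    apply div_le_div_of_nonneg_right _ hp.le
    rw [div_le_iff₀ hC]
    calc |c| * (Ag z * (1 + ‖z‖)) ≤ |c| * (C * (1 + |Real.log ‖z‖| + |Real.log ‖z - 1‖|)) :=
          mul_le_mul_of_nonneg_left hu hcp.le
      _ = _ := by ring

end Pool.Agent.H794.KM
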