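import Pool.Agent.H794.KM.Spec

/-! Integration by parts (leaf IBP). -/

namespace Pool.Agent.H794.KM

open MeasureTheory Set Filter Topology

namespace IBPL

variable {ι : Type} [Fintype ι] [DecidableEq ι]

omit [DecidableEq ι] in
theorem integrable_of_supp {X : Set (ι → ℂ)} (hX : IsOpen X) {q k : (ι → ℂ) → ℝ}
    (hk : ContinuousOn k X) (hsupp : ∀ p, p ∉ tsupport q → k p = 0) (hc : HasCompactSupport q)
    (hs : tsupport q ⊆ X) : Integrable k := by
  have hts : tsupport k ⊆ tsupport q := by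
    apply closure_minimal _ (isClosed_tsupport q)
    intro p hp
    by_contra hn
    exact hp (hsupp p hn)
  have hcont : Continuous k := hk.continuous_of_tsupport_subset hX (hts.trans hs)
  exact hcont.integrable_of_hasCompactSupport (hc.of_isClosed_subset (isClosed_tsupport k) hts)

omit [DecidableEq ι] in
/-- the integral of a directional derivative of a compactly supported function -/
theorem int_zero {u : (ι → ℂ) → ℝ} (hu : ContDiff ℝ 1 u) (hc : HasCompactSupport u) (e : ι → ℂ) :
    Integrable (fun p => fderiv ℝ u p e) ∧ ∫ p, fderiv ℝ u p e = 0 := by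
  have h1 : Continuous (fun p => fderiv ℝ u p e) :=
    (hu.continuous_fderiv (by simp)).clm_apply continuous_const
  have h2 : HasCompactSupport (fun p => fderiv ℝ u p e) := by
    refine (hc.fderiv (𝕜 := ℝ)).comp_left (g := fun L : (ι → ℂ) →L[ℝ] ℝ => L e) ?_
    rfl
  have h3 : Integrable (fun p => fderiv ℝ u p e) := h1.integrable_of_hasCompactSupport h2
  refine ⟨h3, ?_⟩
  have h4 := integral_mul_fderiv_eq_neg_fderiv_mul_of_integrable (𝕜 := ℝ) (μ := volume)
    (f := fun _ : ι → ℂ => (1 : ℝ)) (g := u) (v := e) (by simp) (by simpa using h3)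
    (by simpa using hu.continuous.integrable_of_hasCompactSupport hc)
    (fun _ _ => differentiableAt_const _) (fun x _ => hu.differentiable (by simp) x)
  simpa using h4

omit [DecidableEq ι] in
/-- products with a cut-off function are smooth -/
theorem contDiff_cut {X : Set (ι → ℂ)} (hX : IsOpen X) {q w : (ι → ℂ) → ℝ}
    (hq : ContDiff ℝ 1 q) (hs : tsupport q ⊆ X) (hw : ContDiffOn ℝ 1 w X) :
    ContDiff ℝ 1 (fun p => q p * w p) := by
  rw [contDiff_iff_contDiffAt]
  intro p
  by_cases hp : p ∈ X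
  · exact hq.contDiffAt.mul (hw.contDiffAt (hX.mem_nhds hp))
  · have h1 : p ∉ tsupport q := fun h => hp (hs h)
    have h2 : (fun p => q p * w p) =ᶠ[𝓝 p] fun _ => 0 := by
      filter_upwards [(isClosed_tsupport q).isOpen_compl.mem_nhds h1] with y hy
      rw [image_eq_zero_of_notMem_tsupport hy, zero_mul]
    exact contDiffAt_const.congr_of_eventuallyEq h2

omit [DecidableEq ι] in
theorem fderiv_cut {X : Set (ι → ℂ)} (hX : IsOpen X) {q : (ι → ℂ) → ℝ} {W : (ι → ℂ) → ℂ}
    (hq : ContDiff ℝ 1 q) (hW : ContDiffOn ℝ 1 W X) {p : ι → ℂ} (hp : p ∈ X) (e : ι → ℂ) :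
    fderiv ℝ (fun p => q p * (W p).re) p e =
      q p * (fderiv ℝ W p e).re + fderiv ℝ q p e * (W p).re ∧
    fderiv ℝ (fun p => q p * (W p).im) p e =
      q p * (fderiv ℝ W p e).im + fderiv ℝ q p e * (W p).im := by
  have hqd : HasFDerivAt q (fderiv ℝ q p) p := (hq.differentiable (by simp) p).hasFDerivAt
  have hWd : HasFDerivAt W (fderiv ℝ W p) p :=
    ((hW.contDiffAt (hX.mem_nhds hp)).differentiableAt (by simp)).hasFDerivAt
  have h1 : HasFDerivAt (fun p => (W p).re) (Complex.reCLM.comp (fderiv ℝ W p)) p :=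
    Complex.reCLM.hasFDerivAt.comp p hWd
  have h2 : HasFDerivAt (fun p => (W p).im) (Complex.imCLM.comp (fderiv ℝ W p)) p :=
    Complex.imCLM.hasFDerivAt.comp p hWd
  have h3 : HasFDerivAt (fun p => q p * (W p).re) _ p := hqd.mul h1
  have h4 : HasFDerivAt (fun p => q p * (W p).im) _ p := hqd.mul h2
  rw [h3.fderiv, h4.fderiv]
  simp [mul_comm]

theorem dz_real {q : (ι → ℂ) → ℝ} (hq : ContDiff ℝ 1 q) (i : ι) (p : ι → ℂ) :
    dz i (fun p' => ((q p' : ℝ) : ℂ)) p =
      (((fderiv ℝ q p (Pi.single i 1) : ℝ) : ℂ) -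
        Complex.I * ((fderiv ℝ q p (Pi.single i Complex.I) : ℝ) : ℂ)) / 2 := by
  have hqd : HasFDerivAt q (fderiv ℝ q p) p := (hq.differentiable (by simp) p).hasFDerivAt
  have h1 : HasFDerivAt (fun p' => ((q p' : ℝ) : ℂ)) (Complex.ofRealCLM.comp (fderiv ℝ q p)) p :=
    Complex.ofRealCLM.hasFDerivAt.comp p hqd
  unfold dz
  rw [h1.fderiv]
  simp

theorem key {X : Set (ι → ℂ)} (hX : IsOpen X) {q : (ι → ℂ) → ℝ} {W : (ι → ℂ) → ℂ}
    (hq : ContDiff ℝ 1 q) (hW : ContDiffOn ℝ 1 W X) {p : ι → ℂ} (hp : p ∈ X) (i : ι) :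
    (dz i (fun p' => ((q p' : ℝ) : ℂ)) p * W p).re + q p * (dz i W p).re =
      (fderiv ℝ (fun p => q p * (W p).re) p (Pi.single i 1) +
        fderiv ℝ (fun p => q p * (W p).im) p (Pi.single i Complex.I)) / 2 := by
  rw [(fderiv_cut hX hq hW hp _).1, (fderiv_cut hX hq hW hp _).2, dz_real hq]
  unfold dz
  have e1 : ∀ z : ℂ, (z / 2).re = z.re / 2 := fun z => by simp
  have e2 : ∀ z w : ℂ, (z / 2 * w).re = (z * w).re / 2 := fun z w => by
    rw [div_mul_eq_mul_div, e1]
  rw [e1, e2]
  simp only [Complex.mul_re, Complex.sub_re, Complex.sub_im, Complex.ofReal_re,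
    Complex.ofReal_im, Complex.I_re, Complex.I_im, Complex.mul_im]
  ring

end IBPL

open IBPL in
theorem t_IBP : S_IBP := by
  intro ι _ _ X q W hX hq hc hs hW
  have hq0 : ∀ p, p ∉ tsupport q → q p = 0 := fun p hp => image_eq_zero_of_notMem_tsupport hp
  have hdq0 : ∀ p, p ∉ tsupport q → ∀ e, fderiv ℝ q p e = 0 := by
    intro p hp e
    rw [fderiv_of_notMem_tsupport (𝕜 := ℝ) hp]
    rfl
  have hdz0 : ∀ p, p ∉ tsupport q → ∀ i, dz i (fun p' => ((q p' : ℝ) : ℂ)) p = 0 := by
    intro p hp i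
    rw [dz_real hq, hdq0 p hp, hdq0 p hp]
    simp
  have z1 : ∀ p, p ∉ tsupport q →
      (∑ i, dz i (fun p' => ((q p' : ℝ) : ℂ)) p * W i p).re = 0 := by
    intro p hp
    simp [hdz0 p hp]
  have z2 : ∀ p, p ∉ tsupport q → q p * (∑ i, dz i (W i) p).re = 0 := by
    intro p hp
    rw [hq0 p hp, zero_mul]
  have hdqc : ∀ e, Continuous (fun p => fderiv ℝ q p e) := fun e =>
    (hq.continuous_fderiv (by simp)).clm_apply continuous_const
  have c1 : ContinuousOn (fun p => (∑ i, dz i (fun p' => ((q p' : ℝ) : ℂ)) p * W i p).re) X := by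
    refine Complex.continuous_re.comp_continuousOn (continuousOn_finsetSum _ fun i _ => ?_)
    refine ContinuousOn.mul ?_ (hW i).continuousOn
    have h1 : Continuous (fun p => dz i (fun p' => ((q p' : ℝ) : ℂ)) p) := by
      simp only [dz_real hq]
      exact ((Complex.continuous_ofReal.comp (hdqc _)).sub
        (continuous_const.mul (Complex.continuous_ofReal.comp (hdqc _)))).div_const 2
    exact h1.continuousOn
  have c2 : ContinuousOn (fun p => q p * (∑ i, dz i (W i) p).re) X := by
    refine hq.continuous.continuousOn.mul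
      (Complex.continuous_re.comp_continuousOn (continuousOn_finsetSum _ fun i _ => ?_))
    have h1 : ContinuousOn (fderiv ℝ (W i)) X := (hW i).continuousOn_fderiv_of_isOpen hX (by simp)
    have h2 : ∀ e : ι → ℂ, ContinuousOn (fun p => fderiv ℝ (W i) p e) X := fun e =>
      h1.clm_apply continuousOn_const
    exact ((h2 _).sub (continuousOn_const.mul (h2 _))).div_const 2
  have i1 := integrable_of_supp hX c1 z1 hc hs
  have i2 := integrable_of_supp hX c2 z2 hc hs
  refine ⟨i1.integrableOn, i2.integrableOn, ?_⟩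
  rw [setIntegral_eq_integral_of_forall_compl_eq_zero (fun p hp => z1 p (fun h => hp (hs h))),
    setIntegral_eq_integral_of_forall_compl_eq_zero (fun p hp => z2 p (fun h => hp (hs h)))]
  rw [← sub_eq_zero, sub_neg_eq_add, ← integral_add i1 i2]
  -- the sum of the directional derivatives
  have hA : ∀ i, ContDiff ℝ 1 (fun p => q p * (W i p).re) := fun i =>
    contDiff_cut hX hq hs (Complex.reCLM.contDiff.comp_contDiffOn (hW i))
  have hB : ∀ i, ContDiff ℝ 1 (fun p => q p * (W i p).im) := fun i =>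
    contDiff_cut hX hq hs (Complex.imCLM.contDiff.comp_contDiffOn (hW i))
  have zA := fun i => int_zero (hA i) hc.mul_right (Pi.single i 1)
  have zB := fun i => int_zero (hB i) hc.mul_right (Pi.single i Complex.I)
  have hsum : ∀ p, (∑ i, dz i (fun p' => ((q p' : ℝ) : ℂ)) p * W i p).re +
      q p * (∑ i, dz i (W i) p).re =
      ∑ i, (fderiv ℝ (fun p => q p * (W i p).re) p (Pi.single i 1) +
        fderiv ℝ (fun p => q p * (W i p).im) p (Pi.single i Complex.I)) / 2 := by
    intro p
    by_cases hp : p ∈ X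
    · rw [Complex.re_sum, Complex.re_sum, Finset.mul_sum, ← Finset.sum_add_distrib]
      exact Finset.sum_congr rfl fun i _ => key hX hq (hW i) hp i
    · have hp' : p ∉ tsupport q := fun h => hp (hs h)
      rw [z1 p hp', z2 p hp', add_zero]
      symm
      refine Finset.sum_eq_zero fun i _ => ?_
      have h1 : fderiv ℝ (fun p => q p * (W i p).re) p = 0 :=
        fderiv_of_notMem_tsupport (𝕜 := ℝ) fun h => hp' (tsupport_mul_subset_left h)
      have h2 : fderiv ℝ (fun p => q p * (W i p).im) p = 0 :=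
        fderiv_of_notMem_tsupport (𝕜 := ℝ) fun h => hp' (tsupport_mul_subset_left h)
      rw [h1, h2]
      simp
  simp only [hsum]
  have hI : ∀ i, Integrable (fun p => (fderiv ℝ (fun p => q p * (W i p).re) p (Pi.single i 1) +
        fderiv ℝ (fun p => q p * (W i p).im) p (Pi.single i Complex.I)) / 2) := fun i =>
    ((zA i).1.add (zB i).1).div_const 2
  rw [integral_finsetSum _ fun i _ => hI i]
  refine Finset.sum_eq_zero fun i _ => ?_
  rw [integral_div, integral_add (zA i).1 (zB i).1, (zA i).2, (zB i).2]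
  simp

end Pool.Agent.H794.KM
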