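import Pool.Agent.H794.KM.Spec

/-!
Project KM, leaf INT: Fubini formula on the manifold.
-/

namespace Pool.Agent.H794.KM

open MeasureTheory Set Filter Topology
open scoped ComplexOrder

namespace INTL

/-- `h_a` as a function of the base coordinates -/
noncomputable def hz (k : ℕ) (r : ℂ → ℝ) (z : Fin 2 × Fin k → ℂ) (a : Fin 2) : ℝ :=
  Real.exp (∑ j, lam k r (z (a, j)))

lemma hz_pos (k : ℕ) (r : ℂ → ℝ) (z : Fin 2 × Fin k → ℂ) (a : Fin 2) : 0 < hz k r z a :=
  Real.exp_pos _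

lemma hh_eq (k : ℕ) (r : ℂ → ℝ) (p : Ix k → ℂ) (a : Fin 2) :
    hh k r p a = hz k r (fun x => p (Sum.inl x)) a := rfl

lemma ss_eq (k : ℕ) (r : ℂ → ℝ) (p : Ix k → ℂ) (a : Fin 2) :
    ss k r p a = ‖p (Sum.inr a)‖ ^ 2 * hz k r (fun x => p (Sum.inl x)) a := rfl

/-- the one-dimensional integral -/
lemma one_int {A : ℝ → ℝ} {t : ℝ} (ht : t < 1) (hA : ∀ s ≥ t, A s = 0) {h : ℝ} (hh : 0 < h) :
    ∫ v : ℂ, A (‖v‖ ^ 2 * h) * h = Real.pi * ∫ s in (0 : ℝ)..1, A s := by
  have e1 := integral_fun_norm_addHaar (volume : Measure ℂ) (fun y : ℝ => A (y ^ 2 * h) * h)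
  rw [e1]
  have e2 : (volume : Measure ℂ).real (Metric.ball 0 1) = Real.pi := by
    rw [Measure.real, Complex.volume_ball]
    simp
  rw [Complex.finrank_real_complex, e2]
  have e3 : ∫ y in Ioi (0 : ℝ), y ^ (2 - 1) • (A (y ^ 2 * h) * h) =
      (1 / 2) * ∫ y in Ioi (0 : ℝ), ((2 : ℝ) * y ^ ((2 : ℝ) - 1)) •
        (fun u : ℝ => A (h * u) * h) (y ^ (2 : ℝ)) := by
    rw [← integral_const_mul]
    apply setIntegral_congr_fun measurableSet_Ioi
    intro y hy
    have h1 : y ^ ((2 : ℝ) - 1) = y := by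
      have : (2 : ℝ) - 1 = 1 := by norm_num
      rw [this, Real.rpow_one]
    have h2 : y ^ (2 : ℝ) = y ^ 2 := by
      rw [← Real.rpow_natCast]
      norm_num
    simp only [smul_eq_mul]
    rw [h1, h2]
    have h3 : (2 - 1 : ℕ) = 1 := rfl
    rw [h3, pow_one, mul_comm h (y ^ 2)]
    ring
  rw [e3, integral_comp_rpow_Ioi_of_pos (g := fun u : ℝ => A (h * u) * h) (by norm_num : (0 : ℝ) < 2)]
  have e4 : ∫ y in Ioi (0 : ℝ), A (h * y) * h = ∫ s in Ioi (0 : ℝ), A s := by
    rw [integral_mul_const, integral_comp_mul_left_Ioi A 0 hh, mul_zero, smul_eq_mul]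
    field_simp
  rw [e4]
  have e5 : ∫ s in Ioi (0 : ℝ), A s = ∫ s in (0 : ℝ)..1, A s := by
    rw [intervalIntegral.integral_of_le (by norm_num)]
    apply setIntegral_eq_of_subset_of_forall_sdiff_eq_zero measurableSet_Ioi Ioc_subset_Ioi_self
    intro s hs
    apply hA
    by_contra hcon
    push Not at hcon
    exact hs.2 ⟨hs.1, by linarith⟩
  rw [e5]
  simp only [smul_eq_mul, nsmul_eq_mul]
  push_cast
  ring

/-- the integrand in product coordinates -/
noncomputable def FF2 (k : ℕ) (r : ℂ → ℝ) (A : Fin 2 → ℝ → ℝ) (B : Fin 2 × Fin k → ℂ → ℝ)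
    (y : (Fin 2 × Fin k → ℂ) × (Fin 2 → ℂ)) : ℝ :=
  (∏ a, (A a (‖y.2 a‖ ^ 2 * hz k r y.1 a) * hz k r y.1 a)) * ∏ x, B x (y.1 x)

/-- the integrand -/
noncomputable def FF1 (k : ℕ) (r : ℂ → ℝ) (A : Fin 2 → ℝ → ℝ) (B : Fin 2 × Fin k → ℂ → ℝ)
    (p : Ix k → ℂ) : ℝ :=
  (∏ a, (A a (ss k r p a) * hh k r p a)) * ∏ x, B x (p (Sum.inl x))

lemma lam_cont {k : ℕ} {r : ℂ → ℝ} (hr : Hyp r) (h2 : S_BAS) {z : ℂ} (hz : z ∈ M) :
    ContinuousAt (lam k r) z := by
  obtain ⟨-, -, h, -⟩ := h2 k r hr z hz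
  exact h.continuousAt

lemma hz_cont {k : ℕ} {r : ℂ → ℝ} (hr : Hyp r) (h2 : S_BAS) {z : Fin 2 × Fin k → ℂ}
    (hz' : ∀ x, z x ∈ M) (a : Fin 2) : ContinuousAt (fun z => hz k r z a) z := by
  unfold hz
  apply Real.continuous_exp.continuousAt.comp
  have : ContinuousAt (fun z : Fin 2 × Fin k → ℂ => ∑ j, lam k r (z (a, j))) z := by
    apply tendsto_finsetSum
    intro j _
    exact (ContinuousAt.comp (f := fun z : Fin 2 × Fin k → ℂ => z (a, j)) (lam_cont hr h2 (hz' (a, j)))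
      (continuous_apply (a, j)).continuousAt)
  exact this

lemma FF1_cont {k : ℕ} {r : ℂ → ℝ} (hr : Hyp r) (h2 : S_BAS) (A : Fin 2 → ℝ → ℝ)
    (B : Fin 2 × Fin k → ℂ → ℝ) (hA : ∀ a, Continuous (A a)) (hB : ∀ x, Continuous (B x))
    (hBM : ∀ x, tsupport (B x) ⊆ M) : Continuous (FF1 k r A B) := by
  rw [continuous_iff_continuousAt]
  intro p
  by_cases hp : ∀ x, p (Sum.inl x) ∈ M
  · have c1 : ∀ a, ContinuousAt (fun q : Ix k → ℂ => hh k r q a) p := by
      intro a
      have c2 := hz_cont hr h2 (z := fun x => p (Sum.inl x)) hp a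
      have c3 : Continuous (fun q : Ix k → ℂ => (fun x => q (Sum.inl x))) := by fun_prop
      exact ContinuousAt.comp (f := fun q : Ix k → ℂ => (fun x => q (Sum.inl x))) c2
        c3.continuousAt
    have c4 : ∀ a, ContinuousAt (fun q : Ix k → ℂ => ss k r q a) p := by
      intro a
      unfold ss
      apply ContinuousAt.mul _ (c1 a)
      have : Continuous (fun q : Ix k → ℂ => ‖q (Sum.inr a)‖ ^ 2) := by fun_prop
      exact this.continuousAt
    unfold FF1
    apply ContinuousAt.mul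
    · apply tendsto_finsetProd
      intro a _
      apply ContinuousAt.mul _ (c1 a)
      exact ContinuousAt.comp (f := fun q : Ix k → ℂ => ss k r q a) (hA a).continuousAt (c4 a)
    · apply tendsto_finsetProd
      intro x _
      exact ((hB x).comp (continuous_apply (Sum.inl x))).continuousAt
  · push Not at hp
    obtain ⟨x, hx⟩ := hp
    have hx' : p (Sum.inl x) ∉ tsupport (B x) := fun h => hx (hBM x h)
    have hev : ∀ᶠ q in 𝓝 p, FF1 k r A B q = 0 := by
      have hcx : Continuous (fun q : Ix k → ℂ => q (Sum.inl x)) := continuous_apply (Sum.inl x)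
      have ho : IsOpen ((fun q : Ix k → ℂ => q (Sum.inl x)) ⁻¹' (tsupport (B x))ᶜ) :=
        (isClosed_tsupport (B x)).isOpen_compl.preimage hcx
      filter_upwards [ho.mem_nhds hx'] with q hq
      unfold FF1
      have : B x (q (Sum.inl x)) = 0 := image_eq_zero_of_notMem_tsupport hq
      rw [Finset.prod_eq_zero (Finset.mem_univ x) this, mul_zero]
    have h0 : FF1 k r A B p = 0 := hev.self_of_nhds
    unfold ContinuousAt
    rw [h0]
    exact tendsto_const_nhds.congr' (hev.mono (fun q hq => hq.symm))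

lemma FF1_supp {k : ℕ} {r : ℂ → ℝ} (hr : Hyp r) (h2 : S_BAS) (A : Fin 2 → ℝ → ℝ)
    (B : Fin 2 × Fin k → ℂ → ℝ) (hA0 : ∀ a, ∃ t < 1, ∀ s ≥ t, A a s = 0)
    (hBc : ∀ x, HasCompactSupport (B x))
    (hBM : ∀ x, tsupport (B x) ⊆ M) : HasCompactSupport (FF1 k r A B) := by
  have hK : IsCompact (Set.pi univ (fun x => tsupport (B x))) := isCompact_univ_pi hBc
  have hb : ∀ a : Fin 2, ∃ C, ∀ z ∈ Set.pi univ (fun x => tsupport (B x)),
      ‖(hz k r z a)⁻¹‖ ≤ C := by
    intro a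
    apply hK.exists_bound_of_continuousOn
    intro z hz'
    apply ContinuousAt.continuousWithinAt
    exact ContinuousAt.inv₀ (hz_cont hr h2 (fun x => hBM x (hz' x (mem_univ x))) a)
      (hz_pos k r z a).ne'
  choose C hC using hb
  have hcomp : IsCompact (Set.pi univ (fun i : Ix k => Sum.elim (fun x => tsupport (B x))
      (fun a => Metric.closedBall (0 : ℂ) (|C a| + 1)) i)) := by
    apply isCompact_univ_pi
    rintro (x | a)
    · exact hBc x
    · exact isCompact_closedBall _ _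
  apply HasCompactSupport.intro hcomp
  intro p hp
  by_contra hne
  apply hp
  have hBne : ∀ x, B x (p (Sum.inl x)) ≠ 0 := by
    intro x h0
    apply hne
    unfold FF1
    rw [Finset.prod_eq_zero (Finset.mem_univ x) h0, mul_zero]
  have hzm : (fun x => p (Sum.inl x)) ∈ Set.pi univ (fun x => tsupport (B x)) := by
    intro x _
    exact subset_tsupport _ (hBne x)
  rintro (x | a) _
  · exact subset_tsupport _ (hBne x)
  · simp only [Sum.elim_inr, mem_closedBall_zero_iff]
    have hs : ss k r p a < 1 := by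
      by_contra hcon
      push Not at hcon
      apply hne
      obtain ⟨t, ht, hAt⟩ := hA0 a
      unfold FF1
      have : A a (ss k r p a) * hh k r p a = 0 := by
        rw [hAt _ (by linarith), zero_mul]
      rw [Finset.prod_eq_zero (Finset.mem_univ a) this, zero_mul]
    rw [ss_eq] at hs
    have hC' := hC a _ hzm
    have hpos := hz_pos k r (fun x => p (Sum.inl x)) a
    rw [norm_inv, Real.norm_eq_abs, abs_of_pos hpos] at hC'
    have h3 : ‖p (Sum.inr a)‖ ^ 2 ≤ |C a| := by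
      have h4 : ‖p (Sum.inr a)‖ ^ 2 < (hz k r (fun x => p (Sum.inl x)) a)⁻¹ := by
        rw [← one_div, lt_div_iff₀ hpos]
        exact hs
      exact (h4.le.trans hC').trans (le_abs_self _)
    have h5 := norm_nonneg (p (Sum.inr a))
    have h6 := abs_nonneg (C a)
    nlinarith

lemma FF1_zero {k : ℕ} {r : ℂ → ℝ} (A : Fin 2 → ℝ → ℝ)
    (B : Fin 2 × Fin k → ℂ → ℝ) (hA0 : ∀ a, ∃ t < 1, ∀ s ≥ t, A a s = 0)
    (hBM : ∀ x, tsupport (B x) ⊆ M) : ∀ p, p ∉ XX k r → FF1 k r A B p = 0 := by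
  intro p hp
  by_contra hne
  apply hp
  constructor
  · intro x
    apply hBM x
    apply subset_tsupport
    intro h0
    apply hne
    unfold FF1
    rw [Finset.prod_eq_zero (Finset.mem_univ x) h0, mul_zero]
  · intro a
    by_contra hcon
    push Not at hcon
    apply hne
    obtain ⟨t, ht, hAt⟩ := hA0 a
    unfold FF1
    have : A a (ss k r p a) * hh k r p a = 0 := by
      rw [hAt _ (by linarith), zero_mul]
    rw [Finset.prod_eq_zero (Finset.mem_univ a) this, zero_mul]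

end INTL

open INTL in
theorem t_INT (_h1 : S_SSD) (h2 : S_BAS) : S_INT := by
  intro k r hr A B hA hA0 hB hBc hBM
  have hcont := FF1_cont hr h2 A B hA hB hBM
  have hsupp := FF1_supp hr h2 A B hA0 hBc hBM
  have hint : Integrable (FF1 k r A B) := hcont.integrable_of_hasCompactSupport hsupp
  refine ⟨hint.integrableOn, ?_⟩
  have e1 : ∫ p in XX k r, (∏ a, (A a (ss k r p a) * hh k r p a)) * ∏ x, B x (p (Sum.inl x)) =
      ∫ p, FF1 k r A B p :=
    setIntegral_eq_integral_of_forall_compl_eq_zero (FF1_zero A B hA0 hBM)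
  rw [e1]
  have hmp := volume_measurePreserving_sumPiEquivProdPi (fun _ : Ix k => ℂ)
  have hme := (MeasurableEquiv.sumPiEquivProdPi (fun _ : Ix k => ℂ)).measurableEmbedding
  have e2 : ∫ p, FF1 k r A B p = ∫ y, FF2 k r A B y := by
    rw [← hmp.integral_comp hme]
    rfl
  have hint2 : Integrable (FF2 k r A B) := by
    rw [← hmp.integrable_comp_emb hme]
    exact hint
  rw [e2]
  have e3 : ∫ y, FF2 k r A B y = ∫ z : Fin 2 × Fin k → ℂ, ∫ v : Fin 2 → ℂ, FF2 k r A B (z, v) :=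
    integral_prod _ hint2
  rw [e3]
  have e4 : ∀ z : Fin 2 × Fin k → ℂ, ∫ v : Fin 2 → ℂ, FF2 k r A B (z, v) =
      (∏ a, (Real.pi * ∫ s in (0 : ℝ)..1, A a s)) * ∏ x, B x (z x) := by
    intro z
    unfold FF2
    simp only
    rw [integral_mul_const, integral_fintype_prod_volume_eq_prod
      (fun a (w : ℂ) => A a (‖w‖ ^ 2 * hz k r z a) * hz k r z a)]
    congr 1
    apply Finset.prod_congr rfl
    intro a _
    obtain ⟨t, ht, hAt⟩ := hA0 a
    exact one_int ht hAt (hz_pos k r z a)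
  simp only [e4]
  rw [integral_const_mul, integral_fintype_prod_volume_eq_prod B]

end Pool.Agent.H794.KM
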