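import Pool.Agent.H794.KM.Spec

namespace Pool.Agent.H794.KM

namespace KA1L

theorem mem_Sl {z : ℂ} (h : z.im ≠ 0) : z ∈ Sl := Or.inl h

theorem one_sub_im (z : ℂ) : (1 - z).im = -z.im := by simp

theorem A1_conj (h1 : S_KHO) (z : ℂ) (hz : z.im ≠ 0) : A1 ((starRingEnd ℂ) z) = A1 z := by
  have hz' : (1 - z) ∈ Sl := mem_Sl (by rw [one_sub_im]; exact neg_ne_zero.mpr hz)
  have e1 := h1.2.1 z (mem_Sl hz)
  have e2 := h1.2.1 (1 - z) hz'
  have e3 : (1 : ℂ) - (starRingEnd ℂ) z = (starRingEnd ℂ) (1 - z) := by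
    rw [map_sub, map_one]
  unfold A1
  rw [e3, e1, e2, ← map_mul, Complex.conj_re]

theorem half_mul (z : ℂ) (hz : z ≠ 0) : z ^ (1 / 2 : ℂ) * z ^ (-(1 / 2) : ℂ) = 1 := by
  rw [← Complex.cpow_add _ _ hz]
  norm_num

theorem half_norm (z : ℂ) (hz : z ≠ 0) :
    z ^ (1 / 2 : ℂ) * (starRingEnd ℂ) (z ^ (1 / 2 : ℂ)) = ((‖z‖ : ℝ) : ℂ) := by
  rw [Complex.mul_conj, Complex.normSq_eq_norm_sq]
  congr 1
  have h1 : z ^ (1 / 2 : ℂ) * z ^ (1 / 2 : ℂ) = z := by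
    rw [← Complex.cpow_add _ _ hz]
    norm_num
  rw [sq, ← norm_mul, h1]

theorem pos (h2 : S_KPF) (h3 : S_KCO) (z : ℂ) (hz : 0 < z.im) : A1 z⁻¹ = ‖z‖ * A1 z := by
  have hz0 : z ≠ 0 := by
    rintro rfl
    simp at hz
  have e1 := h3 z hz
  have hz' : (1 - z) ∈ Sl := mem_Sl (by rw [one_sub_im]; exact neg_ne_zero.mpr hz.ne')
  have e2 := (h2 (1 - z) hz').2
  have e3 : (1 - z) / (1 - z - 1) = 1 - z⁻¹ := by
    have h5 : (1 : ℂ) - z - 1 = -z := by ring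
    rw [h5]
    field_simp
    ring
  have e4 : (1 : ℂ) - (1 - z) = z := by ring
  rw [e3, e4] at e2
  have e5 : Kf z⁻¹ = z ^ (1 / 2 : ℂ) * (Kf z - Complex.I * Kf (1 - z)) := by
    rw [← e1, ← mul_assoc, half_mul z hz0, one_mul]
  have e6 : Kf (1 - z⁻¹) = z ^ (1 / 2 : ℂ) * Kf (1 - z) := by
    rw [e2, ← mul_assoc, half_mul z hz0, one_mul]
  unfold A1
  rw [e5, e6, map_mul]
  have e7 : z ^ (1 / 2 : ℂ) * (Kf z - Complex.I * Kf (1 - z)) *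
      ((starRingEnd ℂ) (z ^ (1 / 2 : ℂ)) * (starRingEnd ℂ) (Kf (1 - z))) =
      (z ^ (1 / 2 : ℂ) * (starRingEnd ℂ) (z ^ (1 / 2 : ℂ))) *
        (Kf z * (starRingEnd ℂ) (Kf (1 - z)) -
          Complex.I * (Kf (1 - z) * (starRingEnd ℂ) (Kf (1 - z)))) := by ring
  rw [e7, half_norm z hz0, Complex.re_ofReal_mul, Complex.mul_conj (Kf (1 - z)), Complex.sub_re,
    Complex.I_mul_re, Complex.ofReal_im, neg_zero, sub_zero]

end KA1L

theorem t_KA1 (h1 : S_KHO) (h2 : S_KPF) (h3 : S_KCO) : S_KA1 := by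
  intro z hz
  rcases lt_or_gt_of_ne hz with h | h
  · have hc : 0 < ((starRingEnd ℂ) z).im := by
      rw [Complex.conj_im]
      linarith
    have e1 := KA1L.pos h2 h3 _ hc
    rw [← map_inv₀, KA1L.A1_conj h1 z hz, Complex.norm_conj, KA1L.A1_conj h1 z⁻¹] at e1
    · exact e1
    · rw [Complex.inv_im]
      have h0 : z ≠ 0 := by
        rintro rfl
        simp at h
      have h4 : 0 < Complex.normSq z := Complex.normSq_pos.mpr h0
      exact (div_ne_zero (neg_ne_zero.mpr hz) h4.ne')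
  · exact KA1L.pos h2 h3 z h

end Pool.Agent.H794.KM

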