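import Pool.Agent.H794.KM.Spec

namespace Pool.Agent.H794.KM

open MeasureTheory Set Filter Topology
open scoped ComplexOrder

namespace KAHL

lemma dz_congr {ι : Type} [Fintype ι] [DecidableEq ι] {X : Set (ι → ℂ)} (hX : IsOpen X)
    {f g : (ι → ℂ) → ℂ} (h : ∀ p ∈ X, f p = g p) (i : ι) {p : ι → ℂ} (hp : p ∈ X) :
    dz i f p = dz i g p := by
  have : f =ᶠ[𝓝 p] g := by
    filter_upwards [hX.mem_nhds hp] with q hq using h q hq
  unfold dz
  rw [this.fderiv_eq]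

/-- the potential -/
noncomputable def Pot (k : ℕ) (r : ℂ → ℝ) (F : (Fin 2 → ℝ) → ℝ) (q : Ix k → ℂ) : ℂ :=
  ((F (ss k r q) + ((k : ℝ) + 2) * ∑ x, lam k r (q (Sum.inl x)) : ℝ) : ℂ)

lemma pot_smooth (h1 : S_SSD) (h2 : S_BAS) (k : ℕ) (r : ℂ → ℝ) (hr : Hyp r)
    (F : (Fin 2 → ℝ) → ℝ) (hF : SmS F) : ContDiffOn ℝ SM (Pot k r F) (XX k r) := by
  intro p hp
  apply ContDiffAt.contDiffWithinAt
  obtain ⟨-, -, hSq, hS⟩ := h1 k r hr
  have hss : ContDiffAt ℝ SM (fun q => ss k r q) p := by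
    rw [contDiffAt_pi]
    intro a
    exact (hS p hp.1 a).2.1
  have hFs : ContDiffAt ℝ SM (fun q => F (ss k r q)) p :=
    (hF _ (hSq p hp)).comp p hss
  have hl : ∀ x : Fin 2 × Fin k, ContDiffAt ℝ SM (fun q : Ix k → ℂ => lam k r (q (Sum.inl x))) p := by
    intro x
    have h := (h2 k r hr (p (Sum.inl x)) (hp.1 x)).2.2.1
    have hproj : ContDiffAt ℝ SM (fun q : Ix k → ℂ => q (Sum.inl x)) p :=
      (contDiff_apply ℝ ℂ (Sum.inl x : Ix k)).contDiffAt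
    exact ContDiffAt.comp (g := lam k r) (f := fun q : Ix k → ℂ => q (Sum.inl x)) p h hproj
  have hsum : ContDiffAt ℝ SM (fun q : Ix k → ℂ => ∑ x, lam k r (q (Sum.inl x))) p :=
    ContDiffAt.sum (fun x _ => hl x)
  have htot : ContDiffAt ℝ SM (fun q : Ix k → ℂ =>
      F (ss k r q) + ((k : ℝ) + 2) * ∑ x, lam k r (q (Sum.inl x))) p :=
    hFs.add (contDiffAt_const.mul hsum)
  exact Complex.ofRealCLM.contDiff.contDiffAt.comp p htot

lemma gm_eq (h4 : S_POT) (k : ℕ) (r : ℂ → ℝ) (hr : Hyp r)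
    (F : (Fin 2 → ℝ) → ℝ) (hF : SmS F) (i j : Ix k) :
    ∀ p ∈ XX k r, gm k r F p i j = dz i (fun q => dzbar j (Pot k r F) q) p := by
  intro p hp
  have h := h4 k r hr F hF ((k : ℝ) + 2) p hp i j
  have h' : dz i (fun q => dzbar j (Pot k r F) q) p = frame (Tm k r p)
      (fun x => hE k r F p x + ((k : ℝ) + 2) * bet k r (p (Sum.inl x))) (hG k r F p) i j := h
  rw [h']
  have e : (fun x : Fin 2 × Fin k =>
      ((k : ℝ) + 2 + ss k r p x.1 * pd x.1 F (ss k r p)) * bet k r (p (Sum.inl x))) =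
      (fun x => hE k r F p x + ((k : ℝ) + 2) * bet k r (p (Sum.inl x))) := by
    funext x
    unfold hE
    ring
  unfold gm
  rw [e]

end KAHL

theorem t_KAH (h1 : S_SSD) (h2 : S_BAS) (h3 : S_FRA) (h4 : S_POT) (h5 : S_CLO) (h6 : S_HGP)
    (h7 : S_DET) (h8 : S_RIC) : S_KAH := by
  intro k r hr F hF
  obtain ⟨hop, -, hSq, -⟩ := h1 k r hr
  have hPot := KAHL.pot_smooth h1 h2 k r hr F hF.sm
  have hgm := KAHL.gm_eq h4 k r hr F hF.sm
  obtain ⟨hC1, hC2⟩ := h5 (Ix k) (XX k r) (KAHL.Pot k r F) hop hPot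
  refine ⟨⟨?_, ?_, ?_⟩, ?_⟩
  · intro i j
    exact (hC1 i j).congr (fun p hp => hgm i j p hp)
  · intro p hp
    obtain ⟨c, hc, hell⟩ := hF.ell
    have hs := hSq p hp
    unfold gm
    apply (h3 k (Tm k r p)).2.2.1
    · intro x
      have hb : 0 < bet k r (p (Sum.inl x)) := (h2 k r hr _ (hp.1 x)).2.2.2.2.2.1
      exact mul_pos (lt_of_lt_of_le hc ((hell _ hs).1 x.1)) hb
    · exact (h6 k r hr F hF.sm p hp).2.2.2.2 ⟨c, hc, fun x => (hell _ hs).2 x⟩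
  · intro p hp i j l
    rw [KAHL.dz_congr hop (hgm i j) l hp, KAHL.dz_congr hop (hgm l j) i hp]
    exact hC2 p hp i j l
  · intro p hp
    rw [h8 k r hr F hF p hp]
    have hs := hSq p hp
    obtain ⟨hr1, hr2⟩ := hF.ric _ hs
    apply (h3 k (Tm k r p)).2.2.2.1
    · intro x
      have hb : 0 < bet k r (p (Sum.inl x)) := (h2 k r hr _ (hp.1 x)).2.2.2.2.2.1
      unfold hE
      exact mul_nonneg (mul_nonneg (hs x.1).1 (hr1 x.1)) hb.le
    · exact (h6 k r hr (UU k F) (h7 k r hr F hF).2.1 p hp).2.2.2.1 hr2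

end Pool.Agent.H794.KM

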