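import Pool.Agent.H794.KM.Spec

namespace Pool.Agent.H794.KM

open MeasureTheory Set Filter Topology
open scoped ComplexOrder

namespace KCOL

lemma isOpen_Sl : IsOpen Sl := by
  have : Sl = (fun z : ℂ => 1 - z) ⁻¹' Complex.slitPlane := by
    ext z
    simp only [Sl, Set.mem_ofPred_eq, Set.mem_preimage, Complex.mem_slitPlane_iff, Complex.sub_re,
      Complex.one_re, Complex.sub_im, Complex.one_im, zero_sub, ne_eq, neg_eq_zero, sub_pos]
    tauto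
  rw [this]
  exact Complex.isOpen_slitPlane.preimage (by fun_prop)

/-- the upper half plane -/
def UH : Set ℂ := {z | 0 < z.im}

lemma isOpen_UH : IsOpen UH := isOpen_lt continuous_const Complex.continuous_im

lemma UH_Sl {z : ℂ} (hz : z ∈ UH) : z ∈ Sl := Or.inl (ne_of_gt hz)

lemma UH_sub {z : ℂ} (hz : z ∈ UH) : 1 - z ∈ Sl := by
  left
  have : 0 < z.im := hz
  simp [this.ne']

lemma UH_inv {z : ℂ} (hz : z ∈ UH) : z⁻¹ ∈ Sl := by
  left
  have h : 0 < z.im := hz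
  have h0 : z ≠ 0 := by
    rintro rfl
    simp at h
  rw [Complex.inv_im]
  have : 0 < Complex.normSq z := Complex.normSq_pos.2 h0
  exact div_ne_zero (neg_ne_zero.2 h.ne') this.ne'

lemma UH_ne0 {z : ℂ} (hz : z ∈ UH) : z ≠ 0 := by
  rintro rfl
  simp [UH] at hz

lemma UH_ne1 {z : ℂ} (hz : z ∈ UH) : 1 - z ≠ 0 := by
  intro h
  have : z = 1 := by linear_combination -h
  rw [this] at hz
  simp [UH] at hz

lemma UH_slit {z : ℂ} (hz : z ∈ UH) : z ∈ Complex.slitPlane := Or.inr (ne_of_gt hz)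

/-- solutions of the hypergeometric equation on the upper half plane -/
structure Sol (y y1 y2 : ℂ → ℂ) : Prop where
  h1 : ∀ z ∈ UH, HasDerivAt y (y1 z) z
  h2 : ∀ z ∈ UH, HasDerivAt y1 (y2 z) z
  ode : ∀ z ∈ UH, z * (1 - z) * y2 z + (1 - 2 * z) * y1 z - y z / 4 = 0

lemma wr {y y1 y2 w w1 w2 : ℂ → ℂ} (hy : Sol y y1 y2) (hw : Sol w w1 w2) {z u : ℂ}
    (hz : z ∈ UH) (hu : u ∈ UH) :
    z * (1 - z) * (y z * w1 z - y1 z * w z) = u * (1 - u) * (y u * w1 u - y1 u * w u) := by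
  set F : ℂ → ℂ := fun z => z * (1 - z) * (y z * w1 z - y1 z * w z) with hF
  have hd : ∀ x ∈ UH, HasDerivAt F 0 x := by
    intro x hx
    have e1 : HasDerivAt (fun z : ℂ => z * (1 - z)) (1 * (1 - x) + x * (0 - 1)) x :=
      (hasDerivAt_id x).mul ((hasDerivAt_const x (1 : ℂ)).sub (hasDerivAt_id x))
    have e2 : HasDerivAt (fun z : ℂ => y z * w1 z - y1 z * w z)
        ((y1 x * w1 x + y x * w2 x) - (y2 x * w x + y1 x * w1 x)) x :=
      ((hy.h1 x hx).mul (hw.h2 x hx)).sub ((hy.h2 x hx).mul (hw.h1 x hx))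
    have e3 := e1.mul e2
    have e4 : (1 * (1 - x) + x * (0 - 1)) * (y x * w1 x - y1 x * w x) +
        x * (1 - x) * ((y1 x * w1 x + y x * w2 x) - (y2 x * w x + y1 x * w1 x)) = 0 := by
      linear_combination (y x) * (hw.ode x hx) - (w x) * (hy.ode x hx)
    rw [e4] at e3
    exact e3
  have hpre : IsPreconnected UH := (convex_halfSpace_im_gt 0).isPreconnected
  refine isOpen_UH.is_const_of_deriv_eq_zero hpre
    (fun x hx => (hd x hx).differentiableAt.differentiableWithinAt) (fun x hx => (hd x hx).deriv)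
    hz hu

lemma Kd (h1 : S_KHO) {z : ℂ} (hz : z ∈ Sl) : HasDerivAt Kf (deriv Kf z) z :=
  (h1.1 z hz).hasDerivAt

lemma Kd2 (h1 : S_KHO) {z : ℂ} (hz : z ∈ Sl) :
    HasDerivAt (deriv Kf) (deriv (deriv Kf) z) z := by
  have hd : DifferentiableOn ℂ Kf Sl := fun w hw => (h1.1 w hw).differentiableWithinAt
  exact ((hd.deriv isOpen_Sl).differentiableAt (isOpen_Sl.mem_nhds hz)).hasDerivAt

lemma sol_a (h1 : S_KHO) (h2 : S_KOD) : Sol Kf (deriv Kf) (deriv (deriv Kf)) where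
  h1 := fun _ hz => Kd h1 (UH_Sl hz)
  h2 := fun _ hz => Kd2 h1 (UH_Sl hz)
  ode z hz := h2 z (UH_Sl hz)

lemma sol_b (h1 : S_KHO) (h2 : S_KOD) : Sol (fun z => Kf (1 - z)) (fun z => -deriv Kf (1 - z))
    (fun z => deriv (deriv Kf) (1 - z)) where
  h1 z hz := by
    have e : HasDerivAt (fun z : ℂ => 1 - z) (0 - 1) z :=
      (hasDerivAt_const z (1 : ℂ)).sub (hasDerivAt_id z)
    exact HasDerivAt.congr_deriv (f := fun z => Kf (1 - z)) ((Kd h1 (UH_sub hz)).comp z e)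
      (by ring)
  h2 z hz := by
    have e : HasDerivAt (fun z : ℂ => 1 - z) (0 - 1) z :=
      (hasDerivAt_const z (1 : ℂ)).sub (hasDerivAt_id z)
    exact HasDerivAt.congr_deriv (f := fun z => -deriv Kf (1 - z))
      ((Kd2 h1 (UH_sub hz)).comp z e).neg (by ring)
  ode z hz := by
    have := h2 (1 - z) (UH_sub hz)
    linear_combination this

lemma pw {z : ℂ} (hz : z ∈ UH) :
    HasDerivAt (fun z : ℂ => z ^ (-(1 / 2) : ℂ)) (-(1 / 2) * (z ^ (-(1 / 2) : ℂ) / z)) z := by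
  have h := (hasDerivAt_id z).cpow_const (c := (-(1 / 2) : ℂ)) (UH_slit hz)
  simp only [id_eq, mul_one] at h
  rw [Complex.cpow_sub _ _ (UH_ne0 hz), Complex.cpow_one] at h
  exact h

lemma sol_g (h1 : S_KHO) (h2 : S_KOD) : Sol (fun z => z ^ (-(1 / 2) : ℂ) * Kf z⁻¹)
    (fun z => -(1 / 2) * (z ^ (-(1 / 2) : ℂ) / z) * Kf z⁻¹ -
      z ^ (-(1 / 2) : ℂ) / z ^ 2 * deriv Kf z⁻¹)
    (fun z => 3 / 4 * (z ^ (-(1 / 2) : ℂ) / z ^ 2) * Kf z⁻¹ +
      3 * (z ^ (-(1 / 2) : ℂ) / z ^ 3) * deriv Kf z⁻¹ +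
      z ^ (-(1 / 2) : ℂ) / z ^ 4 * deriv (deriv Kf) z⁻¹) where
  h1 z hz := by
    have h0 := UH_ne0 hz
    have e1 : HasDerivAt (fun z : ℂ => Kf z⁻¹) (deriv Kf z⁻¹ * (-(z ^ 2)⁻¹)) z :=
      (Kd h1 (UH_inv hz)).comp z (hasDerivAt_inv h0)
    refine HasDerivAt.congr_deriv (f := fun z => z ^ (-(1 / 2) : ℂ) * Kf z⁻¹)
      ((pw hz).mul e1) ?_
    field_simp
    ring
  h2 z hz := by
    have h0 := UH_ne0 hz
    have e1 : HasDerivAt (fun z : ℂ => Kf z⁻¹) (deriv Kf z⁻¹ * (-(z ^ 2)⁻¹)) z :=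
      (Kd h1 (UH_inv hz)).comp z (hasDerivAt_inv h0)
    have e2 : HasDerivAt (fun z : ℂ => deriv Kf z⁻¹) (deriv (deriv Kf) z⁻¹ * (-(z ^ 2)⁻¹)) z :=
      (Kd2 h1 (UH_inv hz)).comp z (hasDerivAt_inv h0)
    have e3 : HasDerivAt (fun z : ℂ => z ^ (-(1 / 2) : ℂ) / z)
        (((-(1 / 2) * (z ^ (-(1 / 2) : ℂ) / z)) * z - z ^ (-(1 / 2) : ℂ) * 1) / z ^ 2) z :=
      (pw hz).div (hasDerivAt_id z) h0
    have e4 : HasDerivAt (fun z : ℂ => z ^ (-(1 / 2) : ℂ) / z ^ 2)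
        (((-(1 / 2) * (z ^ (-(1 / 2) : ℂ) / z)) * z ^ 2 - z ^ (-(1 / 2) : ℂ) * (2 * z)) /
          (z ^ 2) ^ 2) z := by
      refine HasDerivAt.congr_deriv (f := fun z : ℂ => z ^ (-(1 / 2) : ℂ) / z ^ 2)
        ((pw hz).div (hasDerivAt_pow 2 z) (pow_ne_zero 2 h0)) ?_
      simp
    refine HasDerivAt.congr_deriv (f := fun z : ℂ => -(1 / 2) * (z ^ (-(1 / 2) : ℂ) / z) * Kf z⁻¹ -
      z ^ (-(1 / 2) : ℂ) / z ^ 2 * deriv Kf z⁻¹)
      (((e3.const_mul (-(1 / 2) : ℂ)).mul e1).sub (e4.mul e2)) ?_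
    field_simp
    ring
  ode z hz := by
    have h0 := UH_ne0 hz
    have h3 := h2 z⁻¹ (UH_inv hz)
    have h4 : (1 - z) * deriv (deriv Kf) z⁻¹ =
        (z ^ 2 - 2 * z) * deriv Kf z⁻¹ - z ^ 2 * Kf z⁻¹ / 4 := by
      have h5 : z ^ 2 * (z⁻¹ * (1 - z⁻¹) * deriv (deriv Kf) z⁻¹ + (1 - 2 * z⁻¹) * deriv Kf z⁻¹ -
          Kf z⁻¹ / 4) = 0 := by rw [h3, mul_zero]
      have h6 : z ^ 2 * (z⁻¹ * (1 - z⁻¹)) = z - 1 := by
        field_simp
      have h7 : z ^ 2 * (1 - 2 * z⁻¹) = z ^ 2 - 2 * z := by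
        field_simp
      linear_combination (-1 : ℂ) * h5 + deriv (deriv Kf) z⁻¹ * h6 + deriv Kf z⁻¹ * h7
    set p := z ^ (-(1 / 2) : ℂ) with hp
    set K0 := Kf z⁻¹ with hK0
    set K1 := deriv Kf z⁻¹ with hK1
    set K2 := deriv (deriv Kf) z⁻¹ with hK2
    have h8 : z * (1 - z) * (3 / 4 * (p / z ^ 2) * K0 + 3 * (p / z ^ 3) * K1 + p / z ^ 4 * K2) =
        z * (1 - z) * (3 / 4 * (p / z ^ 2) * K0 + 3 * (p / z ^ 3) * K1) +
          p / z ^ 3 * ((z ^ 2 - 2 * z) * K1 - z ^ 2 * K0 / 4) := by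
      rw [← h4]
      field_simp
    rw [h8]
    field_simp
    ring

lemma sol_lin {y y1 y2 w w1 w2 v v1 v2 : ℂ → ℂ} (hy : Sol y y1 y2) (hw : Sol w w1 w2)
    (hv : Sol v v1 v2) (c : ℂ) :
    Sol (fun z => y z - w z + c * v z) (fun z => y1 z - w1 z + c * v1 z)
      (fun z => y2 z - w2 z + c * v2 z) where
  h1 := fun z hz => ((hy.h1 z hz).sub (hw.h1 z hz)).add ((hv.h1 z hz).const_mul c)
  h2 := fun z hz => ((hy.h2 z hz).sub (hw.h2 z hz)).add ((hv.h2 z hz).const_mul c)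
  ode z hz := by
    linear_combination hy.ode z hz - hw.ode z hz + c * hv.ode z hz

/-- `exp (iπ/6)` -/
noncomputable def ee : ℂ := Complex.exp (((Real.pi / 6 : ℝ) : ℂ) * Complex.I)

lemma ee_ne : ee ≠ 0 := Complex.exp_ne_zero _

lemma ee3 : ee ^ 3 = Complex.I := by
  unfold ee
  rw [← Complex.exp_nat_mul]
  have : ((3 : ℕ) : ℂ) * (((Real.pi / 6 : ℝ) : ℂ) * Complex.I) = Real.pi / 2 * Complex.I := by
    push_cast
    ring
  rw [this, Complex.exp_pi_div_two_mul_I]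

lemma ee_val : ee = ((Real.sqrt 3 / 2 : ℝ) : ℂ) + ((1 / 2 : ℝ) : ℂ) * Complex.I := by
  unfold ee
  rw [Complex.exp_mul_I, ← Complex.ofReal_cos, ← Complex.ofReal_sin, Real.cos_pi_div_six,
    Real.sin_pi_div_six]

lemma ee_inv : ee⁻¹ = ((Real.sqrt 3 / 2 : ℝ) : ℂ) - ((1 / 2 : ℝ) : ℂ) * Complex.I := by
  refine (eq_inv_of_mul_eq_one_left ?_).symm
  rw [ee_val]
  have h : ((Real.sqrt 3 : ℝ) : ℂ) ^ 2 = 3 := by
    rw [← Complex.ofReal_pow, Real.sq_sqrt (by norm_num)]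
    norm_num
  push_cast
  linear_combination (1 / 4 : ℂ) * h - (1 / 4 : ℂ) * Complex.I_sq

lemma ee_sub : ee - Complex.I = ee⁻¹ := by
  rw [ee_inv, ee_val]
  push_cast
  ring

lemma ee_sq : ee ^ 2 = Complex.exp (((Real.pi / 3 : ℝ) : ℂ) * Complex.I) := by
  unfold ee
  rw [← Complex.exp_nat_mul]
  congr 1
  push_cast
  ring

lemma u_im : 0 < (ee ^ 2).im := by
  rw [ee_sq, Complex.exp_ofReal_mul_I_im]
  exact Real.sin_pos_of_pos_of_lt_pi (by positivity) (by linarith [Real.pi_pos])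

lemma u_pow : (ee ^ 2) ^ (-(1 / 2) : ℂ) = ee⁻¹ := by
  rw [Complex.cpow_def_of_ne_zero (pow_ne_zero 2 ee_ne), ee_sq, Complex.log_exp]
  · unfold ee
    rw [← Complex.exp_neg]
    congr 1
    push_cast
    ring
  · simp
    linarith [Real.pi_pos]
  · simp
    linarith [Real.pi_pos]

lemma ub_pow : ((ee ^ 2)⁻¹) ^ (-(1 / 2) : ℂ) = ee := by
  rw [Complex.cpow_def_of_ne_zero (inv_ne_zero (pow_ne_zero 2 ee_ne)), ee_sq, ← Complex.exp_neg,
    Complex.log_exp]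
  · unfold ee
    congr 1
    push_cast
    ring
  · simp
    linarith [Real.pi_pos]
  · simp
    linarith [Real.pi_pos]

lemma one_sub_u : 1 - ee ^ 2 = (ee ^ 2)⁻¹ := by
  have h1 := ee_sub
  have h2 := ee3
  have h0 := ee_ne
  refine eq_inv_of_mul_eq_one_left ?_
  have h3 : ee ^ 2 - Complex.I * ee = 1 := by
    have : (ee - Complex.I) * ee = ee⁻¹ * ee := by rw [h1]
    rw [inv_mul_cancel₀ h0] at this
    linear_combination this
  have h4 : ee ^ 2 = 1 + Complex.I * ee := by linear_combination h3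
  have h5 : (1 - ee ^ 2) * ee ^ 2 = -Complex.I * ee ^ 3 := by
    linear_combination (-(ee ^ 2)) * h4
  rw [h5, h2]
  linear_combination -Complex.I_sq

end KCOL

open KCOL

theorem t_KCO (h1 : S_KHO) (h2 : S_KOD) (h3 : S_KPF) (h4 : S_KWR) : S_KCO := by
  intro z hz
  have hz' : z ∈ UH := hz
  set u : ℂ := ee ^ 2 with hu
  have huU : u ∈ UH := u_im
  have hue : 1 - u = u⁻¹ := one_sub_u
  have h0 := ee_ne
  -- the values at the point u
  have hub : u / (u - 1) = u⁻¹ := by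
    have e1 : u - 1 = -u⁻¹ := by linear_combination (-1 : ℂ) * hue
    have hu0 : u ≠ 0 := pow_ne_zero 2 h0
    rw [e1]
    have e2 : u ^ 3 = -1 := by
      rw [hu]
      have := ee3
      linear_combination (ee ^ 3 + Complex.I) * this + Complex.I_sq
    rw [div_eq_iff (neg_ne_zero.2 (inv_ne_zero hu0))]
    field_simp
    linear_combination e2
  have hu0 : u ≠ 0 := pow_ne_zero 2 h0
  set s : ℂ := ee⁻¹ with hs
  have hes : ee * s = 1 := mul_inv_cancel₀ h0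
  have hus : u⁻¹ = s ^ 2 := by rw [hu, hs, inv_pow]
  have hsub : ee - Complex.I = s := ee_sub
  have he3 : ee ^ 3 = Complex.I := ee3
  have hs3 : s ^ 3 = -Complex.I := by
    have : s ^ 3 * ee ^ 3 = 1 := by
      rw [← mul_pow, mul_comm s ee, hes, one_pow]
    rw [he3] at this
    linear_combination (-Complex.I) * this + s ^ 3 * Complex.I_sq
  have hu1 : u - 1 = -s ^ 2 := by
    rw [← hus]
    linear_combination (-1 : ℂ) * hue
  -- value of K at u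
  have ku : Kf u = ee * Kf u⁻¹ := by
    have := (h3 u (UH_Sl huU)).2
    rw [hub, hue, ub_pow] at this
    exact this
  -- derivative of K at u
  have ku1 : deriv Kf u = 1 / 2 * ee ^ 3 * Kf u⁻¹ - ee ^ 5 * deriv Kf u⁻¹ := by
    have hsl : (1 - u) ∈ Complex.slitPlane := by
      right
      have : 0 < u.im := huU
      simp [this.ne']
    have hu1' : u - 1 ≠ 0 := by
      intro h
      exact UH_ne1 huU (by linear_combination -h)
    have e0 : HasDerivAt (fun z : ℂ => 1 - z) (0 - 1) u :=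
      (hasDerivAt_const u (1 : ℂ)).sub (hasDerivAt_id u)
    have e1 : HasDerivAt (fun z : ℂ => (1 - z) ^ (-(1 / 2) : ℂ))
        (-(1 / 2) * (1 - u) ^ (-(1 / 2) - 1 : ℂ) * (0 - 1)) u := e0.cpow_const hsl
    have e2 : HasDerivAt (fun z : ℂ => z / (z - 1)) ((1 * (u - 1) - u * (1 - 0)) / (u - 1) ^ 2)
        u := (hasDerivAt_id u).div ((hasDerivAt_id u).sub (hasDerivAt_const u (1 : ℂ))) hu1'
    have e3 : HasDerivAt (fun z : ℂ => Kf (z / (z - 1)))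
        (deriv Kf (u / (u - 1)) * ((1 * (u - 1) - u * (1 - 0)) / (u - 1) ^ 2)) u := by
      have e3' : HasDerivAt Kf (deriv Kf (u / (u - 1))) ((fun z : ℂ => z / (z - 1)) u) :=
        Kd h1 (h3 u (UH_Sl huU)).1
      exact HasDerivAt.comp u e3' e2
    have e4 := e1.mul e3
    have e5 : HasDerivAt Kf (-(1 / 2) * (1 - u) ^ (-(1 / 2) - 1 : ℂ) * (0 - 1) *
        Kf (u / (u - 1)) + (1 - u) ^ (-(1 / 2) : ℂ) *
        (deriv Kf (u / (u - 1)) * ((1 * (u - 1) - u * (1 - 0)) / (u - 1) ^ 2))) u := by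
      refine e4.congr_of_eventuallyEq ?_
      filter_upwards [isOpen_Sl.mem_nhds (UH_Sl huU)] with z hz
      exact (h3 z hz).2
    have enum : (1 * (u - 1) - u * (1 - 0)) = -1 := by ring
    rw [e5.deriv, hub, enum, hu1, Complex.cpow_sub _ _ (UH_ne1 huU), Complex.cpow_one, hue, ub_pow, hus]
    have hs0 : s ≠ 0 := inv_ne_zero h0
    have he : ee = s⁻¹ := by rw [hs, inv_inv]
    rw [he]
    field_simp
    ring
  have key1 : ee ^ 5 - s ^ 5 = Complex.I := by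
    have e1 : ee ^ 2 + s ^ 2 = 1 := by
      rw [← hus]
      linear_combination (-1 : ℂ) * hue
    linear_combination ee ^ 2 * he3 - s ^ 2 * hs3 + Complex.I * e1
  have hd := sol_lin (sol_g h1 h2) (sol_a h1 h2) (sol_b h1 h2) Complex.I
  have hd0 : u ^ (-(1 / 2) : ℂ) * Kf u⁻¹ - Kf u + Complex.I * Kf (1 - u) = 0 := by
    rw [hu, u_pow, ← hu, hue, ku, ← hs]
    linear_combination (-Kf u⁻¹) * hsub
  have hd1 : -(1 / 2) * (u ^ (-(1 / 2) : ℂ) / u) * Kf u⁻¹ -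
      u ^ (-(1 / 2) : ℂ) / u ^ 2 * deriv Kf u⁻¹ - deriv Kf u +
      Complex.I * (-deriv Kf (1 - u)) = 0 := by
    have e1 : u ^ (-(1 / 2) : ℂ) = s := by rw [hu, u_pow]
    have e2 : u ^ (-(1 / 2) : ℂ) / u = s ^ 3 := by
      rw [e1, div_eq_mul_inv, hus]
      ring
    have e3 : u ^ (-(1 / 2) : ℂ) / u ^ 2 = s ^ 5 := by
      rw [e1, div_eq_mul_inv, ← inv_pow, hus]
      ring
    rw [e2, e3, ku1, hue, hus]
    linear_combination (-(1 / 2) * Kf (s ^ 2)) * hs3 + (-(1 / 2) * Kf (s ^ 2)) * he3 +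
      (deriv Kf (s ^ 2)) * key1
  have w1 := wr hd (sol_a h1 h2) hz' huU
  have w2 := wr hd (sol_b h1 h2) hz' huU
  simp only [hd0, hd1, zero_mul, sub_zero, mul_zero] at w1 w2
  obtain ⟨c, hc, hw⟩ := h4
  have hw' := hw z (UH_Sl hz') (UH_sub hz')
  have hz0 := UH_ne0 hz'
  have hz1 := UH_ne1 hz'
  have hzz : z * (1 - z) ≠ 0 := mul_ne_zero hz0 hz1
  rw [eq_div_iff hzz] at hw'
  have hcc : (c : ℂ) ≠ 0 := by exact_mod_cast hc.ne
  have hfin : (z ^ (-(1 / 2) : ℂ) * Kf z⁻¹ - Kf z + Complex.I * Kf (1 - z)) * c = 0 := by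
    rw [← hw']
    linear_combination (Kf z) * w2 - (Kf (1 - z)) * w1
  have := (mul_eq_zero.1 hfin).resolve_right hcc
  linear_combination this

end Pool.Agent.H794.KM
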