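import Pool.Agent.H794.KM.Spec

/-!
KE0: the Kähler-Einstein potential `F_0 = -(k+2) ∑ log (1 - s_a)`.
-/

namespace Pool.Agent.H794.KM

open MeasureTheory Set Filter Topology
open scoped ComplexOrder

namespace KE0L

theorem FF_zero (k : ℕ) (w : (Fin 2 → ℝ) → ℝ) : FF k w 0 = FF k (fun _ => 0) 0 := by
  funext s
  unfold FF
  ring

theorem near {s : Fin 2 → ℝ} (hs : ∀ a, s a < 1) : ∀ᶠ s' in 𝓝 s, ∀ a, s' a < 1 := by
  rw [Filter.eventually_all]
  intro a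
  exact (continuous_apply a).continuousAt.eventually_lt continuousAt_const (hs a)

theorem UU_const (h3 : S_EU1) (k : ℕ) {s : Fin 2 → ℝ} (hs : ∀ a, s a < 1) :
    UU k (FF k (fun _ => 0) 0) s = -((2 * k + 2) * Real.log ((k : ℝ) + 2)) := by
  have h := h3 k (fun _ => 0) 0 contDiff_const s hs
    (fun a => by rw [zero_mul, add_zero]; exact one_pos) (by rw [zero_mul, add_zero]; exact one_pos)
  rw [h]
  simp only [zero_mul, add_zero, Real.log_one, Finset.sum_const_zero, mul_zero, sub_zero, zero_sub]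

theorem pdU (h1 : S_PDR) (h3 : S_EU1) (k : ℕ) {s : Fin 2 → ℝ} (hs : ∀ a, s a < 1) (a : Fin 2) :
    pd a (UU k (FF k (fun _ => 0) 0)) s = 0 := by
  have e : UU k (FF k (fun _ => 0) 0) =ᶠ[𝓝 s]
      fun _ => -((2 * k + 2) * Real.log ((k : ℝ) + 2)) :=
    (near hs).mono fun s' h => UU_const h3 k h
  rw [(h1 _ (fun _ => -((2 * k + 2) * Real.log ((k : ℝ) + 2))) s a a).2.1 e]
  exact (h1 (fun _ => 0) (fun _ => 0) s a a).2.2.2.1 _

theorem pdU2 (h1 : S_PDR) (h3 : S_EU1) (k : ℕ) {s : Fin 2 → ℝ} (hs : ∀ a, s a < 1)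
    (a b : Fin 2) : pd b (pd a (UU k (FF k (fun _ => 0) 0))) s = 0 := by
  have e : pd a (UU k (FF k (fun _ => 0) 0)) =ᶠ[𝓝 s] fun _ => (0 : ℝ) :=
    (near hs).mono fun s' h => pdU h1 h3 k h a
  rw [(h1 _ (fun _ => (0 : ℝ)) s b b).2.1 e]
  exact (h1 (fun _ => 0) (fun _ => 0) s b b).2.2.2.1 0

theorem QF_F (h2 : S_FPD) (k : ℕ) {s : Fin 2 → ℝ} (hs : ∀ a, s a < 1) (x : Fin 2 → ℝ) :
    QF (FF k (fun _ => 0) 0) s x = ((k : ℝ) + 2) * ∑ a, x a ^ 2 / (1 - s a) ^ 2 := by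
  obtain ⟨_, _, e3, _, e5, _⟩ := h2 k (fun _ => 0) 0 contDiff_const s hs
  unfold QF
  rw [e3 0 1]
  simp only [e5, zero_mul, add_zero, mul_one]
  rw [if_neg (by decide), mul_zero, zero_mul, zero_mul, add_zero, Finset.mul_sum]
  refine Finset.sum_congr rfl fun a _ => ?_
  ring

end KE0L

open KE0L in
theorem t_KE0 (h1 : S_PDR) (h2 : S_FPD) (h3 : S_EU1) : S_KE0 := by
  intro k w
  rw [FF_zero k w]
  have hSq : ∀ s ∈ Sq, ∀ a, s a < 1 := fun s hs a => (hs a).2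
  refine ⟨⟨?_, ?_, ?_⟩, ?_⟩
  · intro s hs
    exact (h2 k (fun _ => 0) 0 contDiff_const s (hSq s hs)).1
  · have hk : (0 : ℝ) < (k : ℝ) + 2 := by positivity
    refine ⟨(k : ℝ) + 2, hk, fun s hs => ⟨fun a => ?_, fun x => ?_⟩⟩
    · rw [(h2 k (fun _ => 0) 0 contDiff_const s (hSq s hs)).2.2.2.1 a, zero_mul, add_zero, mul_one]
      have ha : 0 < 1 - s a := by linarith [(hs a).2]
      rw [le_div_iff₀ ha]
      nlinarith [(hs a).1]
    · exact (QF_F h2 k (hSq s hs) x).ge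
  · intro s hs
    refine ⟨fun a => (pdU h1 h3 k (hSq s hs) a).ge, fun x => ?_⟩
    unfold QF
    simp only [pdU2 h1 h3 k (hSq s hs), pdU h1 h3 k (hSq s hs), mul_zero, zero_mul, add_zero,
      Finset.sum_const_zero, le_refl]
  · intro s hs a
    exact ⟨pdU h1 h3 k (hSq s hs) a, fun b => pdU2 h1 h3 k (hSq s hs) a b⟩

end Pool.Agent.H794.KM
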