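import Pool.Agent.H794.KM.Spec

/-!
Holomorphy, reality and positivity of the elliptic integral `K(z)`.
-/

namespace Pool.Agent.H794.KM

open MeasureTheory Set Filter Topology

namespace KHOL

lemma sin_sq_mem (t : ℝ) : 0 ≤ Real.sin t ^ 2 ∧ Real.sin t ^ 2 ≤ 1 :=
  ⟨sq_nonneg _, Real.sin_sq_le_one t⟩

lemma mem_slit {z : ℂ} (hz : z ∈ Sl) (t : ℝ) :
    1 - z * ((Real.sin t : ℝ) : ℂ) ^ 2 ∈ Complex.slitPlane := by
  obtain ⟨h0, h1⟩ := sin_sq_mem t
  set a : ℝ := Real.sin t ^ 2 with ha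
  have e : 1 - z * ((Real.sin t : ℝ) : ℂ) ^ 2 = 1 - z * ((a : ℝ) : ℂ) := by
    rw [ha]
    push_cast
    ring
  rw [e, Complex.mem_slitPlane_iff]
  have hre : (1 - z * ((a : ℝ) : ℂ)).re = 1 - z.re * a := by
    simp
  have him : (1 - z * ((a : ℝ) : ℂ)).im = -(z.im * a) := by
    simp
  rw [hre, him]
  have hz' : z.im ≠ 0 ∨ z.re < 1 := hz
  rcases h0.eq_or_lt with h | h
  · left
    rw [← h]
    norm_num
  · by_cases hi : z.im = 0
    · left
      have hr : z.re < 1 := by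
        rcases hz' with h2 | h2
        · exact absurd hi h2
        · exact h2
      nlinarith
    · right
      exact neg_ne_zero.2 (mul_ne_zero hi h.ne')

lemma isOpen_Sl : IsOpen Sl := by
  have h : Sl = {z : ℂ | z.im ≠ 0} ∪ {z : ℂ | z.re < 1} := rfl
  rw [h]
  exact (isOpen_ne_fun Complex.continuous_im continuous_const).union
    (isOpen_lt Complex.continuous_re continuous_const)

lemma cont_base : Continuous (fun p : ℂ × ℝ => 1 - p.1 * ((Real.sin p.2 : ℝ) : ℂ) ^ 2) := by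
  have h : Continuous (fun p : ℂ × ℝ => ((Real.sin p.2 : ℝ) : ℂ)) :=
    Complex.continuous_ofReal.comp (Real.continuous_sin.comp continuous_snd)
  exact continuous_const.sub (continuous_fst.mul (h.pow 2))

lemma cont_pow (c : ℂ) : ContinuousOn
    (fun p : ℂ × ℝ => (1 - p.1 * ((Real.sin p.2 : ℝ) : ℂ) ^ 2) ^ c) (Sl ×ˢ univ) :=
  cont_base.continuousOn.cpow_const fun p hp => mem_slit hp.1 p.2

lemma cont_pow_t (c : ℂ) {z : ℂ} (hz : z ∈ Sl) :
    Continuous (fun t : ℝ => (1 - z * ((Real.sin t : ℝ) : ℂ) ^ 2) ^ c) := by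
  rw [← continuousOn_univ]
  exact (cont_pow c).comp (f := fun t : ℝ => (z, t)) (by fun_prop) fun t _ => ⟨hz, mem_univ _⟩

/-- the derivative of the integrand -/
noncomputable def F' (z : ℂ) (t : ℝ) : ℂ :=
  (1 / 2) * (((Real.sin t : ℝ) : ℂ) ^ 2 * (1 - z * ((Real.sin t : ℝ) : ℂ) ^ 2) ^ (-(3 / 2) : ℂ))

lemma hasDeriv_integrand {z : ℂ} (hz : z ∈ Sl) (t : ℝ) :
    HasDerivAt (fun w => (1 - w * ((Real.sin t : ℝ) : ℂ) ^ 2) ^ (-(1 / 2) : ℂ)) (F' z t) z := by
  have h1 : HasDerivAt (fun w : ℂ => 1 - w * ((Real.sin t : ℝ) : ℂ) ^ 2)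
      (-(((Real.sin t : ℝ) : ℂ) ^ 2)) z := by
    have := ((hasDerivAt_id z).mul_const (((Real.sin t : ℝ) : ℂ) ^ 2)).const_sub 1
    simpa using this
  have h2 := h1.cpow_const (c := (-(1 / 2) : ℂ)) (mem_slit hz t)
  refine h2.congr_deriv ?_
  unfold F'
  have e : (-(1 / 2) : ℂ) - 1 = -(3 / 2) := by norm_num
  rw [e]
  ring

lemma cont_F' : ContinuousOn (fun p : ℂ × ℝ => F' p.1 p.2) (Sl ×ˢ univ) := by
  unfold F'
  have h : Continuous (fun p : ℂ × ℝ => ((Real.sin p.2 : ℝ) : ℂ)) :=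
    Complex.continuous_ofReal.comp (Real.continuous_sin.comp continuous_snd)
  exact continuousOn_const.mul ((h.pow 2).continuousOn.mul (cont_pow _))

lemma cont_F'_t {z : ℂ} (hz : z ∈ Sl) : Continuous (fun t : ℝ => F' z t) := by
  rw [← continuousOn_univ]
  exact cont_F'.comp (f := fun t : ℝ => (z, t)) (by fun_prop) fun t _ => ⟨hz, mem_univ _⟩

lemma hasDeriv_Kf {z : ℂ} (hz : z ∈ Sl) :
    HasDerivAt Kf (∫ t in (0 : ℝ)..(Real.pi / 2), F' z t) z := by
  obtain ⟨r, hr, hsub⟩ := Metric.isOpen_iff.1 isOpen_Sl z hz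
  have hcb : Metric.closedBall z (r / 2) ⊆ Sl :=
    (Metric.closedBall_subset_ball (by linarith)).trans hsub
  have hK : IsCompact (Metric.closedBall z (r / 2) ×ˢ Icc (0 : ℝ) (Real.pi / 2)) :=
    (isCompact_closedBall _ _).prod isCompact_Icc
  obtain ⟨C, hC⟩ := hK.exists_bound_of_continuousOn
    (cont_F'.mono (Set.prod_mono hcb (subset_univ _)))
  have hpi : (0 : ℝ) ≤ Real.pi / 2 := by positivity
  have h := intervalIntegral.hasDerivAt_integral_of_dominated_loc_of_deriv_le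
    (𝕜 := ℂ) (μ := volume) (a := 0) (b := Real.pi / 2) (bound := fun _ => C)
    (F := fun (w : ℂ) (t : ℝ) => (1 - w * ((Real.sin t : ℝ) : ℂ) ^ 2) ^ (-(1 / 2) : ℂ))
    (F' := F') (x₀ := z) (s := Metric.closedBall z (r / 2))
    (Metric.closedBall_mem_nhds z (by linarith)) ?_ ?_ ?_ ?_ ?_ ?_
  · exact h.2
  · filter_upwards [isOpen_Sl.mem_nhds hz] with w hw
    exact (cont_pow_t _ hw).aestronglyMeasurable
  · exact (cont_pow_t _ hz).intervalIntegrable _ _
  · exact (cont_F'_t hz).aestronglyMeasurable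
  · refine Filter.Eventually.of_forall fun t ht w hw => ?_
    rw [uIoc_of_le hpi] at ht
    exact hC (w, t) ⟨hw, ht.1.le, ht.2⟩
  · exact intervalIntegrable_const
  · exact Filter.Eventually.of_forall fun t _ w hw => hasDeriv_integrand (hcb hw) t

lemma real_base {x : ℝ} (hx : x < 1) (t : ℝ) : 0 < 1 - x * Real.sin t ^ 2 := by
  obtain ⟨h0, h1⟩ := sin_sq_mem t
  rcases le_or_gt x 0 with h | h
  · nlinarith
  · nlinarith

lemma real_mem {x : ℝ} (hx : x < 1) : ((x : ℝ) : ℂ) ∈ Sl := Or.inr (by simpa using hx)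

lemma ofReal_pow {x : ℝ} (hx : x < 1) (t c : ℝ) :
    (1 - ((x : ℝ) : ℂ) * ((Real.sin t : ℝ) : ℂ) ^ 2) ^ ((c : ℝ) : ℂ) =
      (((1 - x * Real.sin t ^ 2) ^ c : ℝ) : ℂ) := by
  rw [Complex.ofReal_cpow (real_base hx t).le]
  push_cast
  rfl

lemma cont_real {x : ℝ} (hx : x < 1) (c : ℝ) :
    Continuous (fun t => (1 - x * Real.sin t ^ 2) ^ c) := by
  refine Continuous.rpow_const (by fun_prop) fun t => Or.inl (real_base hx t).ne'

lemma Kf_real {x : ℝ} (hx : x < 1) : Kf x =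
    ((∫ t in (0 : ℝ)..(Real.pi / 2), (1 - x * Real.sin t ^ 2) ^ (-(1 / 2) : ℝ) : ℝ) : ℂ) := by
  unfold Kf
  rw [← intervalIntegral.integral_ofReal]
  refine intervalIntegral.integral_congr fun t _ => ?_
  have h := ofReal_pow hx t (-(1 / 2))
  push_cast at h
  push_cast
  exact h

lemma F'_real {x : ℝ} (hx : x < 1) : ∫ t in (0 : ℝ)..(Real.pi / 2), F' x t =
    ((∫ t in (0 : ℝ)..(Real.pi / 2), (1 / 2) * (Real.sin t ^ 2 *
      (1 - x * Real.sin t ^ 2) ^ (-(3 / 2) : ℝ)) : ℝ) : ℂ) := by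
  rw [← intervalIntegral.integral_ofReal]
  refine intervalIntegral.integral_congr fun t _ => ?_
  unfold F'
  have h := ofReal_pow hx t (-(3 / 2))
  push_cast at h
  push_cast
  rw [h]

end KHOL

open KHOL in
theorem t_KHO : S_KHO := by
  refine ⟨fun z hz => (hasDeriv_Kf hz).differentiableAt, fun z hz => ?_, fun x hx => ?_⟩
  · unfold Kf
    rw [← intervalIntegral.intervalIntegral_conj]
    refine intervalIntegral.integral_congr fun t _ => ?_
    have harg : (1 - z * ((Real.sin t : ℝ) : ℂ) ^ 2).arg ≠ Real.pi :=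
      (Complex.mem_slitPlane_iff_arg.1 (mem_slit hz t)).1
    have h := Complex.conj_cpow (1 - z * ((Real.sin t : ℝ) : ℂ) ^ 2) (-(1 / 2) : ℂ) harg
    have e1 : (starRingEnd ℂ) (1 - z * ((Real.sin t : ℝ) : ℂ) ^ 2) =
        1 - (starRingEnd ℂ) z * ((Real.sin t : ℝ) : ℂ) ^ 2 := by
      rw [map_sub, map_one, map_mul, map_pow, Complex.conj_ofReal]
    have e2 : (starRingEnd ℂ) (-(1 / 2) : ℂ) = (-(1 / 2) : ℂ) := by
      rw [map_neg, map_div₀, map_one, map_ofNat]
    rw [e1, e2] at h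
    exact h
  · have hpi : (0 : ℝ) < Real.pi / 2 := by positivity
    rw [(hasDeriv_Kf (real_mem hx)).deriv, Kf_real hx, F'_real hx]
    refine ⟨?_, Complex.ofReal_im _, ?_, Complex.ofReal_im _⟩
    · rw [Complex.ofReal_re]
      refine intervalIntegral.intervalIntegral_pos_of_pos_on
        ((cont_real hx _).intervalIntegrable _ _) (fun t _ => ?_) hpi
      exact Real.rpow_pos_of_pos (real_base hx t) _
    · rw [Complex.ofReal_re]
      refine intervalIntegral.intervalIntegral_pos_of_pos_on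
        (Continuous.intervalIntegrable (by
          exact continuous_const.mul ((Real.continuous_sin.pow 2).mul (cont_real hx _))) _ _)
          (fun t ht => ?_) hpi
      have h1 : 0 < Real.sin t := Real.sin_pos_of_pos_of_lt_pi ht.1 (by linarith [ht.2, Real.pi_pos])
      have h2 := Real.rpow_pos_of_pos (real_base hx t) (-(3 / 2))
      positivity

end Pool.Agent.H794.KM
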