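import Pool.Agent.H794.KM.Spec

/-!
# KOD: the hypergeometric equation for the complete elliptic integral
-/

set_option autoImplicit false
set_option linter.unusedVariables false

namespace Pool.Agent.H794.KM

open MeasureTheory Set Filter Topology

namespace KODL

/-- `sin² t` as a complex number -/
noncomputable def sn2 (t : ℝ) : ℂ := ((Real.sin t : ℝ) : ℂ) ^ 2

theorem sn2_cont : Continuous sn2 := by
  unfold sn2
  exact (Complex.continuous_ofReal.comp Real.continuous_sin).pow 2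

theorem slit {z : ℂ} (hz : z ∈ Sl) (t : ℝ) : 1 - z * sn2 t ∈ Complex.slitPlane := by
  have e : sn2 t = ((Real.sin t ^ 2 : ℝ) : ℂ) := by
    unfold sn2
    push_cast
    rfl
  rw [e, Complex.mem_slitPlane_iff]
  have h0 : 0 ≤ Real.sin t ^ 2 := sq_nonneg _
  have h1 : Real.sin t ^ 2 ≤ 1 := Real.sin_sq_le_one t
  have hre : (1 - z * ((Real.sin t ^ 2 : ℝ) : ℂ)).re = 1 - z.re * Real.sin t ^ 2 := by
    rw [Complex.sub_re, Complex.re_mul_ofReal, Complex.one_re]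
  have him : (1 - z * ((Real.sin t ^ 2 : ℝ) : ℂ)).im = - (z.im * Real.sin t ^ 2) := by
    rw [Complex.sub_im, Complex.im_mul_ofReal, Complex.one_im, zero_sub]
  rw [hre, him]
  rcases hz with hz | hz
  · rcases h0.eq_or_lt with h | h
    · left
      rw [← h]
      norm_num
    · right
      exact neg_ne_zero.2 (mul_ne_zero hz h.ne')
  · left
    rcases le_or_gt z.re 0 with h | h
    · nlinarith
    · nlinarith

theorem Sl_open : IsOpen Sl :=
  (isOpen_ne_fun Complex.continuous_im continuous_const).union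
    (isOpen_lt Complex.continuous_re continuous_const)

/-- a parametric integral -/
noncomputable def G (w : ℝ → ℂ) (c : ℂ) (z : ℂ) : ℂ :=
  ∫ t in (0 : ℝ)..(Real.pi / 2), w t * (1 - z * sn2 t) ^ c

theorem cont_t {w : ℝ → ℂ} (hw : Continuous w) (c : ℂ) {z : ℂ} (hz : z ∈ Sl) :
    Continuous fun t : ℝ => w t * (1 - z * sn2 t) ^ c :=
  hw.mul ((continuous_const.sub (continuous_const.mul sn2_cont)).cpow continuous_const (slit hz))

theorem G_deriv {w : ℝ → ℂ} (hw : Continuous w) (c : ℂ) {z : ℂ} (hz : z ∈ Sl) :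
    HasDerivAt (G w c) (G (fun t => w t * (c * -sn2 t)) (c - 1) z) z := by
  obtain ⟨r, hr, hball⟩ := Metric.nhds_basis_closedBall.mem_iff.1 (Sl_open.mem_nhds hz)
  have hw' : Continuous fun t => w t * (c * -sn2 t) := hw.mul (continuous_const.mul sn2_cont.neg)
  have hc : ContinuousOn (fun p : ℂ × ℝ => (w p.2 * (c * -sn2 p.2)) * (1 - p.1 * sn2 p.2) ^ (c - 1))
      (Metric.closedBall z r ×ˢ Icc 0 (Real.pi / 2)) := by
    refine ContinuousOn.mul (hw'.comp continuous_snd).continuousOn ?_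
    refine ContinuousOn.cpow_const ?_ fun p hp => slit (hball hp.1) p.2
    exact (continuous_const.sub (continuous_fst.mul (sn2_cont.comp continuous_snd))).continuousOn
  obtain ⟨C, hC⟩ := ((isCompact_closedBall z r).prod isCompact_Icc).exists_bound_of_continuousOn hc
  have hpi : (0 : ℝ) ≤ Real.pi / 2 := by positivity
  have hs : Metric.ball z r ∈ 𝓝 z := Metric.ball_mem_nhds z hr
  refine (intervalIntegral.hasDerivAt_integral_of_dominated_loc_of_deriv_le
    (F := fun z t => w t * (1 - z * sn2 t) ^ c)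
    (F' := fun z t => (w t * (c * -sn2 t)) * (1 - z * sn2 t) ^ (c - 1))
    (bound := fun _ => C) hs ?_ ?_ ?_ ?_ ?_ ?_).2
  · filter_upwards [Sl_open.mem_nhds hz] with x hx
    exact (cont_t hw c hx).aestronglyMeasurable
  · exact (cont_t hw c hz).intervalIntegrable _ _
  · exact (cont_t hw' (c - 1) hz).aestronglyMeasurable
  · refine Eventually.of_forall fun t ht x hx => ?_
    rw [uIoc_of_le hpi] at ht
    exact hC (x, t) ⟨Metric.ball_subset_closedBall hx, ⟨ht.1.le, ht.2⟩⟩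
  · exact continuous_const.intervalIntegrable _ _
  · refine Eventually.of_forall fun t _ x hx => ?_
    have h1 : HasDerivAt (fun x : ℂ => 1 - x * sn2 t) (-sn2 t) x := by
      have h2 := ((hasDerivAt_id x).mul_const (sn2 t)).const_sub 1
      simpa using h2
    have h3 := h1.cpow_const (c := c) (slit (hball (Metric.ball_subset_closedBall hx)) t)
    have h4 := h3.const_mul (w t)
    have e : w t * (c * (1 - x * sn2 t) ^ (c - 1) * -sn2 t) =
        (w t * (c * -sn2 t)) * (1 - x * sn2 t) ^ (c - 1) := by ring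
    rw [e] at h4
    exact h4

theorem Kf_eq : Kf = G (fun _ => 1) (-(1 / 2)) := by
  funext z
  unfold Kf G sn2
  simp

theorem d1 {z : ℂ} (hz : z ∈ Sl) :
    deriv Kf z = G (fun t => 1 * (-(1 / 2) * -sn2 t)) (-(1 / 2) - 1) z := by
  rw [Kf_eq]
  exact (G_deriv continuous_const _ hz).deriv

theorem d2 {z : ℂ} (hz : z ∈ Sl) : deriv (deriv Kf) z =
    G (fun t => (1 * (-(1 / 2) * -sn2 t)) * ((-(1 / 2) - 1) * -sn2 t)) (-(1 / 2) - 1 - 1) z := by
  have h1 : deriv Kf =ᶠ[𝓝 z] G (fun t => 1 * (-(1 / 2) * -sn2 t)) (-(1 / 2) - 1) := by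
    filter_upwards [Sl_open.mem_nhds hz] with x hx
    exact d1 hx
  rw [h1.deriv_eq]
  exact (G_deriv (continuous_const.mul (continuous_const.mul sn2_cont.neg)) _ hz).deriv

theorem pow_step {x : ℂ} (a : ℂ) (hx : x ≠ 0) : x ^ a = x * x ^ (a - 1) := by
  rw [Complex.cpow_sub _ _ hx, Complex.cpow_one, mul_div_cancel₀ _ hx]

/-- the primitive -/
theorem prim {z : ℂ} (hz : z ∈ Sl) (t : ℝ) :
    HasDerivAt (fun t : ℝ => ((Real.sin t : ℝ) : ℂ) * ((Real.cos t : ℝ) : ℂ) *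
      (1 - z * sn2 t) ^ (-(1 / 2) - 1 : ℂ))
      ((1 - 2 * sn2 t + 2 * z * sn2 t - z * sn2 t ^ 2) * (1 - z * sn2 t) ^ (-(1 / 2) - 1 - 1 : ℂ)) t := by
  have hs : HasDerivAt (fun t : ℝ => ((Real.sin t : ℝ) : ℂ)) ((Real.cos t : ℝ) : ℂ) t :=
    (Real.hasDerivAt_sin t).ofReal_comp
  have hc : HasDerivAt (fun t : ℝ => ((Real.cos t : ℝ) : ℂ)) ((-Real.sin t : ℝ) : ℂ) t :=
    (Real.hasDerivAt_cos t).ofReal_comp
  have hq : HasDerivAt sn2 (2 * ((Real.sin t : ℝ) : ℂ) * ((Real.cos t : ℝ) : ℂ)) t := by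
    have h := hs.pow 2
    have e : (2 : ℕ) * ((Real.sin t : ℝ) : ℂ) ^ (2 - 1) * ((Real.cos t : ℝ) : ℂ) =
        2 * ((Real.sin t : ℝ) : ℂ) * ((Real.cos t : ℝ) : ℂ) := by
      norm_num
    rw [e] at h
    exact h
  have hD : HasDerivAt (fun t : ℝ => 1 - z * sn2 t)
      (-(z * (2 * ((Real.sin t : ℝ) : ℂ) * ((Real.cos t : ℝ) : ℂ)))) t := by
    exact (hq.const_mul z).const_sub 1
  have hsl := slit hz t
  have hP : HasDerivAt (fun t : ℝ => (1 - z * sn2 t) ^ (-(1 / 2) - 1 : ℂ))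
      ((-(1 / 2) - 1) * (1 - z * sn2 t) ^ (-(1 / 2) - 1 - 1 : ℂ) *
        (-(z * (2 * ((Real.sin t : ℝ) : ℂ) * ((Real.cos t : ℝ) : ℂ))))) t :=
    (Complex.hasStrictDerivAt_cpow_const hsl).hasDerivAt.comp_of_eq t hD rfl
  have h := (hs.mul hc).mul hP
  have hne : 1 - z * sn2 t ≠ 0 := Complex.slitPlane_ne_zero hsl
  have hpow := pow_step (-(1 / 2) - 1) hne
  have hcs : ((Real.cos t : ℝ) : ℂ) ^ 2 = 1 - sn2 t := by
    unfold sn2
    rw [← Complex.ofReal_pow, ← Complex.ofReal_pow, Real.cos_sq']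
    push_cast
    ring
  have hss : ((Real.sin t : ℝ) : ℂ) ^ 2 = sn2 t := rfl
  refine h.congr_deriv ?_
  show (((Real.cos t : ℝ) : ℂ) * ((Real.cos t : ℝ) : ℂ) + ((Real.sin t : ℝ) : ℂ) *
    ((-Real.sin t : ℝ) : ℂ)) * (1 - z * sn2 t) ^ (-(1 / 2) - 1 : ℂ) +
    ((Real.sin t : ℝ) : ℂ) * ((Real.cos t : ℝ) : ℂ) *
    ((-(1 / 2) - 1) * (1 - z * sn2 t) ^ (-(1 / 2) - 1 - 1 : ℂ) *
      (-(z * (2 * ((Real.sin t : ℝ) : ℂ) * ((Real.cos t : ℝ) : ℂ))))) = _
  rw [hpow, Complex.ofReal_neg]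
  generalize (1 - z * sn2 t) ^ (-(1 / 2) - 1 - 1 : ℂ) = P
  generalize hS : ((Real.sin t : ℝ) : ℂ) = S at hss ⊢
  generalize hCC : ((Real.cos t : ℝ) : ℂ) = Co at hcs ⊢
  generalize sn2 t = q at hss hcs ⊢
  subst hss
  linear_combination (P * (1 - z * S ^ 2) + 3 * P * z * S ^ 2) * hcs

end KODL

open KODL

theorem t_KOD (h : S_KHO) : S_KOD := by
  intro z hz
  rw [d2 hz, d1 hz, Kf_eq]
  unfold G
  have c0 : Continuous fun t : ℝ => (1 : ℂ) * (1 - z * sn2 t) ^ (-(1 / 2) : ℂ) :=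
    cont_t continuous_const _ hz
  have c1 : Continuous fun t : ℝ => (1 * (-(1 / 2) * -sn2 t)) * (1 - z * sn2 t) ^ (-(1 / 2) - 1 : ℂ) :=
    cont_t (continuous_const.mul (continuous_const.mul sn2_cont.neg)) _ hz
  have c2 : Continuous fun t : ℝ => ((1 * (-(1 / 2) * -sn2 t)) * ((-(1 / 2) - 1) * -sn2 t)) *
      (1 - z * sn2 t) ^ (-(1 / 2) - 1 - 1 : ℂ) :=
    cont_t ((continuous_const.mul (continuous_const.mul sn2_cont.neg)).mul
      (continuous_const.mul sn2_cont.neg)) _ hz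
  have c3 : Continuous fun t : ℝ => (1 - 2 * sn2 t + 2 * z * sn2 t - z * sn2 t ^ 2) *
      (1 - z * sn2 t) ^ (-(1 / 2) - 1 - 1 : ℂ) := by
    refine cont_t (w := fun t => 1 - 2 * sn2 t + 2 * z * sn2 t - z * sn2 t ^ 2) ?_ _ hz
    have := sn2_cont
    fun_prop
  have hI : ∫ t in (0 : ℝ)..(Real.pi / 2), (1 - 2 * sn2 t + 2 * z * sn2 t - z * sn2 t ^ 2) *
      (1 - z * sn2 t) ^ (-(1 / 2) - 1 - 1 : ℂ) = 0 := by
    rw [intervalIntegral.integral_eq_sub_of_hasDerivAt (fun t _ => prim hz t)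
      (c3.intervalIntegrable _ _)]
    simp
  have key : ∀ t : ℝ, z * (1 - z) * (((1 * (-(1 / 2) * -sn2 t)) * ((-(1 / 2) - 1) * -sn2 t)) *
      (1 - z * sn2 t) ^ (-(1 / 2) - 1 - 1 : ℂ)) +
      (1 - 2 * z) * ((1 * (-(1 / 2) * -sn2 t)) * (1 - z * sn2 t) ^ (-(1 / 2) - 1 : ℂ)) -
      ((1 : ℂ) * (1 - z * sn2 t) ^ (-(1 / 2) : ℂ)) / 4 =
      (-(1 / 4)) * ((1 - 2 * sn2 t + 2 * z * sn2 t - z * sn2 t ^ 2) *
        (1 - z * sn2 t) ^ (-(1 / 2) - 1 - 1 : ℂ)) := by
    intro t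
    have hne : 1 - z * sn2 t ≠ 0 := Complex.slitPlane_ne_zero (slit hz t)
    rw [pow_step (-(1 / 2)) hne, pow_step (-(1 / 2) - 1) hne]
    ring
  have i0 := c0.intervalIntegrable (μ := volume) 0 (Real.pi / 2)
  have i1 := c1.intervalIntegrable (μ := volume) 0 (Real.pi / 2)
  have i2 := c2.intervalIntegrable (μ := volume) 0 (Real.pi / 2)
  rw [← intervalIntegral.integral_const_mul, ← intervalIntegral.integral_const_mul,
    ← intervalIntegral.integral_div,
    ← intervalIntegral.integral_add (i2.const_mul _) (i1.const_mul _),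
    ← intervalIntegral.integral_sub ((i2.const_mul _).add (i1.const_mul _)) (i0.div_const _)]
  simp_rw [key]
  rw [intervalIntegral.integral_const_mul, hI, mul_zero]

end Pool.Agent.H794.KM
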