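import Pool.Agent.H794.KM.Spec

/-!
The Pfaff transformation of the elliptic integral `K(z)`.
-/

namespace Pool.Agent.H794.KM

open MeasureTheory Set Filter Topology

namespace KPFL

lemma mem_slit {z : ℂ} (hz : z ∈ Sl) (t : ℝ) :
    1 - z * ((Real.sin t : ℝ) : ℂ) ^ 2 ∈ Complex.slitPlane := by
  have h0 : 0 ≤ Real.sin t ^ 2 := sq_nonneg _
  have h1 : Real.sin t ^ 2 ≤ 1 := Real.sin_sq_le_one t
  set a : ℝ := Real.sin t ^ 2 with ha
  have e : 1 - z * ((Real.sin t : ℝ) : ℂ) ^ 2 = 1 - z * ((a : ℝ) : ℂ) := by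
    rw [ha]
    push_cast
    ring
  rw [e, Complex.mem_slitPlane_iff]
  have hre : (1 - z * ((a : ℝ) : ℂ)).re = 1 - z.re * a := by
    simp
  have him : (1 - z * ((a : ℝ) : ℂ)).im = -(z.im * a) := by
    simp
  rw [hre, him]
  have hz' : z.im ≠ 0 ∨ z.re < 1 := hz
  rcases h0.eq_or_lt with h | h
  · left
    rw [← h]
    norm_num
  · by_cases hi : z.im = 0
    · left
      have hr : z.re < 1 := by
        rcases hz' with h2 | h2
        · exact absurd hi h2
        · exact h2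
      nlinarith
    · right
      exact neg_ne_zero.2 (mul_ne_zero hi h.ne')

lemma one_sub_mem {z : ℂ} (hz : z ∈ Sl) : 1 - z ∈ Complex.slitPlane := by
  have h := mem_slit hz (Real.pi / 2)
  rw [Real.sin_pi_div_two] at h
  simpa using h

lemma ne_one {z : ℂ} (hz : z ∈ Sl) : 1 - z ≠ 0 :=
  Complex.slitPlane_ne_zero (one_sub_mem hz)

lemma pfaff_mem {z : ℂ} (hz : z ∈ Sl) : z / (z - 1) ∈ Sl := by
  have h1 : z - 1 ≠ 0 := by
    intro h
    apply ne_one hz
    rw [← neg_sub, h, neg_zero]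
  have e : z / (z - 1) = 1 + (z - 1)⁻¹ := by
    field_simp
    ring
  have hn : 0 < Complex.normSq (z - 1) := Complex.normSq_pos.2 h1
  have him : (z / (z - 1)).im = -z.im / Complex.normSq (z - 1) := by
    rw [e, Complex.add_im, Complex.inv_im]
    simp
  have hre : (z / (z - 1)).re = 1 + (z.re - 1) / Complex.normSq (z - 1) := by
    rw [e, Complex.add_re, Complex.inv_re]
    simp
  have hz' : z.im ≠ 0 ∨ z.re < 1 := hz
  change (z / (z - 1)).im ≠ 0 ∨ (z / (z - 1)).re < 1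
  rw [him, hre]
  rcases hz' with h | h
  · left
    exact div_ne_zero (neg_ne_zero.2 h) hn.ne'
  · right
    have : (z.re - 1) / Complex.normSq (z - 1) < 0 := div_neg_of_neg_of_pos (by linarith) hn
    linarith

lemma arg_nonpos {v : ℂ} (hv : v ∈ Complex.slitPlane) (h : v.im ≤ 0) : v.arg ≤ 0 := by
  rcases h.lt_or_eq with h1 | h1
  · exact (Complex.arg_neg_iff.2 h1).le
  · rcases (Complex.mem_slitPlane_iff.1 hv) with h2 | h2
    · exact (Complex.arg_eq_zero_iff.2 ⟨h2.le, h1⟩).le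
    · exact absurd h1 h2

lemma mul_pow {u v : ℂ} (hu : u ∈ Complex.slitPlane) (hv : v ∈ Complex.slitPlane)
    (h : (0 ≤ u.im ∧ v.im ≤ 0) ∨ (u.im ≤ 0 ∧ 0 ≤ v.im)) (c : ℂ) :
    (u * v) ^ c = u ^ c * v ^ c := by
  have hu0 := Complex.slitPlane_ne_zero hu
  have hv0 := Complex.slitPlane_ne_zero hv
  have harg : u.arg + v.arg ∈ Ioc (-Real.pi) Real.pi := by
    have a1 := Complex.arg_le_pi u
    have a2 := Complex.neg_pi_lt_arg u
    have b1 := Complex.arg_le_pi v
    have b2 := Complex.neg_pi_lt_arg v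
    rcases h with ⟨h1, h2⟩ | ⟨h1, h2⟩
    · have h3 := Complex.arg_nonneg_iff.2 h1
      have h4 := arg_nonpos hv h2
      constructor <;> linarith
    · have h3 := Complex.arg_nonneg_iff.2 h2
      have h4 := arg_nonpos hu h1
      constructor <;> linarith
  rw [Complex.cpow_def_of_ne_zero (mul_ne_zero hu0 hv0), Complex.cpow_def_of_ne_zero hu0,
    Complex.cpow_def_of_ne_zero hv0, Complex.log_mul hu0 hv0 harg, ← Complex.exp_add]
  congr 1
  ring

lemma pointwise {z : ℂ} (hz : z ∈ Sl) (t : ℝ) :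
    (1 - z * ((Real.sin (Real.pi / 2 - t) : ℝ) : ℂ) ^ 2) ^ (-(1 / 2) : ℂ) =
      (1 - z) ^ (-(1 / 2) : ℂ) *
        (1 - z / (z - 1) * ((Real.sin t : ℝ) : ℂ) ^ 2) ^ (-(1 / 2) : ℂ) := by
  have h1 : z - 1 ≠ 0 := by
    intro h
    apply ne_one hz
    rw [← neg_sub, h, neg_zero]
  have hn : 0 < Complex.normSq (z - 1) := Complex.normSq_pos.2 h1
  have hw := mem_slit (pfaff_mem hz) t
  rw [← mul_pow (one_sub_mem hz) hw]
  · congr 1
    rw [Real.sin_pi_div_two_sub]
    have h2 : ((Real.cos t : ℝ) : ℂ) ^ 2 = 1 - ((Real.sin t : ℝ) : ℂ) ^ 2 := by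
      have h3 := Real.cos_sq' t
      have h4 : ((Real.cos t ^ 2 : ℝ) : ℂ) = ((1 - Real.sin t ^ 2 : ℝ) : ℂ) := by rw [h3]
      push_cast at h4
      push_cast
      exact h4
    rw [h2]
    field_simp
    ring
  · have e : z / (z - 1) = 1 + (z - 1)⁻¹ := by
      field_simp
      ring
    have him : (z / (z - 1)).im = -z.im / Complex.normSq (z - 1) := by
      rw [e, Complex.add_im, Complex.inv_im]
      simp
    have hv : (1 - z / (z - 1) * ((Real.sin t : ℝ) : ℂ) ^ 2).im =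
        z.im * (Real.sin t ^ 2 / Complex.normSq (z - 1)) := by
      have e3 : ((Real.sin t : ℝ) : ℂ) ^ 2 = ((Real.sin t ^ 2 : ℝ) : ℂ) := by push_cast; rfl
      rw [e3, Complex.sub_im, Complex.im_mul_ofReal, him, Complex.one_im]
      ring
    have hu : (1 - z).im = -z.im := by simp
    have hs : 0 ≤ Real.sin t ^ 2 / Complex.normSq (z - 1) := by positivity
    rw [hu, hv]
    rcases le_total z.im 0 with h | h
    · left
      exact ⟨by linarith, mul_nonpos_of_nonpos_of_nonneg h hs⟩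
    · right
      exact ⟨by linarith, mul_nonneg h hs⟩

end KPFL

open KPFL in
theorem t_KPF : S_KPF := by
  intro z hz
  refine ⟨pfaff_mem hz, ?_⟩
  unfold Kf
  have h := intervalIntegral.integral_comp_sub_left (a := 0) (b := Real.pi / 2)
    (fun t => (1 - z * ((Real.sin t : ℝ) : ℂ) ^ 2) ^ (-(1 / 2) : ℂ)) (Real.pi / 2)
  rw [sub_self, sub_zero] at h
  rw [← h, ← intervalIntegral.integral_const_mul]
  exact intervalIntegral.integral_congr fun t _ => pointwise hz t

end Pool.Agent.H794.KM
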