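import Pool.Agent.H794.KM.Spec

/-!
Project KM, leaf KRG: positivity of `A₁` on the strip and bounds near `0`.
-/

namespace Pool.Agent.H794.KM

open MeasureTheory Set Filter Topology
open scoped ComplexOrder

namespace KRGL

lemma pow_sq {w : ℂ} : (w ^ (-(1 / 2) : ℂ)) ^ 2 = w⁻¹ := by
  rw [← Complex.cpow_nat_mul]
  have : ((2 : ℕ) : ℂ) * (-(1 / 2)) = -1 := by push_cast; ring
  rw [this, Complex.cpow_neg_one]

lemma norm_pow_sq {w : ℂ} : ‖w ^ (-(1 / 2) : ℂ)‖ ^ 2 = ‖w‖⁻¹ := by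
  rw [← norm_pow, pow_sq, norm_inv]

lemma pow_re_pos {w : ℂ} (hw : 0 < w.re) : 0 < (w ^ (-(1 / 2) : ℂ)).re := by
  have hw0 : w ≠ 0 := by rintro rfl; simp at hw
  rw [Complex.cpow_def_of_ne_zero hw0, Complex.exp_re]
  have h1 : (Complex.log w * (-(1 / 2) : ℂ)).im = -(w.arg / 2) := by
    have : (-(1 / 2) : ℂ) = ((-(1 / 2) : ℝ) : ℂ) := by push_cast; ring
    rw [this, Complex.im_mul_ofReal, Complex.log_im]
    ring
  rw [h1, Real.cos_neg]
  have h2 := Complex.abs_arg_lt_pi_div_two_iff.2 (Or.inl hw)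
  rw [abs_lt] at h2
  have hpi := Real.pi_pos
  exact mul_pos (Real.exp_pos _) (Real.cos_pos_of_mem_Ioo ⟨by linarith, by linarith⟩)

lemma pow_im_lt {w : ℂ} (hw : 0 < w.re) :
    |(w ^ (-(1 / 2) : ℂ)).im| < (w ^ (-(1 / 2) : ℂ)).re := by
  have h1 := pow_re_pos hw
  have hw0 : w ≠ 0 := by rintro rfl; simp at hw
  have h2 : 0 < ((w ^ (-(1 / 2) : ℂ)) ^ 2).re := by
    rw [pow_sq, Complex.inv_re]
    exact div_pos hw (Complex.normSq_pos.2 hw0)
  rw [pow_two, Complex.mul_re] at h2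
  apply abs_lt_of_sq_lt_sq _ h1.le
  nlinarith

lemma re_base (z : ℂ) (t : ℝ) :
    (1 - z * ((Real.sin t : ℝ) : ℂ) ^ 2).re = 1 - z.re * Real.sin t ^ 2 := by
  rw [← Complex.ofReal_pow, Complex.sub_re, Complex.re_mul_ofReal, Complex.one_re]

lemma re_base_pos {z : ℂ} (hz : z.re < 1) (t : ℝ) :
    0 < (1 - z * ((Real.sin t : ℝ) : ℂ) ^ 2).re := by
  rw [re_base]
  have h1 := Real.sin_sq_le_one t
  have h2 := sq_nonneg (Real.sin t)
  rcases le_or_gt z.re 0 with h | h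
  · nlinarith
  · nlinarith

lemma cont {z : ℂ} (hz : z.re < 1) :
    Continuous (fun t : ℝ => (1 - z * ((Real.sin t : ℝ) : ℂ) ^ 2) ^ (-(1 / 2) : ℂ)) := by
  apply Continuous.cpow
  · fun_prop
  · exact continuous_const
  · intro t
    exact Or.inl (re_base_pos hz t)

lemma Kf_im_lt {z : ℂ} (hz : z.re < 1) : |(Kf z).im| < (Kf z).re := by
  have hpi : (0 : ℝ) < Real.pi / 2 := by positivity
  have hi : IntervalIntegrable
      (fun t : ℝ => (1 - z * ((Real.sin t : ℝ) : ℂ) ^ 2) ^ (-(1 / 2) : ℂ)) volume 0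
      (Real.pi / 2) := (cont hz).intervalIntegrable _ _
  have hre : (Kf z).re = ∫ t in (0 : ℝ)..(Real.pi / 2),
      ((1 - z * ((Real.sin t : ℝ) : ℂ) ^ 2) ^ (-(1 / 2) : ℂ)).re := by
    unfold Kf
    exact (Complex.reCLM.intervalIntegral_comp_comm hi).symm
  have him : (Kf z).im = ∫ t in (0 : ℝ)..(Real.pi / 2),
      ((1 - z * ((Real.sin t : ℝ) : ℂ) ^ 2) ^ (-(1 / 2) : ℂ)).im := by
    unfold Kf
    exact (Complex.imCLM.intervalIntegral_comp_comm hi).symm
  have c1 : Continuous (fun t : ℝ =>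
      ((1 - z * ((Real.sin t : ℝ) : ℂ) ^ 2) ^ (-(1 / 2) : ℂ)).re) :=
    Complex.continuous_re.comp (cont hz)
  have c2 : Continuous (fun t : ℝ =>
      ((1 - z * ((Real.sin t : ℝ) : ℂ) ^ 2) ^ (-(1 / 2) : ℂ)).im) :=
    Complex.continuous_im.comp (cont hz)
  rw [abs_lt]
  constructor
  · have h1 : 0 < ∫ t in (0 : ℝ)..(Real.pi / 2),
        (((1 - z * ((Real.sin t : ℝ) : ℂ) ^ 2) ^ (-(1 / 2) : ℂ)).re +
          ((1 - z * ((Real.sin t : ℝ) : ℂ) ^ 2) ^ (-(1 / 2) : ℂ)).im) := by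
      apply intervalIntegral.intervalIntegral_pos_of_pos
      · exact (c1.add c2).intervalIntegrable _ _
      · intro t
        have := (abs_lt.1 (pow_im_lt (re_base_pos hz t))).1
        linarith
      · exact hpi
    rw [intervalIntegral.integral_add (c1.intervalIntegrable _ _) (c2.intervalIntegrable _ _),
      ← hre, ← him] at h1
    linarith
  · have h1 : 0 < ∫ t in (0 : ℝ)..(Real.pi / 2),
        (((1 - z * ((Real.sin t : ℝ) : ℂ) ^ 2) ^ (-(1 / 2) : ℂ)).re -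
          ((1 - z * ((Real.sin t : ℝ) : ℂ) ^ 2) ^ (-(1 / 2) : ℂ)).im) := by
      apply intervalIntegral.intervalIntegral_pos_of_pos
      · exact (c1.sub c2).intervalIntegrable _ _
      · intro t
        have := (abs_lt.1 (pow_im_lt (re_base_pos hz t))).2
        linarith
      · exact hpi
    rw [intervalIntegral.integral_sub (c1.intervalIntegrable _ _) (c2.intervalIntegrable _ _),
      ← hre, ← him] at h1
    linarith

lemma A1_pos {z : ℂ} (h0 : 0 < z.re) (h1 : z.re < 1) : 0 < A1 z := by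
  have e1 := Kf_im_lt h1
  have h2 : (1 - z).re < 1 := by
    rw [Complex.sub_re, Complex.one_re]; linarith
  have e2 := Kf_im_lt h2
  unfold A1
  rw [Complex.mul_re, Complex.conj_re, Complex.conj_im]
  set a := (Kf z).re
  set b := (Kf z).im
  set c := (Kf (1 - z)).re
  set d := (Kf (1 - z)).im
  have h3 : |b * d| < a * c := by
    rw [abs_mul]
    have hb := abs_nonneg b
    have hd := abs_nonneg d
    calc |b| * |d| ≤ |b| * c := mul_le_mul_of_nonneg_left e2.le hb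
      _ < a * c := mul_lt_mul_of_pos_right e1 (by linarith)
  have h4 := (abs_lt.1 h3).1
  linarith

lemma Kf_bound1 {z : ℂ} (hz : z.re ≤ 1 / 2) : ‖Kf z‖ ≤ 3 := by
  have hpi : (0 : ℝ) ≤ Real.pi / 2 := by positivity
  unfold Kf
  have h : ∀ t ∈ Set.uIoc (0 : ℝ) (Real.pi / 2),
      ‖(1 - z * ((Real.sin t : ℝ) : ℂ) ^ 2) ^ (-(1 / 2) : ℂ)‖ ≤ 3 / 2 := by
    intro t _
    have h1 : (1 / 2 : ℝ) ≤ (1 - z * ((Real.sin t : ℝ) : ℂ) ^ 2).re := by
      rw [re_base]
      have h1 := Real.sin_sq_le_one t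
      have h2 := sq_nonneg (Real.sin t)
      nlinarith
    have h2 := h1.trans (Complex.re_le_norm _)
    have h3 := norm_pow_sq (w := 1 - z * ((Real.sin t : ℝ) : ℂ) ^ 2)
    have h4 : ‖1 - z * ((Real.sin t : ℝ) : ℂ) ^ 2‖⁻¹ ≤ 2 := by
      rw [inv_le_comm₀ (by linarith) (by norm_num)]
      linarith
    have h5 := norm_nonneg ((1 - z * ((Real.sin t : ℝ) : ℂ) ^ 2) ^ (-(1 / 2) : ℂ))
    nlinarith
  have := intervalIntegral.norm_integral_le_of_norm_le_const h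
  refine this.trans ?_
  rw [sub_zero, abs_of_nonneg hpi]
  have := Real.pi_lt_four
  linarith

lemma Kf_bound2 {z : ℂ} (hz0 : z ≠ 0) (hz1 : ‖z - 1‖ ≤ 1) (hz2 : z.re ≤ 1 / 2) :
    ‖Kf (1 - z)‖ ≤ 6 * (1 + |Real.log ‖z‖|) := by
  have hpi : (0 : ℝ) ≤ Real.pi / 2 := by positivity
  have hpi' : (0 : ℝ) < Real.pi := Real.pi_pos
  have hρ : 0 < ‖z‖ := norm_pos_iff.2 hz0
  have hsq : ‖z‖ ^ 2 = z.re ^ 2 + z.im ^ 2 := by
    rw [← Complex.normSq_eq_norm_sq, Complex.normSq_apply]; ring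
  have hsq1 : ‖z‖ ^ 2 ≤ 2 * z.re := by
    have h1 : ‖z - 1‖ ^ 2 = (z.re - 1) ^ 2 + z.im ^ 2 := by
      rw [← Complex.normSq_eq_norm_sq, Complex.normSq_apply]
      simp
      ring
    have h2 : ‖z - 1‖ ^ 2 ≤ 1 := by
      have := norm_nonneg (z - 1)
      nlinarith
    nlinarith
  have hre : 0 < z.re := by nlinarith
  have hρ1 : ‖z‖ ≤ 1 := by nlinarith
  set q : ℝ := Real.sqrt ‖z‖ with hq
  have hq0 : 0 < q := Real.sqrt_pos.2 hρ
  have hqq : q ^ 2 = ‖z‖ := Real.sq_sqrt hρ.le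
  have hq1 : q ≤ 1 := by nlinarith
  have hden : ∀ t ∈ Set.Icc (0 : ℝ) (Real.pi / 2), 0 ≤ 1 - 2 / Real.pi * t := by
    intro t ht
    have : 2 / Real.pi * t ≤ 2 / Real.pi * (Real.pi / 2) :=
      mul_le_mul_of_nonneg_left ht.2 (by positivity)
    have h2 : 2 / Real.pi * (Real.pi / 2) = 1 := by field_simp
    linarith
  have hptw : ∀ t ∈ Set.Icc (0 : ℝ) (Real.pi / 2),
      ‖(1 - (1 - z) * ((Real.sin t : ℝ) : ℂ) ^ 2) ^ (-(1 / 2) : ℂ)‖ ≤
        3 / (1 - 2 / Real.pi * t + q) := by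
    intro t ht
    have hd := hden t ht
    have hcos : 1 - 2 / Real.pi * t ≤ Real.cos t := Real.one_sub_mul_le_cos ht.1 ht.2
    have hcos1 : Real.cos t ≤ 1 := Real.cos_le_one t
    have hw : 1 - (1 - z) * ((Real.sin t : ℝ) : ℂ) ^ 2 =
        ((Real.cos t ^ 2 : ℝ) : ℂ) + z * ((Real.sin t ^ 2 : ℝ) : ℂ) := by
      have : ((Real.cos t ^ 2 : ℝ) : ℂ) = 1 - ((Real.sin t ^ 2 : ℝ) : ℂ) := by
        rw [Real.cos_sq']; push_cast; ring
      rw [this]; push_cast; ring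
    have hn : ‖1 - (1 - z) * ((Real.sin t : ℝ) : ℂ) ^ 2‖ ^ 2 =
        (Real.cos t ^ 2) ^ 2 + 2 * (Real.cos t ^ 2) * (Real.sin t ^ 2) * z.re +
          ‖z‖ ^ 2 * (Real.sin t ^ 2) ^ 2 := by
      rw [hw, ← Complex.normSq_eq_norm_sq, Complex.normSq_apply, hsq]
      simp only [Complex.add_re, Complex.ofReal_re, Complex.re_mul_ofReal, Complex.add_im,
        Complex.ofReal_im, Complex.im_mul_ofReal]
      ring
    have hs2 : Real.sin t ^ 2 = 1 - Real.cos t ^ 2 := Real.sin_sq t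
    have hc2 : 0 ≤ Real.cos t ^ 2 := sq_nonneg _
    have hs0 : 0 ≤ Real.sin t ^ 2 := sq_nonneg _
    -- lower bound for the modulus
    have h1 : (Real.cos t ^ 2 + ‖z‖ * Real.sin t ^ 2) ^ 2 ≤
        2 * ‖1 - (1 - z) * ((Real.sin t : ℝ) : ℂ) ^ 2‖ ^ 2 := by
      rw [hn]
      have : 0 ≤ 2 * (Real.cos t ^ 2) * (Real.sin t ^ 2) * z.re := by positivity
      nlinarith [sq_nonneg (Real.cos t ^ 2 - ‖z‖ * Real.sin t ^ 2)]
    have h2 : (Real.cos t + q) ^ 2 ≤ 4 * (Real.cos t ^ 2 + ‖z‖ * Real.sin t ^ 2) := by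
      have e1 : Real.cos t ^ 2 + ‖z‖ * Real.sin t ^ 2 = q ^ 2 + (1 - q ^ 2) * Real.cos t ^ 2 := by
        rw [hs2, ← hqq]; ring
      have e2 : q ^ 2 ≤ Real.cos t ^ 2 + ‖z‖ * Real.sin t ^ 2 := by
        rw [e1]
        have : 0 ≤ (1 - q ^ 2) * Real.cos t ^ 2 := mul_nonneg (by nlinarith) hc2
        linarith
      have e3 : Real.cos t ^ 2 ≤ Real.cos t ^ 2 + ‖z‖ * Real.sin t ^ 2 := by
        have : 0 ≤ ‖z‖ * Real.sin t ^ 2 := by positivity
        linarith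
      nlinarith [sq_nonneg (Real.cos t - q)]
    set D : ℝ := 1 - 2 / Real.pi * t + q with hD
    have hD0 : 0 < D := by linarith
    have h3 : D ^ 2 ≤ (Real.cos t + q) ^ 2 := by
      apply pow_le_pow_left₀ hD0.le
      linarith
    have h4 : D ^ 2 ≤ 4 * (Real.cos t ^ 2 + ‖z‖ * Real.sin t ^ 2) := h3.trans h2
    set W : ℝ := ‖1 - (1 - z) * ((Real.sin t : ℝ) : ℂ) ^ 2‖ with hW
    have h5 : (D ^ 2) ^ 2 ≤ 32 * W ^ 2 := by
      have : (D ^ 2) ^ 2 ≤ (4 * (Real.cos t ^ 2 + ‖z‖ * Real.sin t ^ 2)) ^ 2 :=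
        pow_le_pow_left₀ (by positivity) h4 2
      nlinarith
    have hW0 : 0 ≤ W := norm_nonneg _
    have h6 : D ^ 2 ≤ 9 * W := by
      apply le_of_sq_le_sq _ (by positivity)
      nlinarith [sq_nonneg W]
    have hWp : 0 < W := by
      have : 0 < D ^ 2 := by positivity
      linarith
    have h7 : ‖(1 - (1 - z) * ((Real.sin t : ℝ) : ℂ) ^ 2) ^ (-(1 / 2) : ℂ)‖ ^ 2 = W⁻¹ :=
      norm_pow_sq
    apply le_of_sq_le_sq _ (by positivity)
    rw [h7, div_pow, inv_eq_one_div, div_le_div_iff₀ hWp (by positivity)]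
    linarith
  have hint : ∫ t in (0 : ℝ)..(Real.pi / 2), 3 / (1 - 2 / Real.pi * t + q) =
      3 * (Real.pi / 2) * (Real.log (1 + q) - Real.log q) := by
    have hder : ∀ t ∈ Set.uIcc (0 : ℝ) (Real.pi / 2), HasDerivAt
        (fun t : ℝ => -(3 * (Real.pi / 2)) * Real.log (1 - 2 / Real.pi * t + q))
        (3 / (1 - 2 / Real.pi * t + q)) t := by
      intro t ht
      rw [Set.uIcc_of_le hpi] at ht
      have hd := hden t ht
      have hne : 1 - 2 / Real.pi * t + q ≠ 0 := by linarith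
      have h1 : HasDerivAt (fun t : ℝ => 1 - 2 / Real.pi * t + q) (-(2 / Real.pi)) t := by
        have h2 := (((hasDerivAt_id t).const_mul (2 / Real.pi)).const_sub 1).add_const q
        simp only [id_eq, mul_one] at h2
        exact h2
      have h3 := (h1.log hne).const_mul (-(3 * (Real.pi / 2)))
      have h4 : -(3 * (Real.pi / 2)) * (-(2 / Real.pi) / (1 - 2 / Real.pi * t + q)) =
          3 / (1 - 2 / Real.pi * t + q) := by
        field_simp
      rw [h4] at h3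
      exact h3
    rw [intervalIntegral.integral_eq_sub_of_hasDerivAt hder]
    · have e1 : 1 - 2 / Real.pi * (Real.pi / 2) + q = q := by
        have : 2 / Real.pi * (Real.pi / 2) = 1 := by field_simp
        rw [this]; ring
      rw [e1, mul_zero, sub_zero]
      ring
    · apply ContinuousOn.intervalIntegrable
      apply ContinuousOn.div continuousOn_const
      · fun_prop
      · intro t ht
        rw [Set.uIcc_of_le hpi] at ht
        have hd := hden t ht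
        linarith
  have hz3 : (1 - z).re < 1 := by
    rw [Complex.sub_re, Complex.one_re]; linarith
  have hle : ‖Kf (1 - z)‖ ≤ ∫ t in (0 : ℝ)..(Real.pi / 2), 3 / (1 - 2 / Real.pi * t + q) := by
    unfold Kf
    refine (intervalIntegral.norm_integral_le_integral_norm hpi).trans ?_
    apply intervalIntegral.integral_mono_on hpi
    · exact (cont hz3).norm.intervalIntegrable _ _
    · apply ContinuousOn.intervalIntegrable
      apply ContinuousOn.div continuousOn_const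
      · fun_prop
      · intro t ht
        rw [Set.uIcc_of_le hpi] at ht
        have hd := hden t ht
        linarith
    · exact hptw
  refine hle.trans ?_
  rw [hint]
  have hl1 : Real.log (1 + q) ≤ 1 := by
    have := Real.log_le_sub_one_of_pos (show 0 < 1 + q by linarith)
    linarith
  have hl2 : Real.log q = Real.log ‖z‖ / 2 := by
    rw [hq, Real.log_sqrt hρ.le]
  have hl3 : |Real.log ‖z‖| = -Real.log ‖z‖ := abs_of_nonpos (Real.log_nonpos hρ.le hρ1)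
  rw [hl2, hl3]
  have hl4 := Real.log_nonpos hρ.le hρ1
  have hpi4 := Real.pi_lt_four
  have : Real.log (1 + q) - Real.log ‖z‖ / 2 ≤ 1 - Real.log ‖z‖ := by linarith
  calc 3 * (Real.pi / 2) * (Real.log (1 + q) - Real.log ‖z‖ / 2)
      ≤ 3 * (Real.pi / 2) * (1 - Real.log ‖z‖) := mul_le_mul_of_nonneg_left this (by positivity)
    _ ≤ 6 * (1 - Real.log ‖z‖) := mul_le_mul_of_nonneg_right (by linarith) (by linarith)
    _ = 6 * (1 + -Real.log ‖z‖) := by ring

end KRGL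

theorem t_KRG (_h : S_KHO) : S_KRG := by
  refine ⟨fun z h0 h1 => KRGL.A1_pos h0 h1, 18, ?_⟩
  intro z hz0 hz1 hz2
  have h1 := KRGL.Kf_bound1 hz2
  have h2 := KRGL.Kf_bound2 hz0 hz1 hz2
  unfold A1
  calc (Kf z * (starRingEnd ℂ) (Kf (1 - z))).re ≤ ‖Kf z * (starRingEnd ℂ) (Kf (1 - z))‖ :=
        Complex.re_le_norm _
    _ = ‖Kf z‖ * ‖Kf (1 - z)‖ := by rw [norm_mul, RCLike.norm_conj]
    _ ≤ 3 * (6 * (1 + |Real.log ‖z‖|)) := mul_le_mul h1 h2 (norm_nonneg _) (by norm_num)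
    _ = 18 * (1 + |Real.log ‖z‖|) := by ring

end Pool.Agent.H794.KM
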