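import Pool.Agent.H794.KM.Spec

/-!
The Wronskian of `K(z)` and `K(1-z)`.
-/

namespace Pool.Agent.H794.KM

open MeasureTheory Set Filter Topology

namespace KWRL

lemma isOpen_Sl : IsOpen Sl := by
  have h : Sl = {z : ℂ | z.im ≠ 0} ∪ {z : ℂ | z.re < 1} := rfl
  rw [h]
  exact (isOpen_ne_fun Complex.continuous_im continuous_const).union
    (isOpen_lt Complex.continuous_re continuous_const)

/-- the plane without the two slits -/
def U : Set ℂ := {z | z ∈ Sl ∧ 1 - z ∈ Sl}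

lemma mem_U {z : ℂ} : z ∈ U ↔ z.im ≠ 0 ∨ (0 < z.re ∧ z.re < 1) := by
  have h1 : z ∈ Sl ↔ (z.im ≠ 0 ∨ z.re < 1) := Iff.rfl
  have h2 : 1 - z ∈ Sl ↔ ((1 - z).im ≠ 0 ∨ (1 - z).re < 1) := Iff.rfl
  have h3 : (1 - z).im = -z.im := by simp
  have h4 : (1 - z).re = 1 - z.re := by simp
  have h5 : z ∈ U ↔ z ∈ Sl ∧ 1 - z ∈ Sl := Iff.rfl
  rw [h5, h1, h2, h3, h4, neg_ne_zero]
  constructor
  · rintro ⟨h | h, h' | h'⟩
    · exact Or.inl h
    · exact Or.inl h
    · exact Or.inl h'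
    · exact Or.inr ⟨by linarith, h⟩
  · rintro (h | ⟨h, h'⟩)
    · exact ⟨Or.inl h, Or.inl h⟩
    · exact ⟨Or.inr h', Or.inr (by linarith)⟩

lemma isOpen_U : IsOpen U :=
  isOpen_Sl.inter (isOpen_Sl.preimage (continuous_const.sub continuous_id))

lemma half_mem : (1 / 2 : ℂ) ∈ U := by
  rw [mem_U]
  right
  norm_num

lemma star_U : StarConvex ℝ (1 / 2 : ℂ) U := by
  intro z hz a b ha hb hab
  rw [mem_U] at hz ⊢
  have him : (a • (1 / 2 : ℂ) + b • z).im = b * z.im := by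
    simp
  have hre : (a • (1 / 2 : ℂ) + b • z).re = a / 2 + b * z.re := by
    simp
    ring
  rw [him, hre]
  rcases hb.eq_or_lt with h | h
  · right
    rw [← h] at hab ⊢
    rw [add_zero] at hab
    rw [hab]
    norm_num
  · rcases hz with h1 | ⟨h1, h2⟩
    · left
      exact mul_ne_zero h.ne' h1
    · right
      constructor
      · positivity
      · nlinarith

lemma preconn_U : IsPreconnected U :=
  (star_U.isPathConnected half_mem).isConnected.isPreconnected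

lemma ne_of_mem {z : ℂ} (hz : z ∈ U) : z ≠ 0 ∧ 1 - z ≠ 0 := by
  rw [mem_U] at hz
  constructor
  · rintro rfl
    simp at hz
  · intro h
    have h1 : z = 1 := by
      rw [sub_eq_zero] at h
      exact h.symm
    rw [h1] at hz
    simp at hz

end KWRL

open KWRL in
theorem t_KWR (h1 : S_KHO) (h2 : S_KOD) : S_KWR := by
  obtain ⟨hd, -, hr⟩ := h1
  have hdo : DifferentiableOn ℂ Kf Sl := fun z hz => (hd z hz).differentiableWithinAt
  have hd1 : ∀ z ∈ Sl, HasDerivAt Kf (deriv Kf z) z := fun z hz => (hd z hz).hasDerivAt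
  have hd2 : ∀ z ∈ Sl, HasDerivAt (deriv Kf) (deriv (deriv Kf) z) z := fun z hz =>
    ((hdo.deriv isOpen_Sl).differentiableAt (isOpen_Sl.mem_nhds hz)).hasDerivAt
  set G : ℂ → ℂ := fun z => z * (1 - z) * (Kf z * (-deriv Kf (1 - z)) - deriv Kf z * Kf (1 - z))
    with hG
  have hsub : ∀ z : ℂ, HasDerivAt (fun w : ℂ => 1 - w) (-1) z := fun z => by
    simpa using (hasDerivAt_id z).const_sub 1
  have hGd : ∀ z ∈ U, HasDerivAt G 0 z := by
    intro z hz
    obtain ⟨hz1, hz2⟩ := hz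
    have e1 := hd1 z hz1
    have e2 := hd2 z hz1
    have e3 : HasDerivAt (fun w => Kf (1 - w)) (deriv Kf (1 - z) * -1) z :=
      (hd1 (1 - z) hz2).comp z (hsub z)
    have e4 : HasDerivAt (fun w => deriv Kf (1 - w)) (deriv (deriv Kf) (1 - z) * -1) z :=
      (hd2 (1 - z) hz2).comp z (hsub z)
    have e5 : HasDerivAt (fun w : ℂ => w * (1 - w)) (1 * (1 - z) + z * -1) z :=
      (hasDerivAt_id z).mul (hsub z)
    have e6 := e5.mul ((e1.mul e4.neg).sub (e2.mul e3))
    refine e6.congr_deriv ?_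
    have k1 := h2 z hz1
    have k2 := h2 (1 - z) hz2
    simp only [Pi.sub_apply, Pi.mul_apply, Pi.neg_apply]
    linear_combination (-Kf (1 - z)) * k1 + Kf z * k2
  have hconst : ∀ z ∈ U, G z = G (1 / 2) := by
    intro z hz
    refine isOpen_U.is_const_of_deriv_eq_zero preconn_U
      (fun w hw => (hGd w hw).differentiableAt.differentiableWithinAt)
      (fun w hw => (hGd w hw).deriv) hz half_mem
  obtain ⟨r1, r2, r3, r4⟩ := hr (1 / 2) (by norm_num)
  have eh : (((1 / 2 : ℝ) : ℝ) : ℂ) = 1 / 2 := by norm_num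
  rw [eh] at r1 r2 r3 r4
  refine ⟨-(1 / 2) * ((Kf (1 / 2)).re * (deriv Kf (1 / 2)).re), ?_, ?_⟩
  · have := mul_pos r1 r3
    linarith
  · intro z hz hz'
    obtain ⟨n1, n2⟩ := ne_of_mem (z := z) ⟨hz, hz'⟩
    rw [eq_div_iff (mul_ne_zero n1 n2)]
    have h3 := hconst z ⟨hz, hz'⟩
    have e1 : Kf (1 / 2) = (((Kf (1 / 2)).re : ℝ) : ℂ) := by
      apply Complex.ext
      · simp
      · rw [r2, Complex.ofReal_im]
    have e2 : deriv Kf (1 / 2) = (((deriv Kf (1 / 2)).re : ℝ) : ℂ) := by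
      apply Complex.ext
      · simp
      · rw [r4, Complex.ofReal_im]
    have h4 : G (1 / 2) =
        ((-(1 / 2) * ((Kf (1 / 2)).re * (deriv Kf (1 / 2)).re) : ℝ) : ℂ) := by
      simp only [hG]
      have e0 : (1 : ℂ) - 1 / 2 = 1 / 2 := by norm_num
      rw [e0]
      push_cast
      rw [← e1, ← e2]
      ring
    rw [← h4, ← h3]
    simp only [hG]
    ring

end Pool.Agent.H794.KM
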