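import Pool.Agent.H794.KM.Spec

/-!
Optimal radial test functions.
-/

namespace Pool.Agent.H794.KM

open MeasureTheory Set Filter Topology

namespace LIML

/-- the test function -/
noncomputable def et (n : ℕ) (δ : ℝ) (s : ℝ) : ℝ :=
  (1 - s) ^ (n + 2) * Real.smoothTransition ((1 - s) / δ - 1)

/-- the factor in the derivative -/
noncomputable def fa (n : ℕ) (δ : ℝ) (s : ℝ) : ℝ :=
  ((n : ℝ) + 2) * Real.smoothTransition ((1 - s) / δ - 1) +
    (1 - s) / δ * deriv Real.smoothTransition ((1 - s) / δ - 1)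

lemma cd_tr : ContDiff ℝ SM Real.smoothTransition := Real.smoothTransition.contDiff

lemma cont_dtr : Continuous (deriv Real.smoothTransition) := by
  have h : ContDiff ℝ 1 Real.smoothTransition := Real.smoothTransition.contDiff
  exact h.continuous_deriv le_rfl

lemma dtr_one {u : ℝ} (hu : 1 ≤ u) : deriv Real.smoothTransition u = 0 := by
  have h : IsLocalMax Real.smoothTransition u := by
    refine Filter.Eventually.of_forall fun v => ?_
    rw [Real.smoothTransition.one_of_one_le hu]
    exact Real.smoothTransition.le_one v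
  exact h.deriv_eq_zero

lemma cd_et (n : ℕ) (δ : ℝ) : ContDiff ℝ SM (et n δ) := by
  unfold et
  refine ContDiff.mul ?_ (cd_tr.comp ?_)
  · exact (contDiff_const.sub contDiff_id).pow _
  · exact ((contDiff_const.sub contDiff_id).div_const δ).sub contDiff_const

lemma deriv_et (n : ℕ) (δ s : ℝ) : deriv (et n δ) s = -((1 - s) ^ (n + 1) * fa n δ s) := by
  have h0 : HasDerivAt (fun s : ℝ => 1 - s) (-1) s := by
    simpa using (hasDerivAt_id s).const_sub 1
  have h1 : HasDerivAt (fun s : ℝ => (1 - s) ^ (n + 2)) (((n + 2 : ℕ) : ℝ) * (1 - s) ^ (n + 1) * -1)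
      s := h0.pow (n + 2)
  have h2 : HasDerivAt (fun s : ℝ => (1 - s) / δ - 1) (-1 / δ) s := (h0.div_const δ).sub_const 1
  have hd : DifferentiableAt ℝ Real.smoothTransition ((1 - s) / δ - 1) :=
    cd_tr.differentiable (by simp) _
  have h3 := HasDerivAt.comp (h₂ := Real.smoothTransition) (h := fun s : ℝ => (1 - s) / δ - 1) s
    hd.hasDerivAt h2
  have h4 := (h1.mul h3).deriv
  have h5 : deriv (et n δ) s = deriv ((fun s : ℝ => (1 - s) ^ (n + 2)) *
    (Real.smoothTransition ∘ fun s : ℝ => (1 - s) / δ - 1)) s := rfl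
  rw [h5, h4]
  unfold fa
  simp only [Function.comp_apply]
  push_cast
  ring

lemma cont_fa (n : ℕ) (δ : ℝ) : Continuous (fa n δ) := by
  unfold fa
  have h1 : Continuous (fun s : ℝ => (1 - s) / δ - 1) := by fun_prop
  have h2 : Continuous (fun s : ℝ => (1 - s) / δ) := by fun_prop
  exact (continuous_const.mul (cd_tr.continuous.comp h1)).add (h2.mul (cont_dtr.comp h1))

lemma fa_one (n : ℕ) {δ : ℝ} (hδ : 0 < δ) {s : ℝ} (h : 2 * δ ≤ 1 - s) :
    fa n δ s = (n : ℝ) + 2 := by
  have hu : 1 ≤ (1 - s) / δ - 1 := by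
    rw [le_sub_iff_add_le, le_div_iff₀ hδ]
    linarith
  unfold fa
  rw [Real.smoothTransition.one_of_one_le hu, dtr_one hu]
  ring

lemma int_pow (n : ℕ) : ∫ s in (0 : ℝ)..1, (1 - s) ^ n = 1 / ((n : ℝ) + 1) := by
  have h := intervalIntegral.integral_comp_sub_left (a := 0) (b := 1) (fun x : ℝ => x ^ n) 1
  rw [h, integral_pow]
  simp

lemma int_spow (n : ℕ) : ∫ s in (0 : ℝ)..1, s * (1 - s) ^ n =
    1 / ((n : ℝ) + 1) - 1 / ((n : ℝ) + 2) := by
  have e : ∀ s : ℝ, s * (1 - s) ^ n = (1 - s) ^ n - (1 - s) ^ (n + 1) := by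
    intro s
    ring
  simp_rw [e]
  rw [intervalIntegral.integral_sub, int_pow, int_pow]
  · push_cast
    ring
  · exact Continuous.intervalIntegrable (by fun_prop) _ _
  · exact Continuous.intervalIntegrable (by fun_prop) _ _

lemma I0_eq (n : ℕ) {δ : ℝ} (hδ : 0 < δ) : I0 (n + 2) (et n δ) =
    ∫ s in (0 : ℝ)..1, ((n : ℝ) + 4) ^ (n + 3) * ((1 - s) ^ n *
      Real.smoothTransition ((1 - s) / δ - 1) ^ 2) := by
  unfold I0
  refine intervalIntegral.integral_congr fun s hs => ?_
  rw [uIcc_of_le zero_le_one] at hs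
  rcases hs.2.eq_or_lt with h | h
  · subst h
    have h0 : Real.smoothTransition ((1 - 1) / δ - 1) = 0 := by
      apply Real.smoothTransition.zero_of_nonpos
      norm_num
    unfold et
    rw [h0]
    simp
  · have hy : (0 : ℝ) < 1 - s := by linarith
    unfold et
    push_cast
    rw [div_pow]
    field_simp
    ring

lemma I1_eq (n : ℕ) (δ : ℝ) : I1 (n + 2) (et n δ) =
    ∫ s in (0 : ℝ)..1, ((n : ℝ) + 4) ^ (n + 2) * (s * (1 - s) ^ n * fa n δ s ^ 2) := by
  unfold I1
  refine intervalIntegral.integral_congr fun s hs => ?_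
  rw [uIcc_of_le zero_le_one] at hs
  rw [deriv_et]
  rcases hs.2.eq_or_lt with h | h
  · subst h
    have h0 : Real.smoothTransition ((1 - 1) / δ - 1) = 0 := by
      apply Real.smoothTransition.zero_of_nonpos
      norm_num
    unfold fa
    rw [h0]
    simp
  · have hy : (0 : ℝ) < 1 - s := by linarith
    push_cast
    rw [div_pow]
    field_simp
    ring

end LIML

open LIML in
theorem t_LIM : S_LIM := by
  intro k hk ε hε
  obtain ⟨n, rfl⟩ : ∃ n, k = n + 2 := ⟨k - 2, by omega⟩
  obtain ⟨C, hC⟩ := (isCompact_Icc (a := (-1 : ℝ)) (b := 1)).exists_bound_of_continuousOn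
    cont_dtr.continuousOn
  have hC0 : 0 ≤ C := (norm_nonneg _).trans (hC 0 ⟨by norm_num, by norm_num⟩)
  have hn0 : (0 : ℝ) ≤ n := Nat.cast_nonneg n
  set K : ℝ := (n : ℝ) + 4 with hK
  have hK0 : 0 < K := by rw [hK]; linarith
  set B : ℝ := ((n : ℝ) + 2 + 2 * C) ^ 2 with hB
  have hB0 : 0 ≤ B := sq_nonneg _
  set T : ℝ := B + ((n : ℝ) + 2) + ε * K with hT
  have hεK : 0 < ε * K := mul_pos hε hK0
  have hT0 : 0 < T := by rw [hT]; linarith
  set δ : ℝ := ε * K / (2 * ((n : ℝ) + 1) * T) with hδ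
  have hδ0 : 0 < δ := by rw [hδ]; positivity
  have hδT : 2 * δ * T = ε * K / ((n : ℝ) + 1) := by
    rw [hδ]
    field_simp
  have hδ1 : 2 * δ < 1 / ((n : ℝ) + 1) := by
    have h1 : ε * K < T := by rw [hT]; linarith
    have h2 : 2 * δ * T < 1 / ((n : ℝ) + 1) * T := by
      rw [hδT, one_div_mul_eq_div]
      exact div_lt_div_of_pos_right h1 (by linarith)
    exact lt_of_mul_lt_mul_right h2 hT0.le
  have hδ2 : 2 * δ < 1 := by
    refine hδ1.trans_le ?_
    rw [div_le_one (by linarith)]
    linarith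
  -- the lower bound of I0
  have cσ : Continuous (fun s : ℝ => Real.smoothTransition ((1 - s) / δ - 1)) :=
    cd_tr.continuous.comp (by fun_prop)
  have cp : Continuous (fun s : ℝ => (1 - s) ^ n) := by fun_prop
  have cQ : Continuous (fun s : ℝ => K ^ (n + 3) * ((1 - s) ^ n *
      Real.smoothTransition ((1 - s) / δ - 1) ^ 2)) :=
    continuous_const.mul (cp.mul (cσ.pow 2))
  have cP : Continuous (fun s : ℝ => K ^ (n + 2) * (s * (1 - s) ^ n * fa n δ s ^ 2)) :=
    continuous_const.mul ((continuous_id.mul cp).mul ((cont_fa n δ).pow 2))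
  have hI0 : K ^ (n + 3) * (1 / ((n : ℝ) + 1) - 2 * δ) ≤ I0 (n + 2) (et n δ) := by
    rw [I0_eq n hδ0, ← intervalIntegral.integral_add_adjacent_intervals
      (b := 1 - 2 * δ) (cQ.intervalIntegrable _ _) (cQ.intervalIntegrable _ _)]
    have h1 : ∫ s in (0 : ℝ)..(1 - 2 * δ), K ^ (n + 3) * ((1 - s) ^ n *
        Real.smoothTransition ((1 - s) / δ - 1) ^ 2) =
        K ^ (n + 3) * ∫ s in (0 : ℝ)..(1 - 2 * δ), (1 - s) ^ n := by
      rw [← intervalIntegral.integral_const_mul]
      refine intervalIntegral.integral_congr fun s hs => ?_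
      rw [uIcc_of_le (by linarith)] at hs
      have hu : 1 ≤ (1 - s) / δ - 1 := by
        rw [le_sub_iff_add_le, le_div_iff₀ hδ0]
        linarith [hs.2]
      rw [Real.smoothTransition.one_of_one_le hu]
      ring
    have h2 : 0 ≤ ∫ s in (1 - 2 * δ)..1, K ^ (n + 3) * ((1 - s) ^ n *
        Real.smoothTransition ((1 - s) / δ - 1) ^ 2) := by
      refine intervalIntegral.integral_nonneg (by linarith) fun s hs => ?_
      have : 0 ≤ 1 - s := by linarith [hs.2]
      positivity
    have h3 : ∫ s in (0 : ℝ)..(1 - 2 * δ), (1 - s) ^ n =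
        1 / ((n : ℝ) + 1) - ∫ s in (1 - 2 * δ)..1, (1 - s) ^ n := by
      rw [← int_pow n, ← intervalIntegral.integral_add_adjacent_intervals
        (b := 1 - 2 * δ) (cp.intervalIntegrable 0 _) (cp.intervalIntegrable _ 1)]
      ring
    have h4 : ∫ s in (1 - 2 * δ)..1, (1 - s) ^ n ≤ 2 * δ := by
      calc ∫ s in (1 - 2 * δ)..1, (1 - s) ^ n ≤ ∫ s in (1 - 2 * δ)..1, (1 : ℝ) := by
            refine intervalIntegral.integral_mono_on (by linarith) (cp.intervalIntegrable _ _)
              (continuous_const.intervalIntegrable _ _) fun s hs => ?_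
            exact pow_le_one₀ (by linarith [hs.2]) (by linarith [hs.1])
        _ = 2 * δ := by
            rw [intervalIntegral.integral_const]
            simp
    rw [h1, h3]
    have h5 : K ^ (n + 3) * (1 / ((n : ℝ) + 1) - 2 * δ) ≤
        K ^ (n + 3) * (1 / ((n : ℝ) + 1) - ∫ s in (1 - 2 * δ)..1, (1 - s) ^ n) :=
      mul_le_mul_of_nonneg_left (by linarith) (by positivity)
    linarith
  -- the upper bound of I1
  have hI1 : I1 (n + 2) (et n δ) ≤ K ^ (n + 2) * (((n : ℝ) + 2) / ((n : ℝ) + 1) + 2 * δ * B) := by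
    rw [I1_eq n δ, ← intervalIntegral.integral_add_adjacent_intervals
      (b := 1 - 2 * δ) (cP.intervalIntegrable _ _) (cP.intervalIntegrable _ _)]
    have cs : Continuous (fun s : ℝ => s * (1 - s) ^ n) := continuous_id.mul cp
    have h1 : ∫ s in (0 : ℝ)..(1 - 2 * δ), K ^ (n + 2) * (s * (1 - s) ^ n * fa n δ s ^ 2) =
        K ^ (n + 2) * (((n : ℝ) + 2) ^ 2 * ∫ s in (0 : ℝ)..(1 - 2 * δ), s * (1 - s) ^ n) := by
      rw [← intervalIntegral.integral_const_mul, ← intervalIntegral.integral_const_mul]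
      refine intervalIntegral.integral_congr fun s hs => ?_
      rw [uIcc_of_le (by linarith)] at hs
      rw [fa_one n hδ0 (by linarith [hs.2])]
      ring
    have h2 : ∫ s in (0 : ℝ)..(1 - 2 * δ), s * (1 - s) ^ n ≤
        1 / ((n : ℝ) + 1) - 1 / ((n : ℝ) + 2) := by
      rw [← int_spow n, ← intervalIntegral.integral_add_adjacent_intervals
        (b := 1 - 2 * δ) (cs.intervalIntegrable 0 _) (cs.intervalIntegrable _ 1)]
      have : 0 ≤ ∫ s in (1 - 2 * δ)..1, s * (1 - s) ^ n := by
        refine intervalIntegral.integral_nonneg (by linarith) fun s hs => ?_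
        have h3 : 0 ≤ 1 - s := by linarith [hs.2]
        have h4 : 0 ≤ s := by linarith [hs.1]
        positivity
      linarith
    have h3 : ∫ s in (1 - 2 * δ)..1, K ^ (n + 2) * (s * (1 - s) ^ n * fa n δ s ^ 2) ≤
        K ^ (n + 2) * (2 * δ * B) := by
      calc ∫ s in (1 - 2 * δ)..1, K ^ (n + 2) * (s * (1 - s) ^ n * fa n δ s ^ 2)
          ≤ ∫ s in (1 - 2 * δ)..1, K ^ (n + 2) * B := by
            refine intervalIntegral.integral_mono_on (by linarith) (cP.intervalIntegrable _ _)
              (continuous_const.intervalIntegrable _ _) fun s hs => ?_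
            have y0 : 0 ≤ 1 - s := by linarith [hs.2]
            have s0 : 0 ≤ s := by linarith [hs.1]
            have y1 : (1 - s) / δ ≤ 2 := by
              rw [div_le_iff₀ hδ0]
              linarith [hs.1]
            have y2 : 0 ≤ (1 - s) / δ := by positivity
            have hd := hC ((1 - s) / δ - 1) ⟨by linarith, by linarith⟩
            rw [Real.norm_eq_abs, abs_le] at hd
            have σ0 := Real.smoothTransition.nonneg ((1 - s) / δ - 1)
            have σ1 := Real.smoothTransition.le_one ((1 - s) / δ - 1)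
            have hfa : |fa n δ s| ≤ (n : ℝ) + 2 + 2 * C := by
              unfold fa
              rw [abs_le]
              constructor
              · nlinarith [mul_nonneg (by linarith : (0 : ℝ) ≤ (n : ℝ) + 2) σ0,
                  mul_le_mul_of_nonneg_right y1 hC0,
                  mul_le_mul_of_nonneg_left hd.1 y2]
              · nlinarith [mul_le_mul_of_nonneg_left σ1 (by linarith : (0 : ℝ) ≤ (n : ℝ) + 2),
                  mul_le_mul_of_nonneg_right y1 hC0,
                  mul_le_mul_of_nonneg_left hd.2 y2]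
            have hfa2 : fa n δ s ^ 2 ≤ B := by
              rw [hB, ← sq_abs (fa n δ s)]
              exact pow_le_pow_left₀ (abs_nonneg _) hfa 2
            refine mul_le_mul_of_nonneg_left ?_ (by positivity)
            have hp : (1 - s) ^ n ≤ 1 := pow_le_one₀ y0 (by linarith)
            have hsp : s * (1 - s) ^ n ≤ 1 := by
              have := mul_le_mul hs.2 hp (by positivity) zero_le_one
              linarith
            calc s * (1 - s) ^ n * fa n δ s ^ 2 ≤ 1 * B :=
                  mul_le_mul hsp hfa2 (sq_nonneg _) zero_le_one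
              _ = B := one_mul B
        _ = K ^ (n + 2) * (2 * δ * B) := by
            rw [intervalIntegral.integral_const, smul_eq_mul]
            ring
    rw [h1, mul_add]
    refine add_le_add (mul_le_mul_of_nonneg_left ?_ (by positivity)) h3
    have h4 : ((n : ℝ) + 2) ^ 2 * (1 / ((n : ℝ) + 1) - 1 / ((n : ℝ) + 2)) =
        ((n : ℝ) + 2) / ((n : ℝ) + 1) := by
      field_simp
      ring
    rw [← h4]
    exact mul_le_mul_of_nonneg_left h2 (by positivity)
  refine ⟨et n δ, cd_et n δ, ⟨1 - δ, by linarith, fun s hs => ?_⟩, ?_, ?_⟩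
  · unfold et
    rw [Real.smoothTransition.zero_of_nonpos, mul_zero]
    rw [sub_nonpos, div_le_one hδ0]
    linarith
  · refine lt_of_lt_of_le ?_ hI0
    have : 0 < 1 / ((n : ℝ) + 1) - 2 * δ := by linarith
    positivity
  · refine hI1.trans ?_
    have e1 : (((n + 2 : ℕ) : ℝ) / (((n + 2 : ℕ) : ℝ) + 2) + ε) = ((n : ℝ) + 2) / K + ε := by
      rw [hK]
      push_cast
      ring
    rw [e1]
    have h1 : (((n : ℝ) + 2) / K + ε) * (K ^ (n + 3) * (1 / ((n : ℝ) + 1) - 2 * δ)) ≤
        (((n : ℝ) + 2) / K + ε) * I0 (n + 2) (et n δ) :=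
      mul_le_mul_of_nonneg_left hI0 (by positivity)
    refine le_trans ?_ h1
    have e2 : (((n : ℝ) + 2) / K + ε) * (K ^ (n + 3) * (1 / ((n : ℝ) + 1) - 2 * δ)) =
        K ^ (n + 2) * (((n : ℝ) + 2 + ε * K) * (1 / ((n : ℝ) + 1) - 2 * δ)) := by
      field_simp
      ring
    rw [e2]
    refine mul_le_mul_of_nonneg_left ?_ (by positivity)
    have e3 : ((n : ℝ) + 2 + ε * K) * (1 / ((n : ℝ) + 1) - 2 * δ) =
        ((n : ℝ) + 2) / ((n : ℝ) + 1) + ε * K / ((n : ℝ) + 1) - 2 * δ * ((n : ℝ) + 2 + ε * K) := by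
      ring
    rw [e3, ← hδT, hT]
    linarith

end Pool.Agent.H794.KM
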