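import Pool.Agent.H794.KM.Spec

namespace Pool.Agent.H794.KM

open MeasureTheory Set Filter Topology
open scoped ComplexOrder

namespace PDRL

/-- the constant test vector -/
theorem fderiv_pd (F : (Fin 2 → ℝ) → ℝ) (s : Fin 2 → ℝ) (b : Fin 2)
    (h : DifferentiableAt ℝ (fderiv ℝ F) s) (v : Fin 2 → ℝ) :
    fderiv ℝ (pd b F) s v = fderiv ℝ (fderiv ℝ F) s v (Pi.single b 1) := by
  have h1 : HasFDerivAt (pd b F)
      ((ContinuousLinearMap.apply ℝ ℝ (Pi.single b 1 : Fin 2 → ℝ)).comp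
        (fderiv ℝ (fderiv ℝ F) s)) s :=
    (ContinuousLinearMap.apply ℝ ℝ (Pi.single b 1 : Fin 2 → ℝ)).hasFDerivAt.comp s
      h.hasFDerivAt
  rw [h1.fderiv]
  rfl

theorem contDiffAt_fderiv {F : (Fin 2 → ℝ) → ℝ} {s : Fin 2 → ℝ} (h : ContDiffAt ℝ SM F s) :
    ContDiffAt ℝ SM (fderiv ℝ F) s := h.fderiv_right (by simp)

theorem differentiableAt {E : Type*} [NormedAddCommGroup E] [NormedSpace ℝ E]
    {F : (Fin 2 → ℝ) → E} {s : Fin 2 → ℝ} (h : ContDiffAt ℝ SM F s) :
    DifferentiableAt ℝ F s := h.differentiableAt (by simp)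

end PDRL

theorem t_PDR : S_PDR := by
  intro F G s a b
  refine ⟨fun L h => ?_, fun h => ?_, ?_, fun c => ?_, fun hF hG => ⟨?_, ?_, ?_⟩,
    fun hF φ c hφ => ?_, fun h => ⟨PDRL.differentiableAt h, ?_, ?_, ?_⟩, fun h => ?_⟩
  · unfold pd
    rw [h.fderiv]
  · unfold pd
    rw [h.fderiv_eq]
  · have h1 : HasFDerivAt (fun s' : Fin 2 → ℝ => s' b)
        (ContinuousLinearMap.proj (R := ℝ) (φ := fun _ : Fin 2 => ℝ) b) s :=
      (ContinuousLinearMap.proj (R := ℝ) (φ := fun _ : Fin 2 => ℝ) b).hasFDerivAt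
    unfold pd
    rw [h1.fderiv, ContinuousLinearMap.proj_apply, Pi.single_apply]
    by_cases hab : a = b
    · rw [if_pos hab, if_pos hab.symm]
    · rw [if_neg hab, if_neg (fun h => hab h.symm)]
  · unfold pd
    rw [(hasFDerivAt_const c s).fderiv]
    rfl
  · unfold pd
    rw [(hF.hasFDerivAt.fun_add hG.hasFDerivAt).fderiv]
    rfl
  · unfold pd
    rw [(hF.hasFDerivAt.fun_sub hG.hasFDerivAt).fderiv]
    rfl
  · unfold pd
    have h1 : HasFDerivAt (fun s' => F s' * G s') (F s • fderiv ℝ G s + G s • fderiv ℝ F s) s :=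
      hF.hasFDerivAt.mul hG.hasFDerivAt
    rw [h1.fderiv]
    show F s * fderiv ℝ G s (Pi.single a 1) + G s * fderiv ℝ F s (Pi.single a 1) = _
    ring
  · unfold pd
    have h1 : HasFDerivAt (fun s' => φ (F s')) (c • fderiv ℝ F s) s :=
      hφ.comp_hasFDerivAt s hF.hasFDerivAt
    rw [h1.fderiv]
    rfl
  · exact (PDRL.contDiffAt_fderiv h).clm_apply contDiffAt_const
  · have h1 := (PDRL.differentiableAt h).hasFDerivAt
    have h2 : fderiv ℝ F s = ∑ c, pd c F s • ContinuousLinearMap.proj (R := ℝ) c := by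
      ext v
      have h3 : v = ∑ c, v c • (Pi.single c 1 : Fin 2 → ℝ) := by
        ext i
        simp [Pi.single_apply]
      conv_lhs => rw [h3]
      rw [map_sum]
      simp only [map_smul, smul_eq_mul]
      rw [_root_.sum_apply]
      exact Finset.sum_congr rfl fun c _ => mul_comm _ _
    rw [h2] at h1
    exact h1
  · have h1 := PDRL.differentiableAt (PDRL.contDiffAt_fderiv h)
    have h2 : IsSymmSndFDerivAt ℝ F s := h.isSymmSndFDerivAt (by
      simp only [minSmoothness_of_isRCLikeNormedField]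
      exact WithTop.coe_le_coe.2 le_top)
    show fderiv ℝ (pd b F) s (Pi.single a 1) = fderiv ℝ (pd a F) s (Pi.single b 1)
    rw [PDRL.fderiv_pd F s b h1, PDRL.fderiv_pd F s a h1]
    exact h2 _ _
  · have h1 : HasDerivAt (fun t => Function.update s a t) (Pi.single a 1) (s a) :=
      hasDerivAt_update s a (s a)
    have h2 : HasFDerivAt F (fderiv ℝ F s) (Function.update s a (s a)) := by
      rw [Function.update_eq_self]; exact h.hasFDerivAt
    have h3 := h2.comp_hasDerivAt (s a) h1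
    exact h3.deriv.symm

end Pool.Agent.H794.KM
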