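import Pool.Agent.H794.KM.Spec

namespace Pool.Agent.H794.KM

open MeasureTheory Set Filter Topology

namespace POLL

open Finset

/-- coefficient table -/
def cc (L : List (List ℤ)) (i j : ℕ) : ℝ := (((L.getD i []).getD j 0 : ℤ) : ℝ)

/-- `∂_0^p ∂_1^q ∑ c_{ij} x^i y^j` -/
noncomputable def E2 (n : ℕ) (c : ℕ → ℕ → ℝ) (p q : ℕ) (s : Fin 2 → ℝ) : ℝ :=
  ∑ i ∈ range n, ∑ j ∈ range n, c i j * ((i.descFactorial p : ℝ) * s 0 ^ (i - p)) *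
    ((j.descFactorial q : ℝ) * s 1 ^ (j - q))

theorem contDiff_E2 (n : ℕ) (c : ℕ → ℕ → ℝ) (p q : ℕ) : ContDiff ℝ SM (E2 n c p q) := by
  unfold E2
  fun_prop

theorem diff_E2 (n : ℕ) (c : ℕ → ℕ → ℝ) (p q : ℕ) : Differentiable ℝ (E2 n c p q) :=
  (contDiff_E2 n c p q).differentiable (by simp)

theorem hasDerivAt_mon (i p : ℕ) (x : ℝ) :
    HasDerivAt (fun t : ℝ => (i.descFactorial p : ℝ) * t ^ (i - p))
      ((i.descFactorial (p + 1) : ℝ) * x ^ (i - (p + 1))) x := by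
  have h := (hasDerivAt_pow (i - p) x).const_mul (i.descFactorial p : ℝ)
  refine h.congr_deriv ?_
  rw [Nat.descFactorial_succ, Nat.sub_sub]
  push_cast
  ring

theorem pd0_E2 (h : S_PDR) (n : ℕ) (c : ℕ → ℕ → ℝ) (p q : ℕ) :
    pd 0 (E2 n c p q) = E2 n c (p + 1) q := by
  funext s
  rw [(h (E2 n c p q) (E2 n c p q) s 0 0).2.2.2.2.2.2.2 (diff_E2 n c p q s)]
  have : HasDerivAt (fun t => E2 n c p q (Function.update s 0 t)) (E2 n c (p + 1) q s) (s 0) := by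
    unfold E2
    refine HasDerivAt.fun_sum fun i _ => HasDerivAt.fun_sum fun j _ => ?_
    simp only [Function.update_self, Function.update_of_ne (one_ne_zero : (1 : Fin 2) ≠ 0)]
    exact ((hasDerivAt_mon i p (s 0)).const_mul (c i j)).mul_const _
  exact this.deriv

theorem pd1_E2 (h : S_PDR) (n : ℕ) (c : ℕ → ℕ → ℝ) (p q : ℕ) :
    pd 1 (E2 n c p q) = E2 n c p (q + 1) := by
  funext s
  rw [(h (E2 n c p q) (E2 n c p q) s 1 0).2.2.2.2.2.2.2 (diff_E2 n c p q s)]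
  have : HasDerivAt (fun t => E2 n c p q (Function.update s 1 t)) (E2 n c p (q + 1) s) (s 1) := by
    unfold E2
    refine HasDerivAt.fun_sum fun i _ => HasDerivAt.fun_sum fun j _ => ?_
    simp only [Function.update_self, Function.update_of_ne (zero_ne_one : (0 : Fin 2) ≠ 1)]
    exact (hasDerivAt_mon j q (s 1)).const_mul _
  exact this.deriv

def LW : List (List ℤ) := [[0, 357, -181, 116, -42, 13],
  [357, 2129, -3, 117, 27, 5],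
  [-181, -3, 2392, -3, 309, 5],
  [116, 117, -3, 1639, 407, 5],
  [-42, 27, 309, 407, 1474, 5],
  [13, 5, 5, 5, 5, 5]]
def LG : List (List ℤ) := [[0, -560, 183, -377, 140, -121],
  [-560, -2410, 771, -175, 104, 75],
  [183, 771, -4394, 1876, -709, 745],
  [-377, -175, 1876, -3677, -62, 2581],
  [140, 104, -709, -62, 1401, -386],
  [-121, 75, 745, 2581, -386, 524]]
def LU : List (List ℤ) := [[-714, 23, 20, 35, 20, 23, 65],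
  [23, 24, 24, 24, 16, 316, 25],
  [20, 24, 24, 14, 28, 2572, 25],
  [35, 24, 14, 40, 26, 3356, 25],
  [20, 16, 28, 26, 42452, 11892, 25],
  [23, 316, 2572, 3356, 11892, 320, 25],
  [65, 25, 25, 25, 25, 25, 0]]

noncomputable def cw (i j : ℕ) : ℝ := cc LW i j
noncomputable def cg (i j : ℕ) : ℝ := cc LG i j
noncomputable def cu (i j : ℕ) : ℝ := cc LU i j / 8

theorem wF_eq : wF = E2 6 cw 0 0 := by
  funext s
  simp [wF, wP, E2, sum_range_succ, cw, cc, LW]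
  ring

theorem gF_eq : gF = E2 6 cg 0 0 := by
  funext s
  simp [gF, gP, E2, sum_range_succ, cg, cc, LG]
  ring

theorem uu_eq (h : S_PDR) : uu 6 wF = E2 7 cu 0 0 := by
  rw [wF_eq]
  funext s
  unfold uu
  simp only [Fin.sum_univ_two, pd0_E2 h, pd1_E2 h]
  simp [E2, sum_range_succ, cw, cu, cc, LW, LU, Nat.descFactorial]
  ring

/-- the polynomial of the last inequality, as a Bernstein sum -/
noncomputable def B4 (x X y Y : ℝ) : ℝ :=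
  x ^ 0 * X ^ 8 * (116 * (y ^ 0 * Y ^ 8) + 898 * (y ^ 1 * Y ^ 7) + 2958 * (y ^ 2 * Y ^ 6) + 5516 * (y ^ 3 * Y ^ 5) + 6616 * (y ^ 4 * Y ^ 4) + 6836 * (y ^ 5 * Y ^ 3) + 2522 * (y ^ 6 * Y ^ 2) + 9850 * (y ^ 7 * Y ^ 1) + 10888 * (y ^ 8 * Y ^ 0))
  + x ^ 1 * X ^ 7 * (898 * (y ^ 0 * Y ^ 8) + 6936 * (y ^ 1 * Y ^ 7) + 22768 * (y ^ 2 * Y ^ 6) + 42432 * (y ^ 3 * Y ^ 5) + 50996 * (y ^ 4 * Y ^ 4) + 61784 * (y ^ 5 * Y ^ 3) + 19158 * (y ^ 6 * Y ^ 2) + 57748 * (y ^ 7 * Y ^ 1) + 75080 * (y ^ 8 * Y ^ 0))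
  + x ^ 2 * X ^ 6 * (2958 * (y ^ 0 * Y ^ 8) + 22768 * (y ^ 1 * Y ^ 7) + 74320 * (y ^ 2 * Y ^ 6) + 138300 * (y ^ 3 * Y ^ 5) + 167088 * (y ^ 4 * Y ^ 4) + 277712 * (y ^ 5 * Y ^ 3) + 62952 * (y ^ 6 * Y ^ 2) + 16148 * (y ^ 7 * Y ^ 1) + 147610 * (y ^ 8 * Y ^ 0))
  + x ^ 3 * X ^ 5 * (5516 * (y ^ 0 * Y ^ 8) + 42432 * (y ^ 1 * Y ^ 7) + 138300 * (y ^ 2 * Y ^ 6) + 787360 * (y ^ 3 * Y ^ 5) + 1115824 * (y ^ 4 * Y ^ 4) + 1016704 * (y ^ 5 * Y ^ 3) + 520372 * (y ^ 6 * Y ^ 2) + 31472 * (y ^ 7 * Y ^ 1) + 97956 * (y ^ 8 * Y ^ 0))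
  + x ^ 4 * X ^ 4 * (6616 * (y ^ 0 * Y ^ 8) + 50996 * (y ^ 1 * Y ^ 7) + 167088 * (y ^ 2 * Y ^ 6) + 1115824 * (y ^ 3 * Y ^ 5) + 397896 * (y ^ 4 * Y ^ 4) + 325672 * (y ^ 5 * Y ^ 3) + 2065448 * (y ^ 6 * Y ^ 2) + 1150028 * (y ^ 7 * Y ^ 1) + 5472 * (y ^ 8 * Y ^ 0))
  + x ^ 5 * X ^ 3 * (6836 * (y ^ 0 * Y ^ 8) + 61784 * (y ^ 1 * Y ^ 7) + 277712 * (y ^ 2 * Y ^ 6) + 1016704 * (y ^ 3 * Y ^ 5) + 325672 * (y ^ 4 * Y ^ 4) + 3154336 * (y ^ 5 * Y ^ 3) + 7172772 * (y ^ 6 * Y ^ 2) + 3554416 * (y ^ 7 * Y ^ 1) + 4248 * (y ^ 8 * Y ^ 0))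
  + x ^ 6 * X ^ 2 * (2522 * (y ^ 0 * Y ^ 8) + 19158 * (y ^ 1 * Y ^ 7) + 62952 * (y ^ 2 * Y ^ 6) + 520372 * (y ^ 3 * Y ^ 5) + 2065448 * (y ^ 4 * Y ^ 4) + 7172772 * (y ^ 5 * Y ^ 3) + 9324980 * (y ^ 6 * Y ^ 2) + 3745478 * (y ^ 7 * Y ^ 1) + 1878 * (y ^ 8 * Y ^ 0))
  + x ^ 7 * X ^ 1 * (9850 * (y ^ 0 * Y ^ 8) + 57748 * (y ^ 1 * Y ^ 7) + 16148 * (y ^ 2 * Y ^ 6) + 31472 * (y ^ 3 * Y ^ 5) + 1150028 * (y ^ 4 * Y ^ 4) + 3554416 * (y ^ 5 * Y ^ 3) + 3745478 * (y ^ 6 * Y ^ 2) + 1289232 * (y ^ 7 * Y ^ 1) + 11364 * (y ^ 8 * Y ^ 0))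
  + x ^ 8 * X ^ 0 * (10888 * (y ^ 0 * Y ^ 8) + 75080 * (y ^ 1 * Y ^ 7) + 147610 * (y ^ 2 * Y ^ 6) + 97956 * (y ^ 3 * Y ^ 5) + 5472 * (y ^ 4 * Y ^ 4) + 4248 * (y ^ 5 * Y ^ 3) + 1878 * (y ^ 6 * Y ^ 2) + 11364 * (y ^ 7 * Y ^ 1) + 22800 * (y ^ 8 * Y ^ 0))

theorem B4_pos {x X y Y : ℝ} (hx : 0 ≤ x) (hX : 0 ≤ X) (hy : 0 ≤ y) (hY : 0 ≤ Y) (h1 : x + X = 1)
    (h2 : y + Y = 1) : 0 < B4 x X y Y := by
  have hx' : 0 < x ∨ 0 < X := by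
    by_contra hc
    push Not at hc
    linarith [hc.1, hc.2]
  have hy' : 0 < y ∨ 0 < Y := by
    by_contra hc
    push Not at hc
    linarith [hc.1, hc.2]
  unfold B4
  rcases hx' with hx' | hx' <;> rcases hy' with hy' | hy' <;> positivity

theorem DL_eq (h : S_PDR) (s : Fin 2 → ℝ) :
    64 * (DD 6 wF s - LL 6 gF s - (-285) * (∑ a, ((6 : ℕ) * s a - 1)) / (((6 : ℕ) : ℝ) + 2)) =
      B4 (s 0) (1 - s 0) (s 1) (1 - s 1) := by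
  rw [wF_eq, gF_eq]
  unfold DD LL
  simp only [Fin.sum_univ_two, pd0_E2 h, pd1_E2 h]
  simp [E2, sum_range_succ, cw, cg, cc, LW, LG, Nat.descFactorial, B4]
  ring

theorem pos_u (h : S_PDR) {s : Fin 2 → ℝ} (hs : s ∈ cSq) (a : Fin 2) : 0 < pd a (uu 6 wF) s := by
  have h0 := hs 0
  have h1 := hs 1
  obtain ⟨h0, -⟩ := h0
  obtain ⟨h1, -⟩ := h1
  rw [uu_eq h]
  fin_cases a
  · simp only [Fin.zero_eta, Fin.isValue, pd0_E2 h]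
    simp [E2, sum_range_succ, cu, cc, LU, Nat.descFactorial]
    generalize s 0 = x at *
    generalize s 1 = y at *
    positivity
  · simp only [Fin.mk_one, Fin.isValue, pd1_E2 h]
    simp [E2, sum_range_succ, cu, cc, LU, Nat.descFactorial]
    generalize s 0 = x at *
    generalize s 1 = y at *
    positivity

/-- the quadratic form of a monomial -/
theorem QF_E2 (h : S_PDR) (n : ℕ) (c : ℕ → ℕ → ℝ) (s x : Fin 2 → ℝ) :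
    QF (E2 n c 0 0) s x = ∑ i ∈ range n, ∑ j ∈ range n, c i j *
      ((i : ℝ) ^ 2 * s 0 ^ (i - 1) * s 1 ^ j * x 0 ^ 2 + (j : ℝ) ^ 2 * s 0 ^ i * s 1 ^ (j - 1) * x 1 ^ 2
        + 2 * i * j * Real.sqrt (s 0 * s 1) * s 0 ^ (i - 1) * s 1 ^ (j - 1) * x 0 * x 1) := by
  unfold QF
  simp only [Fin.sum_univ_two, pd0_E2 h, pd1_E2 h]
  unfold E2
  simp only [Finset.mul_sum, Finset.sum_mul, ← Finset.sum_add_distrib]
  refine sum_congr rfl fun i _ => sum_congr rfl fun j _ => ?_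
  rcases i with _ | _ | i <;> rcases j with _ | _ | j <;>
    simp [Nat.descFactorial, pow_succ] <;> ring

theorem cu_nonneg {i j : ℕ} (hi : i ∈ range 7) (hj : j ∈ range 7) (hij : i ≠ 0 ∨ j ≠ 0) :
    0 ≤ cu i j := by
  rw [Finset.mem_range] at hi hj
  interval_cases i <;> interval_cases j <;> (simp [cu, cc, LU] at hij ⊢ <;> norm_num)

theorem mon_nonneg {i j : ℕ} {s x : Fin 2 → ℝ} (h0 : 0 ≤ s 0) (h1 : 0 ≤ s 1) :
    0 ≤ (i : ℝ) ^ 2 * s 0 ^ (i - 1) * s 1 ^ j * x 0 ^ 2 +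
      (j : ℝ) ^ 2 * s 0 ^ i * s 1 ^ (j - 1) * x 1 ^ 2
        + 2 * i * j * Real.sqrt (s 0 * s 1) * s 0 ^ (i - 1) * s 1 ^ (j - 1) * x 0 * x 1 := by
  rcases i with _ | i
  · simp
    positivity
  rcases j with _ | j
  · simp
    positivity
  have e : Real.sqrt (s 0 * s 1) = Real.sqrt (s 0) * Real.sqrt (s 1) := Real.sqrt_mul h0 _
  have e0 : s 0 = Real.sqrt (s 0) ^ 2 := (Real.sq_sqrt h0).symm
  have e1 : s 1 = Real.sqrt (s 1) ^ 2 := (Real.sq_sqrt h1).symm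
  rw [e]
  have : ((i + 1 : ℕ) : ℝ) ^ 2 * s 0 ^ (i + 1 - 1) * s 1 ^ (j + 1) * x 0 ^ 2 +
      ((j + 1 : ℕ) : ℝ) ^ 2 * s 0 ^ (i + 1) * s 1 ^ (j + 1 - 1) * x 1 ^ 2
        + 2 * ((i + 1 : ℕ) : ℝ) * ((j + 1 : ℕ) : ℝ) * (Real.sqrt (s 0) * Real.sqrt (s 1)) *
          s 0 ^ (i + 1 - 1) * s 1 ^ (j + 1 - 1) * x 0 * x 1 =
      s 0 ^ i * s 1 ^ j * (((i + 1 : ℕ) : ℝ) * Real.sqrt (s 1) * x 0 +
        ((j + 1 : ℕ) : ℝ) * Real.sqrt (s 0) * x 1) ^ 2 := by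
    simp only [Nat.add_sub_cancel]
    rw [pow_succ (s 1) j, pow_succ (s 0) i]
    have e0' := Real.sq_sqrt h0
    have e1' := Real.sq_sqrt h1
    linear_combination (-((i + 1 : ℕ) : ℝ) ^ 2 * s 0 ^ i * s 1 ^ j * x 0 ^ 2) * e1' +
      (-((j + 1 : ℕ) : ℝ) ^ 2 * s 0 ^ i * s 1 ^ j * x 1 ^ 2) * e0'
  rw [this]
  positivity

theorem QF_pos (h : S_PDR) {s : Fin 2 → ℝ} (hs : s ∈ cSq) {x : Fin 2 → ℝ} (hx : x ≠ 0) :
    0 < QF (uu 6 wF) s x := by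
  have h0 : 0 ≤ s 0 := (hs 0).1
  have h1 : 0 ≤ s 1 := (hs 1).1
  rw [uu_eq h, QF_E2 h]
  have hx2 : 0 < x 0 ^ 2 + x 1 ^ 2 := by
    by_contra hc
    apply hx
    have a0 : x 0 ^ 2 = 0 := by nlinarith [sq_nonneg (x 0), sq_nonneg (x 1)]
    have a1 : x 1 ^ 2 = 0 := by nlinarith [sq_nonneg (x 0), sq_nonneg (x 1)]
    ext a
    fin_cases a
    · simpa using a0
    · simpa using a1
  set t : ℕ → ℕ → ℝ := fun i j => cu i j *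
      ((i : ℝ) ^ 2 * s 0 ^ (i - 1) * s 1 ^ j * x 0 ^ 2 + (j : ℝ) ^ 2 * s 0 ^ i * s 1 ^ (j - 1) * x 1 ^ 2
        + 2 * i * j * Real.sqrt (s 0 * s 1) * s 0 ^ (i - 1) * s 1 ^ (j - 1) * x 0 * x 1) with ht
  have t00 : t 0 0 = 0 := by simp [ht]
  have tnn : ∀ i ∈ range 7, ∀ j ∈ range 7, 0 ≤ t i j := by
    intro i hi j hj
    by_cases hij : i ≠ 0 ∨ j ≠ 0
    · exact mul_nonneg (cu_nonneg hi hj hij) (mon_nonneg h0 h1)
    · push Not at hij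
      rw [hij.1, hij.2, t00]
  have t10 : t 1 0 = 23 / 8 * x 0 ^ 2 := by simp [ht, cu, cc, LU]
  have t01 : t 0 1 = 23 / 8 * x 1 ^ 2 := by simp [ht, cu, cc, LU]
  have s1 : t 1 0 ≤ ∑ j ∈ range 7, t 1 j :=
    single_le_sum (f := fun j => t 1 j) (fun j hj => tnn 1 (by simp) j hj) (by simp)
  have s0 : t 0 1 ≤ ∑ j ∈ range 7, t 0 j :=
    single_le_sum (f := fun j => t 0 j) (fun j hj => tnn 0 (by simp) j hj) (by simp)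
  have hrow : ∀ i ∈ range 7, 0 ≤ ∑ j ∈ range 7, t i j :=
    fun i hi => sum_nonneg fun j hj => tnn i hi j hj
  have hsub : ∑ i ∈ ({0, 1} : Finset ℕ), ∑ j ∈ range 7, t i j ≤ ∑ i ∈ range 7, ∑ j ∈ range 7, t i j :=
    sum_le_sum_of_subset_of_nonneg (by intro i hi; simp at hi ⊢; omega) fun i hi _ => hrow i hi
  rw [sum_pair (by norm_num)] at hsub
  linarith

end POLL

open POLL in
theorem t_POL (h : S_PDR) : S_POL := by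
  refine ⟨?_, ?_, ?_, ?_⟩
  · rw [wF_eq]; exact contDiff_E2 _ _ _ _
  · rw [gF_eq]; exact contDiff_E2 _ _ _ _
  · exact fun s hs => ⟨fun a => pos_u h hs a, fun x hx => QF_pos h hs hx⟩
  · intro s hs
    have e := DL_eq h s
    have p := B4_pos (hs 0).1 (by linarith [(hs 0).2] : 0 ≤ 1 - s 0) (hs 1).1
      (by linarith [(hs 1).2] : 0 ≤ 1 - s 1) (by ring) (by ring)
    linarith

end Pool.Agent.H794.KM

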