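import Pool.Agent.H794.KM.Spec

/-!
Leaf POT of project KM: the complex Hessian of `F(s) + c ∑_x λ(z_x)`.
-/

namespace Pool.Agent.H794.KM

open MeasureTheory Set Filter Topology
open scoped ComplexOrder

namespace POTL

theorem dz_congr {ι : Type} [Fintype ι] [DecidableEq ι] (i : ι) {f g : (ι → ℂ) → ℂ} {p : ι → ℂ}
    (h : f =ᶠ[𝓝 p] g) : dz i f p = dz i g p := by
  unfold dz
  rw [h.fderiv_eq]

theorem dz_lin {ι κ : Type} [Fintype ι] [DecidableEq ι] [Fintype κ] (i : ι) (c : ℂ)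
    {f : (ι → ℂ) → ℂ} {g : κ → (ι → ℂ) → ℂ} {p : ι → ℂ}
    (hf : DifferentiableAt ℝ f p) (hg : ∀ x, DifferentiableAt ℝ (g x) p) :
    dz i (fun q => f q + c * ∑ x, g x q) p = dz i f p + c * ∑ x, dz i (g x) p := by
  have h : HasFDerivAt (fun q => f q + c * ∑ x, g x q)
      (fderiv ℝ f p + c • ∑ x, fderiv ℝ (g x) p) p :=
    hf.hasFDerivAt.add ((HasFDerivAt.fun_sum fun x _ => (hg x).hasFDerivAt).const_mul c)
  unfold dz
  rw [h.fderiv]
  simp only [add_apply, smul_apply, sum_apply, smul_eq_mul]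
  rw [← Finset.sum_div, Finset.sum_sub_distrib, ← Finset.mul_sum]
  ring

theorem dzbar_lin {ι κ : Type} [Fintype ι] [DecidableEq ι] [Fintype κ] (i : ι) (c : ℂ)
    {f : (ι → ℂ) → ℂ} {g : κ → (ι → ℂ) → ℂ} {p : ι → ℂ}
    (hf : DifferentiableAt ℝ f p) (hg : ∀ x, DifferentiableAt ℝ (g x) p) :
    dzbar i (fun q => f q + c * ∑ x, g x q) p = dzbar i f p + c * ∑ x, dzbar i (g x) p := by
  have h : HasFDerivAt (fun q => f q + c * ∑ x, g x q)
      (fderiv ℝ f p + c • ∑ x, fderiv ℝ (g x) p) p :=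
    hf.hasFDerivAt.add ((HasFDerivAt.fun_sum fun x _ => (hg x).hasFDerivAt).const_mul c)
  unfold dzbar
  rw [h.fderiv]
  simp only [add_apply, smul_apply, sum_apply, smul_eq_mul]
  rw [← Finset.sum_div, Finset.sum_add_distrib, ← Finset.mul_sum]
  ring

/-- `F ∘ s` is smooth on `X`. -/
theorem comp_smooth (h3 : S_SSD) {k : ℕ} {r : ℂ → ℝ} (hr : Hyp r) {F : (Fin 2 → ℝ) → ℝ}
    (hF : SmS F) {q : Ix k → ℂ} (hq : q ∈ XX k r) :
    ContDiffAt ℝ SM (fun q' => F (ss k r q')) q := by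
  have hs : ContDiffAt ℝ SM (fun q' => ss k r q') q :=
    contDiffAt_pi.2 fun a => ((h3 k r hr).2.2.2 q hq.1 a).2.1
  exact (hF _ ((h3 k r hr).2.2.1 q hq)).comp q hs

theorem comp_diff (h3 : S_SSD) {k : ℕ} {r : ℂ → ℝ} (hr : Hyp r) {F : (Fin 2 → ℝ) → ℝ}
    (hF : SmS F) {q : Ix k → ℂ} (hq : q ∈ XX k r) :
    DifferentiableAt ℝ (fun q' => ((F (ss k r q') : ℝ) : ℂ)) q := by
  have h := (comp_smooth h3 hr hF hq).differentiableAt (by simp)
  exact (Complex.ofRealCLM.differentiableAt).comp q h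

/-- the Wirtinger derivatives of `λ(z_x)` -/
theorem lam_HW (h1 : S_WIR) (h2 : S_BAS) {k : ℕ} {r : ℂ → ℝ} (hr : Hyp r) {q : Ix k → ℂ}
    (x : Fin 2 × Fin k) (hq : q (Sum.inl x) ∈ M) :
    HW (fun q' : Ix k → ℂ => ((lam k r (q' (Sum.inl x)) : ℝ) : ℂ)) q
      (fun i => if i = Sum.inl x then th k r (q (Sum.inl x)) else 0)
      (fun i => if i = Sum.inl x then (starRingEnd ℂ) (th k r (q (Sum.inl x))) else 0) :=
  (h1 (Ix k)).2.2.2.2.2 q (Sum.inl x) (fun w => ((lam k r w : ℝ) : ℂ)) _ _ (h2 k r hr _ hq).1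

/-- the Wirtinger derivatives of `conj θ(z_x)` -/
theorem th_HW (h1 : S_WIR) (h2 : S_BAS) {k : ℕ} {r : ℂ → ℝ} (hr : Hyp r) {q : Ix k → ℂ}
    (x : Fin 2 × Fin k) (hq : q (Sum.inl x) ∈ M) :
    ∃ b : Ix k → ℂ, HW (fun q' : Ix k → ℂ => (starRingEnd ℂ) (th k r (q' (Sum.inl x)))) q
      (fun i => (starRingEnd ℂ) (if i = Sum.inl x then ((bet k r (q (Sum.inl x)) : ℝ) : ℂ) else 0))
      b := by
  obtain ⟨t, ht⟩ := (h2 k r hr _ hq).2.1
  exact ⟨_, (h1 (Ix k)).2.2.2.2.1 _ _ _ _ ((h1 (Ix k)).2.2.2.2.2 q (Sum.inl x) (th k r) _ _ ht)⟩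

end POTL

open POTL in
/-- **POT.** The complex Hessian of `F(s) + c ∑_x λ(z_x)`. -/
theorem t_POT (h1 : S_WIR) (h2 : S_BAS) (h3 : S_SSD) (h4 : S_FRA) (h5 : S_HES) : S_POT := by
  intro k r hr F hF c p hp i j
  have hU : XX k r ∈ 𝓝 p := (h3 k r hr).1.mem_nhds hp
  -- the antiholomorphic derivative near `p`
  have e1 : (fun q => dzbar j (fun q' =>
      ((F (ss k r q') + c * ∑ x, lam k r (q' (Sum.inl x)) : ℝ) : ℂ)) q) =ᶠ[𝓝 p]
      (fun q => dzbar j (fun q' => ((F (ss k r q') : ℝ) : ℂ)) q +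
        (c : ℂ) * ∑ x : Fin 2 × Fin k,
          (if j = Sum.inl x then (starRingEnd ℂ) (th k r (q (Sum.inl x))) else 0)) := by
    filter_upwards [hU] with q hq
    have e2 : (fun q' : Ix k → ℂ =>
        ((F (ss k r q') + c * ∑ x, lam k r (q' (Sum.inl x)) : ℝ) : ℂ)) =
        fun q' => ((F (ss k r q') : ℝ) : ℂ) +
          (c : ℂ) * ∑ x : Fin 2 × Fin k, ((lam k r (q' (Sum.inl x)) : ℝ) : ℂ) := by
      funext q'
      push_cast
      rfl
    rw [e2, dzbar_lin j (c : ℂ) (comp_diff h3 hr hF hq)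
      (fun x => (lam_HW h1 h2 hr x (hq.1 x)).differentiableAt)]
    congr 2
    refine Finset.sum_congr rfl fun x _ => ?_
    exact ((h1 (Ix k)).1 _ _ _ _ (lam_HW h1 h2 hr x (hq.1 x)) j).2
  -- the terms with `λ`
  have e3 : ∀ x : Fin 2 × Fin k, DifferentiableAt ℝ (fun q : Ix k → ℂ =>
      (if j = Sum.inl x then (starRingEnd ℂ) (th k r (q (Sum.inl x))) else 0)) p ∧
      dz i (fun q : Ix k → ℂ =>
        (if j = Sum.inl x then (starRingEnd ℂ) (th k r (q (Sum.inl x))) else 0)) p =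
        if j = Sum.inl x then
          (if i = Sum.inl x then ((bet k r (p (Sum.inl x)) : ℝ) : ℂ) else 0) else 0 := by
    intro x
    obtain ⟨b, hb⟩ := th_HW h1 h2 hr x (hp.1 x)
    by_cases hj : j = Sum.inl x
    · simp only [hj, if_true]
      refine ⟨hb.differentiableAt, ?_⟩
      rw [((h1 (Ix k)).1 _ _ _ _ hb i).1]
      by_cases hi : i = Sum.inl x
      · simp [hi]
      · simp [hi]
    · simp only [hj, if_false]
      refine ⟨differentiableAt_const _, ?_⟩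
      unfold dz
      rw [fderiv_fun_const]
      simp
  rw [dz_congr i e1, dz_lin i (c : ℂ) (h5 k r hr F hF p hp i j).1 (fun x => (e3 x).1),
    (h5 k r hr F hF p hp i j).2, Finset.sum_congr rfl fun x _ => (e3 x).2,
    (h4 k (Tm k r p)).1, (h4 k (Tm k r p)).1]
  rw [add_right_comm]
  congr 1
  rcases i with x₀ | a
  · simp only [Sum.elim_inl]
    rw [Finset.sum_eq_single x₀]
    · by_cases hj : j = Sum.inl x₀
      · subst hj
        simp
      · rw [if_neg hj, if_neg fun h => hj h.1.symm, if_neg fun h => hj h.1.symm]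
        simp
    · intro x _ hx
      rw [if_neg (fun h : (Sum.inl x₀ : Ix k) = Sum.inl x => hx (Sum.inl_injective h).symm)]
      simp
    · intro h
      exact absurd (Finset.mem_univ _) h
  · simp

end Pool.Agent.H794.KM
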