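import Pool.Agent.H794.KM.Spec

set_option autoImplicit false

namespace Pool.Agent.H794.KM

open MeasureTheory Set Filter Topology
open scoped ComplexOrder

namespace REIL

set_option linter.unusedSectionVars false

variable {ι κ : Type} [Fintype ι] [DecidableEq ι] [Fintype κ] [DecidableEq κ]

/-- precomposition with `e` -/
noncomputable def E (e : ι ≃ κ) : (κ → ℂ) ≃L[ℝ] (ι → ℂ) where
  toFun q := fun i => q (e i)
  invFun p := fun k => p (e.symm k)
  left_inv q := by funext k; simp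
  right_inv p := by funext i; simp
  map_add' _ _ := rfl
  map_smul' _ _ := rfl
  continuous_toFun := continuous_pi fun i => continuous_apply (e i)
  continuous_invFun := continuous_pi fun k => continuous_apply (e.symm k)

theorem E_apply (e : ι ≃ κ) (q : κ → ℂ) (i : ι) : E e q i = q (e i) := rfl

theorem E_symm_apply (e : ι ≃ κ) (p : ι → ℂ) (k : κ) : (E e).symm p k = p (e.symm k) := rfl

theorem E_single (e : ι ≃ κ) (k : κ) (c : ℂ) :
    E e (Pi.single k c) = Pi.single (e.symm k) c := by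
  funext i
  rw [E_apply]
  by_cases h : e i = k
  · subst h
    simp
  · have h' : i ≠ e.symm k := fun hh => h (by rw [hh]; simp)
    rw [Pi.single_eq_of_ne h, Pi.single_eq_of_ne h']

theorem E_measurePreserving (e : ι ≃ κ) :
    MeasurePreserving (E e) (volume : Measure (κ → ℂ)) (volume : Measure (ι → ℂ)) := by
  have h := volume_measurePreserving_piCongrLeft (fun _ : ι => ℂ) e.symm
  have h2 : (E e : (κ → ℂ) → (ι → ℂ)) = MeasurableEquiv.piCongrLeft (fun _ : ι => ℂ) e.symm := by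
    funext q i
    rw [E_apply]
    have := MeasurableEquiv.piCongrLeft_apply_apply (β := fun _ : ι => ℂ) e.symm q (e i)
    simpa using this.symm
  rw [h2]
  exact h

theorem E_measurableEmbedding (e : ι ≃ κ) : MeasurableEmbedding (E e) :=
  (E e).toHomeomorph.measurableEmbedding

theorem dz_E (e : ι ≃ κ) (f : (ι → ℂ) → ℂ) (k : κ) (q : κ → ℂ) :
    dz k (fun q => f (E e q)) q = dz (e.symm k) f (E e q) := by
  have h : fderiv ℝ (fun q => f (E e q)) q = (fderiv ℝ f (E e q)).comp (E e : (κ → ℂ) →L[ℝ] (ι → ℂ)) :=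
    (E e).comp_right_fderiv
  unfold dz
  rw [h]
  simp only [ContinuousLinearMap.comp_apply, ContinuousLinearEquiv.coe_coe, E_single]

theorem dzbar_E (e : ι ≃ κ) (f : (ι → ℂ) → ℂ) (k : κ) (q : κ → ℂ) :
    dzbar k (fun q => f (E e q)) q = dzbar (e.symm k) f (E e q) := by
  have h : fderiv ℝ (fun q => f (E e q)) q = (fderiv ℝ f (E e q)).comp (E e : (κ → ℂ) →L[ℝ] (ι → ℂ)) :=
    (E e).comp_right_fderiv
  unfold dzbar
  rw [h]
  simp only [ContinuousLinearMap.comp_apply, ContinuousLinearEquiv.coe_coe, E_single]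

/-- the transported metric -/
noncomputable def tr (e : ι ≃ κ) (g : (ι → ℂ) → Matrix ι ι ℂ) (q : κ → ℂ) : Matrix κ κ ℂ :=
  (g (E e q)).submatrix e.symm e.symm

theorem tr_apply (e : ι ≃ κ) (g : (ι → ℂ) → Matrix ι ι ℂ) (q : κ → ℂ) (k l : κ) :
    tr e g q k l = g (E e q) (e.symm k) (e.symm l) := rfl

theorem tr_det (e : ι ≃ κ) (g : (ι → ℂ) → Matrix ι ι ℂ) (q : κ → ℂ) :
    (tr e g q).det = (g (E e q)).det := Matrix.det_submatrix_equiv_self _ _

theorem tr_kahler (e : ι ≃ κ) {X : Set (ι → ℂ)} {g : (ι → ℂ) → Matrix ι ι ℂ}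
    (h : IsKahler X g) : IsKahler (E e ⁻¹' X) (tr e g) where
  smooth k l := by
    have := h.smooth (e.symm k) (e.symm l)
    exact this.comp (E e).contDiff.contDiffOn (fun q hq => hq)
  posDef q hq := (h.posDef _ hq).submatrix e.symm.injective
  closed q hq k l m := by
    have := h.closed (E e q) hq (e.symm k) (e.symm l) (e.symm m)
    have h1 := dz_E e (fun p => g p (e.symm k) (e.symm l)) m q
    have h2 := dz_E e (fun p => g p (e.symm m) (e.symm l)) k q
    exact (h1.trans this).trans h2.symm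

theorem tr_ricci (e : ι ≃ κ) (g : (ι → ℂ) → Matrix ι ι ℂ) (q : κ → ℂ) :
    ricci (tr e g) q = (ricci g (E e q)).submatrix e.symm e.symm := by
  funext k l
  have h0 : (fun q => ((Real.log ((tr e g) q).det.re : ℝ) : ℂ)) =
      fun q => (fun p => ((Real.log (g p).det.re : ℝ) : ℂ)) (E e q) := by
    funext q
    simp only [tr_det]
  have h1 : (dzbar l fun q => ((Real.log ((tr e g) q).det.re : ℝ) : ℂ)) =
      fun q => (dzbar (e.symm l) fun p => ((Real.log (g p).det.re : ℝ) : ℂ)) (E e q) := by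
    funext q
    rw [h0]
    exact dzbar_E e (fun p => ((Real.log (g p).det.re : ℝ) : ℂ)) l q
  show - dz k (dzbar l fun q => ((Real.log ((tr e g) q).det.re : ℝ) : ℂ)) q = _
  rw [h1, dz_E]
  rfl

theorem tr_normSq (e : ι ≃ κ) (g : (ι → ℂ) → Matrix ι ι ℂ) (q v : κ → ℂ) :
    normSq (tr e g) q v = normSq g (E e q) (E e v) := by
  unfold normSq
  congr 2
  rw [← Equiv.sum_comp e]
  refine Finset.sum_congr rfl fun i _ => ?_
  rw [← Equiv.sum_comp e]
  refine Finset.sum_congr rfl fun j _ => ?_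
  simp [tr_apply, E_apply]

theorem tr_pathLength (e : ι ≃ κ) (g : (ι → ℂ) → Matrix ι ι ℂ) (c : ℝ → κ → ℂ) :
    pathLength (tr e g) c = pathLength g (fun t => E e (c t)) := by
  unfold pathLength
  refine intervalIntegral.integral_congr fun t _ => ?_
  have h : deriv (fun t => E e (c t)) t = E e (deriv c t) := by
    have h1 : fderiv ℝ (E e ∘ c) t = (E e : (κ → ℂ) →L[ℝ] (ι → ℂ)).comp (fderiv ℝ c t) :=
      (E e).comp_fderiv
    have h2 : deriv (fun t => E e (c t)) t = fderiv ℝ (E e ∘ c) t 1 := rfl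
    rw [h2, h1]
    rfl
  show Real.sqrt (normSq (tr e g) (c t) (deriv c t)) =
    Real.sqrt (normSq g (E e (c t)) (deriv (fun t => E e (c t)) t))
  rw [h, tr_normSq]

theorem tr_riemDist (e : ι ≃ κ) (X : Set (ι → ℂ)) (g : (ι → ℂ) → Matrix ι ι ℂ) (p q : κ → ℂ) :
    riemDist (E e ⁻¹' X) (tr e g) p q = riemDist X g (E e p) (E e q) := by
  unfold riemDist
  congr 1
  ext r
  constructor
  · rintro ⟨c, ⟨hc1, hc2, hc3, hc4⟩, rfl⟩
    refine ⟨fun t => E e (c t), ⟨(E e).contDiff.comp hc1, ?_, ?_, fun t ht => hc4 t ht⟩, ?_⟩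
    · show E e (c 0) = _
      rw [hc2]
    · show E e (c 1) = _
      rw [hc3]
    · exact (tr_pathLength e g c).symm
  · rintro ⟨c, ⟨hc1, hc2, hc3, hc4⟩, rfl⟩
    refine ⟨fun t => (E e).symm (c t), ⟨(E e).symm.contDiff.comp hc1, ?_, ?_, fun t ht => ?_⟩, ?_⟩
    · show (E e).symm (c 0) = _
      rw [hc2]
      simp
    · show (E e).symm (c 1) = _
      rw [hc3]
      simp
    · show E e ((E e).symm (c t)) ∈ X
      rw [ContinuousLinearEquiv.apply_symm_apply]
      exact hc4 t ht
    · rw [tr_pathLength]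
      congr 1
      funext t
      rw [ContinuousLinearEquiv.apply_symm_apply]

theorem tr_complete (e : ι ≃ κ) {X : Set (ι → ℂ)} {g : (ι → ℂ) → Matrix ι ι ℂ}
    (h : IsCompleteMetric X g) : IsCompleteMetric (E e ⁻¹' X) (tr e g) := by
  intro s hs hc
  obtain ⟨p, hp, hl⟩ := h (fun m => E e (s m)) (fun m => hs m) (by
    intro ε hε
    obtain ⟨m₀, hm⟩ := hc ε hε
    refine ⟨m₀, fun m h1 k h2 => ?_⟩
    rw [← tr_riemDist]
    exact hm m h1 k h2)
  refine ⟨(E e).symm p, ?_, ?_⟩
  · show E e ((E e).symm p) ∈ X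
    rw [ContinuousLinearEquiv.apply_symm_apply]
    exact hp
  · have : (fun m => riemDist (E e ⁻¹' X) (tr e g) (s m) ((E e).symm p)) =
        fun m => riemDist X g (E e (s m)) p := by
      funext m
      rw [tr_riemDist, ContinuousLinearEquiv.apply_symm_apply]
    rw [this]
    exact hl

theorem tr_Kcal (e : ι ≃ κ) {X : Set (ι → ℂ)} {g : (ι → ℂ) → Matrix ι ι ℂ}
    (h : g ∈ Kcal X) : tr e g ∈ Kcal (E e ⁻¹' X) := by
  refine ⟨tr_kahler e h.1, tr_complete e h.2.1, fun q hq => ?_⟩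
  have h1 := (h.2.2 (E e q) hq).submatrix e.symm
  rw [tr_ricci]
  exact h1

theorem tr_KE (e : ι ≃ κ) {X : Set (ι → ℂ)} {g : (ι → ℂ) → Matrix ι ι ℂ}
    (h : IsKE X g) : IsKE (E e ⁻¹' X) (tr e g) := by
  intro q hq
  rw [tr_ricci, h (E e q) hq]
  rfl

theorem tr_gradSq (e : ι ≃ κ) (g : (ι → ℂ) → Matrix ι ι ℂ) (f : (ι → ℂ) → ℝ) (q : κ → ℂ) :
    gradSq (tr e g) (fun q => f (E e q)) q = gradSq g f (E e q) := by
  unfold gradSq
  have hinv : (tr e g q)⁻¹ = ((g (E e q))⁻¹).submatrix e.symm e.symm :=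
    Matrix.inv_submatrix_equiv _ _ _
  rw [hinv]
  congr 2
  have hd : ∀ k, dz k (fun q => ((f (E e q) : ℝ) : ℂ)) q =
      dz (e.symm k) (fun p => ((f p : ℝ) : ℂ)) (E e q) :=
    fun k => dz_E e (fun p => ((f p : ℝ) : ℂ)) k q
  simp only [hd]
  rw [← Equiv.sum_comp e]
  refine Finset.sum_congr rfl fun i _ => ?_
  rw [← Equiv.sum_comp e]
  refine Finset.sum_congr rfl fun j _ => ?_
  simp

theorem tr_vol (e : ι ≃ κ) (g : (ι → ℂ) → Matrix ι ι ℂ) (q : κ → ℂ) :
    vol (tr e g) q = vol g (E e q) := by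
  unfold vol
  rw [tr_det, Fintype.card_congr e]

theorem setIntegral_E (e : ι ≃ κ) (X : Set (ι → ℂ)) (h : (ι → ℂ) → ℝ) :
    ∫ q in E e ⁻¹' X, h (E e q) = ∫ p in X, h p :=
  (E_measurePreserving e).setIntegral_preimage_emb (E_measurableEmbedding e) h X

theorem tr_bottom (e : ι ≃ κ) (X : Set (ι → ℂ)) (g : (ι → ℂ) → Matrix ι ι ℂ) :
    bottom (E e ⁻¹' X) (tr e g) = bottom X g := by
  unfold bottom
  congr 1
  have key : ∀ f : (ι → ℂ) → ℝ,
      (∫ q in E e ⁻¹' X, gradSq (tr e g) (fun q => f (E e q)) q * vol (tr e g) q) /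
        (∫ q in E e ⁻¹' X, f (E e q) ^ 2 * vol (tr e g) q) =
      (∫ p in X, gradSq g f p * vol g p) / ∫ p in X, f p ^ 2 * vol g p := by
    intro f
    congr 1
    · rw [← setIntegral_E e X (fun p => gradSq g f p * vol g p)]
      congr 1
      funext q
      rw [tr_gradSq, tr_vol]
    · rw [← setIntegral_E e X (fun p => f p ^ 2 * vol g p)]
      congr 1
      funext q
      rw [tr_vol]
  ext r
  constructor
  · rintro ⟨f, h1, h2, h3, h4, h5⟩
    have hf : f = fun q => (fun p => f ((E e).symm p)) (E e q) := by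
      funext q
      simp
    refine ⟨fun p => f ((E e).symm p), h1.comp (E e).symm.contDiff, ?_, ?_, ?_, ?_⟩
    · exact h2.comp_homeomorph (E e).symm.toHomeomorph
    · intro p hp
      have hp' : (E e).symm p ∈ tsupport f := by
        have := tsupport_comp_eq_preimage f (E e).symm.toHomeomorph
        have h6 : tsupport (fun p => f ((E e).symm p)) = (E e).symm ⁻¹' tsupport f := this
        rw [h6] at hp
        exact hp
      have := h3 hp'
      have h7 : E e ((E e).symm p) ∈ X := this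
      rwa [ContinuousLinearEquiv.apply_symm_apply] at h7
    · intro h0
      apply h4
      rw [hf, h0]
      rfl
    · rw [h5, ← key (fun p => f ((E e).symm p))]
      simp only [ContinuousLinearEquiv.symm_apply_apply]
  · rintro ⟨f, h1, h2, h3, h4, h5⟩
    refine ⟨fun q => f (E e q), h1.comp (E e).contDiff, ?_, ?_, ?_, ?_⟩
    · exact h2.comp_homeomorph (E e).toHomeomorph
    · intro q hq
      have := tsupport_comp_eq_preimage f (E e).toHomeomorph
      have h6 : tsupport (fun q => f (E e q)) = E e ⁻¹' tsupport f := this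
      rw [h6] at hq
      exact h3 hq
    · intro h0
      apply h4
      funext p
      have := congrFun h0 ((E e).symm p)
      simpa using this
    · rw [h5, ← key f]

end REIL

open REIL in
theorem t_REI : S_REI := by
  intro ι κ _ _ _ _ e ⟨X, g₀, g₁, h1, h2, h3, h4, h5, h6, h7⟩
  refine ⟨E e ⁻¹' X, tr e g₀, tr e g₁, h1.preimage (E e).continuous, ?_, ?_, tr_Kcal e h4,
    tr_KE e h5, tr_Kcal e h6, ?_⟩
  · have : E e ⁻¹' X = (E e).symm '' X := by
      rw [ContinuousLinearEquiv.image_symm_eq_preimage]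
    rw [this]
    exact h2.image _ (E e).symm.continuous.continuousOn
  · intro hc
    apply h3
    have : X = E e '' (E e ⁻¹' X) := by
      rw [Set.image_preimage_eq _ (E e).surjective]
    rw [this]
    exact hc.image (E e).continuous
  · rw [tr_bottom, tr_bottom]
    exact h7

end Pool.Agent.H794.KM
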