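import Pool.Agent.H794.KM.Spec

namespace Pool.Agent.H794.KM

open MeasureTheory Set Filter Topology
open scoped ComplexOrder

namespace RICL

theorem dd_congr {ι : Type} [Fintype ι] [DecidableEq ι] {f g : (ι → ℂ) → ℂ} {p : ι → ℂ}
    (h : f =ᶠ[𝓝 p] g) (i j : ι) : dz i (dzbar j f) p = dz i (dzbar j g) p := by
  have h1 : dzbar j f =ᶠ[𝓝 p] dzbar j g := by
    filter_upwards [h.fderiv (𝕜 := ℝ)] with q hq
    simp only [dzbar, hq]
  simp only [dz, h1.fderiv_eq]

theorem dzbar_sub_const {ι : Type} [Fintype ι] [DecidableEq ι] (f : (ι → ℂ) → ℂ) (c : ℂ) (j : ι) :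
    dzbar j (fun q => f q - c) = dzbar j f := by
  funext q
  simp only [dzbar, fderiv_sub_const]

theorem ev_diff {F : (Fin 2 → ℝ) → ℝ} {s : Fin 2 → ℝ} (h : ContDiffAt ℝ SM F s) :
    ∀ᶠ s' in 𝓝 s, DifferentiableAt ℝ F s' := by
  have h1 : ContDiffAt ℝ 1 F s := h.of_le (by
    show ((1 : ℕ∞) : WithTop ℕ∞) ≤ ((⊤ : ℕ∞) : WithTop ℕ∞)
    exact_mod_cast (le_top : (1 : ℕ∞) ≤ ⊤))
  filter_upwards [h1.eventually (by simp)] with s' hs'
  exact hs'.differentiableAt (by norm_num)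

theorem pd_sub (h1 : S_PDR) {F G : (Fin 2 → ℝ) → ℝ} {s : Fin 2 → ℝ}
    (hF : DifferentiableAt ℝ F s) (hG : DifferentiableAt ℝ G s) (a : Fin 2) :
    pd a (fun s' => F s' - G s') s = pd a F s - pd a G s :=
  ((h1 F G s a a).2.2.2.2.1 hF hG).2.1

theorem pd_sub2 (h1 : S_PDR) {F G : (Fin 2 → ℝ) → ℝ} {s : Fin 2 → ℝ}
    (hF : ContDiffAt ℝ SM F s) (hG : ContDiffAt ℝ SM G s) (a b : Fin 2) :
    pd b (pd a (fun s' => F s' - G s')) s = pd b (pd a F) s - pd b (pd a G) s := by
  have e : pd a (fun s' => F s' - G s') =ᶠ[𝓝 s] fun s' => pd a F s' - pd a G s' := by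
    filter_upwards [ev_diff hF, ev_diff hG] with s' h2 h3
    exact pd_sub h1 h2 h3 a
  rw [(h1 (pd a (fun s' => F s' - G s')) (fun s' => pd a F s' - pd a G s') s b b).2.1 e]
  have hF' := ((h1 F F s a a).2.2.2.2.2.2.1 hF).2.1
  have hG' := ((h1 G G s a a).2.2.2.2.2.2.1 hG).2.1
  exact pd_sub h1 (ev_diff hF').self_of_nhds (ev_diff hG').self_of_nhds b

end RICL

open RICL

theorem t_RIC (h1 : S_PDR) (h2 : S_SSD) (h3 : S_FRA) (h4 : S_POT) (h5 : S_DET) : S_RIC := by
  intro k r hr F hF p hp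
  obtain ⟨-, hU, hdet⟩ := h5 k r hr F hF
  have hN : SmS (NN k F) := by
    intro s hs
    have : NN k F = fun s' => F s' - UU k F s' := by
      funext s'; simp [UU]
    rw [this]
    exact (hF.sm s hs).sub (hU s hs)
  have hs : ss k r p ∈ Sq := (h2 k r hr).2.2.1 p hp
  have hUd : UU k F = fun s' => F s' - NN k F s' := rfl
  have p1 : ∀ a, pd a (UU k F) (ss k r p) = pd a F (ss k r p) - pd a (NN k F) (ss k r p) := by
    intro a
    rw [hUd]
    exact pd_sub h1 (ev_diff (hF.sm _ hs)).self_of_nhds (ev_diff (hN _ hs)).self_of_nhds a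
  have p2 : ∀ a b, pd b (pd a (UU k F)) (ss k r p) =
      pd b (pd a F) (ss k r p) - pd b (pd a (NN k F)) (ss k r p) := by
    intro a b
    rw [hUd]
    exact pd_sub2 h1 (hF.sm _ hs) (hN _ hs) a b
  have hEU : ∀ x, hE k r (UU k F) p x = hE k r F p x - hE k r (NN k F) p x := by
    intro x
    simp only [hE, p1]
    ring
  have hGU : ∀ a b, hG k r (UU k F) p a b = hG k r F p a b - hG k r (NN k F) p a b := by
    intro a b
    simp only [hG, Matrix.of_apply, p1, p2]
    split_ifs <;> push_cast <;> ring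
  have hgm : gm k r F p = frame (Tm k r p)
      (fun x => hE k r F p x + ((k : ℝ) + 2) * bet k r (p (Sum.inl x))) (hG k r F p) := by
    unfold gm
    congr 1
    funext x
    simp only [hE]
    ring
  have hric : ∀ i j, ricci (gm k r F) p i j = - frame (Tm k r p)
      (fun x => hE k r (NN k F) p x + ((k : ℝ) + 2) * bet k r (p (Sum.inl x)))
      (hG k r (NN k F) p) i j := by
    intro i j
    have e : (fun q => ((Real.log (gm k r F q).det.re : ℝ) : ℂ)) =ᶠ[𝓝 p]
        fun q => ((NN k F (ss k r q) + ((k : ℝ) + 2) * ∑ x, lam k r (q (Sum.inl x)) : ℝ) : ℂ) -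
          ((2 * k * Real.log (2 * ((k : ℝ) + 1)) : ℝ) : ℂ) := by
      filter_upwards [(h2 k r hr).1.mem_nhds hp] with q hq
      rw [(hdet q hq).2.2]
      push_cast
      ring
    have e2 : ricci (gm k r F) p i j =
        - dz i (dzbar j (fun q => ((Real.log (gm k r F q).det.re : ℝ) : ℂ))) p := rfl
    rw [e2, dd_congr e, dzbar_sub_const]
    congr 1
    exact h4 k r hr (NN k F) hN ((k : ℝ) + 2) p hp i j
  have hfr := (h3 k (Tm k r p)).1
  ext i j
  rw [Matrix.add_apply, hric, hgm, hfr, hfr, hfr]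
  have g1 : ∑ a, ∑ b, hG k r (UU k F) p a b * cof (Tm k r p) a i *
      (starRingEnd ℂ) (cof (Tm k r p) b j) =
      (∑ a, ∑ b, hG k r F p a b * cof (Tm k r p) a i * (starRingEnd ℂ) (cof (Tm k r p) b j)) -
      ∑ a, ∑ b, hG k r (NN k F) p a b * cof (Tm k r p) a i *
        (starRingEnd ℂ) (cof (Tm k r p) b j) := by
    rw [← Finset.sum_sub_distrib]
    refine Finset.sum_congr rfl fun a _ => ?_
    rw [← Finset.sum_sub_distrib]
    refine Finset.sum_congr rfl fun b _ => ?_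
    rw [hGU]
    ring
  rw [g1]
  rcases i with x | a
  · simp only [Sum.elim_inl]
    split_ifs
    · rw [hEU]
      push_cast
      ring
    · ring
  · simp only [Sum.elim_inr]
    ring

end Pool.Agent.H794.KM
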