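import Pool.Agent.H794.KM.Spec

namespace Pool.Agent.H794.KM

open MeasureTheory Set Filter Topology
open scoped ComplexOrder

namespace SSDL

section gen

variable {ι : Type} [Fintype ι]

lemma HWc {f g : (ι → ℂ) → ℂ} {p a b a' b' : ι → ℂ} (h : HW f p a b)
    (hf : ∀ q, f q = g q) (ha : ∀ i, a i = a' i) (hb : ∀ i, b i = b' i) : HW g p a' b' := by
  obtain rfl : f = g := funext hf
  obtain rfl : a = a' := funext ha
  obtain rfl : b = b' := funext hb
  exact h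

lemma wL_apply (a b v : ι → ℂ) :
    wL a b v = ∑ i, (a i * v i + b i * (starRingEnd ℂ) (v i)) := by
  unfold wL
  rw [_root_.sum_apply]
  refine Finset.sum_congr rfl fun i _ => ?_
  simp [wl]

lemma wL_smul (c : ℂ) (a b : ι → ℂ) : c • wL a b = wL (fun i => c * a i) (fun i => c * b i) := by
  ext v
  rw [_root_.smul_apply, wL_apply, wL_apply, smul_eq_mul, Finset.mul_sum]
  exact Finset.sum_congr rfl fun i _ => by ring

lemma wL_sum {α : Type} (s : Finset α) (a b : α → ι → ℂ) :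
    ∑ j ∈ s, wL (a j) (b j) = wL (fun i => ∑ j ∈ s, a j i) (fun i => ∑ j ∈ s, b j i) := by
  ext v
  rw [_root_.sum_apply, wL_apply]
  simp only [wL_apply]
  rw [Finset.sum_comm]
  refine Finset.sum_congr rfl fun i _ => ?_
  rw [Finset.sum_add_distrib, Finset.sum_mul, Finset.sum_mul]

end gen

lemma M_open : IsOpen M := by
  have : M = {(0 : ℂ)}ᶜ ∩ {(1 : ℂ)}ᶜ := by
    ext z
    simp [M]
  rw [this]
  exact isOpen_compl_singleton.inter isOpen_compl_singleton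

lemma U_open (k : ℕ) : IsOpen {p : Ix k → ℂ | ∀ x, p (Sum.inl x) ∈ M} := by
  have : {p : Ix k → ℂ | ∀ x, p (Sum.inl x) ∈ M} = ⋂ x, (fun p : Ix k → ℂ => p (Sum.inl x)) ⁻¹' M := by
    ext p
    simp
  rw [this]
  exact isOpen_iInter_of_finite fun x => M_open.preimage (continuous_apply _)

lemma hh_pos (k : ℕ) (r : ℂ → ℝ) (p : Ix k → ℂ) (a : Fin 2) : 0 < hh k r p a := Real.exp_pos _

lemma ss_nonneg (k : ℕ) (r : ℂ → ℝ) (p : Ix k → ℂ) (a : Fin 2) : 0 ≤ ss k r p a :=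
  mul_nonneg (sq_nonneg _) (hh_pos k r p a).le

/-- the `dz`-components of `∂ log h_a` -/
noncomputable def BB (k : ℕ) (r : ℂ → ℝ) (p : Ix k → ℂ) (a : Fin 2) : Ix k → ℂ :=
  Sum.elim (fun x => if x.1 = a then th k r (p (Sum.inl x)) else 0) (fun _ => 0)

lemma BB_sum (k : ℕ) (r : ℂ → ℝ) (p : Ix k → ℂ) (a : Fin 2) (i : Ix k) :
    ∑ j : Fin k, (if i = Sum.inl (a, j) then th k r (p (Sum.inl (a, j))) else 0) = BB k r p a i := by
  unfold BB
  rcases i with ⟨a', j'⟩ | b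
  · by_cases h : a' = a
    · subst h
      simp
    · simp [h]
  · simp

lemma BB_sum' (k : ℕ) (r : ℂ → ℝ) (p : Ix k → ℂ) (a : Fin 2) (i : Ix k) :
    ∑ j : Fin k, (if i = Sum.inl (a, j) then (starRingEnd ℂ) (th k r (p (Sum.inl (a, j)))) else 0) =
      (starRingEnd ℂ) (BB k r p a i) := by
  rw [← BB_sum, map_sum]
  refine Finset.sum_congr rfl fun j _ => ?_
  split_ifs
  · rfl
  · simp

lemma cof_eq (k : ℕ) (r : ℂ → ℝ) (p : Ix k → ℂ) (a : Fin 2) (i : Ix k) :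
    cof (Tm k r p) a i = p (Sum.inr a) * BB k r p a i + (if i = Sum.inr a then 1 else 0) := by
  unfold cof BB Tm
  rcases i with x | b
  · simp
  · simp [eq_comm]

section main

variable {k : ℕ} {r : ℂ → ℝ} (h1 : S_WIR) (h2 : S_BAS) (hr : Hyp r)
include h1 h2 hr

lemma hhW {p : Ix k → ℂ} (hp : ∀ x, p (Sum.inl x) ∈ M) (a : Fin 2) :
    HW (fun q => ((hh k r q a : ℝ) : ℂ)) p (fun i => (hh k r p a : ℂ) * BB k r p a i)
      (fun i => (hh k r p a : ℂ) * (starRingEnd ℂ) (BB k r p a i)) := by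
  obtain ⟨-, -, -, -, -, w6⟩ := h1 (Ix k)
  have e : ∀ q : Ix k → ℂ, ((hh k r q a : ℝ) : ℂ) =
      Complex.exp (∑ j, ((lam k r (q (Sum.inl (a, j))) : ℝ) : ℂ)) := by
    intro q
    unfold hh
    push_cast
    rfl
  have h3 : ∀ j : Fin k, HW (fun q : Ix k → ℂ => ((lam k r (q (Sum.inl (a, j))) : ℝ) : ℂ)) p
      (fun i => if i = Sum.inl (a, j) then th k r (p (Sum.inl (a, j))) else 0)
      (fun i => if i = Sum.inl (a, j) then (starRingEnd ℂ) (th k r (p (Sum.inl (a, j)))) else 0) :=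
    fun j => w6 p (Sum.inl (a, j)) (fun w => ((lam k r w : ℝ) : ℂ)) _ _
      (h2 k r hr (p (Sum.inl (a, j))) (hp _)).1
  have h4 : HasFDerivAt (fun q : Ix k → ℂ => ∑ j, ((lam k r (q (Sum.inl (a, j))) : ℝ) : ℂ))
      (∑ j : Fin k, wL (fun i => if i = Sum.inl (a, j) then th k r (p (Sum.inl (a, j))) else 0)
      (fun i => if i = Sum.inl (a, j) then (starRingEnd ℂ) (th k r (p (Sum.inl (a, j)))) else 0)) p :=
    HasFDerivAt.fun_sum fun j _ => h3 j
  have h5 := h4.cexp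
  rw [wL_sum, wL_smul] at h5
  refine HWc h5 (fun q => (e q).symm) (fun i => ?_) (fun i => ?_)
  · rw [BB_sum, ← e]
  · rw [BB_sum', ← e]

omit h2 hr in
lemma vW (p : Ix k → ℂ) (a : Fin 2) : HW (fun q : Ix k → ℂ => q (Sum.inr a)) p
    (fun i => if i = Sum.inr a then 1 else 0) (fun _ => 0) := by
  obtain ⟨-, -, -, -, -, w6⟩ := h1 (Ix k)
  have h3 : HasFDerivAt (fun z : ℂ => z) (wl 1 0) (p (Sum.inr a)) := by
    have e : (wl 1 0 : ℂ →L[ℝ] ℂ) = ContinuousLinearMap.id ℝ ℂ := by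
      ext v
      simp [wl]
    rw [e]
    exact hasFDerivAt_id _
  exact HWc (w6 p (Sum.inr a) (fun z => z) 1 0 h3) (fun _ => rfl) (fun _ => rfl) (fun i => by simp)

omit h2 hr in
lemma vbW (p : Ix k → ℂ) (a : Fin 2) : HW (fun q : Ix k → ℂ => (starRingEnd ℂ) (q (Sum.inr a))) p
    (fun _ => 0) (fun i => if i = Sum.inr a then 1 else 0) := by
  obtain ⟨-, -, -, -, w5, -⟩ := h1 (Ix k)
  refine HWc (w5 _ p _ _ (vW h1 p a)) (fun _ => rfl) (fun i => by simp) (fun i => ?_)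
  split_ifs <;> simp

/-- `h_a v_a` -/
lemma hvW {p : Ix k → ℂ} (hp : ∀ x, p (Sum.inl x) ∈ M) (a : Fin 2) :
    HW (fun q => ((hh k r q a : ℝ) : ℂ) * q (Sum.inr a)) p
      (fun i => (hh k r p a : ℂ) * cof (Tm k r p) a i)
      (fun i => (hh k r p a : ℂ) * p (Sum.inr a) * (starRingEnd ℂ) (BB k r p a i)) := by
  obtain ⟨-, -, -, w4, -, -⟩ := h1 (Ix k)
  refine HWc (w4 _ _ p _ _ _ _ (hhW h1 h2 hr hp a) (vW h1 p a)) (fun _ => rfl) (fun i => ?_)
    (fun i => ?_)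
  · rw [cof_eq]
    ring
  · ring

lemma ssW {p : Ix k → ℂ} (hp : ∀ x, p (Sum.inl x) ∈ M) (a : Fin 2) :
    HW (fun q => ((ss k r q a : ℝ) : ℂ)) p
      (fun i => (hh k r p a : ℂ) * (starRingEnd ℂ) (p (Sum.inr a)) * cof (Tm k r p) a i)
      (fun i => (hh k r p a : ℂ) * p (Sum.inr a) * (starRingEnd ℂ) (cof (Tm k r p) a i)) := by
  obtain ⟨-, -, -, w4, -, -⟩ := h1 (Ix k)
  refine HWc (w4 _ _ p _ _ _ _ (hvW h1 h2 hr hp a) (vbW h1 p a)) (fun q => ?_) (fun i => ?_)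
    (fun i => ?_)
  · unfold ss
    push_cast
    rw [← Complex.mul_conj']
    ring
  · ring
  · rw [cof_eq, map_add, map_mul, apply_ite (starRingEnd ℂ)]
    simp only [map_one, map_zero]
    ring

lemma dzb_ss {q : Ix k → ℂ} (hq : ∀ x, q (Sum.inl x) ∈ M) (a : Fin 2) (j : Ix k) :
    dzbar j (fun q' => ((ss k r q' a : ℝ) : ℂ)) q =
      (hh k r q a : ℂ) * q (Sum.inr a) * (starRingEnd ℂ) (cof (Tm k r q) a j) := by
  obtain ⟨w1, -, -, -, -, -⟩ := h1 (Ix k)
  exact (w1 _ _ _ _ (ssW h1 h2 hr hq a) j).2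

lemma dd_ss {p : Ix k → ℂ} (hp : ∀ x, p (Sum.inl x) ∈ M) (a : Fin 2) (j : Ix k) :
    ∃ b : Ix k → ℂ, HW (fun q => dzbar j (fun q' => ((ss k r q' a : ℝ) : ℂ)) q) p
      (fun i => (hh k r p a : ℂ) * cof (Tm k r p) a i * (starRingEnd ℂ) (cof (Tm k r p) a j) +
        Sum.elim (fun x => if i = j ∧ i = Sum.inl x ∧ x.1 = a then
          ((ss k r p a * bet k r (p (Sum.inl x)) : ℝ) : ℂ) else 0) (fun _ => 0) i) b := by
  have hev : (fun q => dzbar j (fun q' => ((ss k r q' a : ℝ) : ℂ)) q) =ᶠ[𝓝 p]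
      fun q => ((hh k r q a : ℝ) : ℂ) * q (Sum.inr a) * (starRingEnd ℂ) (cof (Tm k r q) a j) := by
    filter_upwards [(U_open k).mem_nhds hp] with q hq
    exact dzb_ss h1 h2 hr hq a j
  suffices h : ∃ b : Ix k → ℂ, HW (fun q => ((hh k r q a : ℝ) : ℂ) * q (Sum.inr a) *
      (starRingEnd ℂ) (cof (Tm k r q) a j)) p
      (fun i => (hh k r p a : ℂ) * cof (Tm k r p) a i * (starRingEnd ℂ) (cof (Tm k r p) a j) +
        Sum.elim (fun x => if i = j ∧ i = Sum.inl x ∧ x.1 = a then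
          ((ss k r p a * bet k r (p (Sum.inl x)) : ℝ) : ℂ) else 0) (fun _ => 0) i) b by
    obtain ⟨b, hb⟩ := h
    exact ⟨b, HasFDerivAt.congr_of_eventuallyEq hb hev⟩
  obtain ⟨-, -, -, w4, w5, w6⟩ := h1 (Ix k)
  have hv := hvW h1 h2 hr hp a
  rcases j with x | b
  · by_cases hx : x.1 = a
    · obtain ⟨t, ht⟩ := (h2 k r hr (p (Sum.inl x)) (hp x)).2.1
      have h3 := w5 _ p _ _ (w6 p (Sum.inl x) (th k r) _ _ ht)
      have h4 := w4 _ _ p _ _ _ _ (w4 _ _ p _ _ _ _ hv (vbW h1 p a)) h3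
      refine ⟨_, HWc h4 (fun q => ?_) (fun i => ?_) (fun i => rfl)⟩
      · have e : cof (Tm k r q) a (Sum.inl x) = q (Sum.inr a) * th k r (q (Sum.inl x)) := by
          rw [cof_eq]
          simp [BB, hx]
        rw [e, map_mul]
        ring
      · have e : cof (Tm k r p) a (Sum.inl x) = p (Sum.inr a) * th k r (p (Sum.inl x)) := by
          rw [cof_eq]
          simp [BB, hx]
        rw [e, map_mul]
        by_cases hi : i = Sum.inl x
        · subst hi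
          simp only [Sum.elim_inl, if_true, true_and, hx, and_self]
          unfold ss
          push_cast
          rw [← Complex.mul_conj', Complex.conj_ofReal]
          ring
        · have h5 : (Sum.elim (fun x' => if i = (Sum.inl x : Ix k) ∧ i = Sum.inl x' ∧ x'.1 = a then
              ((ss k r p a * bet k r (p (Sum.inl x')) : ℝ) : ℂ) else 0) (fun _ => 0) i : ℂ) = 0 := by
            rcases i with x' | b'
            · simp [hi]
            · simp
          rw [h5, if_neg hi]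
          simp only [map_zero]
          ring
    · refine ⟨fun _ => 0, ?_⟩
      have e : ∀ q, cof (Tm k r q) a (Sum.inl x) = 0 := by
        intro q
        rw [cof_eq]
        simp [BB, hx]
      have h3 : HasFDerivAt (fun _ : Ix k → ℂ => (0 : ℂ)) (0 : (Ix k → ℂ) →L[ℝ] ℂ) p :=
        hasFDerivAt_const 0 p
      have h4 : (0 : (Ix k → ℂ) →L[ℝ] ℂ) = wL (fun _ => 0) (fun _ => 0) := by
        ext v
        rw [wL_apply]
        simp
      rw [h4] at h3
      refine HWc h3 (fun q => ?_) (fun i => ?_) (fun i => rfl)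
      · rw [e, map_zero, mul_zero]
      · rw [e p, map_zero, mul_zero, zero_add]
        rcases i with x' | b'
        · simp only [Sum.elim_inl]
          rw [if_neg]
          rintro ⟨g1, g2, g3⟩
          have : x' = x := Sum.inl.inj g1
          subst this
          exact hx g3
        · rfl
  · have h3 : HasFDerivAt (fun _ : Ix k → ℂ => ((starRingEnd ℂ) (if a = b then 1 else 0) : ℂ))
        (0 : (Ix k → ℂ) →L[ℝ] ℂ) p := hasFDerivAt_const _ p
    have h4 : (0 : (Ix k → ℂ) →L[ℝ] ℂ) = wL (fun _ => 0) (fun _ => 0) := by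
      ext v
      rw [wL_apply]
      simp
    rw [h4] at h3
    have h5 := w4 _ _ p _ _ _ _ hv h3
    refine ⟨_, HWc h5 (fun q => ?_) (fun i => ?_) (fun i => rfl)⟩
    · rfl
    · have h6 : (Sum.elim (fun x' => if i = (Sum.inr b : Ix k) ∧ i = Sum.inl x' ∧ x'.1 = a then
          ((ss k r p a * bet k r (p (Sum.inl x')) : ℝ) : ℂ) else 0) (fun _ => 0) i : ℂ) = 0 := by
        rcases i with x' | b'
        · simp
        · simp
      rw [h6]
      show _ = (hh k r p a : ℂ) * cof (Tm k r p) a i * (starRingEnd ℂ) (if a = b then 1 else 0) + 0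
      ring

lemma hh_smooth {p : Ix k → ℂ} (hp : ∀ x, p (Sum.inl x) ∈ M) (a : Fin 2) :
    ContDiffAt ℝ SM (fun q => hh k r q a) p := by
  unfold hh
  refine ContDiffAt.exp ?_
  refine ContDiffAt.sum fun j _ => ?_
  have h3 := (h2 k r hr (p (Sum.inl (a, j))) (hp _)).2.2.1
  have h4 : ContDiffAt ℝ SM (fun q : Ix k → ℂ => q (Sum.inl (a, j))) p :=
    (contDiff_apply ℝ ℂ (Sum.inl (a, j))).contDiffAt
  exact ContDiffAt.comp (g := lam k r) (f := fun q : Ix k → ℂ => q (Sum.inl (a, j))) p h3 h4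

lemma ss_smooth {p : Ix k → ℂ} (hp : ∀ x, p (Sum.inl x) ∈ M) (a : Fin 2) :
    ContDiffAt ℝ SM (fun q => ss k r q a) p := by
  unfold ss
  refine ContDiffAt.mul ?_ (hh_smooth h1 h2 hr hp a)
  exact (ContDiff.norm_sq ℝ (contDiff_apply ℝ ℂ (Sum.inr a))).contDiffAt

lemma XX_open : IsOpen (XX k r) := by
  have e : XX k r = ⋂ a : Fin 2, ({p : Ix k → ℂ | ∀ x, p (Sum.inl x) ∈ M} ∩
      (fun p => ss k r p a) ⁻¹' Iio 1) := by
    ext p
    simp only [XX, Set.mem_ofPred_eq, Set.mem_iInter, Set.mem_inter_iff, Set.mem_preimage, Set.mem_Iio]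
    exact ⟨fun h a => ⟨h.1, h.2 a⟩, fun h => ⟨(h 0).1, fun a => (h a).2⟩⟩
  rw [e]
  refine isOpen_iInter_of_finite fun a => ?_
  refine ContinuousOn.isOpen_inter_preimage ?_ (U_open k) isOpen_Iio
  exact fun p hp => (ss_smooth h1 h2 hr hp a).continuousAt.continuousWithinAt

end main

end SSDL

theorem t_SSD (h1 : S_WIR) (h2 : S_BAS) : S_SSD := by
  intro k r hr
  refine ⟨SSDL.XX_open h1 h2 hr, SSDL.U_open k, fun p hp a => ⟨SSDL.ss_nonneg k r p a, hp.2 a⟩,
    fun p hp a => ⟨SSDL.hh_smooth h1 h2 hr hp a, SSDL.ss_smooth h1 h2 hr hp a, SSDL.hh_pos k r p a,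
      SSDL.ssW h1 h2 hr hp a, fun j => SSDL.dd_ss h1 h2 hr hp a j⟩⟩

end Pool.Agent.H794.KM
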