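import Pool.Agent.H794.KM.Spec

/-! Project KM, leaf UPP (helper597). -/

namespace Pool.Agent.H794.KM

open MeasureTheory Set Filter Topology

namespace UPPL

theorem ball_sub : Metric.closedBall (1 / 2 : ℂ) (1 / 8) ⊆ M := by
  intro z hz
  rw [Metric.mem_closedBall, dist_eq_norm] at hz
  constructor
  · rintro rfl
    norm_num at hz
  · rintro rfl
    norm_num at hz

theorem bet_cont (h4 : S_BAS) {k : ℕ} {r : ℂ → ℝ} (hr : Hyp r) : ContinuousOn (bet k r) M :=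
  fun z hz => (h4 k r hr z hz).2.2.2.2.1.continuousAt.continuousWithinAt

theorem bet_pos (h4 : S_BAS) {k : ℕ} {r : ℂ → ℝ} (hr : Hyp r) {z : ℂ} (hz : z ∈ M) :
    0 < bet k r z := (h4 k r hr z hz).2.2.2.2.2.1

theorem bet_int (h4 : S_BAS) {k : ℕ} {r : ℂ → ℝ} (hr : Hyp r) :
    IntegrableOn (bet k r) (Metric.ball (1 / 2 : ℂ) (1 / 8)) := by
  have h : IntegrableOn (bet k r) (Metric.closedBall (1 / 2 : ℂ) (1 / 8)) :=
    ((bet_cont h4 hr).mono ball_sub).integrableOn_compact (isCompact_closedBall _ _)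
  exact h.mono_set Metric.ball_subset_closedBall

theorem c_pos (h4 : S_BAS) {k : ℕ} {r : ℂ → ℝ} (hr : Hyp r) :
    0 < ∫ z in Metric.ball (1 / 2 : ℂ) (1 / 8), bet k r z := by
  rw [setIntegral_pos_iff_support_of_nonneg_ae]
  · have h : Function.support (bet k r) ∩ Metric.ball (1 / 2 : ℂ) (1 / 8) =
        Metric.ball (1 / 2 : ℂ) (1 / 8) := by
      apply inter_eq_self_of_subset_right
      intro z hz
      exact (bet_pos h4 hr (ball_sub (Metric.ball_subset_closedBall hz))).ne'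
    rw [h]
    exact Metric.measure_ball_pos _ _ (by norm_num)
  · rw [EventuallyLE, ae_restrict_iff' measurableSet_ball]
    exact Eventually.of_forall fun z hz =>
      (bet_pos h4 hr (ball_sub (Metric.ball_subset_closedBall hz))).le
  · exact bet_int h4 hr

theorem chi_cont (h4 : S_BAS) {k : ℕ} {r : ℂ → ℝ} (hr : Hyp r) {χ : ℂ → ℝ} (hχ : Continuous χ)
    (hs : tsupport χ ⊆ M) : Continuous fun z => χ z ^ 2 * bet k r z := by
  rw [continuous_iff_continuousAt]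
  intro z
  by_cases hz : z ∈ M
  · exact (hχ.continuousAt.pow 2).mul (h4 k r hr z hz).2.2.2.2.1.continuousAt
  · have h1 : z ∉ tsupport χ := fun h => hz (hs h)
    have h2 : (fun z => χ z ^ 2 * bet k r z) =ᶠ[𝓝 z] fun _ => 0 := by
      have h3 := notMem_tsupport_iff_eventuallyEq.1 h1
      filter_upwards [h3] with w hw
      rw [hw]
      simp
    exact continuousAt_const.congr h2.symm

theorem chi_ge (h4 : S_BAS) {k : ℕ} {r : ℂ → ℝ} (hr : Hyp r) {χ : ℂ → ℝ} (hχ : Continuous χ)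
    (hc : HasCompactSupport χ) (hs : tsupport χ ⊆ M)
    (h1 : ∀ z ∈ Metric.ball (1 / 2 : ℂ) (1 / 8), χ z = 1) :
    ∫ z in Metric.ball (1 / 2 : ℂ) (1 / 8), bet k r z ≤ ∫ z, χ z ^ 2 * bet k r z := by
  have h2 : ∫ z in Metric.ball (1 / 2 : ℂ) (1 / 8), bet k r z =
      ∫ z in Metric.ball (1 / 2 : ℂ) (1 / 8), χ z ^ 2 * bet k r z := by
    apply setIntegral_congr_fun measurableSet_ball
    intro z hz
    simp only [h1 z hz]
    ring
  rw [h2]
  apply setIntegral_le_integral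
  · apply (chi_cont h4 hr hχ hs).integrable_of_hasCompactSupport
    refine hc.mono ?_
    intro z hz
    rw [Function.mem_support] at hz ⊢
    intro h
    apply hz
    rw [h]
    ring
  · refine Eventually.of_forall fun z => ?_
    by_cases hz : z ∈ M
    · exact mul_nonneg (sq_nonneg _) (bet_pos h4 hr hz).le
    · have h3 : χ z = 0 := image_eq_zero_of_notMem_tsupport fun h => hz (hs h)
      simp [h3]

end UPPL

open UPPL in
theorem t_UPP (h1 : S_RAY) (h2 : S_LIM) (h3 : S_CUT) (h4 : S_BAS) : S_UPP := by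
  intro k r hk hr w
  apply le_of_forall_pos_le_add
  intro δ hδ
  obtain ⟨c, hc⟩ : ∃ c, c = ∫ z in Metric.ball (1 / 2 : ℂ) (1 / 8), bet k r z := ⟨_, rfl⟩
  have hc0 : 0 < c := by rw [hc]; exact c_pos h4 hr
  obtain ⟨η, hη1, hη2, hη3, hη4⟩ := h2 k hk (δ / 8) (by positivity)
  obtain ⟨χ, hχ1, hχ2, hχ3, hχ4, hχ5⟩ := h3 (c * (δ / 8)) (by positivity)
  have hJ : c ≤ ∫ z, χ z ^ 2 * bet k r z := by
    rw [hc]
    exact chi_ge h4 hr hχ1.continuous hχ2 hχ3 hχ4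
  have hJ0 : 0 < ∫ z, χ z ^ 2 * bet k r z := lt_of_lt_of_le hc0 hJ
  have hR := h1 k r hr w η χ hη1 hη2 hχ1 hχ2 hχ3 hη3 hJ0
  have hI : I1 k η / I0 k η ≤ (k : ℝ) / ((k : ℝ) + 2) + δ / 8 := by
    rw [div_le_iff₀ hη3]
    exact hη4
  have hE : (∫ z, ‖dz1 (fun z => ((χ z : ℝ) : ℂ)) z‖ ^ 2) / (∫ z, χ z ^ 2 * bet k r z) ≤ δ / 8 := by
    rw [div_le_iff₀ hJ0]
    calc (∫ z, ‖dz1 (fun z => ((χ z : ℝ) : ℂ)) z‖ ^ 2) ≤ c * (δ / 8) := hχ5
      _ = δ / 8 * c := by ring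
      _ ≤ δ / 8 * ∫ z, χ z ^ 2 * bet k r z := by
        apply mul_le_mul_of_nonneg_left hJ (by positivity)
  have hk2 : (0 : ℝ) < (k : ℝ) + 2 := by positivity
  have hkk : 4 * (k : ℝ) / ((k : ℝ) + 2) ≤ 4 := by
    rw [div_le_iff₀ hk2]
    linarith
  have hkk0 : 0 ≤ 4 * (k : ℝ) / ((k : ℝ) + 2) := by positivity
  have h5 : 4 * (k : ℝ) / ((k : ℝ) + 2) * ((∫ z, ‖dz1 (fun z => ((χ z : ℝ) : ℂ)) z‖ ^ 2) /
      (∫ z, χ z ^ 2 * bet k r z)) ≤ 4 * (δ / 8) := by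
    calc 4 * (k : ℝ) / ((k : ℝ) + 2) * ((∫ z, ‖dz1 (fun z => ((χ z : ℝ) : ℂ)) z‖ ^ 2) /
      (∫ z, χ z ^ 2 * bet k r z)) ≤ 4 * (k : ℝ) / ((k : ℝ) + 2) * (δ / 8) :=
          mul_le_mul_of_nonneg_left hE hkk0
      _ ≤ 4 * (δ / 8) := mul_le_mul_of_nonneg_right hkk (by positivity)
  have h6 : 4 * ((k : ℝ) / ((k : ℝ) + 2)) = 4 * (k : ℝ) / ((k : ℝ) + 2) := by ring
  linarith

end Pool.Agent.H794.KM
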