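import Pool.Agent.H794.KM.Spec

namespace Pool.Agent.H794.KM

open MeasureTheory Set Filter Topology
open scoped ComplexOrder

namespace WPDL

/-- one variable Wirtinger derivatives -/
def H1 (f : ℂ → ℂ) (z a b : ℂ) : Prop := HasFDerivAt f (wl a b) z

theorem wl_apply (a b v : ℂ) : wl a b v = a * v + b * (starRingEnd ℂ) v := by
  simp [wl]

theorem wl_ext {a b : ℂ} {L : ℂ →L[ℝ] ℂ} (h : ∀ v, L v = a * v + b * (starRingEnd ℂ) v) :
    L = wl a b := by
  ext1 v
  · rw [h, wl_apply]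

theorem H1.of (f : ℂ → ℂ) (z a b : ℂ) (L : ℂ →L[ℝ] ℂ) (h : HasFDerivAt f L z)
    (hL : ∀ v, L v = a * v + b * (starRingEnd ℂ) v) : H1 f z a b := by
  unfold H1
  rw [← wl_ext hL]
  exact h

theorem H1.dz1 {f : ℂ → ℂ} {z a b : ℂ} (h : H1 f z a b) : KM.dz1 f z = a := by
  unfold KM.dz1
  rw [HasFDerivAt.fderiv h, wl_apply, wl_apply]
  simp only [map_one, Complex.conj_I]
  linear_combination (-(a - b) / 2) * Complex.I_sq

theorem H1.dzb1 {f : ℂ → ℂ} {z a b : ℂ} (h : H1 f z a b) : KM.dzb1 f z = b := by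
  unfold KM.dzb1
  rw [HasFDerivAt.fderiv h, wl_apply, wl_apply]
  simp only [map_one, Complex.conj_I]
  linear_combination ((a - b) / 2) * Complex.I_sq

theorem H1.holo {f : ℂ → ℂ} {z f' : ℂ} (h : HasDerivAt f f' z) : H1 f z f' 0 := by
  refine H1.of _ _ _ _ _ (h.hasFDerivAt.restrictScalars ℝ) fun v => ?_
  simp
  ring

theorem H1.conj {f : ℂ → ℂ} {z a b : ℂ} (h : H1 f z a b) :
    H1 (fun u => (starRingEnd ℂ) (f u)) z ((starRingEnd ℂ) b) ((starRingEnd ℂ) a) := by
  have h1 : HasFDerivAt (fun u => (starRingEnd ℂ) (f u))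
      ((Complex.conjCLE : ℂ →L[ℝ] ℂ).comp (wl a b)) z :=
    (Complex.conjCLE : ℂ →L[ℝ] ℂ).hasFDerivAt.comp z h
  refine H1.of _ _ _ _ _ h1 fun v => ?_
  simp [wl_apply]
  ring

theorem H1.add {f g : ℂ → ℂ} {z a b a' b' : ℂ} (h : H1 f z a b) (h' : H1 g z a' b') :
    H1 (fun u => f u + g u) z (a + a') (b + b') := by
  refine H1.of _ _ _ _ _ (HasFDerivAt.add h h') fun v => ?_
  simp [wl_apply]
  ring

theorem H1.sub {f g : ℂ → ℂ} {z a b a' b' : ℂ} (h : H1 f z a b) (h' : H1 g z a' b') :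
    H1 (fun u => f u - g u) z (a - a') (b - b') := by
  refine H1.of _ _ _ _ _ (HasFDerivAt.sub h h') fun v => ?_
  simp [wl_apply]
  ring

theorem H1.mul {f g : ℂ → ℂ} {z a b a' b' : ℂ} (h : H1 f z a b) (h' : H1 g z a' b') :
    H1 (fun u => f u * g u) z (a * g z + f z * a') (b * g z + f z * b') := by
  refine H1.of _ _ _ _ _ (HasFDerivAt.mul h h') fun v => ?_
  simp [wl_apply]
  ring

theorem H1.const (c z : ℂ) : H1 (fun _ => c) z 0 0 := by
  refine H1.of _ _ _ _ _ (hasFDerivAt_const c z) fun v => ?_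
  simp

theorem H1.inv {f : ℂ → ℂ} {z a b : ℂ} (h : H1 f z a b) (hf : f z ≠ 0) :
    H1 (fun u => (f u)⁻¹) z (-a / f z ^ 2) (-b / f z ^ 2) := by
  have h2 : HasFDerivAt (fun x : ℂ => x⁻¹) ((ContinuousLinearMap.toSpanSingleton ℂ
      (-(f z ^ 2)⁻¹)).restrictScalars ℝ) (f z) :=
    ((hasDerivAt_inv hf).hasFDerivAt).restrictScalars ℝ
  refine H1.of _ _ _ _ _ (h2.comp z h) fun v => ?_
  simp [wl_apply]
  field_simp
  ring

theorem H1.congr {f g : ℂ → ℂ} {z a b : ℂ} (h : H1 f z a b) (he : g =ᶠ[𝓝 z] f) : H1 g z a b :=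
  HasFDerivAt.congr_of_eventuallyEq h he

/-- the logarithm of a positive function -/
theorem H1.log {g : ℂ → ℝ} {z a : ℂ} (h : H1 (fun u => ((g u : ℝ) : ℂ)) z a ((starRingEnd ℂ) a))
    (hg : g z ≠ 0) : H1 (fun u => ((Real.log (g u) : ℝ) : ℂ)) z (a / g z)
      ((starRingEnd ℂ) a / g z) := by
  have h1 : HasFDerivAt g (Complex.reCLM.comp (wl a ((starRingEnd ℂ) a))) z :=
    Complex.reCLM.hasFDerivAt.comp z h
  have h2 : HasFDerivAt (fun u => ((Real.log (g u) : ℝ) : ℂ))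
      (Complex.ofRealCLM.comp ((g z)⁻¹ • Complex.reCLM.comp (wl a ((starRingEnd ℂ) a)))) z :=
    Complex.ofRealCLM.hasFDerivAt.comp z (h1.log hg)
  refine H1.of _ _ _ _ _ h2 fun v => ?_
  have h3 : a * v + (starRingEnd ℂ) a * (starRingEnd ℂ) v = ((2 * (a * v).re : ℝ) : ℂ) := by
    rw [← map_mul, Complex.add_conj]
  have h4 : a / g z * v + (starRingEnd ℂ) a / g z * (starRingEnd ℂ) v =
      (a * v + (starRingEnd ℂ) a * (starRingEnd ℂ) v) / g z := by ring
  rw [h4, h3]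
  have h5 : (wl a ((starRingEnd ℂ) a) v).re = 2 * (a * v).re := by
    rw [wl_apply, h3, Complex.ofReal_re]
  simp only [ContinuousLinearMap.comp_apply, FunLike.coe_smul, Pi.smul_apply,
    Complex.reCLM_apply, Complex.ofRealCLM_apply, smul_eq_mul, h5]
  push_cast
  ring

end WPDL

open WPDL

theorem t_WPD : S_WPD := by
  intro a b A c z₀ hz₀ hc hA hev
  obtain ⟨hz0, hz1⟩ := hz₀
  have hz1' : (1 : ℂ) - z₀ ≠ 0 := sub_ne_zero.2 (Ne.symm hz1)
  -- analyticity
  have ha : ∀ᶠ z in 𝓝 z₀, AnalyticAt ℂ a z := by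
    have : ∀ᶠ z in 𝓝 z₀, DifferentiableAt ℂ a z := hev.mono fun z h => h.1
    filter_upwards [this.eventually_nhds] with z hz
    exact Complex.analyticAt_iff_eventually_differentiableAt.2 hz
  have hb : ∀ᶠ z in 𝓝 z₀, AnalyticAt ℂ b z := by
    have : ∀ᶠ z in 𝓝 z₀, DifferentiableAt ℂ b z := hev.mono fun z h => h.2.1
    filter_upwards [this.eventually_nhds] with z hz
    exact Complex.analyticAt_iff_eventually_differentiableAt.2 hz
  have ha0 : AnalyticAt ℂ a z₀ := ha.self_of_nhds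
  have hb0 : AnalyticAt ℂ b z₀ := hb.self_of_nhds
  -- the function `A`
  obtain ⟨Ar, hAr⟩ : ∃ Ar : ℂ → ℝ, Ar = fun z => (a z * (starRingEnd ℂ) (b z)).re := ⟨_, rfl⟩
  have hAe : A =ᶠ[𝓝 z₀] Ar := by
    filter_upwards [hev] with z hz
    rw [hAr]
    exact hz.2.2.1
  have hAc : ContDiffAt ℝ SM Ar z₀ := by
    have h1 : ContDiffAt ℝ SM a z₀ := (ha0.contDiffAt (n := SM)).restrict_scalars ℝ
    have h2 : ContDiffAt ℝ SM b z₀ := (hb0.contDiffAt (n := SM)).restrict_scalars ℝ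
    have h3 : ContDiffAt ℝ SM (fun z => (starRingEnd ℂ) (b z)) z₀ :=
      (Complex.conjCLE.contDiff).contDiffAt.comp z₀ h2
    rw [hAr]
    exact Complex.reCLM.contDiff.contDiffAt.comp z₀ (h1.mul h3)
  have hA0 : 0 < Ar z₀ := by rw [← hAe.self_of_nhds]; exact hA
  have hApos : ∀ᶠ z in 𝓝 z₀, 0 < Ar z := hAc.continuousAt.eventually_const_lt hA0
  have hM : ∀ᶠ z in 𝓝 z₀, z ≠ 0 ∧ (1 : ℂ) - z ≠ 0 := by
    have h1 : ∀ᶠ z in 𝓝 z₀, z ≠ 0 := continuousAt_id.eventually_ne hz0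
    have h2 : ∀ᶠ z in 𝓝 z₀, (1 : ℂ) - z ≠ 0 :=
      (continuousAt_const.sub continuousAt_id).eventually_ne hz1'
    exact h1.and h2
  constructor
  · have h1 : ContDiffAt ℝ SM (fun z : ℂ => z * (1 - z)) z₀ :=
      contDiffAt_id.mul (contDiffAt_const.sub contDiffAt_id)
    have h2 : ContDiffAt ℝ SM (fun z : ℂ => ‖z * (1 - z)‖) z₀ :=
      h1.norm ℝ (mul_ne_zero hz0 hz1')
    have h3 : ContDiffAt ℝ SM (fun z : ℂ => |c| / (‖z * (1 - z)‖ * Ar z)) z₀ :=
      contDiffAt_const.div (h2.mul hAc)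
        (mul_ne_zero (norm_ne_zero_iff.2 (mul_ne_zero hz0 hz1')) hA0.ne')
    refine h3.congr_of_eventuallyEq ?_
    filter_upwards [hAe] with z hz
    rw [hz]
  · -- the derivative of the logarithm
    have hp : ∀ z : ℂ, HasDerivAt (fun z : ℂ => z * (1 - z)) (1 - 2 * z) z := by
      intro z
      have h1 := (hasDerivAt_id z).mul ((hasDerivAt_const z (1 : ℂ)).sub (hasDerivAt_id z))
      refine h1.congr_deriv ?_
      simp
      ring
    -- `A` as complex function
    have hAH : ∀ z, AnalyticAt ℂ a z → AnalyticAt ℂ b z →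
        H1 (fun u => ((Ar u : ℝ) : ℂ)) z
          ((deriv a z * (starRingEnd ℂ) (b z) + (starRingEnd ℂ) (a z) * deriv b z) / 2)
          ((a z * (starRingEnd ℂ) (deriv b z) + (starRingEnd ℂ) (deriv a z) * b z) / 2) := by
      intro z h1 h2
      have k1 := H1.holo h1.differentiableAt.hasDerivAt
      have k2 := H1.holo h2.differentiableAt.hasDerivAt
      have k3 := (k1.mul k2.conj).add (k1.conj.mul k2)
      have k4 := (H1.const (1 / 2) z).mul k3
      have e : (fun u => ((Ar u : ℝ) : ℂ)) = fun u => 1 / 2 *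
          (a u * (starRingEnd ℂ) (b u) + (starRingEnd ℂ) (a u) * b u) := by
        funext u
        have h5 : (starRingEnd ℂ) (a u) * b u = (starRingEnd ℂ) (a u * (starRingEnd ℂ) (b u)) := by
          rw [map_mul, Complex.conj_conj]
        rw [h5, Complex.add_conj, hAr]
        push_cast
        ring
      rw [e]
      unfold H1 at k4 ⊢
      refine k4.congr_fderiv ?_
      congr 1
      · simp
        ring
      · simp
        ring
    have hlog : ∀ᶠ z in 𝓝 z₀, H1 (fun u => ((Real.log (|c| / (‖u * (1 - u)‖ * A u)) : ℝ) : ℂ)) z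
        (-(1 - 2 * z) / (2 * (z * (1 - z))) -
          ((deriv a z * (starRingEnd ℂ) (b z) + (starRingEnd ℂ) (a z) * deriv b z) / 2) / Ar z)
        (-(starRingEnd ℂ) ((1 - 2 * z) / (2 * (z * (1 - z)))) -
          ((a z * (starRingEnd ℂ) (deriv b z) + (starRingEnd ℂ) (deriv a z) * b z) / 2) / Ar z) := by
      filter_upwards [ha, hb, hApos.eventually_nhds, hM.eventually_nhds, hAe.eventuallyEq_nhds]
        with z h1 h2 h3 h4 h5
      have hAz := hAH z h1 h2
      have hpz : z * (1 - z) ≠ 0 := mul_ne_zero h4.self_of_nhds.1 h4.self_of_nhds.2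
      have e1 : (a z * (starRingEnd ℂ) (deriv b z) + (starRingEnd ℂ) (deriv a z) * b z) / 2 =
          (starRingEnd ℂ)
            ((deriv a z * (starRingEnd ℂ) (b z) + (starRingEnd ℂ) (a z) * deriv b z) / 2) := by
        simp only [map_div₀, map_add, map_mul, Complex.conj_conj, map_ofNat]
        ring
      rw [e1] at hAz ⊢
      have k1 := hAz.log h3.self_of_nhds.ne'
      -- the norm
      have k2 : H1 (fun u => ((Complex.normSq (u * (1 - u)) : ℝ) : ℂ)) z
          ((1 - 2 * z) * (starRingEnd ℂ) (z * (1 - z)))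
          ((starRingEnd ℂ) ((1 - 2 * z) * (starRingEnd ℂ) (z * (1 - z)))) := by
        have k3 := (H1.holo (hp z)).mul (H1.holo (hp z)).conj
        have e : (fun u : ℂ => ((Complex.normSq (u * (1 - u)) : ℝ) : ℂ)) = fun u =>
            (u * (1 - u)) * (starRingEnd ℂ) (u * (1 - u)) := by
          funext u
          rw [Complex.mul_conj]
        rw [e]
        unfold H1 at k3 ⊢
        refine k3.congr_fderiv ?_
        congr 1
        · simp
        · simp only [map_mul, map_sub, map_one, Complex.conj_conj, map_ofNat]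
          ring
      have hn0 : Complex.normSq (z * (1 - z)) ≠ 0 := fun h => hpz (Complex.normSq_eq_zero.1 h)
      have k3 := k2.log hn0
      have k4 := ((H1.const ((Real.log |c| : ℝ) : ℂ) z).sub
        ((H1.const (1 / 2) z).mul k3)).sub k1
      have e2 : (fun u : ℂ => ((Real.log (|c| / (‖u * (1 - u)‖ * A u)) : ℝ) : ℂ)) =ᶠ[𝓝 z]
          fun u => ((Real.log |c| : ℝ) : ℂ) -
            1 / 2 * ((Real.log (Complex.normSq (u * (1 - u))) : ℝ) : ℂ) -
            ((Real.log (Ar u) : ℝ) : ℂ) := by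
        filter_upwards [h3, h4, h5] with u g3 g4 g5
        have hpu : u * (1 - u) ≠ 0 := mul_ne_zero g4.1 g4.2
        have hnu : 0 < ‖u * (1 - u)‖ := norm_pos_iff.2 hpu
        rw [g5, Real.log_div (abs_ne_zero.2 hc) (mul_ne_zero hnu.ne' g3.ne'),
          Real.log_mul hnu.ne' g3.ne']
        have e3 : Real.log (Complex.normSq (u * (1 - u))) = 2 * Real.log ‖u * (1 - u)‖ := by
          rw [Complex.normSq_eq_norm_sq, Real.log_pow]
          norm_num
        rw [e3]
        push_cast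
        ring
      have k5 := k4.congr e2
      have hn1 : ((Complex.normSq (z * (1 - z)) : ℝ) : ℂ) =
          (z * (1 - z)) * (starRingEnd ℂ) (z * (1 - z)) := by rw [Complex.mul_conj]
      have hcz : (starRingEnd ℂ) (z * (1 - z)) ≠ 0 := (map_ne_zero _).2 hpz
      unfold H1 at k5 ⊢
      refine k5.congr_fderiv ?_
      congr 1
      · rw [hn1]
        have : (1 : ℂ) - z ≠ 0 := h4.self_of_nhds.2
        have : z ≠ 0 := h4.self_of_nhds.1
        generalize (starRingEnd ℂ) (z * (1 - z)) = q at hcz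
        field_simp
        ring
      · rw [hn1]
        simp only [map_mul, map_div₀, Complex.conj_conj, map_sub, map_one, map_ofNat] at hcz ⊢
        have g1 : (1 : ℂ) - z ≠ 0 := h4.self_of_nhds.2
        have g2 : z ≠ 0 := h4.self_of_nhds.1
        have g3 : (starRingEnd ℂ) z ≠ 0 := left_ne_zero_of_mul hcz
        have g4 : (1 : ℂ) - (starRingEnd ℂ) z ≠ 0 := right_ne_zero_of_mul hcz
        generalize (starRingEnd ℂ) z = q at *
        generalize (starRingEnd ℂ) (a z) = q1 at *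
        field_simp
        ring
    -- the `∂̄` derivative near `z₀`
    have hdzb : (fun w => dzb1 (fun u => ((Real.log (|c| / (‖u * (1 - u)‖ * A u)) : ℝ) : ℂ)) w)
        =ᶠ[𝓝 z₀] fun z => (-(starRingEnd ℂ) ((1 - 2 * z) / (2 * (z * (1 - z)))) -
          ((1 / 2) * (a z * (starRingEnd ℂ) (deriv b z) + (starRingEnd ℂ) (deriv a z) * b z)) *
            ((Ar z : ℝ) : ℂ)⁻¹) := by
      filter_upwards [hlog] with z hz
      rw [hz.dzb1]
      ring
    have hda : HasDerivAt (deriv a) (deriv (deriv a) z₀) z₀ :=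
      ha0.deriv.differentiableAt.hasDerivAt
    have hdb : HasDerivAt (deriv b) (deriv (deriv b) z₀) z₀ :=
      hb0.deriv.differentiableAt.hasDerivAt
    have hq : ∃ q : ℂ, HasDerivAt (fun z : ℂ => (1 - 2 * z) / (2 * (z * (1 - z)))) q z₀ := by
      have h1 : DifferentiableAt ℂ (fun z : ℂ => (1 - 2 * z) / (2 * (z * (1 - z)))) z₀ := by
        apply DifferentiableAt.div
        · fun_prop
        · fun_prop
        · exact mul_ne_zero two_ne_zero (mul_ne_zero hz0 hz1')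
      exact ⟨_, h1.hasDerivAt⟩
    obtain ⟨q, hq⟩ := hq
    have k1 := (H1.holo hq).conj
    have ka := H1.holo ha0.differentiableAt.hasDerivAt
    have kb := H1.holo hb0.differentiableAt.hasDerivAt
    have kda := H1.holo hda
    have kdb := H1.holo hdb
    have kA := hAH z₀ ha0 hb0
    have hAne : ((Ar z₀ : ℝ) : ℂ) ≠ 0 := by exact_mod_cast hA0.ne'
    have k2 := (((H1.const (1 / 2) z₀).mul ((ka.mul kdb.conj).add (kda.conj.mul kb))).mul
      (kA.inv hAne))
    have k3 := ((H1.const 0 z₀).sub k1).sub k2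
    have e3 : (fun z => (-(starRingEnd ℂ) ((1 - 2 * z) / (2 * (z * (1 - z)))) -
          ((1 / 2) * (a z * (starRingEnd ℂ) (deriv b z) + (starRingEnd ℂ) (deriv a z) * b z)) *
            ((Ar z : ℝ) : ℂ)⁻¹)) = fun z => 0 - (starRingEnd ℂ) ((1 - 2 * z) / (2 * (z * (1 - z)))) -
          ((1 / 2) * (a z * (starRingEnd ℂ) (deriv b z) + (starRingEnd ℂ) (deriv a z) * b z)) *
            ((Ar z : ℝ) : ℂ)⁻¹ := by
      funext z
      ring
    have k4 := k3.congr (hdzb.trans (Eventually.of_forall fun z => congrFun e3 z))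
    rw [k4.dz1]
    -- algebra
    have hW := hev.self_of_nhds.2.2.2
    have hAz : A z₀ = Ar z₀ := hAe.self_of_nhds
    rw [hAz]
    have hAr0 : ((Ar z₀ : ℝ) : ℂ) =
        1 / 2 * (a z₀ * (starRingEnd ℂ) (b z₀) + (starRingEnd ℂ) (a z₀) * b z₀) := by
      have h5 : (starRingEnd ℂ) (a z₀) * b z₀ = (starRingEnd ℂ) (a z₀ * (starRingEnd ℂ) (b z₀)) := by
        rw [map_mul, Complex.conj_conj]
      rw [h5, Complex.add_conj, hAr]
      push_cast
      ring
    have hW2 : ((c ^ 2 : ℝ) : ℂ) / (((‖z₀ * (1 - z₀)‖) ^ 2 : ℝ) : ℂ) =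
        (a z₀ * deriv b z₀ - deriv a z₀ * b z₀) *
          (starRingEnd ℂ) (a z₀ * deriv b z₀ - deriv a z₀ * b z₀) := by
      rw [hW, map_div₀, Complex.conj_ofReal, ← Complex.normSq_eq_norm_sq, ← Complex.mul_conj]
      push_cast
      rw [div_mul_div_comm]
      ring
    have hR : (((|c| / (‖z₀ * (1 - z₀)‖ * Ar z₀)) ^ 2 / 4 : ℝ) : ℂ) =
        ((c ^ 2 : ℝ) : ℂ) / (((‖z₀ * (1 - z₀)‖) ^ 2 : ℝ) : ℂ) / (4 * ((Ar z₀ : ℝ) : ℂ) ^ 2) := by
      rw [div_pow, sq_abs, mul_pow]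
      push_cast
      rw [div_div, div_div]
      congr 1
      ring
    rw [hR, hW2]
    simp only [map_sub, map_mul, map_zero]
    obtain ⟨X, hX⟩ : ∃ X : ℂ, X = ((Ar z₀ : ℝ) : ℂ) := ⟨_, rfl⟩
    rw [← hX] at hAr0 hAne ⊢
    field_simp
    rw [hAr0]
    ring

end Pool.Agent.H794.KM
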