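import Pool.Agent.H794.KM.Spec

/-!
Project KM, leaf XOC: the manifold `XX` is open, connected and not compact.
-/

set_option autoImplicit false

namespace Pool.Agent.H794.KM

open MeasureTheory Set Filter Topology

namespace XOCL

theorem M_preconnected : IsPreconnected M := by
  have h : IsPathConnected (({0, 1} : Set ℂ)ᶜ) := by
    apply Set.Countable.isPathConnected_compl_of_one_lt_rank
    · rw [Complex.rank_real_complex]
      exact Nat.one_lt_ofNat
    · exact (Set.toFinite _).countable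
  have e : M = ({0, 1} : Set ℂ)ᶜ := by
    ext z
    simp [M]
  rw [e]
  exact h.isConnected.isPreconnected

/-- the zero section -/
def ZZ (k : ℕ) : Set (Ix k → ℂ) := {p | (∀ x, p (Sum.inl x) ∈ M) ∧ ∀ a, p (Sum.inr a) = 0}

theorem ZZ_preconnected (k : ℕ) : IsPreconnected (ZZ k) := by
  have h1 : IsPreconnected (Set.pi univ (fun _ : Fin 2 × Fin k => M)) :=
    isPreconnected_univ_pi fun _ => M_preconnected
  have h2 : ZZ k = (fun z : Fin 2 × Fin k → ℂ => (Sum.elim z (fun _ => 0) : Ix k → ℂ)) ''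
      (Set.pi univ (fun _ : Fin 2 × Fin k => M)) := by
    ext p
    constructor
    · rintro ⟨h3, h4⟩
      refine ⟨fun x => p (Sum.inl x), fun x _ => h3 x, ?_⟩
      funext i
      rcases i with x | a
      · rfl
      · exact (h4 a).symm
    · rintro ⟨z, hz, rfl⟩
      exact ⟨fun x => hz x (mem_univ x), fun a => rfl⟩
  rw [h2]
  refine h1.image _ (Continuous.continuousOn ?_)
  refine continuous_pi fun i => ?_
  rcases i with x | a
  · exact continuous_apply x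
  · exact continuous_const

/-- the point with the fibre coordinates multiplied by `t` -/
noncomputable def sc {k : ℕ} (p : Ix k → ℂ) (t : ℝ) : Ix k → ℂ :=
  Sum.elim (fun x => p (Sum.inl x)) (fun a => (t : ℂ) * p (Sum.inr a))

theorem sc_cont {k : ℕ} (p : Ix k → ℂ) : Continuous (sc p) := by
  refine continuous_pi fun i => ?_
  rcases i with x | a
  · exact continuous_const
  · exact Complex.continuous_ofReal.mul continuous_const

theorem hh_congr {k : ℕ} {r : ℂ → ℝ} {p q : Ix k → ℂ}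
    (h : ∀ x, p (Sum.inl x) = q (Sum.inl x)) (a : Fin 2) : hh k r p a = hh k r q a := by
  unfold hh
  simp only [h]

theorem ss_sc {k : ℕ} {r : ℂ → ℝ} (p : Ix k → ℂ) (t : ℝ) (a : Fin 2) :
    ss k r (sc p t) a = t ^ 2 * ss k r p a := by
  unfold ss
  rw [hh_congr (p := sc p t) (q := p) (fun x => rfl) a]
  have : ‖sc p t (Sum.inr a)‖ = |t| * ‖p (Sum.inr a)‖ := by
    show ‖(t : ℂ) * p (Sum.inr a)‖ = _
    rw [norm_mul, Complex.norm_real, Real.norm_eq_abs]
  rw [this, mul_pow, sq_abs]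
  ring

theorem hh_pos {k : ℕ} {r : ℂ → ℝ} (p : Ix k → ℂ) (a : Fin 2) : 0 < hh k r p a := Real.exp_pos _

theorem ss_nonneg {k : ℕ} {r : ℂ → ℝ} (p : Ix k → ℂ) (a : Fin 2) : 0 ≤ ss k r p a :=
  mul_nonneg (sq_nonneg _) (hh_pos p a).le

theorem sc_mem {k : ℕ} {r : ℂ → ℝ} {p : Ix k → ℂ} (hp : p ∈ XX k r) {t : ℝ} (ht : t ∈ Icc (0 : ℝ) 1) :
    sc p t ∈ XX k r := by
  refine ⟨fun x => hp.1 x, fun a => ?_⟩
  rw [ss_sc]
  have h1 : t ^ 2 ≤ 1 := pow_le_one₀ ht.1 ht.2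
  calc t ^ 2 * ss k r p a ≤ 1 * ss k r p a := mul_le_mul_of_nonneg_right h1 (ss_nonneg p a)
    _ = ss k r p a := one_mul _
    _ < 1 := hp.2 a

theorem sc_one {k : ℕ} (p : Ix k → ℂ) : sc p 1 = p := by
  funext i
  rcases i with x | a
  · rfl
  · show ((1 : ℝ) : ℂ) * p (Sum.inr a) = p (Sum.inr a)
    simp

theorem sc_zero {k : ℕ} {r : ℂ → ℝ} {p : Ix k → ℂ} (hp : p ∈ XX k r) : sc p 0 ∈ ZZ k := by
  refine ⟨fun x => hp.1 x, fun a => ?_⟩
  show ((0 : ℝ) : ℂ) * p (Sum.inr a) = 0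
  simp

theorem ZZ_sub (k : ℕ) (r : ℂ → ℝ) : ZZ k ⊆ XX k r := by
  rintro p ⟨h1, h2⟩
  refine ⟨h1, fun a => ?_⟩
  unfold ss
  rw [h2 a]
  simp

/-- a base point -/
def p0 (k : ℕ) : Ix k → ℂ := Sum.elim (fun _ => 2) (fun _ => 0)

theorem p0_mem (k : ℕ) : p0 k ∈ ZZ k := by
  refine ⟨fun x => ?_, fun a => rfl⟩
  show (2 : ℂ) ∈ M
  constructor
  · norm_num
  · norm_num

theorem XX_preconnected (k : ℕ) (r : ℂ → ℝ) : IsPreconnected (XX k r) := by
  apply isPreconnected_of_forall (p0 k)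
  intro p hp
  refine ⟨ZZ k ∪ sc p '' Icc (0 : ℝ) 1, ?_, Or.inl (p0_mem k), ?_, ?_⟩
  · rintro q (hq | ⟨t, ht, rfl⟩)
    · exact ZZ_sub k r hq
    · exact sc_mem hp ht
  · exact Or.inr ⟨1, ⟨zero_le_one, le_rfl⟩, sc_one p⟩
  · refine IsPreconnected.union (sc p 0) (sc_zero hp) ⟨0, ⟨le_rfl, zero_le_one⟩, rfl⟩
      (ZZ_preconnected k) ?_
    exact isPreconnected_Icc.image _ (sc_cont p).continuousOn

theorem XX_ne_univ (k : ℕ) (r : ℂ → ℝ) : XX k r ≠ univ := by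
  intro h
  have hpos : 0 < hh k r (p0 k) 0 := hh_pos _ _
  let c : ℝ := 1 + 1 / hh k r (p0 k) 0
  let q : Ix k → ℂ := Sum.elim (fun _ => 2) (fun _ => (c : ℂ))
  have hq : q ∈ XX k r := by rw [h]; exact mem_univ q
  have h1 := hq.2 0
  unfold ss at h1
  rw [hh_congr (p := q) (q := p0 k) (fun x => rfl) 0] at h1
  have h2 : ‖q (Sum.inr 0)‖ = c := by
    show ‖(c : ℂ)‖ = c
    rw [Complex.norm_real, Real.norm_eq_abs, abs_of_pos]
    positivity
  rw [h2] at h1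
  have h3 : c * hh k r (p0 k) 0 = hh k r (p0 k) 0 + 1 := by
    show (1 + 1 / hh k r (p0 k) 0) * hh k r (p0 k) 0 = _
    field_simp
  have h4 : 1 < c := by
    have : 0 < 1 / hh k r (p0 k) 0 := by positivity
    show 1 < 1 + 1 / hh k r (p0 k) 0
    linarith
  nlinarith

end XOCL

theorem t_XOC (h1 : S_SSD) (_h2 : S_BAS) : S_XOC := by
  intro k r hr
  have ho : IsOpen (XX k r) := (h1 k r hr).1
  refine ⟨ho, ⟨⟨XOCL.p0 k, XOCL.ZZ_sub k r (XOCL.p0_mem k)⟩, XOCL.XX_preconnected k r⟩, ?_⟩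
  intro hc
  have hclopen : IsClopen (XX k r) := ⟨hc.isClosed, ho⟩
  rcases isClopen_iff.1 hclopen with h | h
  · have : XOCL.p0 k ∈ XX k r := XOCL.ZZ_sub k r (XOCL.p0_mem k)
    rw [h] at this
    exact this
  · exact XOCL.XX_ne_univ k r h

end Pool.Agent.H794.KM
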