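import Pool.Agent.H794.KM.WIR
import Pool.Agent.H794.KM.PDR
import Pool.Agent.H794.KM.FRA
import Pool.Agent.H794.KM.BAS
import Pool.Agent.H794.KM.KHO
import Pool.Agent.H794.KM.KOD
import Pool.Agent.H794.KM.KPF
import Pool.Agent.H794.KM.KWR
import Pool.Agent.H794.KM.KCO
import Pool.Agent.H794.KM.KA1
import Pool.Agent.H794.KM.ASY
import Pool.Agent.H794.KM.ARE
import Pool.Agent.H794.KM.KRG
import Pool.Agent.H794.KM.APO
import Pool.Agent.H794.KM.WPD
import Pool.Agent.H794.KM.HYP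
import Pool.Agent.H794.KM.CUT
import Pool.Agent.H794.KM.EXB
import Pool.Agent.H794.KM.SSD
import Pool.Agent.H794.KM.HES
import Pool.Agent.H794.KM.POT
import Pool.Agent.H794.KM.CLO
import Pool.Agent.H794.KM.HGP
import Pool.Agent.H794.KM.DET
import Pool.Agent.H794.KM.RIC
import Pool.Agent.H794.KM.KAH
import Pool.Agent.H794.KM.C1P
import Pool.Agent.H794.KM.CMP
import Pool.Agent.H794.KM.EXH
import Pool.Agent.H794.KM.XOC
import Pool.Agent.H794.KM.COM
import Pool.Agent.H794.KM.PWI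
import Pool.Agent.H794.KM.IBP
import Pool.Agent.H794.KM.BAR
import Pool.Agent.H794.KM.DVG
import Pool.Agent.H794.KM.BLO
import Pool.Agent.H794.KM.FPD
import Pool.Agent.H794.KM.EU1
import Pool.Agent.H794.KM.EPU
import Pool.Agent.H794.KM.EQ1
import Pool.Agent.H794.KM.EQ2
import Pool.Agent.H794.KM.EPQ
import Pool.Agent.H794.KM.KE0
import Pool.Agent.H794.KM.POL
import Pool.Agent.H794.KM.LIM
import Pool.Agent.H794.KM.INT
import Pool.Agent.H794.KM.GR0
import Pool.Agent.H794.KM.RAY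
import Pool.Agent.H794.KM.UPP
import Pool.Agent.H794.KM.REI
import Pool.Agent.H794.KM.FIN

/-!
Assembly of the proof.
-/

namespace Pool.Agent.H794.KM

open MeasureTheory Set Filter Topology

namespace All

theorem WIR : S_WIR := t_WIR
theorem PDR : S_PDR := t_PDR
theorem FRA : S_FRA := t_FRA
theorem BAS : S_BAS := t_BAS
theorem KHO : S_KHO := t_KHO
theorem KOD : S_KOD := t_KOD KHO
theorem KPF : S_KPF := t_KPF
theorem KWR : S_KWR := t_KWR KHO KOD
theorem KCO : S_KCO := t_KCO KHO KOD KPF KWR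
theorem KA1 : S_KA1 := t_KA1 KHO KPF KCO
theorem ASY : S_ASY := t_ASY KA1
theorem ARE : S_ARE := t_ARE KHO KWR KA1 ASY
theorem KRG : S_KRG := t_KRG KHO
theorem APO : S_APO := t_APO KRG ASY
theorem WPD : S_WPD := t_WPD
theorem HYP : S_HYP := t_HYP ARE APO WPD
theorem CUT : S_CUT := t_CUT
theorem EXB : S_EXB := t_EXB
theorem SSD : S_SSD := t_SSD WIR BAS
theorem HES : S_HES := t_HES WIR PDR SSD FRA
theorem POT : S_POT := t_POT WIR BAS SSD FRA HES
theorem CLO : S_CLO := t_CLO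
theorem HGP : S_HGP := t_HGP PDR SSD
theorem DET : S_DET := t_DET PDR SSD FRA HGP BAS
theorem RIC : S_RIC := t_RIC PDR SSD FRA POT DET
theorem KAH : S_KAH := t_KAH SSD BAS FRA POT CLO HGP DET RIC
theorem C1P : S_C1P := t_C1P
theorem CMP : S_CMP := t_CMP C1P
theorem EXH : S_EXH := t_EXH BAS SSD EXB WIR
theorem XOC : S_XOC := t_XOC SSD BAS
theorem COM : S_COM := t_COM FRA HGP KAH CMP EXH XOC
theorem PWI : S_PWI := t_PWI
theorem IBP : S_IBP := t_IBP
theorem BAR : S_BAR := t_BAR PWI IBP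
theorem DVG : S_DVG := t_DVG WIR PDR SSD FRA HGP DET BAS
theorem BLO : S_BLO := t_BLO DVG BAR DET SSD BAS KAH XOC PDR
theorem FPD : S_FPD := t_FPD PDR
theorem EU1 : S_EU1 := t_EU1 FPD
theorem EPU : S_EPU := t_EPU PDR FPD EU1
theorem EQ1 : S_EQ1 := t_EQ1 PDR FPD
theorem EQ2 : S_EQ2 := t_EQ2 PDR
theorem EPQ : S_EPQ := t_EPQ PDR EQ1 EQ2 FPD
theorem KE0 : S_KE0 := t_KE0 PDR FPD EU1
theorem POL : S_POL := t_POL PDR
theorem LIM : S_LIM := t_LIM
theorem INT : S_INT := t_INT SSD BAS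
theorem GR0 : S_GR0 := t_GR0 WIR BAS SSD FRA HGP DET KE0 PDR FPD
theorem RAY : S_RAY := t_RAY GR0 INT KAH KE0 SSD BAS XOC
theorem UPP : S_UPP := t_UPP RAY LIM CUT BAS
theorem FIN : Stm3 (Ix 6) := t_FIN HYP XOC KAH COM RIC KE0 EPU EPQ POL BLO UPP EQ1

end All

open REIL in
/-- Transport of `Stm3` along an equivalence. -/
theorem stm3_congr {ι κ : Type} [Fintype ι] [DecidableEq ι] [Fintype κ] [DecidableEq κ]
    (e : ι ≃ κ) : Stm3 ι → Stm3 κ := by
  rintro ⟨X, g₀, g₁, h1, h2, h3, h4, h5, h6, h7, h8⟩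
  refine ⟨E e ⁻¹' X, tr e g₀, tr e g₁, h1.preimage (E e).continuous, ?_, ?_, tr_Kcal e h4,
    tr_KE e h5, tr_Kcal e h6, ?_, ?_⟩
  · have : E e ⁻¹' X = (E e).symm '' X := by
      rw [ContinuousLinearEquiv.image_symm_eq_preimage]
    rw [this]
    exact h2.image _ (E e).symm.continuous.continuousOn
  · intro hc
    apply h3
    have : X = E e '' (E e ⁻¹' X) := by
      rw [Set.image_preimage_eq _ (E e).surjective]
    rw [this]
    exact hc.image (E e).continuous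
  · rw [tr_bottom]
    exact h7
  · rw [tr_bottom]
    exact h8

theorem final : ∃ (X : Set (Fin 14 → ℂ)) (g₀ g₁ : (Fin 14 → ℂ) → Matrix (Fin 14) (Fin 14) ℂ),
    IsOpen X ∧ IsConnected X ∧ ¬ IsCompact X ∧ g₀ ∈ Kcal X ∧ IsKE X g₀ ∧ g₁ ∈ Kcal X ∧
      bottom X g₀ = 3 ∧ 3 < bottom X g₁ :=
  stm3_congr (Fintype.equivFinOfCardEq (by simp)) All.FIN

end Pool.Agent.H794.KM
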