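import Pool.Agent.H794.KM.Spec

/-!
Project KM, leaf PWI: the pointwise Cauchy-Schwarz inequality for the inverse matrix.
-/

namespace Pool.Agent.H794.KM

open Matrix
open scoped ComplexOrder

theorem t_PWI : S_PWI := by
  intro ι _ _ G a d V t hG hV
  have hB : (G⁻¹).PosDef := hG.inv
  have hdet : IsUnit G.det := (Matrix.isUnit_iff_isUnit_det G).1 hG.isUnit
  have hV1 : V ᵥ* G = star d := by
    funext j
    simp only [Matrix.vecMul, dotProduct, Pi.star_apply]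
    exact hV j
  have hV2 : V = star d ᵥ* G⁻¹ := by
    rw [← hV1, Matrix.vecMul_vecMul, Matrix.mul_nonsing_inv _ hdet, Matrix.vecMul_one]
  have e1 : (∑ i, V i * a i) = star d ⬝ᵥ (G⁻¹ *ᵥ a) := by
    rw [Matrix.dotProduct_mulVec, ← hV2]
    rfl
  have e2 : (∑ i, V i * d i) = star d ⬝ᵥ (G⁻¹ *ᵥ d) := by
    rw [Matrix.dotProduct_mulVec, ← hV2]
    rfl
  have e3 : (∑ i, ∑ j, G⁻¹ j i * a i * (starRingEnd ℂ) (a j)) = star a ⬝ᵥ (G⁻¹ *ᵥ a) := by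
    rw [Finset.sum_comm]
    simp only [dotProduct, Matrix.mulVec, Pi.star_apply, Finset.mul_sum]
    refine Finset.sum_congr rfl fun j _ => Finset.sum_congr rfl fun i _ => ?_
    change _ = (starRingEnd ℂ) (a j) * (G⁻¹ j i * a i)
    ring
  have e4 : star a ⬝ᵥ (G⁻¹ *ᵥ d) = star (star d ⬝ᵥ (G⁻¹ *ᵥ a)) := by
    rw [Matrix.star_dotProduct, Matrix.star_mulVec, hB.isHermitian.eq, Matrix.dotProduct_mulVec]
  rw [e1, e2, e3]
  have h0 := hB.posSemidef.re_dotProduct_nonneg (a - (t : ℂ) • d)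
  have e5 : star (a - (t : ℂ) • d) ⬝ᵥ (G⁻¹ *ᵥ (a - (t : ℂ) • d)) =
      star a ⬝ᵥ (G⁻¹ *ᵥ a) - t * (star a ⬝ᵥ (G⁻¹ *ᵥ d)) - t * (star d ⬝ᵥ (G⁻¹ *ᵥ a)) +
        t ^ 2 * (star d ⬝ᵥ (G⁻¹ *ᵥ d)) := by
    rw [star_sub, star_smul, Matrix.mulVec_sub, Matrix.mulVec_smul]
    simp only [sub_dotProduct, dotProduct_sub, smul_dotProduct, dotProduct_smul, smul_eq_mul]
    have : star (t : ℂ) = t := Complex.conj_ofReal t
    rw [this]
    ring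
  rw [e5, e4] at h0
  have h1 : RCLike.re (star a ⬝ᵥ (G⁻¹ *ᵥ a) - t * star (star d ⬝ᵥ (G⁻¹ *ᵥ a)) -
      t * (star d ⬝ᵥ (G⁻¹ *ᵥ a)) + t ^ 2 * (star d ⬝ᵥ (G⁻¹ *ᵥ d))) =
      (star a ⬝ᵥ (G⁻¹ *ᵥ a)).re - 2 * t * (star d ⬝ᵥ (G⁻¹ *ᵥ a)).re +
        t ^ 2 * (star d ⬝ᵥ (G⁻¹ *ᵥ d)).re := by
    generalize star a ⬝ᵥ (G⁻¹ *ᵥ a) = A
    generalize star d ⬝ᵥ (G⁻¹ *ᵥ a) = B
    generalize star d ⬝ᵥ (G⁻¹ *ᵥ d) = C
    have hs : star B = (starRingEnd ℂ) B := rfl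
    rw [hs]
    simp only [RCLike.re_to_complex, Complex.add_re, Complex.sub_re, Complex.mul_re,
      Complex.ofReal_re, Complex.ofReal_im, Complex.conj_re, Complex.conj_im, zero_mul, sub_zero]
    have h2 : ((t : ℂ) ^ 2).re = t ^ 2 := by rw [← Complex.ofReal_pow]; exact Complex.ofReal_re _
    have h3 : ((t : ℂ) ^ 2).im = 0 := by rw [← Complex.ofReal_pow]; exact Complex.ofReal_im _
    rw [h2, h3]
    ring
  rw [h1] at h0
  linarith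

end Pool.Agent.H794.KM
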