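import Pool.Agent.H794.KM.Spec

/-!
RAY: the Rayleigh quotient of the product test function.
-/

namespace Pool.Agent.H794.KM

open MeasureTheory Set Filter Topology
open scoped ComplexOrder

namespace RAYL

/-! ### algebra of products -/

theorem prod_ite_one {α : Type} [Fintype α] [DecidableEq α] (a : α) (X Y : α → ℝ) :
    ∏ b, (if b = a then X b else Y b) = X a * ∏ b ∈ Finset.univ.erase a, Y b := by
  rw [← Finset.mul_prod_erase Finset.univ _ (Finset.mem_univ a), if_pos rfl]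
  congr 1
  apply Finset.prod_congr rfl
  intro b hb
  rw [if_neg (Finset.ne_of_mem_erase hb)]

theorem prod_q (k : ℕ) (q : Fin 2 → ℝ) : ∏ x : Fin 2 × Fin k, q x.1 = ∏ b, q b ^ k := by
  rw [Fintype.prod_prod_type]
  apply Finset.prod_congr rfl
  intro b _
  simp

/-- the density times a product -/
theorem prod_split (k : ℕ) (u q m h : Fin 2 → ℝ) (c β : Fin 2 × Fin k → ℝ) :
    (∏ b, u b) * (∏ x, c x) * ((∏ x, (q x.1 * β x)) * ∏ b, (h b * m b)) =
      (∏ b, ((u b * q b ^ k * m b) * h b)) * ∏ x, (c x * β x) := by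
  simp only [Finset.prod_mul_distrib, prod_q k q]
  ring

/-! ### continuity -/

theorem cont_one (g q : ℝ → ℝ) (hg : Continuous g) (t : ℝ) (ht : t < 1)
    (h0 : ∀ s ≥ t, g s = 0) (hq : ∀ s < 1, ContinuousAt q s) : Continuous fun s => g s * q s := by
  rw [continuous_iff_continuousAt]
  intro s
  rcases lt_or_ge s 1 with h | h
  · exact hg.continuousAt.mul (hq s h)
  · have e : (fun s => g s * q s) =ᶠ[𝓝 s] fun _ => 0 := by
      filter_upwards [Ioi_mem_nhds (show t < s by linarith)] with s' hs'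
      rw [h0 s' (le_of_lt hs'), zero_mul]
    exact (continuousAt_const).congr e.symm

theorem deriv_zero (η : ℝ → ℝ) (t : ℝ) (h0 : ∀ s ≥ t, η s = 0) (s : ℝ) (hs : t < s) :
    deriv η s = 0 := by
  have e : η =ᶠ[𝓝 s] fun _ => (0 : ℝ) := by
    filter_upwards [Ioi_mem_nhds hs] with s' hs'
    exact h0 s' (le_of_lt hs')
  rw [e.deriv_eq]
  simp

variable (k : ℕ) (η : ℝ → ℝ)

/-- integrand of `I0` -/
noncomputable def A0 (s : ℝ) : ℝ :=
  η s ^ 2 * (((k : ℝ) + 2) / (1 - s)) ^ k * (((k : ℝ) + 2) / (1 - s) ^ 2)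
/-- integrand of `I1` -/
noncomputable def A1' (s : ℝ) : ℝ := deriv η s ^ 2 * s * (((k : ℝ) + 2) / (1 - s)) ^ k
/-- integrand with one factor less -/
noncomputable def A2 (s : ℝ) : ℝ := A0 k η s * ((1 - s) / ((k : ℝ) + 2))

variable {η}

theorem A0_cont (hη : ContDiff ℝ SM η) (t : ℝ) (ht : t < 1) (h0 : ∀ s ≥ t, η s = 0) :
    Continuous (A0 k η) := by
  have h := cont_one (fun s => η s ^ 2)
    (fun s => (((k : ℝ) + 2) / (1 - s)) ^ k * (((k : ℝ) + 2) / (1 - s) ^ 2))
    (hη.continuous.pow 2) t ht (fun s hs => by rw [h0 s hs]; ring) (by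
      intro s hs
      have h1 : (1 - s) ≠ 0 := by linarith
      have h2 : (1 - s) ^ 2 ≠ 0 := pow_ne_zero 2 h1
      have c1 : ContinuousAt (fun s : ℝ => 1 - s) s := by fun_prop
      exact ((continuousAt_const.div c1 h1).pow k).mul (continuousAt_const.div (c1.pow 2) h2))
  have e : A0 k η = fun s => η s ^ 2 *
      ((((k : ℝ) + 2) / (1 - s)) ^ k * (((k : ℝ) + 2) / (1 - s) ^ 2)) := by
    funext s
    unfold A0
    ring
  rw [e]
  exact h

theorem A0_zero (t : ℝ) (h0 : ∀ s ≥ t, η s = 0) : ∀ s ≥ t, A0 k η s = 0 := by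
  intro s hs
  unfold A0
  rw [h0 s hs]
  ring

theorem A2_cont (hη : ContDiff ℝ SM η) (t : ℝ) (ht : t < 1) (h0 : ∀ s ≥ t, η s = 0) :
    Continuous (A2 k η) := by
  unfold A2
  exact (A0_cont k hη t ht h0).mul (by fun_prop)

theorem A2_zero (t : ℝ) (h0 : ∀ s ≥ t, η s = 0) : ∀ s ≥ t, A2 k η s = 0 := by
  intro s hs
  unfold A2
  rw [A0_zero k t h0 s hs, zero_mul]

theorem A1_cont (hη : ContDiff ℝ SM η) (t : ℝ) (ht : t < 1) (h0 : ∀ s ≥ t, η s = 0) :
    Continuous (A1' k η) := by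
  have h := cont_one (fun s => deriv η s ^ 2 * s)
    (fun s => (((k : ℝ) + 2) / (1 - s)) ^ k)
    (((hη.continuous_deriv (by simp)).pow 2).mul continuous_id) ((t + 1) / 2) (by linarith)
    (fun s hs => by rw [deriv_zero η t h0 s (by linarith)]; ring) (by
      intro s hs
      have h1 : (1 - s) ≠ 0 := by linarith
      have c1 : ContinuousAt (fun s : ℝ => 1 - s) s := by fun_prop
      exact ((continuousAt_const.div c1 h1).pow k))
  exact h

theorem A1_zero (t : ℝ) (ht : t < 1) (h0 : ∀ s ≥ t, η s = 0) :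
    ∀ s ≥ (t + 1) / 2, A1' k η s = 0 := by
  intro s hs
  unfold A1'
  rw [deriv_zero η t h0 s (by linarith)]
  ring

theorem A2_le (hη : ContDiff ℝ SM η) (t : ℝ) (ht : t < 1) (h0 : ∀ s ≥ t, η s = 0) :
    ∫ s in (0 : ℝ)..1, A2 k η s ≤ I0 k η / ((k : ℝ) + 2) := by
  have e : I0 k η / ((k : ℝ) + 2) = ∫ s in (0 : ℝ)..1, A0 k η s / ((k : ℝ) + 2) := by
    rw [intervalIntegral.integral_div]
    rfl
  rw [e]
  apply intervalIntegral.integral_mono_on zero_le_one
    ((A2_cont k hη t ht h0).intervalIntegrable _ _)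
    (((A0_cont k hη t ht h0).div_const _).intervalIntegrable _ _)
  intro s hs
  unfold A2
  have hk : (0 : ℝ) < (k : ℝ) + 2 := by positivity
  have h1 : 0 ≤ A0 k η s := by
    unfold A0
    have : 0 ≤ 1 - s := by linarith [hs.2]
    positivity
  rw [mul_div_assoc']
  apply div_le_div_of_nonneg_right _ hk.le
  nlinarith [hs.1]

/-! ### functions on `M` -/

variable {k} {r : ℂ → ℝ} {χ : ℂ → ℝ}

theorem contM (g q : ℂ → ℝ) (hg : Continuous g) (hs : tsupport g ⊆ M)
    (hq : ∀ z ∈ M, ContinuousAt q z) : Continuous fun z => g z * q z := by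
  rw [continuous_iff_continuousAt]
  intro z
  by_cases h : z ∈ M
  · exact hg.continuousAt.mul (hq z h)
  · have h1 : z ∈ (tsupport g)ᶜ := fun h2 => h (hs h2)
    have e : (fun z => g z * q z) =ᶠ[𝓝 z] fun _ => 0 := by
      filter_upwards [(isClosed_tsupport g).isOpen_compl.mem_nhds h1] with z' hz'
      rw [image_eq_zero_of_notMem_tsupport hz', zero_mul]
    exact (continuousAt_const).congr e.symm

theorem M_open : IsOpen M := by
  have : M = {0}ᶜ ∩ {1}ᶜ := by
    ext z
    simp [M]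
  rw [this]
  exact isOpen_compl_singleton.inter isOpen_compl_singleton

theorem tsupp_sq_mul (χ q : ℂ → ℝ) : tsupport (fun z => χ z ^ 2 * q z) ⊆ tsupport χ := by
  apply closure_mono
  intro z hz
  rw [Function.mem_support] at hz ⊢
  intro h
  apply hz
  rw [h]
  ring

theorem dz1_zero (χ : ℂ → ℝ) (z : ℂ) (hz : z ∉ tsupport χ) :
    dz1 (fun z => ((χ z : ℝ) : ℂ)) z = 0 := by
  have e : (fun z => ((χ z : ℝ) : ℂ)) =ᶠ[𝓝 z] fun _ => (0 : ℂ) := by
    filter_upwards [(isClosed_tsupport χ).isOpen_compl.mem_nhds hz] with z' hz'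
    rw [image_eq_zero_of_notMem_tsupport hz']
    simp
  unfold dz1
  rw [e.fderiv_eq]
  simp

theorem tsupp_dz1 (χ : ℂ → ℝ) :
    tsupport (fun z => ‖dz1 (fun z => ((χ z : ℝ) : ℂ)) z‖ ^ 2) ⊆ tsupport χ := by
  apply closure_minimal _ (isClosed_tsupport χ)
  intro z hz
  rw [Function.mem_support] at hz
  by_contra h
  apply hz
  rw [dz1_zero χ z h]
  simp

theorem cont_dz1 (hχ : ContDiff ℝ SM χ) :
    Continuous fun z => ‖dz1 (fun z => ((χ z : ℝ) : ℂ)) z‖ ^ 2 := by
  have h1 : ContDiff ℝ SM (fun z => ((χ z : ℝ) : ℂ)) := Complex.ofRealCLM.contDiff.comp hχ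
  have h2 : Continuous (fderiv ℝ (fun z => ((χ z : ℝ) : ℂ))) := h1.continuous_fderiv (by simp)
  unfold dz1
  fun_prop

theorem cs_of_sub (g χ : ℂ → ℝ) (h : tsupport g ⊆ tsupport χ) (hc : HasCompactSupport χ) :
    HasCompactSupport g := hc.of_isClosed_subset (isClosed_tsupport g) h

/-! ### positivity of the quotients -/

theorem gradSq_nonneg {ι : Type} [Fintype ι] [DecidableEq ι] (g : (ι → ℂ) → Matrix ι ι ℂ)
    (f : (ι → ℂ) → ℝ) (p : ι → ℂ) (h : (g p).PosDef) : 0 ≤ gradSq g f p := by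
  unfold gradSq
  have h1 := h.inv.posSemidef.dotProduct_mulVec_nonneg (fun i => dz i (fun q => (f q : ℂ)) p)
  have e : (star (fun i => dz i (fun q => (f q : ℂ)) p)) ⬝ᵥ
      ((g p)⁻¹.mulVec (fun i => dz i (fun q => (f q : ℂ)) p)) =
      ∑ i, ∑ j, (g p)⁻¹ j i * dz i (fun q => (f q : ℂ)) p *
        (starRingEnd ℂ) (dz j (fun q => (f q : ℂ)) p) := by
    rw [Finset.sum_comm]
    unfold dotProduct Matrix.mulVec
    apply Finset.sum_congr rfl
    intro j _
    unfold dotProduct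
    rw [Finset.mul_sum]
    apply Finset.sum_congr rfl
    intro i _
    simp only [Pi.star_apply, RCLike.star_def]
    ring
  rw [e] at h1
  have h2 := (Complex.le_def.1 h1).1
  simp only [Complex.zero_re] at h2
  linarith

theorem vol_pos {ι : Type} [Fintype ι] [DecidableEq ι] (g : (ι → ℂ) → Matrix ι ι ℂ)
    (p : ι → ℂ) (h : (g p).PosDef) : 0 < vol g p := by
  unfold vol
  have h2 := (Complex.lt_def.1 h.det_pos).1
  simp only [Complex.zero_re] at h2
  positivity

theorem bottom_le {ι : Type} [Fintype ι] [DecidableEq ι] (X : Set (ι → ℂ)) (hX : IsOpen X)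
    (g : (ι → ℂ) → Matrix ι ι ℂ) (hg : ∀ p ∈ X, (g p).PosDef) (f : (ι → ℂ) → ℝ)
    (h1 : ContDiff ℝ SM f) (h2 : HasCompactSupport f) (h3 : tsupport f ⊆ X)
    (h4 : 0 < ∫ p in X, f p ^ 2 * vol g p) :
    bottom X g ≤ (∫ p in X, gradSq g f p * vol g p) / ∫ p in X, f p ^ 2 * vol g p := by
  unfold bottom
  apply csInf_le
  · refine ⟨0, ?_⟩
    rintro _ ⟨u, -, -, -, -, rfl⟩
    apply div_nonneg
    · apply setIntegral_nonneg hX.measurableSet
      intro p hp
      exact mul_nonneg (gradSq_nonneg g u p (hg p hp)) (vol_pos g p (hg p hp)).le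
    · apply setIntegral_nonneg hX.measurableSet
      intro p hp
      exact mul_nonneg (sq_nonneg _) (vol_pos g p (hg p hp)).le
  · refine ⟨f, h1, h2, h3, ?_, rfl⟩
    intro h5
    rw [h5] at h4
    simp at h4

end RAYL

open RAYL

theorem t_RAY (h1 : S_GR0) (h2 : S_INT) (h3 : S_KAH) (h4 : S_KE0) (h5 : S_SSD) (h6 : S_BAS)
    (h7 : S_XOC) : S_RAY := by
  intro k r hr w η χ hη ht hχ hχc hχM hI0 hJ
  obtain ⟨t, ht1, ht0⟩ := ht
  obtain ⟨⟨f1, f2, f3⟩, fg⟩ := h1 k r hr w η χ hη ⟨t, ht1, ht0⟩ hχ hχc hχM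
  have hXo := (h7 k r hr).1
  have hgood := (h4 k w).1
  have hpd := (h3 k r hr _ hgood).1.posDef
  have hbet : ∀ z ∈ M, ContinuousAt (bet k r) z ∧ 0 < bet k r z := by
    intro z hz
    obtain ⟨-, -, -, -, b5, b6, -⟩ := h6 k r hr z hz
    exact ⟨b5.continuousAt, b6⟩
  set K : ℝ := (k : ℝ) + 2 with hK
  have hK0 : 0 < K := by positivity
  set B0 : ℂ → ℝ := fun z => χ z ^ 2 * bet k r z with hB0
  set B1 : ℂ → ℝ := fun z => ‖dz1 (fun z => ((χ z : ℝ) : ℂ)) z‖ ^ 2 with hB1
  have cB0 : Continuous B0 := by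
    refine contM (fun z => χ z ^ 2) (bet k r) (hχ.continuous.pow 2) ?_ (fun z hz => (hbet z hz).1)
    refine subset_trans ?_ hχM
    have := tsupp_sq_mul χ (fun _ => 1)
    simpa using this
  have sB0 : tsupport B0 ⊆ tsupport χ := tsupp_sq_mul χ (bet k r)
  have cB1 : Continuous B1 := cont_dz1 hχ
  have sB1 : tsupport B1 ⊆ tsupport χ := tsupp_dz1 χ
  set J : ℝ := ∫ z, B0 z with hJd
  set E : ℝ := ∫ z, B1 z with hEd
  have hJ' : 0 < J := hJ
  have hE0 : 0 ≤ E := integral_nonneg fun z => by positivity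
  -- facts on the points
  have hs : ∀ p ∈ XX k r, (∀ a, 0 ≤ ss k r p a ∧ ss k r p a < 1) ∧
      (∀ x, 0 < bet k r (p (Sum.inl x))) := by
    intro p hp
    refine ⟨(h5 k r hr).2.2.1 p hp, fun x => (hbet _ (hp.1 x)).2⟩
  -- the mass
  have e0 : ∀ p ∈ XX k r, tf k r η χ p ^ 2 * vol (gm k r (FF k w 0)) p = 2 ^ (2 * k + 2) *
      ((∏ a, (A0 k η (ss k r p a) * hh k r p a)) * ∏ x, B0 (p (Sum.inl x))) := by
    intro p hp
    rw [(fg p hp).2]
    have := prod_split k (fun a => η (ss k r p a) ^ 2) (fun a => K / (1 - ss k r p a))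
      (fun a => K / (1 - ss k r p a) ^ 2) (hh k r p) (fun x => χ (p (Sum.inl x)) ^ 2)
      (fun x => bet k r (p (Sum.inl x)))
    unfold tf A0
    rw [mul_pow, ← Finset.prod_pow, ← Finset.prod_pow]
    rw [← mul_assoc, mul_comm _ ((2 : ℝ) ^ (2 * k + 2)), mul_assoc]
    congr 1
  -- the energy
  have e1 : ∀ p ∈ XX k r, gradSq (gm k r (FF k w 0)) (tf k r η χ) p *
      vol (gm k r (FF k w 0)) p = 2 ^ (2 * k + 2) * 2 *
      (∑ a, ((∏ b, ((if b = a then A1' k η else A0 k η) (ss k r p b) * hh k r p b)) *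
          ∏ x, B0 (p (Sum.inl x))) +
        ∑ x, ((∏ b, ((if b = x.1 then A2 k η else A0 k η) (ss k r p b) * hh k r p b)) *
          ∏ y, (if y = x then B1 else B0) (p (Sum.inl y)))) := by
    intro p hp
    rw [(fg p hp).1, (fg p hp).2]
    obtain ⟨hs1, hs2⟩ := hs p hp
    have ha : ∀ a, ((deriv η (ss k r p a) ^ 2 * (ss k r p a * (1 - ss k r p a) ^ 2 / K)) *
          (∏ b ∈ Finset.univ.erase a, η (ss k r p b) ^ 2) * (∏ x, χ (p (Sum.inl x)) ^ 2)) *
        ((∏ x : Fin 2 × Fin k, (K / (1 - ss k r p x.1) * bet k r (p (Sum.inl x)))) *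
        ∏ a, (hh k r p a * (K / (1 - ss k r p a) ^ 2))) =
        ((∏ b, ((if b = a then A1' k η else A0 k η) (ss k r p b) * hh k r p b)) *
          ∏ x, B0 (p (Sum.inl x))) := by
      intro a
      have := prod_split k (fun b => if b = a then
          (deriv η (ss k r p b) ^ 2 * (ss k r p b * (1 - ss k r p b) ^ 2 / K)) else
          η (ss k r p b) ^ 2) (fun a => K / (1 - ss k r p a))
        (fun a => K / (1 - ss k r p a) ^ 2) (hh k r p) (fun x => χ (p (Sum.inl x)) ^ 2)
        (fun x => bet k r (p (Sum.inl x)))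
      rw [prod_ite_one a (fun b => (deriv η (ss k r p b) ^ 2 *
        (ss k r p b * (1 - ss k r p b) ^ 2 / K))) (fun b => η (ss k r p b) ^ 2)] at this
      rw [this]
      congr 1
      apply Finset.prod_congr rfl
      intro b _
      congr 1
      have h9 : 1 - ss k r p b ≠ 0 := by linarith [(hs1 b).2]
      split_ifs with hb
      · unfold A1'
        rw [← hK]
        field_simp
      · unfold A0
        rfl
    have hx : ∀ x : Fin 2 × Fin k, ((‖dz1 (fun z => ((χ z : ℝ) : ℂ)) (p (Sum.inl x))‖ ^ 2 *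
          ((1 - ss k r p x.1) / (K * bet k r (p (Sum.inl x))))) *
          (∏ y ∈ Finset.univ.erase x, χ (p (Sum.inl y)) ^ 2) * ∏ a, η (ss k r p a) ^ 2) *
        ((∏ x : Fin 2 × Fin k, (K / (1 - ss k r p x.1) * bet k r (p (Sum.inl x)))) *
        ∏ a, (hh k r p a * (K / (1 - ss k r p a) ^ 2))) =
        ((∏ b, ((if b = x.1 then A2 k η else A0 k η) (ss k r p b) * hh k r p b)) *
          ∏ y, (if y = x then B1 else B0) (p (Sum.inl y))) := by
      intro x
      have := prod_split k (fun b => if b = x.1 then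
          (η (ss k r p b) ^ 2 * ((1 - ss k r p b) / K)) else
          η (ss k r p b) ^ 2) (fun a => K / (1 - ss k r p a))
        (fun a => K / (1 - ss k r p a) ^ 2) (hh k r p) (fun y => if y = x then
          (‖dz1 (fun z => ((χ z : ℝ) : ℂ)) (p (Sum.inl y))‖ ^ 2 / bet k r (p (Sum.inl y))) else
          χ (p (Sum.inl y)) ^ 2)
        (fun x => bet k r (p (Sum.inl x)))
      rw [prod_ite_one x.1 (fun b => (η (ss k r p b) ^ 2 * ((1 - ss k r p b) / K)))
        (fun b => η (ss k r p b) ^ 2),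
        prod_ite_one x (fun y => (‖dz1 (fun z => ((χ z : ℝ) : ℂ)) (p (Sum.inl y))‖ ^ 2 /
          bet k r (p (Sum.inl y)))) (fun y => χ (p (Sum.inl y)) ^ 2)] at this
      have e2 : ((‖dz1 (fun z => ((χ z : ℝ) : ℂ)) (p (Sum.inl x))‖ ^ 2 *
          ((1 - ss k r p x.1) / (K * bet k r (p (Sum.inl x))))) *
          (∏ y ∈ Finset.univ.erase x, χ (p (Sum.inl y)) ^ 2) * ∏ a, η (ss k r p a) ^ 2) =
          (η (ss k r p x.1) ^ 2 * ((1 - ss k r p x.1) / K) *
            ∏ b ∈ Finset.univ.erase x.1, η (ss k r p b) ^ 2) *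
          (‖dz1 (fun z => ((χ z : ℝ) : ℂ)) (p (Sum.inl x))‖ ^ 2 / bet k r (p (Sum.inl x)) *
            ∏ y ∈ Finset.univ.erase x, χ (p (Sum.inl y)) ^ 2) := by
        rw [← Finset.mul_prod_erase Finset.univ (fun a => η (ss k r p a) ^ 2)
          (Finset.mem_univ x.1)]
        have h9 := (hs2 x).ne'
        field_simp
      rw [e2, this]
      congr 1
      · apply Finset.prod_congr rfl
        intro b _
        congr 1
        split_ifs with hb
        · unfold A2 A0
          rw [← hK]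
          ring
        · unfold A0
          rfl
      · apply Finset.prod_congr rfl
        intro y _
        split_ifs with hb
        · rw [hB1]
          have h9 := (hs2 y).ne'
          field_simp
        · rfl
    have hA := Finset.sum_congr (s₁ := Finset.univ) rfl (fun a _ => ha a)
    have hX := Finset.sum_congr (s₁ := Finset.univ) rfl (fun x _ => hx x)
    rw [← Finset.sum_mul] at hA hX
    rw [← hA, ← hX, ← add_mul]
    ac_rfl
  -- the integrals
  set P0 : ℝ := Real.pi * I0 k η with hP0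
  set P1 : ℝ := Real.pi * I1 k η with hP1
  set P2 : ℝ := Real.pi * ∫ s in (0 : ℝ)..1, A2 k η s with hP2
  have cA0 := A0_cont k hη t ht1 ht0
  have cA1 := A1_cont k hη t ht1 ht0
  have cA2 := A2_cont k hη t ht1 ht0
  have cs0 : HasCompactSupport B0 := cs_of_sub B0 χ sB0 hχc
  have cs1 : HasCompactSupport B1 := cs_of_sub B1 χ sB1 hχc
  have zA0 : ∃ t < 1, ∀ s ≥ t, A0 k η s = 0 := ⟨t, ht1, A0_zero k t ht0⟩
  have zA1 : ∃ t < 1, ∀ s ≥ t, A1' k η s = 0 := ⟨(t + 1) / 2, by linarith, A1_zero k t ht1 ht0⟩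
  have zA2 : ∃ t < 1, ∀ s ≥ t, A2 k η s = 0 := ⟨t, ht1, A2_zero k t ht0⟩
  have m0 := h2 k r hr (fun _ => A0 k η) (fun _ => B0) (fun _ => cA0) (fun _ => zA0)
    (fun _ => cB0) (fun _ => cs0) (fun _ => sB0.trans hχM)
  have ma : ∀ a : Fin 2, _ := fun a => h2 k r hr (fun b => if b = a then A1' k η else A0 k η)
    (fun _ => B0) (fun b => by split_ifs; exacts [cA1, cA0])
    (fun b => by
      by_cases h : b = a
      · simp only [h, if_true]; exact zA1
      · simp only [h, if_false]; exact zA0)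
    (fun _ => cB0) (fun _ => cs0) (fun _ => sB0.trans hχM)
  have mx : ∀ x : Fin 2 × Fin k, _ := fun x =>
    h2 k r hr (fun b => if b = x.1 then A2 k η else A0 k η)
    (fun y => if y = x then B1 else B0) (fun b => by split_ifs; exacts [cA2, cA0])
    (fun b => by
      by_cases h : b = x.1
      · simp only [h, if_true]; exact zA2
      · simp only [h, if_false]; exact zA0)
    (fun y => by split_ifs; exacts [cB1, cB0]) (fun y => by split_ifs; exacts [cs1, cs0])
    (fun y => by split_ifs; exacts [sB1.trans hχM, sB0.trans hχM])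
  have i0 : ∫ p in XX k r, tf k r η χ p ^ 2 * vol (gm k r (FF k w 0)) p =
      2 ^ (2 * k + 2) * (P0 ^ 2 * J ^ (2 * k)) := by
    rw [setIntegral_congr_fun hXo.measurableSet e0, integral_const_mul, m0.2]
    congr 1
    rw [Finset.prod_const, Finset.prod_const]
    simp only [Finset.card_univ, Fintype.card_prod, Fintype.card_fin]
    rfl
  have va : ∀ a : Fin 2, ∫ p in XX k r,
      ((∏ b, ((if b = a then A1' k η else A0 k η) (ss k r p b) * hh k r p b)) *
          ∏ x, B0 (p (Sum.inl x))) = P1 * P0 * J ^ (2 * k) := by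
    intro a
    rw [(ma a).2]
    congr 1
    · have e9 : ∀ b : Fin 2, (Real.pi * ∫ s in (0 : ℝ)..1,
          (if b = a then A1' k η else A0 k η) s) = if b = a then P1 else P0 := by
        intro b
        split_ifs <;> rfl
      rw [Finset.prod_congr rfl (fun b _ => e9 b), prod_ite_one a (fun _ => P1) (fun _ => P0),
        Finset.prod_const, Finset.card_erase_of_mem (Finset.mem_univ a)]
      simp
    · rw [Finset.prod_const]
      simp only [Finset.card_univ, Fintype.card_prod, Fintype.card_fin]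
      rfl
  have vx : ∀ x : Fin 2 × Fin k, ∫ p in XX k r,
      ((∏ b, ((if b = x.1 then A2 k η else A0 k η) (ss k r p b) * hh k r p b)) *
          ∏ y, (if y = x then B1 else B0) (p (Sum.inl y))) = P2 * P0 * (E / J * J ^ (2 * k)) := by
    intro x
    rw [(mx x).2]
    congr 1
    · have e9 : ∀ b : Fin 2, (Real.pi * ∫ s in (0 : ℝ)..1,
          (if b = x.1 then A2 k η else A0 k η) s) = if b = x.1 then P2 else P0 := by
        intro b
        split_ifs <;> rfl
      rw [Finset.prod_congr rfl (fun b _ => e9 b), prod_ite_one x.1 (fun _ => P2) (fun _ => P0),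
        Finset.prod_const, Finset.card_erase_of_mem (Finset.mem_univ x.1)]
      simp
    · have e9 : ∀ y : Fin 2 × Fin k, (∫ z, (if y = x then B1 else B0) z) =
          if y = x then E else J := by
        intro b
        split_ifs <;> rfl
      rw [Finset.prod_congr rfl (fun b _ => e9 b), prod_ite_one x (fun _ => E) (fun _ => J)]
      have e8 := Finset.mul_prod_erase Finset.univ (fun _ : Fin 2 × Fin k => J) (Finset.mem_univ x)
      have e7 : ∏ _x : Fin 2 × Fin k, J = J ^ (2 * k) := by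
        rw [Finset.prod_const]
        simp only [Finset.card_univ, Fintype.card_prod, Fintype.card_fin]
      rw [e7] at e8
      rw [← e8]
      field_simp
  have i1 : ∫ p in XX k r, gradSq (gm k r (FF k w 0)) (tf k r η χ) p *
      vol (gm k r (FF k w 0)) p = 2 ^ (2 * k + 2) * 2 * (2 * (P1 * P0 * J ^ (2 * k)) +
        (2 * k) * (P2 * P0 * (E / J * J ^ (2 * k)))) := by
    rw [setIntegral_congr_fun hXo.measurableSet e1, integral_const_mul]
    congr 1
    rw [integral_add (integrable_finsetSum _ fun a _ => (ma a).1)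
      (integrable_finsetSum _ fun x _ => (mx x).1),
      integral_finsetSum _ (fun a _ => (ma a).1), integral_finsetSum _ (fun x _ => (mx x).1),
      Finset.sum_congr rfl (fun a _ => va a), Finset.sum_congr rfl (fun x _ => vx x)]
    simp
  have hP0' : 0 < P0 := mul_pos Real.pi_pos hI0
  have hJk : 0 < J ^ (2 * k) := pow_pos hJ' _
  have hmass : 0 < ∫ p in XX k r, tf k r η χ p ^ 2 * vol (gm k r (FF k w 0)) p := by
    rw [i0]
    positivity
  refine (bottom_le (XX k r) hXo (gm k r (FF k w 0)) hpd (tf k r η χ) f1 f2 f3 hmass).trans ?_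
  rw [i0, i1]
  have hq : (2 ^ (2 * k + 2) * 2 * (2 * (P1 * P0 * J ^ (2 * k)) +
        (2 * k) * (P2 * P0 * (E / J * J ^ (2 * k))))) / (2 ^ (2 * k + 2) * (P0 ^ 2 * J ^ (2 * k))) =
      4 * (P1 / P0) + 4 * k * (P2 / P0) * (E / J) := by
    have h2p : (2 : ℝ) ^ (2 * k + 2) ≠ 0 := by positivity
    field_simp
    ring
  rw [hq]
  have hp1 : P1 / P0 = I1 k η / I0 k η := by
    rw [hP1, hP0, mul_div_mul_left _ _ Real.pi_pos.ne']
  have hp2 : P2 / P0 ≤ 1 / K := by
    rw [hP2, hP0, mul_div_mul_left _ _ Real.pi_pos.ne', div_le_div_iff₀ hI0 hK0, one_mul]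
    have := A2_le k hη t ht1 ht0
    rw [le_div_iff₀ hK0] at this
    exact this
  rw [hp1]
  have hEJ : 0 ≤ E / J := div_nonneg hE0 hJ'.le
  have hk : (0 : ℝ) ≤ 4 * k := by positivity
  have h9 : 4 * (k : ℝ) * (P2 / P0) * (E / J) ≤ 4 * k * (1 / K) * (E / J) :=
    mul_le_mul_of_nonneg_right (mul_le_mul_of_nonneg_left hp2 hk) hEJ
  have h10 : 4 * (k : ℝ) * (1 / K) * (E / J) = 4 * k / K * (E / J) := by ring
  rw [h10] at h9
  exact add_le_add (le_refl _) h9

end Pool.Agent.H794.KM
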