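import Pool.Agent.H794.KM.Defs

/-!
Project KM: the complete Kähler-Einstein metric does not maximise the bottom of the spectrum among
the complete Kähler metrics with `Ric(ω) ≥ -ω`.

The manifold. `M = ℂ ∖ {0, 1}` with its hyperbolic density `r` (`Δ log r = r²`, `Hyp r`);
`λ = (2/(k+1)) log r`, `θ = ∂λ/∂z`, `β = ∂²λ/∂z∂z̄ = r²/(2(k+1))`. The coordinates of
`ℂ^(Ix k)`, `Ix k = (Fin 2 × Fin k) ⊕ Fin 2`, are `z_{a,j} = p (inl (a, j))` and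
`v_a = p (inr a)`; `h_a = exp (∑_j λ(z_{a,j}))` (`hh`), `s_a = |v_a|² h_a` (`ss`);
`X = {z_{a,j} ∈ M, s_a < 1}` (`XX`). The coframe is `dz_{a,j}`, `η_a = dv_a + v_a ∑_j θ(z_{a,j})
dz_{a,j} = dv_a + ∑_x T_{a x} dz_x` (`Tm`, `cof`). For a smooth function `F` of `(s_0, s_1)` one has
`∂∂̄ F = ∑_x s_{x.1} F_{x.1} β(z_x) dz_x ∧ dz̄_x + ∑_{a,b} (δ_{ab} F_a h_a + F_{ab} (h_a v̄_a)(h_b v_b))
η_a ∧ η̄_b` and the metrics are `gm k r F = ∑_x (k+2) β(z_x) dz_x ∧ dz̄_x + ∂∂̄ F`.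
-/

namespace Pool.Agent.H794.KM

open MeasureTheory Set Filter Topology
open scoped ComplexOrder

/-- smoothness exponent -/
abbrev SM : WithTop ℕ∞ := ((⊤ : ℕ∞) : WithTop ℕ∞)

/-! ### One complex variable: the hyperbolic density of `ℂ ∖ {0, 1}` -/

/-- `∂f/∂z` -/
noncomputable def dz1 (f : ℂ → ℂ) (z : ℂ) : ℂ :=
  (fderiv ℝ f z 1 - Complex.I * fderiv ℝ f z Complex.I) / 2

/-- `∂f/∂z̄` -/
noncomputable def dzb1 (f : ℂ → ℂ) (z : ℂ) : ℂ :=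
  (fderiv ℝ f z 1 + Complex.I * fderiv ℝ f z Complex.I) / 2

/-- `ℂ ∖ {0, 1}` -/
def M : Set ℂ := {z | z ≠ 0 ∧ z ≠ 1}

/-- `r` is a hyperbolic density on `M` (`4 ∂∂̄ log r = r²`) with the lower bound that gives
completeness at the three punctures. -/
structure Hyp (r : ℂ → ℝ) : Prop where
  smooth : ContDiffOn ℝ SM r M
  pos : ∀ z ∈ M, 0 < r z
  pde : ∀ z ∈ M, dz1 (fun w => dzb1 (fun u => ((Real.log (r u) : ℝ) : ℂ)) w) z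
    = ((r z ^ 2 / 4 : ℝ) : ℂ)
  lower : ∃ c > 0, ∀ z ∈ M, c * (1 + ‖z‖) ≤
    r z * (‖z‖ * ‖z - 1‖ * (1 + |Real.log ‖z‖| + |Real.log ‖z - 1‖|))

/-- The complete elliptic integral `K(z) = ∫_0^{π/2} (1 - z sin² t)^{-1/2} dt` (parameter `z`). -/
noncomputable def Kf (z : ℂ) : ℂ :=
  ∫ t in (0 : ℝ)..(Real.pi / 2), (1 - z * ((Real.sin t : ℝ) : ℂ) ^ 2) ^ (-(1 / 2) : ℂ)

/-- `ℂ ∖ [1, ∞)` -/
def Sl : Set ℂ := {z | z.im ≠ 0 ∨ z.re < 1}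

/-- KHO. For `z ∈ Sl` and real `t`, `1 - z sin² t` lies in `Complex.slitPlane`; differentiate under
the integral sign. (`K(x) > 0`, `K'(x) > 0` for real `x < 1`: the integrands are positive.) -/
def S_KHO : Prop :=
  (∀ z ∈ Sl, DifferentiableAt ℂ Kf z) ∧
  (∀ z ∈ Sl, Kf ((starRingEnd ℂ) z) = (starRingEnd ℂ) (Kf z)) ∧
  (∀ x : ℝ, x < 1 → 0 < (Kf x).re ∧ (Kf x).im = 0 ∧ 0 < (deriv Kf x).re ∧ (deriv Kf x).im = 0)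

/-- KOD. The hypergeometric equation. With `D = 1 - z sin² t`, the integrand `f = D^{-1/2}` satisfies
`z(1-z) f_zz + (1-2z) f_z - f/4 = -(1/4) d/dt [sin t cos t D^{-3/2}]`. -/
def S_KOD : Prop := ∀ z ∈ Sl,
  z * (1 - z) * deriv (deriv Kf) z + (1 - 2 * z) * deriv Kf z - Kf z / 4 = 0

/-- KPF (Pfaff). Substitute `t → π/2 - t`: `1 - z cos² t = (1 - z)(1 - (z/(z-1)) sin² t)`, and the
principal powers multiply since `1 - z cos² t` lies on the segment from `1` to `1 - z`. -/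
def S_KPF : Prop := ∀ z ∈ Sl, z / (z - 1) ∈ Sl ∧
  Kf z = (1 - z) ^ (-(1 / 2) : ℂ) * Kf (z / (z - 1))

/-- KWR. The Wronskian of `K(z)` and `K(1-z)`: `z (1-z) W` has derivative `0` on the convex-by-slits
(preconnected) set `Sl ∩ (1 - Sl)` by KOD, and `W(1/2) = -2 K(1/2) K'(1/2) < 0`. -/
def S_KWR : Prop := ∃ c : ℝ, c < 0 ∧ ∀ z ∈ Sl, 1 - z ∈ Sl →
  Kf z * (-deriv Kf (1 - z)) - deriv Kf z * Kf (1 - z) = c / (z * (1 - z))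

/-- KCO. Connection formula. Both sides of `z^{-1/2} K(1/z) = K(z) - i K(1-z)` solve the
hypergeometric equation on the upper half plane. They agree to first order at `u = e^{iπ/3}`
(`1/u = 1 - u = ū`): writing `e = e^{iπ/6} = u^{1/2}`, `κ = K(ū)`, `κ' = K'(ū)`, KPF at `u` gives
`K(u) = e κ` and (its derivative) `K'(u) = (i/2) κ - e⁵ κ'`; the left side has value `e⁻¹ κ` and
derivative `-(1/2) e⁻³ κ - e⁻⁵ κ'`, the right side `(e - i) κ` and `K'(u) + i κ'`; use `e - i = e⁻¹`,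
`e³ = i`, `e⁵ - e⁻⁵ = i`. A solution `d` with `d(u) = d'(u) = 0` vanishes: the Wronskians of `d`
with `a = K(z)` and with `b = K(1-z)` are `0` (they are `const/(z(1-z))`), so
`d (a b' - a' b) = 0`, and `a b' - a' b ≠ 0` by KWR. -/
def S_KCO : Prop := ∀ z : ℂ, 0 < z.im →
  z ^ (-(1 / 2) : ℂ) * Kf z⁻¹ = Kf z - Complex.I * Kf (1 - z)

/-- `A₁(z) = Re (K(z) conj K(1-z))` -/
noncomputable def A1 (z : ℂ) : ℝ := (Kf z * (starRingEnd ℂ) (Kf (1 - z))).re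

/-- `A₁(1/z) = |z| A₁(z)` off the real axis: for `Im z > 0` by KCO and KPF at `1 - z`
(`K(1 - 1/z) = z^{1/2} K(1-z)`), for `Im z < 0` by conjugation. -/
def S_KA1 : Prop := ∀ z : ℂ, z.im ≠ 0 → A1 z⁻¹ = ‖z‖ * A1 z

/-- The function `A` on `M`. -/
noncomputable def Ag (z : ℂ) : ℝ :=
  if z.re ≤ 0 then ‖1 - z‖⁻¹ * A1 (1 - z)⁻¹ else if z.re < 1 then A1 z else ‖z‖⁻¹ * A1 z⁻¹

/-- ASY. Symmetries of `A`; from `A1 (1 - z) = A1 z` and KA1 (case analysis on real parts; if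
`Re z ≥ 1`, `z ≠ 1` then `0 < Re (1/z) < 1`; if `0 < Re z < 1` and `0 < Re (1/z) < 1` then `z` is
not real). -/
def S_ASY : Prop := ∀ z ∈ M, Ag (1 - z) = Ag z ∧ Ag z⁻¹ = ‖z‖ * Ag z

/-- ARE. Local representation `A = Re (a b̄)` with `a, b` holomorphic and Wronskian
`a b' - a' b = c / (z (1-z))`. For `0 < Re z₀ < 1`: `a = K(z)`, `b = K(1-z)`. For `Re z₀ > 1`:
`a = z^{-1/2} K(1/z)`, `b = z^{-1/2} K(1 - 1/z)`. For `Re z₀ = 1`: `z₀` is not real, near `z₀` one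
has `A = A₁` by KA1. For `Re z₀ ≤ 0`: use `A(z) = A(1-z)` and the representation at `1 - z₀`. -/
def S_ARE : Prop := ∃ c : ℝ, c ≠ 0 ∧ ∀ z₀ ∈ M, ∃ a b : ℂ → ℂ, ∀ᶠ z in 𝓝 z₀,
  DifferentiableAt ℂ a z ∧ DifferentiableAt ℂ b z ∧ Ag z = (a z * (starRingEnd ℂ) (b z)).re ∧
  a z * deriv b z - deriv a z * b z = c / (z * (1 - z))

/-- KRG. On the strip `0 < Re z < 1`, `Im z ≥ 0`: for `w = 1 - z sin² t` one has `Re w > 0`,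
`Im w ≤ 0`, so `w^{-1/2} = x + i y` with `0 ≤ y < x`; for `w = 1 - (1-z) sin² t` similarly
`-x < y ≤ 0`. Hence `0 ≤ Im K(z) < Re K(z)` and `-Re K(1-z) < Im K(1-z) ≤ 0`, so `A₁(z) > 0`
(`Im z ≤ 0` by conjugation). If `|z-1| ≤ 1`, `Re z ≤ 1/2`, `z ≠ 0` then `Re z > 0`, `|1-z| ≥ 1/2`
and, by `|cos² t + m sin² t|² ≥ (cos² t + |m| sin² t)²/2` for `Re m ≥ 0` (`m = 1-z`, `m = z`),
`|K(z)| ≤ C`, `|K(1-z)| ≤ C (1 + |log |z||)`. -/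
def S_KRG : Prop :=
  (∀ z : ℂ, 0 < z.re → z.re < 1 → 0 < A1 z) ∧
  ∃ C : ℝ, ∀ z : ℂ, z ≠ 0 → ‖z - 1‖ ≤ 1 → z.re ≤ 1 / 2 → A1 z ≤ C * (1 + |Real.log ‖z‖|)

/-- APO. Positivity and the upper bound of `A`. Positivity: directly from `S_KRG`. Upper bound: let
`Q(z)` be `A(z)(1+|z|) ≤ C (1 + |log|z|| + |log|z-1||)`; it holds on `{|z-1| ≤ 1, Re z ≤ 1/2}`, and
by `S_ASY` it passes from `1-z` to `z` and from `1/z` to `z` with `C` replaced by `4 C`; every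
`z ∈ M` is moved into the region by at most six such steps (if `|z-1| > 1` replace `z` by
`z/(z-1) = 1 - 1/(1-z)`; then if `Re z > 1/2`, `|z| ≤ 1` replace `z` by `1-z`; if `Re z > 1/2`,
`|z| > 1` replace `z` by `1 - 1/z`). -/
def S_APO : Prop := ∃ C > 0, ∀ z ∈ M, 0 < Ag z ∧
  Ag z * (1 + ‖z‖) ≤ C * (1 + |Real.log ‖z‖| + |Real.log ‖z - 1‖|)

/-- WPD. Liouville's equation: with `A = Re (a b̄)` one has
`A A_{z z̄} - |A_z|² = -|a b' - a' b|² / 4`, and `log |z (1-z)|` is harmonic. -/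
def S_WPD : Prop := ∀ (a b : ℂ → ℂ) (A : ℂ → ℝ) (c : ℝ) (z₀ : ℂ), z₀ ∈ M → c ≠ 0 → 0 < A z₀ →
  (∀ᶠ z in 𝓝 z₀, DifferentiableAt ℂ a z ∧ DifferentiableAt ℂ b z ∧
    A z = (a z * (starRingEnd ℂ) (b z)).re ∧
    a z * deriv b z - deriv a z * b z = c / (z * (1 - z))) →
  ContDiffAt ℝ SM (fun z => |c| / (‖z * (1 - z)‖ * A z)) z₀ ∧
  dz1 (fun w => dzb1 (fun u => ((Real.log (|c| / (‖u * (1 - u)‖ * A u)) : ℝ) : ℂ)) w) z₀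
    = (((|c| / (‖z₀ * (1 - z₀)‖ * A z₀)) ^ 2 / 4 : ℝ) : ℂ)

/-- HYP. `r z = |c| / (|z (1-z)| A z)`; from ARE, APO, WPD. -/
def S_HYP : Prop := ∃ r, Hyp r

/-- CUT. Cut-off functions on `M` with small energy, e.g. for large `N`
`χ(z) = θ(2 + log|z|²/N) θ(2 + log|z-1|²/N) θ(2 - log(1+|z|²)/N)`, `θ = Real.smoothTransition`;
the energy is `O(1/N)`. -/
def S_CUT : Prop := ∀ ε > 0, ∃ χ : ℂ → ℝ, ContDiff ℝ SM χ ∧ HasCompactSupport χ ∧ tsupport χ ⊆ M ∧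
  (∀ z ∈ Metric.ball (1 / 2 : ℂ) (1 / 8), χ z = 1) ∧
  ∫ z, ‖dz1 (fun w => ((χ w : ℝ) : ℂ)) z‖ ^ 2 ≤ ε

/-- EXB. Exhaustion of `M` with gradient bounded by the density:
`e = log (2 + (log|z|²)² + (log|z-1|²)²)`. -/
def S_EXB : Prop := ∀ r, Hyp r → ∃ (e : ℂ → ℝ) (C : ℝ), ContDiffOn ℝ SM e M ∧
  (∀ z ∈ M, 0 ≤ e z ∧ ‖fderiv ℝ e z‖ ≤ C * r z) ∧ ∀ R, IsCompact {z | z ∈ M ∧ e z ≤ R}

/-! ### The manifold -/

/-- coordinates: `inl (a, j)` base, `inr a` fibre -/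
abbrev Ix (k : ℕ) : Type := (Fin 2 × Fin k) ⊕ Fin 2

/-- `v ↦ a v + b v̄` on `ℂ` -/
noncomputable def wl (a b : ℂ) : ℂ →L[ℝ] ℂ :=
  a • ContinuousLinearMap.id ℝ ℂ + b • (Complex.conjCLE : ℂ →L[ℝ] ℂ)

/-- `v ↦ ∑ (a_i v_i + b_i v̄_i)` on `ℂ^ι` -/
noncomputable def wL {ι : Type} [Fintype ι] (a b : ι → ℂ) : (ι → ℂ) →L[ℝ] ℂ :=
  ∑ i, (wl (a i) (b i)).comp (ContinuousLinearMap.proj (R := ℝ) i)

/-- `f` is real differentiable at `p` with `∂f/∂z_i = a_i`, `∂f/∂z̄_i = b_i`. -/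
def HW {ι : Type} [Fintype ι] (f : (ι → ℂ) → ℂ) (p a b : ι → ℂ) : Prop := HasFDerivAt f (wL a b) p

/-- WIR. Rules for `HW`. -/
def S_WIR : Prop := ∀ (ι : Type) [Fintype ι] [DecidableEq ι],
  (∀ (f : (ι → ℂ) → ℂ) (p a b : ι → ℂ), HW f p a b → ∀ i, dz i f p = a i ∧ dzbar i f p = b i) ∧
  (∀ (f : (ι → ℂ) → ℂ) (p : ι → ℂ), DifferentiableAt ℝ f p →
    HW f p (fun i => dz i f p) (fun i => dzbar i f p)) ∧
  (∀ (f g : (ι → ℂ) → ℂ) (p a b a' b' : ι → ℂ), HW f p a b → HW g p a' b' →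
    HW (fun q => f q + g q) p (fun i => a i + a' i) (fun i => b i + b' i)) ∧
  (∀ (f g : (ι → ℂ) → ℂ) (p a b a' b' : ι → ℂ), HW f p a b → HW g p a' b' →
    HW (fun q => f q * g q) p (fun i => a i * g p + f p * a' i) (fun i => b i * g p + f p * b' i)) ∧
  (∀ (f : (ι → ℂ) → ℂ) (p a b : ι → ℂ), HW f p a b →
    HW (fun q => (starRingEnd ℂ) (f q)) p (fun i => (starRingEnd ℂ) (b i))
      (fun i => (starRingEnd ℂ) (a i))) ∧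
  (∀ (p : ι → ℂ) (j : ι) (φ : ℂ → ℂ) (a b : ℂ), HasFDerivAt φ (wl a b) (p j) →
    HW (fun q => φ (q j)) p (fun i => if i = j then a else 0) (fun i => if i = j then b else 0))

noncomputable def lam (k : ℕ) (r : ℂ → ℝ) (z : ℂ) : ℝ := 2 / ((k : ℝ) + 1) * Real.log (r z)
noncomputable def th (k : ℕ) (r : ℂ → ℝ) (z : ℂ) : ℂ := dz1 (fun w => ((lam k r w : ℝ) : ℂ)) z
noncomputable def bet (k : ℕ) (r : ℂ → ℝ) (z : ℂ) : ℝ := r z ^ 2 / (2 * ((k : ℝ) + 1))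

/-- `h_a` -/
noncomputable def hh (k : ℕ) (r : ℂ → ℝ) (p : Ix k → ℂ) (a : Fin 2) : ℝ :=
  Real.exp (∑ j, lam k r (p (Sum.inl (a, j))))
/-- `s_a` -/
noncomputable def ss (k : ℕ) (r : ℂ → ℝ) (p : Ix k → ℂ) (a : Fin 2) : ℝ :=
  ‖p (Sum.inr a)‖ ^ 2 * hh k r p a
/-- the manifold -/
def XX (k : ℕ) (r : ℂ → ℝ) : Set (Ix k → ℂ) :=
  {p | (∀ x, p (Sum.inl x) ∈ M) ∧ ∀ a, ss k r p a < 1}

/-- `T_{a x}` -/
noncomputable def Tm (k : ℕ) (r : ℂ → ℝ) (p : Ix k → ℂ) : Matrix (Fin 2) (Fin 2 × Fin k) ℂ :=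
  Matrix.of fun a x => if x.1 = a then p (Sum.inr a) * th k r (p (Sum.inl x)) else 0

/-- The components of `η_a` for a general matrix `T`. -/
def cof {k : ℕ} (T : Matrix (Fin 2) (Fin 2 × Fin k) ℂ) (a : Fin 2) : Ix k → ℂ :=
  Sum.elim (fun x => T a x) (fun b => if a = b then 1 else 0)

/-- The matrix of `∑_x E_x dz_x ∧ dz̄_x + ∑_{a,b} G_{ab} η_a ∧ η̄_b`. -/
noncomputable def frame {k : ℕ} (T : Matrix (Fin 2) (Fin 2 × Fin k) ℂ) (E : Fin 2 × Fin k → ℝ)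
    (G : Matrix (Fin 2) (Fin 2) ℂ) : Matrix (Ix k) (Ix k) ℂ :=
  (Matrix.fromBlocks 1 0 T 1).transpose *
    Matrix.fromBlocks (Matrix.diagonal fun x => ((E x : ℝ) : ℂ)) 0 0 G *
    (Matrix.fromBlocks 1 0 T 1).map (starRingEnd ℂ)

/-- partial derivative with respect to `s_a` -/
noncomputable def pd (a : Fin 2) (F : (Fin 2 → ℝ) → ℝ) (s : Fin 2 → ℝ) : ℝ :=
  fderiv ℝ F s (Pi.single a 1)

/-- `[0,1)²` -/
def Sq : Set (Fin 2 → ℝ) := {s | ∀ a, 0 ≤ s a ∧ s a < 1}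
/-- `[0,1]²` -/
def cSq : Set (Fin 2 → ℝ) := {s | ∀ a, 0 ≤ s a ∧ s a ≤ 1}

def SmS (F : (Fin 2 → ℝ) → ℝ) : Prop := ∀ s ∈ Sq, ContDiffAt ℝ SM F s

noncomputable def hE (k : ℕ) (r : ℂ → ℝ) (F : (Fin 2 → ℝ) → ℝ) (p : Ix k → ℂ)
    (x : Fin 2 × Fin k) : ℝ :=
  ss k r p x.1 * pd x.1 F (ss k r p) * bet k r (p (Sum.inl x))

noncomputable def hG (k : ℕ) (r : ℂ → ℝ) (F : (Fin 2 → ℝ) → ℝ) (p : Ix k → ℂ) :
    Matrix (Fin 2) (Fin 2) ℂ :=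
  Matrix.of fun a b => (if a = b then ((pd a F (ss k r p) * hh k r p a : ℝ) : ℂ) else 0) +
    ((pd b (pd a F) (ss k r p) * (hh k r p a * hh k r p b) : ℝ) : ℂ) *
      ((starRingEnd ℂ) (p (Sum.inr a)) * p (Sum.inr b))

/-- the metric -/
noncomputable def gm (k : ℕ) (r : ℂ → ℝ) (F : (Fin 2 → ℝ) → ℝ) (p : Ix k → ℂ) :
    Matrix (Ix k) (Ix k) ℂ :=
  frame (Tm k r p)
    (fun x => ((k : ℝ) + 2 + ss k r p x.1 * pd x.1 F (ss k r p)) * bet k r (p (Sum.inl x)))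
    (hG k r F p)

/-- BAS. Facts on `λ, θ, β` at a point of `M`. -/
def S_BAS : Prop := ∀ (k : ℕ) (r : ℂ → ℝ), Hyp r → ∀ z ∈ M,
  HasFDerivAt (fun w => ((lam k r w : ℝ) : ℂ)) (wl (th k r z) ((starRingEnd ℂ) (th k r z))) z ∧
  (∃ t, HasFDerivAt (th k r) (wl t ((bet k r z : ℝ) : ℂ)) z) ∧
  ContDiffAt ℝ SM (lam k r) z ∧ ContDiffAt ℝ SM (th k r) z ∧ ContDiffAt ℝ SM (bet k r) z ∧
  0 < bet k r z ∧ Real.log (bet k r z) = ((k : ℝ) + 1) * lam k r z - Real.log (2 * ((k : ℝ) + 1))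

/-- SSD. The functions `h_a`, `s_a` on the open set where all `z_x ∈ M`:
`∂s_a = h_a v̄_a η_a`, and `∂(∂̄_j s_a)`. -/
def S_SSD : Prop := ∀ (k : ℕ) (r : ℂ → ℝ), Hyp r →
  IsOpen (XX k r) ∧ IsOpen {p : Ix k → ℂ | ∀ x, p (Sum.inl x) ∈ M} ∧
  (∀ p ∈ XX k r, ss k r p ∈ Sq) ∧
  ∀ p : Ix k → ℂ, (∀ x, p (Sum.inl x) ∈ M) → ∀ a,
    ContDiffAt ℝ SM (fun q => hh k r q a) p ∧ ContDiffAt ℝ SM (fun q => ss k r q a) p ∧
    0 < hh k r p a ∧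
    HW (fun q => ((ss k r q a : ℝ) : ℂ)) p
      (fun i => (hh k r p a : ℂ) * (starRingEnd ℂ) (p (Sum.inr a)) * cof (Tm k r p) a i)
      (fun i => (hh k r p a : ℂ) * p (Sum.inr a) * (starRingEnd ℂ) (cof (Tm k r p) a i)) ∧
    ∀ j, ∃ b : Ix k → ℂ, HW (fun q => dzbar j (fun q' => ((ss k r q' a : ℝ) : ℂ)) q) p
      (fun i => (hh k r p a : ℂ) * cof (Tm k r p) a i * (starRingEnd ℂ) (cof (Tm k r p) a j) +
        Sum.elim (fun x => if i = j ∧ i = Sum.inl x ∧ x.1 = a then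
          ((ss k r p a * bet k r (p (Sum.inl x)) : ℝ) : ℂ) else 0) (fun _ => 0) i) b

/-- FRA. Entries, additivity, determinant, positivity and inverse of `frame`.
With `L = fromBlocks 1 0 T 1` one has `frame T E G = Lᵀ (diag(E) ⊕ G) L̄`, `det L = 1`. -/
def S_FRA : Prop := ∀ (k : ℕ) (T : Matrix (Fin 2) (Fin 2 × Fin k) ℂ),
  (∀ E G i j, frame T E G i j =
    Sum.elim (fun x => if i = j ∧ i = Sum.inl x then ((E x : ℝ) : ℂ) else 0) (fun _ => 0) i +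
      ∑ a, ∑ b, G a b * cof T a i * (starRingEnd ℂ) (cof T b j)) ∧
  (∀ E G, (frame T E G).det = (∏ x, ((E x : ℝ) : ℂ)) * G.det) ∧
  (∀ E G, (∀ x, 0 < E x) → G.PosDef → (frame T E G).PosDef) ∧
  (∀ E G, (∀ x, 0 ≤ E x) → G.PosSemidef → (frame T E G).PosSemidef) ∧
  (∀ E G (v : Ix k → ℂ), ∑ i, ∑ j, frame T E G i j * v i * (starRingEnd ℂ) (v j) =
    ∑ x, ((E x : ℝ) : ℂ) * v (Sum.inl x) * (starRingEnd ℂ) (v (Sum.inl x)) +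
      ∑ a, ∑ b, G a b * (∑ i, cof T a i * v i) * (starRingEnd ℂ) (∑ i, cof T b i * v i)) ∧
  (∀ (E : Fin 2 × Fin k → ℝ) (d : Fin 2 → ℝ), (∀ x, 0 < E x) → (∀ a, 0 < d a) →
    ∀ c : Ix k → ℂ,
    (∑ i, ∑ j, (frame T E (Matrix.diagonal fun a => ((d a : ℝ) : ℂ)))⁻¹ j i * c i *
      (starRingEnd ℂ) (c j)).re =
    ∑ x, ‖c (Sum.inl x) - ∑ a, T a x * c (Sum.inr a)‖ ^ 2 / E x +
      ∑ a, ‖c (Sum.inr a)‖ ^ 2 / d a)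

/-- HES. The complex Hessian of a function of `(s_0, s_1)`. From SSD, WIR, FRA (entries):
`∂̄_j (F∘s) = ∑_a F_a(s) ∂̄_j s_a`, and apply `∂_i`. -/
def S_HES : Prop := ∀ (k : ℕ) (r : ℂ → ℝ), Hyp r → ∀ F, SmS F → ∀ p ∈ XX k r, ∀ i j,
  DifferentiableAt ℝ (fun q => dzbar j (fun q' => ((F (ss k r q') : ℝ) : ℂ)) q) p ∧
  dz i (fun q => dzbar j (fun q' => ((F (ss k r q') : ℝ) : ℂ)) q) p =
    frame (Tm k r p) (hE k r F p) (hG k r F p) i j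

/-- POT. The complex Hessian of `F(s) + c ∑_x λ(z_x)`. -/
def S_POT : Prop := ∀ (k : ℕ) (r : ℂ → ℝ), Hyp r → ∀ F, SmS F → ∀ c : ℝ, ∀ p ∈ XX k r, ∀ i j,
  dz i (fun q => dzbar j (fun q' =>
    ((F (ss k r q') + c * ∑ x, lam k r (q' (Sum.inl x)) : ℝ) : ℂ)) q) p =
    frame (Tm k r p) (fun x => hE k r F p x + c * bet k r (p (Sum.inl x))) (hG k r F p) i j

/-- CLO. A potential gives smooth coefficients and a closed form. -/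
def S_CLO : Prop := ∀ (ι : Type) [Fintype ι] [DecidableEq ι] (X : Set (ι → ℂ))
  (Φ : (ι → ℂ) → ℂ), IsOpen X → ContDiffOn ℝ SM Φ X →
  (∀ i j, ContDiffOn ℝ SM (fun p => dz i (fun q => dzbar j Φ q) p) X) ∧
  ∀ p ∈ X, ∀ i j k, dz k (fun q => dz i (fun q' => dzbar j Φ q') q) p =
    dz i (fun q => dz k (fun q' => dzbar j Φ q') q) p

/-- `Γ = (F_0 + s_0 F_00)(F_1 + s_1 F_11) - s_0 s_1 F_01²` -/
noncomputable def Gam (F : (Fin 2 → ℝ) → ℝ) (s : Fin 2 → ℝ) : ℝ :=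
  (pd 0 F s + s 0 * pd 0 (pd 0 F) s) * (pd 1 F s + s 1 * pd 1 (pd 1 F) s) -
    s 0 * s 1 * pd 1 (pd 0 F) s ^ 2

/-- the quadratic form `∑ (F_a + s_a F_aa) x_a² + 2 √(s_0 s_1) F_01 x_0 x_1` -/
noncomputable def QF (F : (Fin 2 → ℝ) → ℝ) (s x : Fin 2 → ℝ) : ℝ :=
  ∑ a, (pd a F s + s a * pd a (pd a F) s) * x a ^ 2 +
    2 * Real.sqrt (s 0 * s 1) * pd 1 (pd 0 F) s * x 0 * x 1

/-- HGP. Positivity and determinant of `hG`. With `x_a = √h_a |η_a|` (signs chosen suitably),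
`Re ∑ G_{ab} η_a η̄_b = ∑ (F_a + s_a F_aa) x_a² + 2 F_01 Re(…)`, `|…| = √(s_0 s_1) x_0 x_1`. -/
def S_HGP : Prop := ∀ (k : ℕ) (r : ℂ → ℝ), Hyp r → ∀ F, SmS F → ∀ p ∈ XX k r,
  (hG k r F p).IsHermitian ∧
  (hG k r F p).det = ((hh k r p 0 * hh k r p 1 * Gam F (ss k r p) : ℝ) : ℂ) ∧
  (∀ c : ℝ, (∀ x : Fin 2 → ℝ, c * ∑ a, x a ^ 2 / (1 - ss k r p a) ^ 2 ≤ QF F (ss k r p) x) →
    ∀ η : Fin 2 → ℂ, c * ∑ a, hh k r p a * ‖η a‖ ^ 2 / (1 - ss k r p a) ^ 2 ≤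
      (∑ a, ∑ b, hG k r F p a b * η a * (starRingEnd ℂ) (η b)).re) ∧
  ((∀ x : Fin 2 → ℝ, 0 ≤ QF F (ss k r p) x) → (hG k r F p).PosSemidef) ∧
  ((∃ c > 0, ∀ x : Fin 2 → ℝ, c * ∑ a, x a ^ 2 / (1 - ss k r p a) ^ 2 ≤ QF F (ss k r p) x) →
    (hG k r F p).PosDef)

/-- `N = k ∑ log (k + 2 + s_a F_a) + log Γ`, so that `log det g = N(s) + (k+2) ∑_x λ(z_x) + const` -/
noncomputable def NN (k : ℕ) (F : (Fin 2 → ℝ) → ℝ) (s : Fin 2 → ℝ) : ℝ :=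
  k * ∑ a, Real.log ((k : ℝ) + 2 + s a * pd a F s) + Real.log (Gam F s)

/-- `U = F - N`, so that `Ric + ω = ∂∂̄ U(s)` -/
noncomputable def UU (k : ℕ) (F : (Fin 2 → ℝ) → ℝ) (s : Fin 2 → ℝ) : ℝ := F s - NN k F s

structure Good (k : ℕ) (F : (Fin 2 → ℝ) → ℝ) : Prop where
  sm : SmS F
  ell : ∃ c > 0, ∀ s ∈ Sq, (∀ a, c ≤ (k : ℝ) + 2 + s a * pd a F s) ∧
    ∀ x : Fin 2 → ℝ, c * ∑ a, x a ^ 2 / (1 - s a) ^ 2 ≤ QF F s x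
  ric : ∀ s ∈ Sq, (∀ a, 0 ≤ pd a (UU k F) s) ∧ ∀ x : Fin 2 → ℝ, 0 ≤ QF (UU k F) s x

/-- DET. The determinant of the metric; and `Γ > 0` on `Sq` (the real symmetric `2 × 2` matrix of
`QF F s` is positive definite), `SmS (UU k F)`. -/
def S_DET : Prop := ∀ (k : ℕ) (r : ℂ → ℝ), Hyp r → ∀ F, Good k F →
  (∀ s ∈ Sq, 0 < Gam F s) ∧ SmS (UU k F) ∧ ∀ p ∈ XX k r,
    (gm k r F p).det = (((∏ x, (((k : ℝ) + 2 + ss k r p x.1 * pd x.1 F (ss k r p)) *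
      bet k r (p (Sum.inl x)))) * (hh k r p 0 * hh k r p 1 * Gam F (ss k r p)) : ℝ) : ℂ) ∧
    0 < (gm k r F p).det.re ∧
    Real.log (gm k r F p).det.re = NN k F (ss k r p) + ((k : ℝ) + 2) * ∑ x, lam k r (p (Sum.inl x)) -
      2 * k * Real.log (2 * ((k : ℝ) + 1))

/-- RIC. `Ric(ω) + ω = ∂∂̄ U(s)`: from DET, POT (with `F` and with `N = F - U`), FRA (additivity). -/
def S_RIC : Prop := ∀ (k : ℕ) (r : ℂ → ℝ), Hyp r → ∀ F, Good k F → ∀ p ∈ XX k r,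
  ricci (gm k r F) p + gm k r F p = frame (Tm k r p) (hE k r (UU k F) p) (hG k r (UU k F) p)

/-- KAH. From POT, CLO, FRA, HGP, RIC. -/
def S_KAH : Prop := ∀ (k : ℕ) (r : ℂ → ℝ), Hyp r → ∀ F, Good k F →
  IsKahler (XX k r) (gm k r F) ∧ ∀ p ∈ XX k r, (ricci (gm k r F) p + gm k r F p).PosSemidef

/-! ### Completeness -/

/-- C1P. In a connected open set two points are joined by a `C¹` path (even a smooth one which is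
constant near the end points: then such paths can be concatenated; use
`Real.smoothTransition` to reparametrize segments in balls). -/
def S_C1P : Prop := ∀ (ι : Type) [Fintype ι] (X : Set (ι → ℂ)), IsOpen X → IsConnected X →
  ∀ p ∈ X, ∀ q ∈ X, (pathsIn X p q).Nonempty

/-- CMP. Completeness criterion. Let `s` be Cauchy. By C1P and the gradient bound,
`|E(s_m) - E(s_k)| ≤ C riemDist`, so `E(s_m) ≤ R` for `m ≥ m₀`; on the compact set `{E ≤ R+1+C}` the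
metric is bounded below by a multiple of the Euclidean one; a path from `s_m` to `s_k` of length
`< 1` stays in that set, so `‖s_m - s_k‖ ≤ C' riemDist`; `s` is Cauchy in `ℂ^ι`, its limit `p`
lies in the compact set, and `riemDist (s_m) p ≤` length of the segment in a small closed ball
around `p` contained in `X`, `≤ C'' ‖s_m - p‖`. (Cf. `Pool/Graph/R_seed8/H911R3/Complete.lean`,
the case of the polydisc: `path_bound`, `length_bounds`, `dist_le`, `complete_om`.) -/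
def S_CMP : Prop := ∀ (ι : Type) [Fintype ι] [DecidableEq ι] (X : Set (ι → ℂ))
  (g : (ι → ℂ) → Matrix ι ι ℂ) (E : (ι → ℂ) → ℝ) (C : ℝ),
  IsOpen X → IsConnected X → (∀ i j, ContinuousOn (fun p => g p i j) X) →
  (∀ p ∈ X, (g p).PosDef) → ContDiffOn ℝ 1 E X →
  (∀ p ∈ X, ∀ v, |fderiv ℝ E p v| ≤ C * Real.sqrt (normSq g p v)) →
  (∀ R, IsCompact {p | p ∈ X ∧ E p ≤ R}) → IsCompleteMetric X g

/-- EXH. Exhaustion of `XX`: `E = -∑_a log (1 - s_a) + ∑_x e(z_x)`. -/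
def S_EXH : Prop := ∀ (k : ℕ) (r : ℂ → ℝ), Hyp r → ∃ (E : (Ix k → ℂ) → ℝ) (C : ℝ),
  ContDiffOn ℝ 1 E (XX k r) ∧
  (∀ p ∈ XX k r, ∀ v, (fderiv ℝ E p v) ^ 2 ≤ C * (∑ x, bet k r (p (Sum.inl x)) * ‖v (Sum.inl x)‖ ^ 2 +
    ∑ a, hh k r p a * ‖∑ i, cof (Tm k r p) a i * v i‖ ^ 2 / (1 - ss k r p a) ^ 2)) ∧
  ∀ R, IsCompact {p | p ∈ XX k r ∧ E p ≤ R}

/-- XOC. `XX` is connected (each point is joined inside `XX` to the zero section, which is the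
product of copies of `M`, and `M` is path connected: the complement of a countable set) and not
compact (open, nonempty, not everything). -/
def S_XOC : Prop := ∀ (k : ℕ) (r : ℂ → ℝ), Hyp r →
  IsOpen (XX k r) ∧ IsConnected (XX k r) ∧ ¬ IsCompact (XX k r)

/-- COM. From CMP, EXH, XOC, FRA, HGP, KAH. -/
def S_COM : Prop := ∀ (k : ℕ) (r : ℂ → ℝ), Hyp r → ∀ F, Good k F →
  IsCompleteMetric (XX k r) (gm k r F)

/-! ### Spectral lower bound -/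

/-- PWI. Pointwise inequality: `0 ≤ ⟨a - t d, a - t d⟩` for the inverse matrix. -/
def S_PWI : Prop := ∀ (ι : Type) [Fintype ι] [DecidableEq ι] (G : Matrix ι ι ℂ) (a d V : ι → ℂ)
  (t : ℝ), G.PosDef → (∀ j, ∑ i, V i * G i j = (starRingEnd ℂ) (d j)) →
  2 * t * (∑ i, V i * a i).re - t ^ 2 * (∑ i, V i * d i).re ≤
    (∑ i, ∑ j, G⁻¹ j i * a i * (starRingEnd ℂ) (a j)).re

/-- IBP. Integration by parts. -/
def S_IBP : Prop := ∀ (ι : Type) [Fintype ι] [DecidableEq ι] (X : Set (ι → ℂ)) (q : (ι → ℂ) → ℝ)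
  (W : ι → (ι → ℂ) → ℂ), IsOpen X → ContDiff ℝ 1 q → HasCompactSupport q → tsupport q ⊆ X →
  (∀ i, ContDiffOn ℝ 1 (W i) X) →
  IntegrableOn (fun p => (∑ i, dz i (fun p' => ((q p' : ℝ) : ℂ)) p * W i p).re) X ∧
  IntegrableOn (fun p => q p * (∑ i, dz i (W i) p).re) X ∧
  ∫ p in X, (∑ i, dz i (fun p' => ((q p' : ℝ) : ℂ)) p * W i p).re =
    - ∫ p in X, q p * (∑ i, dz i (W i) p).re

/-- BAR. Barta: with `q = f²/φ`, `gradSq f ≥ 2 Re ∑ V_i ∂_i q` (PWI with `a = ∂f`, `d = ∂φ`,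
`t = f/φ`), multiply by `vol` and integrate by parts (IBP with `W_i = det g · V_i`). Then divide:
`∫ f² vol > 0` for `f ≠ 0`, and the set of Rayleigh quotients is nonempty as `X` is nonempty. -/
def S_BAR : Prop := ∀ (ι : Type) [Fintype ι] [DecidableEq ι] (X : Set (ι → ℂ))
  (g : (ι → ℂ) → Matrix ι ι ℂ) (ph : (ι → ℂ) → ℝ) (V : ι → (ι → ℂ) → ℂ) (μ : ℝ),
  IsOpen X → X.Nonempty → Nonempty ι → (∀ i j, ContDiffOn ℝ SM (fun p => g p i j) X) →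
  (∀ p ∈ X, (g p).PosDef) → ContDiffOn ℝ SM ph X → (∀ p ∈ X, 0 < ph p) →
  (∀ i, ContDiffOn ℝ SM (V i) X) →
  (∀ p ∈ X, ∀ j, ∑ i, V i p * g p i j = dzbar j (fun q => ((ph q : ℝ) : ℂ)) p) →
  (∀ p ∈ X, (∑ i, dz i (fun q => (((g q).det.re : ℝ) : ℂ) * V i q) p).re ≤
    - μ * ph p * (g p).det.re) →
  2 * μ ≤ bottom X g

/-- `P = ∏ (k + 2 + s_a F_a)^k Γ` -/
noncomputable def PP (k : ℕ) (F : (Fin 2 → ℝ) → ℝ) (s : Fin 2 → ℝ) : ℝ :=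
  (∏ a, ((k : ℝ) + 2 + s a * pd a F s) ^ k) * Gam F s

/-- the solution of `F_b α_b + ∑_a s_a F_ab α_a = φ_b` (`b = 1 - a` is the other index) -/
noncomputable def alp (F ph : (Fin 2 → ℝ) → ℝ) (a : Fin 2) (s : Fin 2 → ℝ) : ℝ :=
  ((pd (1 - a) F s + s (1 - a) * pd (1 - a) (pd (1 - a) F) s) * pd a ph s -
    s (1 - a) * pd 1 (pd 0 F) s * pd (1 - a) ph s) / Gam F s

/-- the left side of the divergence inequality -/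
noncomputable def DV (k : ℕ) (F ph : (Fin 2 → ℝ) → ℝ) (s : Fin 2 → ℝ) : ℝ :=
  ∑ a, (PP k F s * alp F ph a s + s a * pd a (fun s' => PP k F s' * alp F ph a s') s)

/-- DVG. For `φ = ph(s)`, `V_{inr a} = α_a(s) v_a`, `V_{inl x} = 0`:
`∑_i V_i g_{i j̄} = ∂̄_j φ` and `∑_i ∂_i (det g V_i) = (∏_x β(z_x)) h_0 h_1 DV(s)`. -/
def S_DVG : Prop := ∀ (k : ℕ) (r : ℂ → ℝ), Hyp r → ∀ F, Good k F → ∀ ph, SmS ph → ∀ p ∈ XX k r,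
  (∀ j, ∑ i, (Sum.elim (fun _ => 0) (fun a => ((alp F ph a (ss k r p) : ℝ) : ℂ) * p (Sum.inr a))
      i : ℂ) * gm k r F p i j = dzbar j (fun q => ((ph (ss k r q) : ℝ) : ℂ)) p) ∧
  (∑ i, dz i (fun q => (((gm k r F q).det.re : ℝ) : ℂ) *
      (Sum.elim (fun _ => 0) (fun a => ((alp F ph a (ss k r q) : ℝ) : ℂ) * q (Sum.inr a)) i : ℂ))
      p).re = (∏ x, bet k r (p (Sum.inl x))) * (hh k r p 0 * hh k r p 1) * DV k F ph (ss k r p) ∧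
  (gm k r F p).det.re =
    (∏ x, bet k r (p (Sum.inl x))) * (hh k r p 0 * hh k r p 1) * PP k F (ss k r p)

/-- BLO. From DVG and BAR. -/
def S_BLO : Prop := ∀ (k : ℕ) (r : ℂ → ℝ), Hyp r → ∀ F, Good k F → ∀ ph, SmS ph →
  (∀ s ∈ Sq, 0 < ph s) → ∀ μ : ℝ, (∀ s ∈ Sq, DV k F ph s ≤ - μ * ph s * PP k F s) →
  2 * μ ≤ bottom (XX k r) (gm k r F)

/-! ### The functions of `(s_0, s_1)` -/

/-- `F_ε = -(k+2) ∑ log (1 - s_a) + ε w` -/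
noncomputable def FF (k : ℕ) (w : (Fin 2 → ℝ) → ℝ) (ε : ℝ) (s : Fin 2 → ℝ) : ℝ :=
  -((k : ℝ) + 2) * ∑ a, Real.log (1 - s a) + ε * w s

/-- `u = w - Δ'w` -/
noncomputable def uu (k : ℕ) (w : (Fin 2 → ℝ) → ℝ) (s : Fin 2 → ℝ) : ℝ :=
  w s - (∑ a, (k * (1 - s a) * s a * pd a w s +
    (1 - s a) ^ 2 * (pd a w s + s a * pd a (pd a w) s))) / ((k : ℝ) + 2)

/-- the first order change of the ground state energy density -/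
noncomputable def DD (k : ℕ) (w : (Fin 2 → ℝ) → ℝ) (s : Fin 2 → ℝ) : ℝ :=
  (∑ a, (-(k : ℝ) ^ 2 * s a ^ 2 * (1 - s a) * pd a w s +
      k * (k * s a - 1) * (1 - s a) ^ 2 * (pd a w s + s a * pd a (pd a w) s)) +
    2 * (k : ℝ) ^ 2 * (1 - s 0) * (1 - s 1) * s 0 * s 1 * pd 1 (pd 0 w) s) / ((k : ℝ) + 2) ^ 2

/-- the drift Laplacian of the ground state -/
noncomputable def LL (k : ℕ) (g : (Fin 2 → ℝ) → ℝ) (s : Fin 2 → ℝ) : ℝ :=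
  (∑ a, ((1 - s a) ^ 2 * (pd a g s + s a * pd a (pd a g) s) - k * (1 - s a) * s a * pd a g s)) /
    ((k : ℝ) + 2)

/-- `φ_ε = (1-s_0)^{k+εα} (1-s_1)^{k+εα} e^{ε g}` -/
noncomputable def Ph (k : ℕ) (g : (Fin 2 → ℝ) → ℝ) (α ε : ℝ) (s : Fin 2 → ℝ) : ℝ :=
  Real.exp (((k : ℝ) + ε * α) * ∑ a, Real.log (1 - s a) + ε * g s)

/-- PDR. Rules for `pd`. -/
def S_PDR : Prop := ∀ (F G : (Fin 2 → ℝ) → ℝ) (s : Fin 2 → ℝ) (a b : Fin 2),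
  (∀ L : (Fin 2 → ℝ) →L[ℝ] ℝ, HasFDerivAt F L s → pd a F s = L (Pi.single a 1)) ∧
  (F =ᶠ[𝓝 s] G → pd a F s = pd a G s) ∧
  (pd a (fun s' => s' b) s = if a = b then 1 else 0) ∧
  (∀ c : ℝ, pd a (fun _ => c) s = 0) ∧
  (DifferentiableAt ℝ F s → DifferentiableAt ℝ G s →
    pd a (fun s' => F s' + G s') s = pd a F s + pd a G s ∧
    pd a (fun s' => F s' - G s') s = pd a F s - pd a G s ∧
    pd a (fun s' => F s' * G s') s = pd a F s * G s + F s * pd a G s) ∧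
  (DifferentiableAt ℝ F s → ∀ (φ : ℝ → ℝ) (c : ℝ), HasDerivAt φ c (F s) →
    pd a (fun s' => φ (F s')) s = c * pd a F s) ∧
  (ContDiffAt ℝ SM F s → DifferentiableAt ℝ F s ∧ ContDiffAt ℝ SM (pd a F) s ∧
    HasFDerivAt F (∑ c, pd c F s • ContinuousLinearMap.proj (R := ℝ) c) s ∧
    pd a (pd b F) s = pd b (pd a F) s) ∧
  (DifferentiableAt ℝ F s → pd a F s = deriv (fun t => F (Function.update s a t)) (s a))

/-- `b_a = (1-s_a) s_a w_a / K` -/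
noncomputable def bW (k : ℕ) (w : (Fin 2 → ℝ) → ℝ) (a : Fin 2) (s : Fin 2 → ℝ) : ℝ :=
  (1 - s a) * s a * pd a w s / ((k : ℝ) + 2)
/-- `A_a = (1-s_a)² (w_a + s_a w_aa) / K` -/
noncomputable def AW (k : ℕ) (w : (Fin 2 → ℝ) → ℝ) (a : Fin 2) (s : Fin 2 → ℝ) : ℝ :=
  (1 - s a) ^ 2 * (pd a w s + s a * pd a (pd a w) s) / ((k : ℝ) + 2)
/-- `s_0 s_1 (1-s_0)² (1-s_1)² w_01² / K²` -/
noncomputable def cW (k : ℕ) (w : (Fin 2 → ℝ) → ℝ) (s : Fin 2 → ℝ) : ℝ :=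
  s 0 * s 1 * (1 - s 0) ^ 2 * (1 - s 1) ^ 2 * pd 1 (pd 0 w) s ^ 2 / ((k : ℝ) + 2) ^ 2
/-- `γ = A_0 + A_1 + ε (A_0 A_1 - c)`; `Γ = K² (1 + ε γ) / ((1-s_0)² (1-s_1)²)` -/
noncomputable def gW (k : ℕ) (w : (Fin 2 → ℝ) → ℝ) (ε : ℝ) (s : Fin 2 → ℝ) : ℝ :=
  AW k w 0 s + AW k w 1 s + ε * (AW k w 0 s * AW k w 1 s - cW k w s)

/-- FPD. The derivatives of `F_ε`. -/
def S_FPD : Prop := ∀ (k : ℕ) (w : (Fin 2 → ℝ) → ℝ) (ε : ℝ), ContDiff ℝ SM w →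
  ∀ s : Fin 2 → ℝ, (∀ a, s a < 1) →
  ContDiffAt ℝ SM (FF k w ε) s ∧
  (∀ a, pd a (FF k w ε) s = ((k : ℝ) + 2) / (1 - s a) + ε * pd a w s) ∧
  (∀ a b, pd b (pd a (FF k w ε)) s =
    (if a = b then ((k : ℝ) + 2) / (1 - s a) ^ 2 else 0) + ε * pd b (pd a w) s) ∧
  (∀ a, (k : ℝ) + 2 + s a * pd a (FF k w ε) s =
    ((k : ℝ) + 2) / (1 - s a) * (1 + ε * bW k w a s)) ∧
  (∀ a, pd a (FF k w ε) s + s a * pd a (pd a (FF k w ε)) s =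
    ((k : ℝ) + 2) / (1 - s a) ^ 2 * (1 + ε * AW k w a s)) ∧
  Gam (FF k w ε) s =
    ((k : ℝ) + 2) ^ 2 / ((1 - s 0) ^ 2 * (1 - s 1) ^ 2) * (1 + ε * gW k w ε s)

/-- EU1. `U` for `F_ε`. From FPD: the terms `log (1 - s_a)` cancel. -/
def S_EU1 : Prop := ∀ (k : ℕ) (w : (Fin 2 → ℝ) → ℝ) (ε : ℝ), ContDiff ℝ SM w →
  ∀ s : Fin 2 → ℝ, (∀ a, s a < 1) → (∀ a, 0 < 1 + ε * bW k w a s) → 0 < 1 + ε * gW k w ε s →
  UU k (FF k w ε) s = ε * w s - k * ∑ a, Real.log (1 + ε * bW k w a s) -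
    Real.log (1 + ε * gW k w ε s) - (2 * k + 2) * Real.log ((k : ℝ) + 2)

noncomputable def rQ (k : ℕ) (w g : (Fin 2 → ℝ) → ℝ) (α ε : ℝ) (a : Fin 2) (s : Fin 2 → ℝ) : ℝ :=
  -α + (1 - s a) * pd a g s +
    AW k w (1 - a) s * (-((k : ℝ) + ε * α) + ε * (1 - s a) * pd a g s) -
    s (1 - a) * (1 - s 0) * (1 - s 1) * pd 1 (pd 0 w) s *
      (-((k : ℝ) + ε * α) + ε * (1 - s (1 - a)) * pd (1 - a) g s) / ((k : ℝ) + 2)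

noncomputable def mQ (k : ℕ) (w g : (Fin 2 → ℝ) → ℝ) (α ε : ℝ) (a : Fin 2) (s : Fin 2 → ℝ) : ℝ :=
  -α + (1 - s a) * pd a g s +
    k * ∑ c, (1 - s a) * pd a (bW k w c) s / (1 + ε * bW k w c s)

noncomputable def TQ (k : ℕ) (w g : (Fin 2 → ℝ) → ℝ) (α ε : ℝ) (s : Fin 2 → ℝ) : ℝ :=
  -(∑ a, (rQ k w g α ε a s - k * s a * mQ k w g α ε a s +
      s a * (1 - s a) * pd a (rQ k w g α ε a) s +
      ε * s a * rQ k w g α ε a s * mQ k w g α ε a s)) - 2 * k * gW k w ε s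

/-- EQ1. The exact formula for the divergence. With `K = k+2`, `y_a = 1-s_a`,
`R_a = -k + ε r_a = (1+ε A_b)(-(k+εα) + ε y_a g_a) - (ε/K) s_b y_a y_b w_01 (-(k+εα) + ε y_b g_b)`
(`b = 1-a`) one has, by FPD and `pd a Ph = Ph (-(k+εα)/y_a + ε g_a)`,
`alp_a = Ph y_a R_a / (K (1+εγ))`, `PP = K^{2k+2} ∏ y_c^{-k-2} ∏ (1+ε b_c)^k (1+εγ)`; so with
`Ψ = K^{2k+1} ∏ y_c^{-k-2} ∏ (1+ε b_c)^k Ph`: `PP Ph = K Ψ (1+εγ)` and `PP alp_a = Ψ y_a R_a`,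
`y_a pd a (log Ψ) = 2 + ε m_a`, hence
`DV = Ψ ∑_a [R_a (1 + ε s_a m_a) + s_a y_a pd a R_a] = Ψ (-2k - 2kεγ - ε T)`. -/
def S_EQ1 : Prop := ∀ (k : ℕ) (w g : (Fin 2 → ℝ) → ℝ) (α ε : ℝ), ContDiff ℝ SM w →
  ContDiff ℝ SM g → ∀ s : Fin 2 → ℝ, (∀ a, s a < 1) → (∀ a, 0 < 1 + ε * bW k w a s) →
  0 < 1 + ε * gW k w ε s →
  DV k (FF k w ε) (Ph k g α ε) s = -(2 * k / ((k : ℝ) + 2) +
    ε * TQ k w g α ε s / (((k : ℝ) + 2) * (1 + ε * gW k w ε s))) *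
      Ph k g α ε s * PP k (FF k w ε) s

/-- EQ2. The value of `T` at `ε = 0` (all third derivatives of `w` cancel, using the symmetry
`w_011 = w_110` etc.). -/
def S_EQ2 : Prop := ∀ (k : ℕ) (w g : (Fin 2 → ℝ) → ℝ) (α : ℝ), ContDiff ℝ SM w →
  ContDiff ℝ SM g → ∀ s : Fin 2 → ℝ, TQ k w g α 0 s = ((k : ℝ) + 2) *
    (DD k w s - LL k g s - α * (∑ a, (k * s a - 1)) / ((k : ℝ) + 2))

/-- KE0. The Kähler-Einstein potential `F_0`: `k + 2 + s F_a = (k+2)/(1-s_a)`,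
`F_a + s_a F_aa = (k+2)/(1-s_a)²`, `F_01 = 0`, `U` is constant near `Sq`. -/
def S_KE0 : Prop := ∀ (k : ℕ) (w : (Fin 2 → ℝ) → ℝ), Good k (FF k w 0) ∧
  ∀ s ∈ Sq, ∀ a, pd a (UU k (FF k w 0)) s = 0 ∧ ∀ b, pd b (pd a (UU k (FF k w 0))) s = 0

/-- EPU. The metric and Ricci conditions for small `ε`. By FPD
`QF F s x = ∑ K (1+ε A_a) x_a²/(1-s_a)² + 2 √(s_0 s_1) ε w_01 x_0 x_1`. By EU1, for
`L(f) = log (1 + ε f)`: `pd a (log (1+ε f)) = ε f_a/(1+ε f)` and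
`pd b (pd a (log (1+ε f))) = ε (f_ab/(1+ε f) - ε f_a f_b/(1+ε f)²)`, so
`pd a U = ε Û_a(ε,s)`, `pd b (pd a U) = ε Û_ab(ε,s)` with `Û_a, Û_ab` continuous near `{0} × cSq`
and equal to `pd a u`, `pd b (pd a u)` for `ε = 0` (`u = uu k w = w - k ∑ b_a - ∑ A_a`). The
conditions at `ε = 0` are strict on the compact sets `cSq`, `cSq × {x_0² + x_1² = 1}`, so they
persist for small `ε` (tube lemma). -/
def S_EPU : Prop := ∀ (k : ℕ) (w : (Fin 2 → ℝ) → ℝ), ContDiff ℝ SM w →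
  (∀ s ∈ cSq, (∀ a, 0 < pd a (uu k w) s) ∧ ∀ x : Fin 2 → ℝ, x ≠ 0 → 0 < QF (uu k w) s x) →
  ∃ ε₀ > 0, ∀ ε, 0 < ε → ε ≤ ε₀ → Good k (FF k w ε)

/-- EPQ. The supersolution inequality for small `ε`: from EQ1, EQ2, the continuity of `TQ`, `bW`,
`gW` in `(ε, s)` near `{0} × cSq` and the compactness of `cSq`. -/
def S_EPQ : Prop := ∀ (k : ℕ) (w g : (Fin 2 → ℝ) → ℝ) (α : ℝ), ContDiff ℝ SM w → ContDiff ℝ SM g →
  (∀ s ∈ cSq, 0 < DD k w s - LL k g s - α * (∑ a, (k * s a - 1)) / ((k : ℝ) + 2)) →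
  ∃ ε₀ > 0, ∀ ε, 0 < ε → ε ≤ ε₀ → ∃ c > 0, ∀ s ∈ Sq,
    DV k (FF k w ε) (Ph k g α ε) s ≤
      - (2 * k / ((k : ℝ) + 2) + c) * Ph k g α ε s * PP k (FF k w ε) s

/-- the polynomial `w` (`k = 6`), as a function of `x = s_0`, `y = s_1` -/
def wP (x y : ℝ) : ℝ :=
  357 * (x + y) - 181 * (x ^ 2 + y ^ 2) + 116 * (x ^ 3 + y ^ 3) - 42 * (x ^ 4 + y ^ 4)
  + 13 * (x ^ 5 + y ^ 5) + 2129 * (x * y) - 3 * (x * y ^ 2 + x ^ 2 * y)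
  + 117 * (x * y ^ 3 + x ^ 3 * y) + 27 * (x * y ^ 4 + x ^ 4 * y) + 5 * (x * y ^ 5 + x ^ 5 * y)
  + 2392 * (x ^ 2 * y ^ 2) - 3 * (x ^ 2 * y ^ 3 + x ^ 3 * y ^ 2)
  + 309 * (x ^ 2 * y ^ 4 + x ^ 4 * y ^ 2) + 5 * (x ^ 2 * y ^ 5 + x ^ 5 * y ^ 2)
  + 1639 * (x ^ 3 * y ^ 3) + 407 * (x ^ 3 * y ^ 4 + x ^ 4 * y ^ 3)
  + 5 * (x ^ 3 * y ^ 5 + x ^ 5 * y ^ 3) + 1474 * (x ^ 4 * y ^ 4)
  + 5 * (x ^ 4 * y ^ 5 + x ^ 5 * y ^ 4) + 5 * (x ^ 5 * y ^ 5)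

/-- the polynomial `g` (`k = 6`, `α = -285`) -/
def gP (x y : ℝ) : ℝ :=
  -560 * (x + y) + 183 * (x ^ 2 + y ^ 2) - 377 * (x ^ 3 + y ^ 3) + 140 * (x ^ 4 + y ^ 4)
  - 121 * (x ^ 5 + y ^ 5) - 2410 * (x * y) + 771 * (x * y ^ 2 + x ^ 2 * y)
  - 175 * (x * y ^ 3 + x ^ 3 * y) + 104 * (x * y ^ 4 + x ^ 4 * y) + 75 * (x * y ^ 5 + x ^ 5 * y)
  - 4394 * (x ^ 2 * y ^ 2) + 1876 * (x ^ 2 * y ^ 3 + x ^ 3 * y ^ 2)
  - 709 * (x ^ 2 * y ^ 4 + x ^ 4 * y ^ 2) + 745 * (x ^ 2 * y ^ 5 + x ^ 5 * y ^ 2)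
  - 3677 * (x ^ 3 * y ^ 3) - 62 * (x ^ 3 * y ^ 4 + x ^ 4 * y ^ 3)
  + 2581 * (x ^ 3 * y ^ 5 + x ^ 5 * y ^ 3) + 1401 * (x ^ 4 * y ^ 4)
  - 386 * (x ^ 4 * y ^ 5 + x ^ 5 * y ^ 4) + 524 * (x ^ 5 * y ^ 5)

def wF (s : Fin 2 → ℝ) : ℝ := wP (s 0) (s 1)
def gF (s : Fin 2 → ℝ) : ℝ := gP (s 0) (s 1)

/-- POL. The polynomial inequalities for `k = 6`. All coefficients of
`8 uu 6 wF = ∑ u_{ij} x^i y^j` except the constant one are `≥ 0` and those of `x`, `y` are `23`;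
`QF u s x = ∑ u_{ij} (…)`, where for `i, j ≥ 1` the bracket is
`s_0^{i-1} s_1^{j-1} (i √s_1 x_0 + j √s_0 x_1)²`. For the last inequality: `64` times the polynomial
(bidegree `≤ 8`) is `∑_{i,j ≤ 8} c_{ij} x^i (1-x)^{8-i} y^j (1-y)^{8-j}` with all `c_{ij} > 0`
(all its Bernstein coefficients are at least `64`). -/
def S_POL : Prop := ContDiff ℝ SM wF ∧ ContDiff ℝ SM gF ∧
  (∀ s ∈ cSq, (∀ a, 0 < pd a (uu 6 wF) s) ∧ ∀ x : Fin 2 → ℝ, x ≠ 0 → 0 < QF (uu 6 wF) s x) ∧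
  ∀ s ∈ cSq, 0 < DD 6 wF s - LL 6 gF s - (-285) * (∑ a, ((6 : ℕ) * s a - 1)) / (((6 : ℕ) : ℝ) + 2)

/-! ### Spectral upper bound for the Kähler-Einstein metric -/

/-- `∫_0^1 η² (K/(1-s))^k K/(1-s)² ds`, `K = k+2` -/
noncomputable def I0 (k : ℕ) (η : ℝ → ℝ) : ℝ :=
  ∫ s in (0 : ℝ)..1, η s ^ 2 * (((k : ℝ) + 2) / (1 - s)) ^ k * (((k : ℝ) + 2) / (1 - s) ^ 2)
/-- `∫_0^1 η'² s (K/(1-s))^k ds` -/
noncomputable def I1 (k : ℕ) (η : ℝ → ℝ) : ℝ :=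
  ∫ s in (0 : ℝ)..1, deriv η s ^ 2 * s * (((k : ℝ) + 2) / (1 - s)) ^ k

/-- LIM. `η = (1-s)^k ζ((1-s)/δ)` with `ζ` a smooth step, `δ → 0`
(`∫ k² y^{k-2} (1-y) dy = k/(k-1)`, `∫ y^{k-2} dy = 1/(k-1)`). -/
def S_LIM : Prop := ∀ k : ℕ, 2 ≤ k → ∀ ε > 0, ∃ η : ℝ → ℝ, ContDiff ℝ SM η ∧
  (∃ t < 1, ∀ s ≥ t, η s = 0) ∧ 0 < I0 k η ∧
  I1 k η ≤ ((k : ℝ) / ((k : ℝ) + 2) + ε) * I0 k η

/-- INT. Fubini: `∫_ℂ A(|v|² h) h dv = π ∫_0^∞ A`. -/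
def S_INT : Prop := ∀ (k : ℕ) (r : ℂ → ℝ), Hyp r → ∀ (A : Fin 2 → ℝ → ℝ)
  (B : Fin 2 × Fin k → ℂ → ℝ), (∀ a, Continuous (A a)) → (∀ a, ∃ t < 1, ∀ s ≥ t, A a s = 0) →
  (∀ x, Continuous (B x)) → (∀ x, HasCompactSupport (B x)) → (∀ x, tsupport (B x) ⊆ M) →
  IntegrableOn (fun p : Ix k → ℂ =>
    (∏ a, (A a (ss k r p a) * hh k r p a)) * ∏ x, B x (p (Sum.inl x))) (XX k r) ∧
  ∫ p in XX k r, (∏ a, (A a (ss k r p a) * hh k r p a)) * ∏ x, B x (p (Sum.inl x)) =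
    (∏ a, (Real.pi * ∫ s in (0 : ℝ)..1, A a s)) * ∏ x, ∫ z, B x z

/-- the test functions -/
noncomputable def tf (k : ℕ) (r : ℂ → ℝ) (η : ℝ → ℝ) (χ : ℂ → ℝ) (p : Ix k → ℂ) : ℝ :=
  (∏ a, η (ss k r p a)) * ∏ x, χ (p (Sum.inl x))

/-- GR0. Smoothness and support of the test function, and its gradient for the Kähler-Einstein
metric (`hG` is diagonal with entries `h_a (k+2)/(1-s_a)²`; FRA, last item). -/
def S_GR0 : Prop := ∀ (k : ℕ) (r : ℂ → ℝ), Hyp r → ∀ (w : (Fin 2 → ℝ) → ℝ) (η : ℝ → ℝ)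
  (χ : ℂ → ℝ), ContDiff ℝ SM η → (∃ t < 1, ∀ s ≥ t, η s = 0) → ContDiff ℝ SM χ →
  HasCompactSupport χ → tsupport χ ⊆ M →
  (ContDiff ℝ SM (tf k r η χ) ∧ HasCompactSupport (tf k r η χ) ∧
    tsupport (tf k r η χ) ⊆ XX k r) ∧
  ∀ p ∈ XX k r,
    gradSq (gm k r (FF k w 0)) (tf k r η χ) p =
      2 * (∑ a, (deriv η (ss k r p a) ^ 2 * (ss k r p a * (1 - ss k r p a) ^ 2 / ((k : ℝ) + 2))) *
          (∏ b ∈ Finset.univ.erase a, η (ss k r p b) ^ 2) * (∏ x, χ (p (Sum.inl x)) ^ 2) +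
        ∑ x, (‖dz1 (fun z => ((χ z : ℝ) : ℂ)) (p (Sum.inl x))‖ ^ 2 *
          ((1 - ss k r p x.1) / (((k : ℝ) + 2) * bet k r (p (Sum.inl x))))) *
          (∏ y ∈ Finset.univ.erase x, χ (p (Sum.inl y)) ^ 2) * ∏ a, η (ss k r p a) ^ 2) ∧
    vol (gm k r (FF k w 0)) p = 2 ^ (2 * k + 2) *
      ((∏ x, (((k : ℝ) + 2) / (1 - ss k r p x.1) * bet k r (p (Sum.inl x)))) *
        ∏ a, (hh k r p a * (((k : ℝ) + 2) / (1 - ss k r p a) ^ 2)))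

/-- RAY. The Rayleigh quotient of the test function, from GR0 and INT. -/
def S_RAY : Prop := ∀ (k : ℕ) (r : ℂ → ℝ), Hyp r → ∀ (w : (Fin 2 → ℝ) → ℝ) (η : ℝ → ℝ)
  (χ : ℂ → ℝ), ContDiff ℝ SM η → (∃ t < 1, ∀ s ≥ t, η s = 0) → ContDiff ℝ SM χ →
  HasCompactSupport χ → tsupport χ ⊆ M → 0 < I0 k η → 0 < ∫ z, χ z ^ 2 * bet k r z →
  bottom (XX k r) (gm k r (FF k w 0)) ≤ 4 * (I1 k η / I0 k η) +
    4 * k / ((k : ℝ) + 2) * ((∫ z, ‖dz1 (fun z => ((χ z : ℝ) : ℂ)) z‖ ^ 2) /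
      ∫ z, χ z ^ 2 * bet k r z)

/-- UPP. From RAY, LIM, CUT. -/
def S_UPP : Prop := ∀ (k : ℕ) (r : ℂ → ℝ), 2 ≤ k → Hyp r → ∀ w : (Fin 2 → ℝ) → ℝ,
  bottom (XX k r) (gm k r (FF k w 0)) ≤ 4 * k / ((k : ℝ) + 2)

/-! ### Reindexing -/

/-- The statement for a fixed index type. -/
def Stm (ι : Type) [Fintype ι] [DecidableEq ι] : Prop :=
  ∃ (X : Set (ι → ℂ)) (g₀ g₁ : (ι → ℂ) → Matrix ι ι ℂ), IsOpen X ∧ IsConnected X ∧ ¬ IsCompact X ∧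
    g₀ ∈ Kcal X ∧ IsKE X g₀ ∧ g₁ ∈ Kcal X ∧ bottom X g₀ < bottom X g₁

/-- REI. Transport along an equivalence `e : ι ≃ κ` (all notions are invariant: `submatrix` for
`det`, inverse, `PosDef`; `MeasurePreserving` for the integrals). -/
def S_REI : Prop := ∀ (ι κ : Type) [Fintype ι] [DecidableEq ι] [Fintype κ] [DecidableEq κ],
  (ι ≃ κ) → Stm ι → Stm κ

/-- FIN. From HYP, XOC, KAH, COM, RIC, KE0, EPU, EPQ, POL, BLO, UPP. -/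
def S_FIN : Prop := Stm (Ix 6)

end Pool.Agent.H794.KM
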