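import Pool.Agent.H794.KM.Spec

/-!
Project KM, leaf WIR: rules for the Wirtinger derivatives on `ℂ^ι` (helper264).
-/

namespace Pool.Agent.H794.KM

open MeasureTheory Set Filter Topology
open scoped ComplexOrder

namespace WIRL

theorem wl_apply (a b v : ℂ) : wl a b v = a * v + b * (starRingEnd ℂ) v := by
  simp [wl]

theorem wL_apply {ι : Type} [Fintype ι] (a b v : ι → ℂ) :
    wL a b v = ∑ i, (a i * v i + b i * (starRingEnd ℂ) (v i)) := by
  simp only [wL, _root_.sum_apply, ContinuousLinearMap.comp_apply,
    ContinuousLinearMap.proj_apply, wl_apply]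

theorem wL_single {ι : Type} [Fintype ι] [DecidableEq ι] (a b : ι → ℂ) (i : ι) (c : ℂ) :
    wL a b (Pi.single i c) = a i * c + b i * (starRingEnd ℂ) c := by
  rw [wL_apply, Finset.sum_eq_single i]
  · rw [Pi.single_eq_same]
  · intro j _ hj
    rw [Pi.single_eq_of_ne hj, map_zero, mul_zero, mul_zero, add_zero]
  · intro h
    exact absurd (Finset.mem_univ i) h

theorem eq_wL {ι : Type} [Fintype ι] [DecidableEq ι] (L : (ι → ℂ) →L[ℝ] ℂ) :
    L = wL (fun i => (L (Pi.single i 1) - Complex.I * L (Pi.single i Complex.I)) / 2)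
      (fun i => (L (Pi.single i 1) + Complex.I * L (Pi.single i Complex.I)) / 2) := by
  have hI := Complex.I_mul_I
  ext v
  rw [wL_apply]
  have h1 : v = ∑ i, Pi.single i (v i) := (Finset.univ_sum_single v).symm
  conv_lhs => rw [h1]
  rw [map_sum]
  refine Finset.sum_congr rfl fun i _ => ?_
  have h2 : (Pi.single i (v i) : ι → ℂ) = (v i).re • (Pi.single i (1 : ℂ) : ι → ℂ) +
      (v i).im • (Pi.single i Complex.I : ι → ℂ) := by
    rw [← Pi.single_smul, ← Pi.single_smul, ← Pi.single_add]
    congr 1
    apply Complex.ext <;> simp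
  rw [h2, map_add, map_smul, map_smul]
  have h3 : v i = ((v i).re : ℂ) + ((v i).im : ℂ) * Complex.I := (Complex.re_add_im (v i)).symm
  have h4 : (starRingEnd ℂ) (v i) = ((v i).re : ℂ) - ((v i).im : ℂ) * Complex.I := by
    apply Complex.ext <;> simp
  rw [h4]
  conv_rhs => rw [h3]
  simp only [Complex.real_smul, Complex.add_re, Complex.ofReal_re, Complex.mul_re, Complex.I_re,
    mul_zero, Complex.ofReal_im, Complex.I_im, mul_one, sub_self, add_zero, Complex.add_im,
    Complex.mul_im, zero_add]
  linear_combination (((v i).im : ℂ) * L (Pi.single i Complex.I)) * hI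

end WIRL

open WIRL in
theorem t_WIR : S_WIR := by
  intro ι _ _
  have hI := Complex.I_mul_I
  refine ⟨?_, ?_, ?_, ?_, ?_, ?_⟩
  · intro f p a b h i
    unfold HW at h
    unfold dz dzbar
    rw [h.fderiv, wL_single, wL_single, map_one, Complex.conj_I]
    constructor
    · linear_combination (-(a i - b i) / 2) * hI
    · linear_combination ((a i - b i) / 2) * hI
  · intro f p h
    have h1 := h.hasFDerivAt
    rw [eq_wL (fderiv ℝ f p)] at h1
    exact h1
  · intro f g p a b a' b' hf hg
    have h1 : wL (fun i => a i + a' i) (fun i => b i + b' i) = wL a b + wL a' b' := by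
      ext v
      rw [_root_.add_apply, wL_apply, wL_apply, wL_apply, ← Finset.sum_add_distrib]
      exact Finset.sum_congr rfl fun i _ => by ring
    unfold HW
    rw [h1]
    exact HasFDerivAt.add hf hg
  · intro f g p a b a' b' hf hg
    have h1 : wL (fun i => a i * g p + f p * a' i) (fun i => b i * g p + f p * b' i) =
        f p • wL a' b' + g p • wL a b := by
      ext v
      rw [_root_.add_apply, _root_.smul_apply,
        _root_.smul_apply, wL_apply, wL_apply, wL_apply, smul_eq_mul, smul_eq_mul,
        Finset.mul_sum, Finset.mul_sum, ← Finset.sum_add_distrib]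
      exact Finset.sum_congr rfl fun i _ => by ring
    unfold HW
    rw [h1]
    exact HasFDerivAt.mul hf hg
  · intro f p a b hf
    have h1 : wL (fun i => (starRingEnd ℂ) (b i)) (fun i => (starRingEnd ℂ) (a i)) =
        (Complex.conjCLE : ℂ →L[ℝ] ℂ).comp (wL a b) := by
      ext v
      rw [ContinuousLinearMap.comp_apply, wL_apply, wL_apply]
      simp only [ContinuousLinearEquiv.coe_coe, Complex.conjCLE_apply, map_sum, map_add, map_mul,
        Complex.conj_conj]
      exact Finset.sum_congr rfl fun i _ => by ring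
    unfold HW
    rw [h1]
    exact ((Complex.conjCLE : ℂ →L[ℝ] ℂ).hasFDerivAt).comp p hf
  · intro p j φ a b h
    have h1 : wL (fun i => if i = j then a else 0) (fun i => if i = j then b else 0) =
        (wl a b).comp (ContinuousLinearMap.proj (R := ℝ) (φ := fun _ : ι => ℂ) j) := by
      ext v
      rw [ContinuousLinearMap.comp_apply, wL_apply, ContinuousLinearMap.proj_apply, wl_apply,
        Finset.sum_eq_single j]
      · rw [if_pos rfl, if_pos rfl]
      · intro i _ hi
        rw [if_neg hi, if_neg hi, zero_mul, zero_mul, add_zero]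
      · intro h
        exact absurd (Finset.mem_univ j) h
    unfold HW
    rw [h1]
    exact HasFDerivAt.comp p (g := φ) (f := fun q : ι → ℂ => q j) h
      (ContinuousLinearMap.proj (R := ℝ) (φ := fun _ : ι => ℂ) j).hasFDerivAt

end Pool.Agent.H794.KM

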